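import Mathlib

/-! Tiers, recency, windows: definitions that depend on the access sequence only. -/

set_option autoImplicit false

namespace Pool.Agent.P.MP_119182_lc.NU

open Finset
open scoped Classical

/-- The scale of tier `t`. -/
def sg : ℕ → ℕ
  | 0 => 0
  | t + 1 => 2 ^ t

/-- The size of the items of tier `t`. -/
def cc (t : ℕ) : ℕ := 2 ^ sg t

/-- The item of tier `t` that holds `v`. -/
def it (t : ℕ) (v : ℤ) : ℤ := v / 2 ^ sg t

/-- The first tier of group `j`. -/
def grp (T : ℕ) : ℕ → ℕ
  | 0 => 0
  | j + 1 => min T (grp T j + sg (grp T j) + 1)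

noncomputable section

variable (x : ℕ → ℤ)

/-- The number of distinct keys accessed at the times in `(s, i]`. -/
def dst (s i : ℕ) : ℕ := ((Ioc s i).image x).card

/-- The access at time `i` passes at tier `t`. -/
def pass (t i : ℕ) : Prop := 1 ≤ t ∧ ∃ s < i, it t (x s) = it t (x i) ∧ dst x s i ≤ cc t

/-- The number of jumps of tier `t` before time `m`. -/
def jmp (t m : ℕ) : ℕ := ((range m).filter fun i => ¬ pass x t i).card

/-- The window of tier `t` at time `i`. -/
def win (t i : ℕ) : ℕ := jmp x t (i + 1) / cc t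

/-- The time `s` is recent at time `i`. -/
def rct (t s i : ℕ) : Prop := win x t i ≤ win x t s + 1

/-- The common window of the tiers from `t` to `T`. -/
def om (T t i : ℕ) : ℕ := ∑ t' ∈ Icc t T, win x t' i

/-- The labels of the recent accesses before time `i`. -/
def Sep (r : ℕ) (f : ℤ → ℤ) (i : ℕ) : Finset ℤ :=
  ((range i).filter fun s => rct x r s i).image fun s => f (x s)

/-- The labels of the recent accesses up to time `i`. -/
def Qs (r : ℕ) (f : ℤ → ℤ) (i : ℕ) : Finset ℤ :=
  ((range (i + 1)).filter fun s => rct x r s i).image fun s => f (x s)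

/-- The number of changes of window. -/
def chg (T t m : ℕ) : ℕ := ((range m).filter fun i => om x T t (i + 1) ≠ om x T t i).card

/-- The times before `m` whose label is new in the window. -/
def fst (T t : ℕ) (f : ℤ → ℤ) (m : ℕ) : Finset ℕ :=
  (range m).filter fun i => ∀ s < i, om x T t s = om x T t i → f (x s) ≠ f (x i)

/-- The measure in which all systems are paid. -/
def MM (n m T : ℕ) : ℕ := ∑ t ∈ range (T + 1), (sg t + 1) * (n + 1 + jmp x t m)

/-- Offline slots: `ix t w` is the slot map of tier `t` in the pure window `w`. -/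
structure Idx (m : ℕ) (ix : ℕ → ℕ → ℤ → ℤ) : Prop where
  mono : ∀ t w, Monotone (ix t w)
  itm : ∀ t w u v, it t u = it t v → ix t w u = ix t w v
  own : ∀ t w s v, s ≤ m → win x t s ≤ w → w ≤ win x t s + 1 → ix t w v = ix t w (x s) →
    it t v = it t (x s)
  uni : ∀ t w u v, ix t w u / 2 ^ (sg t + 4) = ix t w v / 2 ^ (sg t + 4)
  card : ∀ t w (S : Finset ℤ), (S.image (ix t w)).card ≤ 13 * cc t

end

end Pool.Agent.P.MP_119182_lc.NU
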