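import Pool.Agent.P.MP_119182_lc.NU.Lib
import Pool.Agent.P.MP_119182_lc.NU.Sec4
import Pool.Agent.P.MP_119182_lc.Defs
import Pool.Agent.P.MP_119182_lc.DefsU

/-! The two ends: from splay trees to abstract runs, turns, and the final bound. -/

set_option autoImplicit false

namespace Pool.Agent.P.MP_119182_lc.NU

open Finset
open scoped Classical

namespace Run

variable (d : Run)

/-- Among three consecutive ancestors with one left parent one of the upper two is an upper node. -/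
def Win : Prop :=
  ∀ i < d.m, ∀ v ∈ d.P i, d.rp i v < d.R → d.rp i (d.rp i v) < d.R →
    d.lp i (d.rp i v) = d.lp i v → d.lp i (d.rp i (d.rp i v)) = d.lp i v →
    d.lp (i + 1) (d.rp i v) ≠ d.x i ∨ d.lp (i + 1) (d.rp i (d.rp i v)) ≠ d.x i

/-- The turns of access `i`. -/
noncomputable def Tn (i : ℕ) : Finset ℤ :=
  (d.P i).filter fun v => d.rp i v < d.R ∧ d.lp i (d.rp i v) < d.lp i v

/-- The left edge of `v` is stale at time `i`. -/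
def Stale (i : ℕ) (v : ℤ) : Prop :=
  ∃ s < i, d.x s = d.lp i v ∧ ∀ t, s < t → t < i → ¬ (d.lp i v < d.x t ∧ d.x t ≤ v)

/-- The path nodes that are not stale. -/
noncomputable def Ns (i : ℕ) : Finset ℤ := (d.P i).filter fun v => ¬ d.Stale i v

/-- The turns with two stale edges. -/
noncomputable def Dbl (i : ℕ) : Finset ℤ :=
  (d.Tn i).filter fun v => d.Stale i v ∧ d.mir.Stale i (mr (d.lp i v))

/-- Two runs on the same keys and the same accesses. -/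
def Same (e : Run) : Prop := e.L = d.L ∧ e.R = d.R ∧ e.m = d.m ∧ e.x = d.x

end Run

/-- The tower function. -/
def tow : ℕ → ℕ
  | 0 => 1
  | J + 1 => 2 ^ tow J

-- deps:
def S_EMIR : Prop := ∀ d : Run, d.mir.mir = d ∧ (d.OK → d.mir.OK)

-- deps: EMIR
def S_ALGA : Prop :=
  ∀ d : Run, d.OK → ∃ e : Run, d.Same e ∧ e.OK ∧ e.NR ≤ 2 * e.LamR + e.m ∧
    e.mir.NR ≤ 2 * e.mir.LamR + e.m

-- deps:
def S_BRG : Prop :=
  ∀ (n m σ : ℕ) (T : BT) (a : ℕ → ℕ), T.keys = List.range' 1 n → (∀ i < m, 1 ≤ a i ∧ a i ≤ n) →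
    ∃ d : Run, d.L = σ ∧ d.R = (σ : ℤ) + n + 1 ∧ d.m = m ∧ (d.x = fun i => (a i : ℤ) + σ) ∧
      d.OK ∧ d.Win ∧ d.mir.Win ∧ cost T ((List.range m).map a) = d.NR + d.mir.NR + m

-- deps:
def S_WCNT : Prop :=
  ∀ d : Run, d.OK → d.Win → ∀ i < d.m, #(d.P i) ≤ 2 * #(d.Tn i) + 2 * #(d.U i) + 2

-- deps:
def S_TSPL : Prop :=
  ∀ d : Run, d.OK → ∀ i < d.m, #(d.Tn i) ≤ #(d.Ns i) + #(d.mir.Ns i) + #(d.Dbl i)

-- deps:
def S_NS : Prop :=
  ∀ d : Run, d.OK →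
    ∑ i ∈ range d.m, #(d.Ns i) ≤ 2 * d.LamR + d.mir.LamR + (d.R - d.L).toNat + d.m

-- deps:
def S_LW : Prop :=
  ∀ e : Run, e.OK → ∀ (S : Finset (ℕ × ℤ)) (s t : ℕ × ℤ → ℕ),
    (∀ q ∈ S, s q < t q ∧ t q < q.1 ∧ q.1 < e.m ∧ e.x (s q) < e.x q.1 ∧ e.x q.1 < e.x (t q) ∧
      ∀ r, s q < r → r < q.1 → ¬ (e.x (s q) ≤ e.x r ∧ e.x r < e.x (t q))) →
    (∀ q ∈ S, ∀ q' ∈ S, q ≠ q' → q.1 = q'.1 → t q ≤ s q' ∨ t q' ≤ s q) →
    #S ≤ e.NR + e.mir.NR + e.m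

-- deps: LW
def S_DBL : Prop :=
  ∀ d e : Run, d.OK → e.OK → d.Same e → ∑ i ∈ range d.m, #(d.Dbl i) ≤ e.NR + e.mir.NR + e.m

-- deps: EMIR WCNT TSPL NS DBL
def S_TURN : Prop :=
  ∀ d e : Run, d.OK → e.OK → d.Same e → d.Win → d.mir.Win →
    d.NR + d.mir.NR ≤ 16 * (d.LamR + d.mir.LamR) + 8 * (d.R - d.L).toNat + 16 * d.m +
      4 * (e.NR + e.mir.NR)

end Pool.Agent.P.MP_119182_lc.NU
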