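import Pool.Agent.P.MP_119182_lc.NU.Sec4
import Pool.Agent.P.MP_119182_lc.DefsU

/-! The measure is at most a constant times the unified bound, for some shift of the keys. -/

set_option autoImplicit false

namespace Pool.Agent.P.MP_119182_lc.NU

open Finset
open scoped Classical

namespace Avg

theorem sg_step (t : ℕ) : 3 * sg t + 1 ≤ 2 * sg (t + 1) := by
  rcases t with _ | t
  · simp [sg]
  · have := Nat.one_le_two_pow (n := t)
    simp only [sg, pow_succ]
    omega

theorem sg_mono : Monotone sg := monotone_nat_of_le_succ fun t => by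
  have := sg_step t
  omega

theorem small (v r : ℕ) : ∑ t ∈ range r, (if sg t ≤ v then sg t + 1 else 0) ≤ 2 * sg r ∧
    ∑ t ∈ range r, (if sg t ≤ v then sg t + 1 else 0) ≤ 3 * v + 1 := by
  induction r with
  | zero => simp
  | succ r ih =>
    have := sg_step r
    rw [sum_range_succ]
    split_ifs <;> omega

theorem total (r : ℕ) : ∑ t ∈ range r, (sg t + 1) ≤ 2 * sg r := by
  induction r with
  | zero => simp
  | succ r ih =>
    have := sg_step r
    rw [sum_range_succ]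
    omega

theorem sq_le (r : ℕ) : r ^ 2 ≤ 2 * 2 ^ r := by
  induction r with
  | zero => simp
  | succ r ih =>
    rcases Nat.lt_or_ge r 3 with h | h
    · interval_cases r <;> norm_num
    · rw [pow_succ 2]
      nlinarith

theorem large {t u : ℕ} (h : 2 * u < sg t) : (sg t + 1) * 2 ^ u * 2 ^ t ≤ 16 * cc t := by
  rcases t with _ | t
  · simp [sg] at h
  obtain ⟨r, hr⟩ := Nat.exists_eq_add_of_le (show u ≤ sg (t + 1) by omega)
  have h1 : 2 ^ (t + 1) = 2 * sg (t + 1) := by rw [sg, pow_succ']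
  have h2 : (sg (t + 1) + 1) * (2 * sg (t + 1)) ≤ (2 * r) * (4 * r) :=
    Nat.mul_le_mul (by omega) (by omega)
  have h3 := sq_le r
  rw [h1, cc, mul_right_comm]
  calc _ ≤ 16 * 2 ^ r * 2 ^ u := Nat.mul_le_mul_right _ (by nlinarith)
    _ = _ := by rw [hr, pow_add]; ring

theorem shift {c D : ℕ} (h : c ∣ D) (y d : ℕ) :
    ∑ s ∈ range D, (y + d + s) / c = ∑ s ∈ range D, (y + s) / c + d * (D / c) := by
  induction d with
  | zero => simp
  | succ d ih =>
    have h1 := sum_range_succ (fun s => (y + d + s) / c) D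
    rw [sum_range_succ', Nat.add_div_of_dvd_left h, ih] at h1
    simp only [add_zero, show ∀ s, y + d + (s + 1) = y + (d + 1) + s from fun s => by ring] at h1
    rw [add_mul]
    omega

theorem split {c D : ℕ} (h : c ∣ D) (y z : ℕ) :
    ∑ s ∈ range D, (if (y + s) / c ≠ (z + s) / c then 1 else 0) ≤ Nat.dist y z * (D / c) := by
  wlog hle : y ≤ z generalizing y z
  · simpa only [Nat.dist_comm, ne_comm] using this z y (by omega)
  obtain ⟨d, rfl⟩ := Nat.exists_eq_add_of_le hle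
  have h1 : ∑ s ∈ range D, ((if (y + s) / c ≠ (y + d + s) / c then 1 else 0) + (y + s) / c) ≤
      ∑ s ∈ range D, (y + d + s) / c := sum_le_sum fun s _ => by
    have : (y + s) / c ≤ (y + d + s) / c := Nat.div_le_div_right (by omega)
    split_ifs <;> omega
  rw [sum_add_distrib, shift h] at h1
  rw [Nat.dist_eq_sub_of_le hle, Nat.add_sub_cancel_left]
  omega

theorem cc_top (T : ℕ) : 2 * cc T ≤ cc (T + 1) := by
  rw [cc, cc, ← pow_succ']
  have := sg_step T
  exact Nat.pow_le_pow_right two_pos (by omega)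

/-- The average over the shifts, for one access. -/
theorem one {n T y z u w : ℕ} (hT : n + 2 ≤ cc T) (hy : y ≤ n) (hz : z ≤ n) (hw : w ≤ n)
    (hu : w + Nat.dist y z ≤ 2 ^ u) :
    ((∑ s ∈ range (cc T), ∑ t ∈ range (T + 2), (if t = 0 ∨ cc t < w ∨
      (y + s) / cc t ≠ (z + s) / cc t then sg t + 1 else 0) : ℕ) : ℝ) ≤ cc T * (33 * (u + 1)) := by
  have h0 := cc_top T
  rw [sum_comm, sum_range_succ, sum_eq_zero (s := range (cc T)) fun s hs => if_neg (by
    have := mem_range.1 hs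
    rw [Nat.div_eq_of_lt (by omega), Nat.div_eq_of_lt (by omega)]
    omega), add_zero, Nat.cast_sum]
  have h1 : ∀ t ∈ range (T + 1), ((∑ s ∈ range (cc T), (if t = 0 ∨ cc t < w ∨
      (y + s) / cc t ≠ (z + s) / cc t then sg t + 1 else 0) : ℕ) : ℝ) ≤
      cc T * (((if sg t ≤ 2 * u then sg t + 1 else 0 : ℕ) : ℝ) + 16 * (1 / 2) ^ t) := fun t ht => by
    split_ifs with h
    · have h2 := sum_le_card_nsmul (range (cc T)) (fun s => if t = 0 ∨ cc t < w ∨
        (y + s) / cc t ≠ (z + s) / cc t then sg t + 1 else 0) (sg t + 1) fun s _ => by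
          split_ifs <;> omega
      rw [card_range, smul_eq_mul] at h2
      refine (Nat.cast_le.2 h2).trans ?_
      rw [Nat.cast_mul]
      exact mul_le_mul_of_nonneg_left (le_add_of_nonneg_right (by positivity)) (by positivity)
    · have h3 : 2 ^ u ≤ cc t := Nat.pow_le_pow_right two_pos (by omega)
      have h4 : t ≠ 0 := fun e => by simp [e, sg] at h
      have h5 : cc t ∣ cc T := pow_dvd_pow 2 (sg_mono (by have := mem_range.1 ht; omega))
      have h6 : ∑ s ∈ range (cc T), (if t = 0 ∨ cc t < w ∨ (y + s) / cc t ≠ (z + s) / cc t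
          then sg t + 1 else 0) ≤ (sg t + 1) * (2 ^ u * (cc T / cc t)) := by
        refine le_trans (le_of_eq ?_) (Nat.mul_le_mul_left _ ((split h5 y z).trans
          (Nat.mul_le_mul_right _ (by omega))))
        rw [mul_sum]
        refine sum_congr rfl fun s _ => ?_
        simp [h4, show ¬ cc t < w by omega]
      have h7 : (sg t + 1) * (2 ^ u * (cc T / cc t)) * 2 ^ t ≤ cc T * 16 :=
        calc _ = (sg t + 1) * 2 ^ u * 2 ^ t * (cc T / cc t) := by ring
          _ ≤ 16 * cc t * (cc T / cc t) := Nat.mul_le_mul_right _ (large (not_le.1 h))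
          _ = _ := by rw [mul_assoc, Nat.mul_div_cancel' h5, mul_comm]
      refine (Nat.cast_le.2 h6).trans ?_
      rw [Nat.cast_zero, zero_add, one_div, inv_pow, ← div_eq_mul_inv, ← mul_div_assoc,
        le_div_iff₀ (by positivity)]
      exact_mod_cast h7
  refine (sum_le_sum h1).trans ?_
  rw [← mul_sum, sum_add_distrib, ← mul_sum, ← Nat.cast_sum]
  refine mul_le_mul_of_nonneg_left ?_ (by positivity)
  have h8 : ((∑ t ∈ range (T + 1), (if sg t ≤ 2 * u then sg t + 1 else 0) : ℕ) : ℝ) ≤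
      3 * (2 * u) + 1 := by exact_mod_cast (small (2 * u) (T + 1)).2
  have h9 := sum_geometric_two_le (T + 1)
  have : (0 : ℝ) ≤ u := u.cast_nonneg
  linarith

/-- The term of the unified bound. -/
noncomputable def term (n : ℕ) (a : ℕ → ℕ) (i : ℕ) : ℝ :=
  sInf ((fun j : ℕ => max 1 (Real.logb 2 ((wset a i j : ℝ) + |(a i : ℝ) - (j : ℝ)|))) ''
    Set.Icc 1 n)

theorem term_mem {n : ℕ} (hn : 1 ≤ n) (a : ℕ → ℕ) (i : ℕ) : ∃ j, (1 ≤ j ∧ j ≤ n) ∧
    max 1 (Real.logb 2 ((wset a i j : ℝ) + |(a i : ℝ) - (j : ℝ)|)) = term n a i :=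
  Set.Nonempty.csInf_mem ((Set.nonempty_Icc.2 hn).image _) ((Set.finite_Icc 1 n).image _)

theorem one_le_term {n : ℕ} (hn : 1 ≤ n) (a : ℕ → ℕ) (i : ℕ) : 1 ≤ term n a i := by
  obtain ⟨j, -, h⟩ := term_mem hn a i
  exact h ▸ le_max_left _ _

theorem last_spec {a : ℕ → ℕ} {i s : ℕ} (hs : s < i) :
    lastIdx a i (a s) < i ∧ a (lastIdx a i (a s)) = a s := by
  obtain ⟨r, hr, e⟩ := exists_mem_eq_sup ((range i).filter fun r => a r = a s)
    ⟨s, mem_filter.2 ⟨mem_range.2 hs, rfl⟩⟩ id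
  rw [lastIdx, e]
  exact ⟨mem_range.1 (mem_filter.1 hr).1, (mem_filter.1 hr).2⟩

/-- A witness for an access to a key that has been seen. -/
theorem wit {n : ℕ} (hn : 1 ≤ n) (a : ℕ → ℕ) (i : ℕ) : ∃ s u : ℕ, (u : ℝ) + 1 ≤ 3 * term n a i ∧
    ((∃ r < i, a r = a i) → s < i ∧ ((Ioc s i).image a).card + Nat.dist (a i) (a s) ≤ 2 ^ u) := by
  obtain ⟨j, -, h⟩ := term_mem hn a i
  have h1 := one_le_term hn a i
  have h2 : (⌈term n a i⌉₊ : ℝ) + 1 ≤ 3 * term n a i := by
    have := Nat.ceil_lt_add_one (zero_le_one.trans h1)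
    linarith
  have h3 : wset a i j + Nat.dist (a i) j ≤ 2 ^ ⌈term n a i⌉₊ := by
    have e : (wset a i j : ℝ) + |(a i : ℝ) - (j : ℝ)| = (wset a i j + Nat.dist (a i) j : ℕ) := by
      rw [Nat.cast_add]
      congr 1
      rcases le_total (a i) j with h4 | h4
      · rw [Nat.dist_eq_sub_of_le h4, Nat.cast_sub h4, abs_sub_comm,
          abs_of_nonneg (sub_nonneg.2 (Nat.cast_le.2 h4))]
      · rw [Nat.dist_eq_sub_of_le_right h4, Nat.cast_sub h4,
          abs_of_nonneg (sub_nonneg.2 (Nat.cast_le.2 h4))]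
    rcases Nat.eq_zero_or_pos (wset a i j + Nat.dist (a i) j) with h4 | h4
    · exact h4 ▸ Nat.zero_le _
    · have h5 := ((le_max_right _ _).trans h.le).trans (Nat.le_ceil _)
      rw [e, Real.logb_le_iff_le_rpow one_lt_two (Nat.cast_pos.2 h4), Real.rpow_natCast] at h5
      exact_mod_cast h5
  by_cases hj : ∃ r < i, a r = j
  · obtain ⟨r, hr, rfl⟩ := hj
    refine ⟨lastIdx a i (a r), _, h2, fun _ => ⟨(last_spec hr).1, ?_⟩⟩
    rw [(last_spec (a := a) hr).2]
    exact h3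
  · by_cases hi : ∃ r < i, a r = a i
    · obtain ⟨r, hr, e⟩ := hi
      refine ⟨r, _, h2, fun _ => ⟨hr, le_trans ?_ h3⟩⟩
      have h6 : lastIdx a i j = 0 := by
        rw [lastIdx, filter_eq_empty_iff.2 fun s hs e => hj ⟨s, mem_range.1 hs, e⟩]
        rfl
      rw [e, Nat.dist_self, wset, h6]
      exact Nat.add_le_add (card_le_card (image_subset_image (Ioc_subset_Ioc_left r.zero_le)))
        (Nat.zero_le _)
    · exact ⟨0, _, h2, fun h => absurd h hi⟩

theorem it_sh (t y s : ℕ) : it t ((y : ℤ) + s) = ((y + s) / cc t : ℕ) := by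
  rw [it, cc]
  push_cast
  rfl

theorem new_le {n m : ℕ} {a : ℕ → ℕ} (ha : ∀ i < m, 1 ≤ a i ∧ a i ≤ n) :
    ((range m).filter fun i => ¬ ∃ r < i, a r = a i).card ≤ n := by
  have := card_le_card_of_injOn (s := (range m).filter fun i => ¬ ∃ r < i, a r = a i)
    (t := Icc 1 n) a (fun i hi => by
      simpa using ha i (mem_range.1 (mem_filter.1 hi).1)) fun i hi j hj e => by
      rcases lt_trichotomy i j with h | h | h
      · exact absurd ⟨i, h, e⟩ (mem_filter.1 hj).2
      · exact h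
      · exact absurd ⟨j, h, e.symm⟩ (mem_filter.1 hi).2
  simpa using this

theorem sg_log {n T : ℕ} (hn : 1 ≤ n) (h : ∀ t < T, cc t < n + 2) :
    (sg (T + 2) : ℝ) ≤ 16 * max 1 (Real.logb 2 n) := by
  have h1 := le_max_left 1 (Real.logb 2 n)
  rcases T with _ | _ | T
  · norm_num [sg]
    linarith
  · norm_num [sg]
    linarith
  have h2 : 2 ^ 2 ^ T ≤ 2 * n := by
    have : 2 ^ 2 ^ T < n + 2 := h (T + 1) (by omega)
    omega
  have h3 : ((2 ^ T : ℕ) : ℝ) ≤ Real.logb 2 (2 * n) := by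
    rw [Real.le_logb_iff_rpow_le one_lt_two (by positivity), Real.rpow_natCast]
    exact_mod_cast h2
  rw [Real.logb_mul two_ne_zero (by positivity), Real.logb_self_eq_one one_lt_two] at h3
  have h4 := le_max_right 1 (Real.logb 2 n)
  rw [sg, pow_add]
  push_cast at h3 ⊢
  linarith

end Avg

open Avg

theorem le_unified {n : ℕ} (hn : 1 ≤ n) (m : ℕ) (a : ℕ → ℕ) : (m : ℝ) ≤ unified n m a := by
  have := card_nsmul_le_sum (range m) (term n a) 1 fun i _ => one_le_term hn a i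
  simpa using! this

/-- The measure is bounded by the unified bound. -/
theorem avg {n m T : ℕ} {a : ℕ → ℕ} (hn : 1 ≤ n) (ha : ∀ i < m, 1 ≤ a i ∧ a i ≤ n)
    (hm : (n : ℝ) * max 1 (Real.logb 2 n) ≤ m) (hT : n + 2 ≤ cc T) (hT' : ∀ t < T, cc t < n + 2) :
    ∃ sh < cc T, ∀ x : ℕ → ℤ, (∀ i < m, x i = (a i : ℤ) + sh) →
      (MM x n m (T + 1) : ℝ) ≤ 195 * unified n m a := by
  choose s u hu hs using wit hn a
  set W : ℕ → ℕ → ℕ := fun i sh => ∑ t ∈ range (T + 2), if t = 0 ∨
    cc t < ((Ioc (s i) i).image a).card ∨ (a i + sh) / cc t ≠ (a (s i) + sh) / cc t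
    then sg t + 1 else 0 with hW
  set O := (range m).filter fun i => ∃ r < i, a r = a i with hO
  have h1 : ∑ sh ∈ range (cc T), ((∑ i ∈ O, W i sh : ℕ) : ℝ) ≤
      ∑ _sh ∈ range (cc T), 99 * unified n m a := by
    rw [← Nat.cast_sum, sum_comm, Nat.cast_sum, sum_const, card_range, nsmul_eq_mul]
    calc _ ≤ ∑ i ∈ O, cc T * (99 * term n a i) := sum_le_sum fun i hi => by
          have hi1 := mem_range.1 (mem_filter.1 hi).1
          obtain ⟨h2, h3⟩ := hs i (mem_filter.1 hi).2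
          refine (one hT (ha i hi1).2 (ha _ (h2.trans hi1)).2 ?_ h3).trans
            (mul_le_mul_of_nonneg_left (by linarith [hu i]) (by positivity))
          refine (card_le_card (t := Icc 1 n) fun y hy => ?_).trans (by simp)
          obtain ⟨r, hr, rfl⟩ := mem_image.1 hy
          exact mem_Icc.2 (ha r ((mem_Ioc.1 hr).2.trans_lt hi1))
      _ ≤ ∑ i ∈ range m, cc T * (99 * term n a i) :=
          sum_le_sum_of_subset_of_nonneg (filter_subset _ _) fun i _ _ => by
            have := one_le_term hn a i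
            positivity
      _ = _ := by rw [← mul_sum, ← mul_sum]; rfl
  obtain ⟨sh, hsh, h2⟩ := exists_le_of_sum_le (nonempty_range_iff.2 (by omega)) h1
  refine ⟨sh, mem_range.1 hsh, fun x hx => ?_⟩
  have h3 : ∀ t, (sg t + 1) * jmp x t m ≤ (sg t + 1) * n + ∑ i ∈ O, if t = 0 ∨
      cc t < ((Ioc (s i) i).image a).card ∨ (a i + sh) / cc t ≠ (a (s i) + sh) / cc t
      then sg t + 1 else 0 := fun t => by
    rw [← sum_filter, sum_const, smul_eq_mul, mul_comm (card _), ← mul_add]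
    refine Nat.mul_le_mul_left _ (le_trans (card_le_card fun i hi => ?_)
      ((card_union_le _ _).trans (Nat.add_le_add_right (new_le ha) _)))
    obtain ⟨hi1, hi2⟩ := mem_filter.1 hi
    rw [mem_union, or_iff_not_imp_left]
    intro h4
    have h5 : ∃ r < i, a r = a i := by_contra fun h5 => h4 (mem_filter.2 ⟨hi1, h5⟩)
    refine mem_filter.2 ⟨mem_filter.2 ⟨hi1, h5⟩, by_contra fun h6 => hi2 ?_⟩
    push Not at h6
    have h7 := (hs i h5).1
    have h8 := mem_range.1 hi1
    refine ⟨by omega, s i, h7, ?_, le_trans ?_ h6.2.1⟩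
    · rw [hx _ (by omega), hx _ h8, it_sh, it_sh, h6.2.2]
    · rw [dst, image_congr (g := (fun y : ℕ => (y : ℤ) + sh) ∘ a) fun r hr =>
        hx r ((mem_Ioc.1 hr).2.trans_lt h8), ← image_image]
      exact card_image_le
  have h4 : MM x n m (T + 1) ≤ 2 * sg (T + 2) * (3 * n) + ∑ i ∈ O, W i sh := by
    rw [MM, hW, sum_comm]
    refine le_trans ?_ (Nat.add_le_add_right (Nat.mul_le_mul_right _ (total _)) _)
    rw [sum_mul, ← sum_add_distrib]
    refine sum_le_sum fun t _ => ?_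
    have h5 : (sg t + 1) * (n + 1 + n) ≤ (sg t + 1) * (3 * n) := Nat.mul_le_mul_left _ (by omega)
    linarith [h3 t]
  have h5 : (MM x n m (T + 1) : ℝ) ≤ 2 * sg (T + 2) * (3 * n) + (∑ i ∈ O, W i sh : ℕ) := by
    exact_mod_cast h4
  have h6 := mul_le_mul_of_nonneg_left (sg_log hn hT') n.cast_nonneg
  have h7 := le_unified hn m a
  linarith

theorem Avg.grp_top (T j : ℕ) : grp T j ≤ T := by
  rcases j with _ | j
  · exact T.zero_le
  · exact min_le_left _ _

/-- The number of groups. -/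
theorem grp_eq {tw : ℕ → ℕ} (h0 : tw 0 = 1) (hs : ∀ J, tw (J + 1) = 2 ^ tw J) {T J : ℕ}
    (h : T ≤ tw J + 2) : grp T (J + 2) = T := by
  have h1 : ∀ j, min T (tw j + 2) ≤ grp T (j + 2) := fun j => by
    induction j with
    | zero => rcases T with _ | T <;> simp [grp, sg, h0]
    | succ j ih =>
      rw [grp, hs]
      rcases le_total T (tw j + 2) with h2 | h2
      · omega
      · have h3 : 2 ^ (tw j + 1) ≤ sg (grp T (j + 2)) := sg_mono (show tw j + 2 ≤ _ by omega)
        rw [pow_succ] at h3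
        omega
  exact (grp_top _ _).antisymm (by simpa only [min_eq_left h] using h1 J)

/-- The top tier and the shift. -/
theorem exists_shift {tw : ℕ → ℕ} (h0 : tw 0 = 1) (hs : ∀ J, tw (J + 1) = 2 ^ tw J) {n m J : ℕ}
    {a : ℕ → ℕ} (hn : 1 ≤ n) (hJ : n ≤ tw J) (ha : ∀ i < m, 1 ≤ a i ∧ a i ≤ n)
    (hm : (n : ℝ) * max 1 (Real.logb 2 n) ≤ m) : ∃ T sh : ℕ, 1 ≤ T ∧ grp T (J + 2) = T ∧
      n + 2 ≤ cc (T - 1) ∧ sh < cc (T - 1) ∧ n + 1 + sh < cc T ∧ ∀ x : ℕ → ℤ,
        (∀ i < m, x i = (a i : ℤ) + sh) → (MM x n m T : ℝ) ≤ 195 * unified n m a := by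
  have h1 : n + 2 ≤ cc (tw J + 1) := by
    have h2 : tw J < 2 ^ tw J := Nat.lt_two_pow_self
    have h3 : 2 ^ tw J < 2 ^ 2 ^ tw J := Nat.lt_two_pow_self
    rw [cc, sg]
    omega
  have h2 : ∃ t, n + 2 ≤ cc t := ⟨_, h1⟩
  obtain ⟨sh, h3, h4⟩ := avg hn ha hm (Nat.find_spec h2) fun t ht => not_le.1 (Nat.find_min h2 ht)
  have h5 := Nat.find_spec h2
  have h6 := cc_top (Nat.find h2)
  exact ⟨Nat.find h2 + 1, sh, by omega, grp_eq h0 hs (Nat.succ_le_succ (Nat.find_min' h2 h1)),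
    h5, h3, by omega, h4⟩

end Pool.Agent.P.MP_119182_lc.NU
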