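import Pool.Agent.P.MP_119182_lc.NU.SIface

/-! Step MIR. -/

set_option autoImplicit false

namespace Pool.Agent.P.MP_119182_lc.NU

open Finset
open scoped Classical

namespace MIRc

theorem mm (v : ℤ) : -1 - (-1 - v) = v := by ring

theorem tree {L R : ℤ} {lp rp : ℤ → ℤ} (h : Tree L R lp rp) :
    Tree (-1 - R) (-1 - L) (fun v => -1 - rp (-1 - v)) (fun v => -1 - lp (-1 - v)) where
  bnd v a b := by
    have := h.bnd (-1 - v) (by omega) (by omega)
    omega
  lamL y z a b c e := by
    have := h.lamR (-1 - y) (-1 - z) (by omega) (by omega) (by omega) (by omega)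
    omega
  lamR y z a b c e := by
    have := h.lamL (-1 - y) (-1 - z) (by omega) (by omega) (by omega) (by omega)
    omega
  ancR y a b c := by
    have := h.ancL (-1 - y) (by omega) (by omega) (by omega)
    simp only [mm]
    omega
  ancL y a b c := by
    have := h.ancR (-1 - y) (by omega) (by omega) (by omega)
    simp only [mm]
    omega
  top a b h1 h2 h3 := by
    obtain ⟨c, c1, c2, c3, c4⟩ := h.top (-1 - b) (-1 - a) (by omega) (by omega) (by omega)
    refine ⟨-1 - c, by omega, by omega, ?_, ?_⟩ <;> simp only [mm] <;> omega

theorem step {L R x : ℤ} {lp rp lq rq : ℤ → ℤ} (h : Step L R x lp rp lq rq) :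
    Step (-1 - R) (-1 - L) (-1 - x) (fun v => -1 - rp (-1 - v)) (fun v => -1 - lp (-1 - v))
      (fun v => -1 - rq (-1 - v)) (fun v => -1 - lq (-1 - v)) where
  mem := by
    have := h.mem
    omega
  off v a b c e := by
    have := h.off (-1 - v) (by omega) (by omega) (by omega) (by omega)
    omega
  root := by
    have := h.root
    simp only [mm]
    omega
  losR u a b c e := by
    have := h.losL (-1 - u) (by omega) (by omega) (by omega) (by omega)
    simp only [mm]
    omega
  lowR u a b c e := by
    have := h.lowL (-1 - u) (by omega) (by omega) (by omega) (by omega)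
    simp only [mm]
    omega
  losL u a b c e := by
    have := h.losR (-1 - u) (by omega) (by omega) (by omega) (by omega)
    simp only [mm]
    omega
  lowL u a b c e := by
    have := h.lowR (-1 - u) (by omega) (by omega) (by omega) (by omega)
    simp only [mm]
    omega

end MIRc

theorem p_MIR :
    S_MIR := fun _ h =>
  ⟨fun i hi => MIRc.tree (h.tree i hi), fun i hi => MIRc.step (h.step i hi)⟩

end Pool.Agent.P.MP_119182_lc.NU
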