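import Pool.Agent.P.MP_119182_lc.NU.EIface
import Pool.Agent.P.MP_119182_lc.UM.All

/-! Step BRG. -/

set_option autoImplicit false

namespace Pool.Agent.P.MP_119182_lc.NU

open Finset
open scoped Classical

namespace BRGc

variable {n x : ℕ} {τ L R : ℤ} {T : BT} {lp rp lq rq : ℤ → ℤ}

theorem tree_of (bnd : ∀ v, L < v → v < R → L ≤ lp v ∧ lp v < v ∧ v < rp v ∧ rp v ≤ R)
    (lamL : ∀ y z, L < y → y < R → lp y < z → z < y → lp y ≤ lp z ∧ rp z ≤ y)
    (lamR : ∀ y z, L < y → y < R → y < z → z < rp y → y ≤ lp z ∧ rp z ≤ rp y)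
    (anc : ∀ y, L < y → y < R → rp y < R → lp (rp y) ≤ lp y) : Tree L R lp rp := by
  have ancL : ∀ y, L < y → y < R → L < lp y → rp y ≤ rp (lp y) := fun y a b c => by
    have := bnd y a b
    have := bnd (lp y) c (by omega)
    have := anc (lp y) c (by omega)
    have := lamR (lp y) y c (by omega) (by omega)
    have := lamL y (rp (lp y)) a b (by omega)
    have : rp (lp y) = y → lp (rp (lp y)) = lp y := congrArg lp
    omega
  refine ⟨bnd, lamL, lamR, anc, ancL, fun a b h1 h2 h3 => ?_⟩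
  obtain ⟨c, hc, M⟩ := exists_max_image (Icc a b) (fun c => rp c - lp c) (nonempty_Icc.2 h2)
  simp only [mem_Icc] at hc M
  have := bnd c (by omega) (by omega)
  have := bnd (lp c)
  have := bnd (rp c)
  have := M (lp c)
  have := M (rp c)
  have := anc c (by omega) (by omega)
  have := ancL c (by omega) (by omega)
  exact ⟨c, by omega⟩

/-- The integer functions are the parents in the tree `T`, shifted by `τ`. -/
def Rep (n : ℕ) (τ : ℤ) (T : BT) (lp rp : ℤ → ℤ) : Prop := T.keys = List.range' 1 n ∧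
  ∀ k : ℕ, 1 ≤ k → k ≤ n → lp (k + τ) = lpar T k + τ ∧ rp (k + τ) = rpar n T k + τ

theorem ex {v : ℤ} (h1 : τ < v) (h2 : v < τ + n + 1) : ∃ k : ℕ, v = k + τ ∧ 1 ≤ k ∧ k ≤ n :=
  ⟨(v - τ).toNat, by omega⟩

theorem Rep.bnd (h : Rep n τ T lp rp) {k : ℕ} (h1 : 1 ≤ k) (h2 : k ≤ n) :
    lpar T k < k ∧ k < rpar n T k ∧ rpar n T k ≤ n + 1 :=
  ⟨lo_lt T k 0 h1, lt_hi T k _ (by omega), hi_le k (ord_of_keys h.1)⟩

theorem Rep.mir (h : Rep n τ T lp rp) : Rep n (mr (τ + n + 1)) (Dyn.mir (n + 1) T)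
    (fun v => mr (rp (mr v))) fun v => mr (lp (mr v)) := by
  refine ⟨Dyn.keys_mir' h.1, fun k h1 h2 => ?_⟩
  obtain ⟨j, rfl, j1, j2⟩ : ∃ j, k = n + 1 - j ∧ 1 ≤ j ∧ j ≤ n := ⟨n + 1 - k, by omega⟩
  have := h.2 j j1 j2
  have := h.bnd j1 j2
  simp only [show mr ((n + 1 - j : ℕ) + mr (τ + n + 1)) = j + τ by unfold mr; omega,
    Dyn.lpar_mir h.1 (show j ≤ n + 1 by omega), UM.WTx.rpar_mir h.1 (show j ≤ n + 1 by omega)]
  unfold mr
  omega

theorem Rep.tree (h : Rep n τ T lp rp) : Tree τ (τ + n + 1) lp rp := by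
  refine tree_of (fun v a b => ?_) (fun y z a b c c' => ?_) (fun y z a b c c' => ?_) fun y a b c => ?_
  all_goals
    obtain ⟨k, rfl, k1, k2⟩ := ex a b
    have s := UM.q_STR n k T h.1 k1 k2
    have e := h.2 k k1 k2
    have := h.bnd k1 k2
  · omega
  iterate 2
    obtain ⟨j, rfl, j1, j2⟩ := ex (τ := τ) (n := n) (v := z) (by omega) (by omega)
    have := s.lamL k j k1 k2
    have := s.lamR k j k1 k2
    have := h.2 j j1 j2
    omega
  · have := s.anc k k1 k2
    have := h.2 (rpar n T k)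
    rw [e.2]
    omega

/-- The right half of a step. -/
structure Hf (L R x : ℤ) (lp rp lq rq : ℤ → ℤ) : Prop where
  off : ∀ v, L < v → v < R → v ≠ x → ¬ (lp v < x ∧ x < rp v) → lq v = lp v ∧ rq v = rp v
  root : lq x = L ∧ rq x = R
  los : ∀ u, x < u → u < R → lp u < x → lq u ≠ x →
    x < lq u ∧ lq u < u ∧ lp (lq u) < x ∧ rp (lq u) = u ∧ rq u = rp u ∧ lq (lq u) = x
  low : ∀ v, x < v → v < R → lp v < x → rq v ≠ rp v →
    rp v < R ∧ lq (rp v) = v ∧ rq v = rp (rp v)
  win : ∀ v, x < v → v < R → lp v < x → rp v < R → rp (rp v) < R → lp (rp v) = lp v →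
    lp (rp (rp v)) = lp v → lq (rp v) ≠ x ∨ lq (rp (rp v)) ≠ x

theorem Rep.half (h : Rep n τ T lp rp) (h' : Rep n τ (access T x).1 lq rq) (h1 : 1 ≤ x)
    (h2 : x ≤ n) : Hf τ (τ + n + 1) (x + τ) lp rp lq rq := by
  have s := UM.q_STR n x T h.1 h1 h2
  have t := h.tree
  have t' := h'.tree
  have los : ∀ u, x + τ < u → u < τ + n + 1 → lp u < x + τ → lq u ≠ x + τ →
      x + τ < lq u ∧ lq u < u ∧ lp (lq u) < x + τ ∧ rp (lq u) = u ∧ rq u = rp u := by
    intro u a b c c'
    obtain ⟨k, rfl, k1, k2⟩ := ex (by omega) b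
    have e := h'.2 k k1 k2
    have := h.2 k k1 k2
    have := s.los k (by omega) k2 (by omega) (by omega)
    have := h.2 (lpar (access T x).1 k)
    rw [e.1]
    omega
  refine ⟨fun v a b c c' => ?_, ?_, fun u a b c c' => ?_, fun v a b c c' => ?_,
    fun v a b c c' c1 c2 c3 => ?_⟩
  · obtain ⟨k, rfl, k1, k2⟩ := ex a b
    have := h.2 k k1 k2
    have := h'.2 k k1 k2
    have := s.off k k1 k2
    omega
  · obtain ⟨l, r, π, e1, e2, -⟩ := access_zip h.1 h1 h2
    obtain ⟨_, -, F⟩ := facts_splay l r π (e1 ▸ ord_of_keys h.1)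
    obtain ⟨l, r, e⟩ := F.root
    have := h'.2 x h1 h2
    simp only [e2, e, lpar, rpar, lo, hi, lt_irrefl, if_false] at this
    omega
  · have a1 := los u a b c c'
    have a2 := los (lq u) a1.1 (by omega) a1.2.2.1
    have a3 := t'.ancR (lq u) (by omega) (by omega)
    refine ⟨a1.1, a1.2.1, a1.2.2.1, a1.2.2.2.1, a1.2.2.2.2, by_contra fun c => ?_⟩
    rw [(a2 c).2.2.2.2, a1.2.2.2.1] at a3
    omega
  · have a0 : rp v < τ + n + 1 ∧ rq v = rq (rp v) := by
      obtain ⟨k, rfl, k1, k2⟩ := ex (by omega) b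
      have e := h.2 k k1 k2
      have := h'.2 k k1 k2
      have := h.bnd k1 k2
      have := s.low k (by omega) k2 (by omega)
      have := h'.2 (rpar n T k)
      rw [show rq (rp (k + τ)) = _ from congrArg rq e.2]
      omega
    have := t.bnd v (by omega) b
    have := t'.bnd (rp v) (by omega) a0.1
    have := t'.lamR v (rp v) (by omega) b (by omega) (by omega)
    have := t.ancR v (by omega) b a0.1
    have := los (rp v) (by omega) a0.1 (by omega) (by omega)
    have := t.lamR v (lq (rp v)) (by omega) b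
    omega
  · obtain ⟨k, rfl, k1, k2⟩ := ex (by omega) b
    have e := h.2 k k1 k2
    have := h.bnd k1 k2
    have e' := h.2 (rpar n T k) (by omega) (by omega)
    have := h.bnd (k := rpar n T k) (by omega) (by omega)
    rw [e.2] at c1 c2 c3 ⊢
    rw [e'.2] at c1 c3 ⊢
    have := h.2 (rpar n T (rpar n T k)) (by omega) (by omega)
    have := h'.2 (rpar n T k) (by omega) (by omega)
    have := h'.2 (rpar n T (rpar n T k)) (by omega) (by omega)
    have := s.win k (by omega) k2 (by omega) (by omega) (by omega) (by omega) (by omega)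
    omega

theorem card_tr {A : Finset ℕ} {B : Finset ℤ} (f : ℕ → ℤ) (hf : Function.Injective f)
    (h : ∀ v, v ∈ B ↔ ∃ k ∈ A, f k = v) : #B = #A := by
  rw [← card_image_of_injective A hf]
  exact congrArg card (Finset.ext fun v => (h v).trans mem_image.symm)

end BRGc

open BRGc in
theorem p_BRG :
    S_BRG := by
  intro n m σ T a hT ha
  let d : Run := ⟨σ, σ + n + 1, m, fun i => a i + σ,
    fun i v => lpar (MainA.Tr T a i) (v - σ).toNat + σ,
    fun i v => rpar n (MainA.Tr T a i) (v - σ).toNat + σ⟩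
  have K : ∀ i ≤ m, (MainA.Tr T a i).keys = List.range' 1 n := fun i hi => by
    induction i with
    | zero => exact hT
    | succ i ih => exact (p_STRUCT n _ _ (ih (by omega)) (ha i hi).1 (ha i hi).2).1
  have r : ∀ i ≤ m, Rep n σ (MainA.Tr T a i) (d.lp i) (d.rp i) := fun i hi =>
    ⟨K i hi, fun k _ _ => by simp [d]⟩
  have H : ∀ i < m, Hf d.L d.R (d.x i) (d.lp i) (d.rp i) (d.lp (i + 1)) (d.rp (i + 1)) :=
    fun i hi => (r i hi.le).half (r (i + 1) hi) (ha i hi).1 (ha i hi).2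
  have H' : ∀ i < m, Hf d.mir.L d.mir.R (d.mir.x i) (d.mir.lp i) (d.mir.rp i) (d.mir.lp (i + 1))
      (d.mir.rp (i + 1)) := fun i hi => by
    have := ha i hi
    have e := (r i hi.le).mir.half (x := n + 1 - a i)
      (by rw [Dyn.access_mir (K i hi.le) this.2]; exact (r (i + 1) hi).mir) (by omega) (by omega)
    rwa [show mr (σ + n + 1) + n + 1 = mr σ by unfold mr; omega,
      show (n + 1 - a i : ℕ) + mr (σ + n + 1) = mr (a i + σ) by unfold mr; omega] at e
  refine ⟨d, rfl, rfl, rfl, rfl, ⟨fun i hi => (r i hi).tree, fun i hi => ⟨?_, (H i hi).off,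
    (H i hi).root, (H i hi).los, (H i hi).low, fun u a b c c' => ?_, fun u a b c c' => ?_⟩⟩,
    fun i hi v hv => ?_, fun i hi v hv => ?_, ?_⟩
  · have := ha i hi
    simp only [d]
    omega
  · have := (H' i hi).los (mr u)
    simp only [Run.mir, mr_mr, mr_lt, mr_inj, ne_eq] at this
    exact this b a c c'
  · have := (H' i hi).low (mr u)
    simp only [Run.mir, mr_mr, mr_lt, mr_inj, ne_eq] at this
    exact this b a c c'
  · obtain ⟨a, b, c⟩ := Run.mem_P.1 hv
    exact (H i hi).win v a b c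
  · obtain ⟨a, b, c⟩ := Run.mem_P.1 hv
    exact (H' i hi).win v a b c
  rw [MainA.cost_eq]
  refine (sum_congr rfl fun i hi => ?_).trans
    (show ∑ i ∈ range m, (#(d.P i) + #(d.mir.P i) + 1) = _ by
      rw [sum_add_distrib, sum_add_distrib, sum_const, card_range, smul_eq_mul, mul_one]; rfl)
  have hi := mem_range.1 hi
  have := ha i hi
  rw [(p_STRUCT n _ _ (K i hi.le) this.1 this.2).2.2.1, add_comm #_,
    card_tr (B := d.P i) (fun k => k + σ) (fun _ _ => by simp) fun v => ?_,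
    card_tr (B := d.mir.P i) (fun k => mr (k + σ)) (fun _ _ => by simp [mr_inj]) fun v => ?_]
  · simp only [Run.mem_P, lftPath, mem_filter, mem_Icc]
    refine ⟨fun ⟨b, c, e⟩ => ⟨(mr v - σ).toNat, ?_⟩, ?_⟩
    · simp only [d, Run.mir, mr] at *
      omega
    · rintro ⟨k, b, rfl⟩
      simp only [d, Run.mir, mr_mr, mr_lt, add_sub_cancel_right, Int.toNat_natCast]
      omega
  · simp only [Run.mem_P, rgtPath, mem_filter, mem_Icc]
    refine ⟨fun ⟨b, c, e⟩ => ⟨(v - σ).toNat, ?_⟩, ?_⟩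
    · simp only [d] at *
      omega
    · rintro ⟨k, b, rfl⟩
      simp only [d, add_sub_cancel_right, Int.toNat_natCast]
      omega

end Pool.Agent.P.MP_119182_lc.NU
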