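import Pool.Agent.P.MP_119182_lc.NU.EIface

/-! Step DBL. -/

set_option autoImplicit false

namespace Pool.Agent.P.MP_119182_lc.NU

open Finset
open scoped Classical

namespace DBLc

theorem tup (d : Run) (hd : d.OK) (i : ℕ) (v : ℤ) : ∃ s t : ℕ, i < d.m → v ∈ d.Dbl i →
    (s < t ∧ t < i ∧ d.x s < d.x i ∧ d.x i < d.x t ∧
      ∀ r, s < r → r < i → ¬ (d.x s ≤ d.x r ∧ d.x r < d.x t)) ∧
    (∃ s' < i, t ≤ s' ∧ d.x s' = d.rp i v) ∧
    ∀ r < i, d.lp i v < d.x r → d.x r ≤ v → r ≤ s := by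
  by_cases h : i < d.m ∧ v ∈ d.Dbl i
  swap
  · exact ⟨0, 0, fun a b => absurd ⟨a, b⟩ h⟩
  obtain ⟨hi, hv⟩ := h
  simp only [Run.Dbl, Run.Tn, mem_filter, Run.mem_P] at hv
  obtain ⟨⟨⟨v1, v2, v3⟩, v4, v5⟩, ⟨s0, a1, a2, a3⟩, s', b1, b2, b3⟩ := hv
  have T := hd.tree i hi.le
  have x1 := (hd.step i hi).mem
  have c1 := T.bnd v (by omega) v2
  have c2 := T.bnd (d.rp i v) (by omega) v4
  have c3 := T.ancL v (by omega) v2 (by omega)
  have c4 := T.lamL (d.rp i v) (d.lp i v) (by omega) v4 v5 (by omega)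
  have e : d.rp i (d.lp i v) = d.rp i v := by omega
  simp only [Run.mir, mr_mr, mr_inj, mr_lt, mr_le, e] at b2 b3
  obtain ⟨s, s1, s2⟩ := exists_max_image ((range i).filter fun r => d.x r = d.lp i v) id
    ⟨s0, mem_filter.2 ⟨mem_range.2 a1, a2⟩⟩
  simp only [mem_filter, mem_range, id] at s1 s2
  have k0 := s2 s0 ⟨a1, a2⟩
  have k1 : s < s' := by
    have := b3 s
    have : s ≠ s' := fun q => by rw [q] at s1; omega
    omega
  obtain ⟨b, t1, t2⟩ := exists_min_image ((Ioo s i).filter fun r => d.x i < d.x r) d.x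
    ⟨s', mem_filter.2 ⟨mem_Ioo.2 ⟨k1, b1⟩, by omega⟩⟩
  obtain ⟨t, u1, u2⟩ := exists_min_image ((Ioo s i).filter fun r => d.x r = d.x b) id
    ⟨b, mem_filter.2 ⟨(mem_filter.1 t1).1, rfl⟩⟩
  simp only [mem_filter, mem_Ioo, id] at t1 t2 u1 u2
  refine ⟨s, t, fun _ _ => ⟨⟨u1.1.1, u1.1.2, by omega, by omega, fun r r1 r2 => ?_⟩,
    ⟨s', b1, ?_, b2⟩, fun r r1 r2 r3 => ?_⟩⟩
  · have := s2 r
    have := t2 r
    have := a3 r
    omega
  · have := t2 s'
    have := u2 s'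
    have := b3 t
    omega
  · have := a3 r
    omega

end DBLc

theorem p_DBL (hLW : S_LW) :
    S_DBL := by
  intro d e hd he hs
  obtain ⟨-, -, e3, e4⟩ := hs
  choose s t h using DBLc.tup d hd
  have sub : ∀ i v, v ∈ d.Dbl i → v ∈ d.P i := fun i v k =>
    (mem_filter.1 (mem_filter.1 k).1).1
  have c : ∑ i ∈ range d.m, #(d.Dbl i) =
      #((range d.m).biUnion fun i => (d.Dbl i).image fun v => (i, v)) := by
    rw [card_biUnion]
    · exact sum_congr rfl fun i _ =>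
        (card_image_of_injective _ fun a b k => (Prod.ext_iff.1 k).2).symm
    · intro i _ j _ k
      simp only [Function.onFun, disjoint_left, mem_image]
      rintro _ ⟨a, -, rfl⟩ ⟨b, -, l⟩
      exact k (Prod.ext_iff.1 l).1.symm
  rw [c]
  have mem : ∀ q ∈ (range d.m).biUnion fun i => (d.Dbl i).image fun v => (i, v),
      q.1 < d.m ∧ q.2 ∈ d.Dbl q.1 := by
    intro q hq
    simp only [mem_biUnion, mem_image, mem_range] at hq
    obtain ⟨i, a, v, b, rfl⟩ := hq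
    exact ⟨a, b⟩
  refine hLW e he _ (fun q => s q.1 q.2) (fun q => t q.1 q.2) (fun q hq => ?_) ?_
  · have a := mem q hq
    have b := (h q.1 q.2 a.1 a.2).1
    rw [e3, e4]
    exact ⟨b.1, b.2.1, a.1, b.2.2⟩
  · have key : ∀ i < d.m, ∀ u ∈ d.Dbl i, ∀ v ∈ d.Dbl i, u < v → t i u ≤ s i v := by
      intro i hi u hu v hv k
      obtain ⟨s', a1, a2, a3⟩ := (h i u hi hu).2.1
      have p := (d.mem_P).1 (sub i u hu)
      have q := (d.mem_P).1 (sub i v hv)
      have T := hd.tree i hi.le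
      have x1 := (hd.step i hi).mem
      have c1 := T.bnd u (by omega) p.2.1
      have c2 := T.lamR u v (by omega) p.2.1 k
      exact a2.trans ((h i v hi hv).2.2 s' a1 (by omega) (by omega))
    rintro ⟨i, u⟩ hq ⟨j, v⟩ hq' ne (rfl : i = j)
    have a := mem _ hq
    have b := mem _ hq'
    rcases lt_trichotomy u v with k | k | k
    · exact Or.inl (key i a.1 u a.2 v b.2 k)
    · exact absurd (by rw [k]) ne
    · exact Or.inr (key i a.1 v b.2 u a.2 k)

end Pool.Agent.P.MP_119182_lc.NU
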