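import Pool.Agent.P.MP_119182_lc.NU.EIface

/-! Step EMIR. -/

set_option autoImplicit false

namespace Pool.Agent.P.MP_119182_lc.NU

open Finset
open scoped Classical

namespace EMIRc

theorem tree {L R : ℤ} {lp rp : ℤ → ℤ} (h : Tree L R lp rp) :
    Tree (mr R) (mr L) (fun v => mr (rp (mr v))) (fun v => mr (lp (mr v))) := by
  refine ⟨fun v a b => ?_, fun y z a b c e => ?_, fun y z a b c e => ?_, fun y a b c => ?_,
    fun y a b c => ?_, fun a b a1 a2 a3 => ?_⟩
  · have := h.bnd (mr v)
    unfold mr at *; omega
  · have := h.lamR (mr y) (mr z)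
    unfold mr at *; omega
  · have := h.lamL (mr y) (mr z)
    unfold mr at *; omega
  · have := h.ancL (mr y)
    simp only [mr_mr]
    unfold mr at *; omega
  · have := h.ancR (mr y)
    simp only [mr_mr]
    unfold mr at *; omega
  · obtain ⟨c, k⟩ := h.top (mr b) (mr a) (by unfold mr at *; omega) (mr_le.2 a2)
      (by unfold mr at *; omega)
    refine ⟨mr c, ?_⟩
    simp only [mr_mr]
    unfold mr at *; omega

theorem step {L R x : ℤ} {lp rp lq rq : ℤ → ℤ} (h : Step L R x lp rp lq rq) :
    Step (mr R) (mr L) (mr x) (fun v => mr (rp (mr v))) (fun v => mr (lp (mr v)))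
      (fun v => mr (rq (mr v))) (fun v => mr (lq (mr v))) := by
  refine ⟨?_, fun v a b c e => ?_, ?_, fun v a b c e => ?_, fun v a b c e => ?_,
    fun v a b c e => ?_, fun v a b c e => ?_⟩
  · have := h.mem
    unfold mr; omega
  · have := h.off (mr v)
    unfold mr at *; omega
  · have := h.root
    simp only [mr_mr]
    unfold mr; omega
  · have := h.losL (mr v)
    simp only [mr_mr]
    unfold mr at *; omega
  · have := h.lowL (mr v)
    simp only [mr_mr]
    unfold mr at *; omega
  · have := h.losR (mr v)
    simp only [mr_mr]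
    unfold mr at *; omega
  · have := h.lowR (mr v)
    simp only [mr_mr]
    unfold mr at *; omega

end EMIRc

theorem p_EMIR :
    S_EMIR := by
  intro d
  refine ⟨?_, fun h => ⟨fun i hi => EMIRc.tree (h.tree i hi), fun i hi => EMIRc.step (h.step i hi)⟩⟩
  cases d
  simp [Run.mir]

end Pool.Agent.P.MP_119182_lc.NU
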