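import Pool.Agent.P.MP_119182_lc.NU.EIface

/-! Step LW. -/

set_option autoImplicit false

namespace Pool.Agent.P.MP_119182_lc.NU

open Finset
open scoped Classical

namespace LWc

/-- The keys touched by access `k`. -/
noncomputable def Tch (e : Run) (k : ℕ) : Finset ℤ :=
  (Ioo e.L e.R).filter fun v => v = e.x k ∨ (e.lp k v < e.x k ∧ e.x k < e.rp k v)

theorem mem_Tch {e : Run} {k : ℕ} {v : ℤ} : v ∈ Tch e k ↔
    (e.L < v ∧ v < e.R) ∧ (v = e.x k ∨ (e.lp k v < e.x k ∧ e.x k < e.rp k v)) := by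
  unfold Tch; rw [mem_filter, mem_Ioo]

theorem card_Tch (e : Run) (k : ℕ) : #(Tch e k) ≤ #(e.P k) + #(e.mir.P k) + 1 := by
  have hsub : Tch e k ⊆ insert (e.x k) (e.P k ∪ (e.mir.P k).image mr) := by
    intro v hv
    obtain ⟨⟨h1, h2⟩, h3⟩ := mem_Tch.1 hv
    rcases h3 with h3 | ⟨h3, h4⟩
    · exact mem_insert.2 (Or.inl h3)
    · rcases lt_trichotomy v (e.x k) with hlt | heq | hgt
      · refine mem_insert_of_mem (mem_union_right _ (mem_image.2 ⟨mr v, ?_, mr_mr v⟩))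
        refine Run.mem_P.2 ⟨?_, ?_, ?_⟩
        · exact mr_lt.2 hlt
        · exact mr_lt.2 h1
        · show mr (e.rp k (mr (mr v))) < mr (e.x k)
          rw [mr_mr]
          exact mr_lt.2 h4
      · exact mem_insert.2 (Or.inl heq)
      · exact mem_insert_of_mem (mem_union_left _ (Run.mem_P.2 ⟨hgt, h2, h3⟩))
  have a1 := card_le_card hsub
  have a2 := card_insert_le (e.x k) (e.P k ∪ (e.mir.P k).image mr)
  have a3 := card_union_le (e.P k) ((e.mir.P k).image mr)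
  have a4 : #((e.mir.P k).image mr) ≤ #(e.mir.P k) := card_image_le
  omega

/-- `c` is the top of the interval from `a` to `b` at index `k`. -/
def Top (e : Run) (a b : ℤ) (k : ℕ) (c : ℤ) : Prop :=
  a ≤ c ∧ c ≤ b ∧ e.lp k c < a ∧ b < e.rp k c

theorem top_uniq {e : Run} (h : e.OK) {a b : ℤ} (ha : e.L < a) (hb : b < e.R) {k : ℕ}
    (hk : k ≤ e.m) {c c' : ℤ} (h1 : Top e a b k c) (h2 : Top e a b k c') : c = c' := by
  obtain ⟨a1, a2, a3, a4⟩ := h1
  obtain ⟨b1, b2, b3, b4⟩ := h2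
  rcases lt_trichotomy c c' with hlt | heq | hgt
  · have := ((h.tree k hk).lamR c c' (by omega) (by omega) hlt (by omega)).1
    omega
  · exact heq
  · have := ((h.tree k hk).lamR c' c (by omega) (by omega) hgt (by omega)).1
    omega

theorem switch (A : ℕ → Prop) (u : ℕ) : ∀ w, u ≤ w → A u → ¬ A w →
    ∃ k, u ≤ k ∧ k < w ∧ A k ∧ ¬ A (k + 1) := by
  intro w hw
  induction w, hw using Nat.le_induction with
  | base => intro h1 h2; exact absurd h1 h2
  | succ w hw ih =>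
    intro h1 h2
    by_cases hA : A w
    · exact ⟨w, hw, Nat.lt_succ_self w, hA, h2⟩
    · obtain ⟨k, k1, k2, k3, k4⟩ := ih h1 hA
      exact ⟨k, k1, Nat.lt_succ_of_lt k2, k3, k4⟩

/-- The time at which the top passes `z`, with the touched keys on both sides. -/
theorem pass {e : Run} (h : e.OK) {s t : ℕ} {z : ℤ} (hst : s < t) (ht : t < e.m)
    (h1 : e.x s < z) (h2 : z < e.x t) :
    ∃ k p, s < k ∧ k ≤ t ∧ p ∈ Tch e k ∧ e.x s ≤ p ∧ p ≤ z ∧
      (∀ v ∈ Tch e k, v ≤ z → v ≤ p) ∧ ∃ c ∈ Tch e k, z < c ∧ c ≤ e.x t := by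
  have hs := h.step s (hst.trans ht)
  have ht' := h.step t ht
  have ha : e.L < e.x s := hs.mem.1
  have hb : e.x t < e.R := ht'.mem.2
  have hA : ∃ c, Top e (e.x s) (e.x t) (s + 1) c ∧ c ≤ z := by
    refine ⟨e.x s, ⟨le_rfl, by omega, ?_, ?_⟩, h1.le⟩
    · rw [hs.root.1]; exact ha
    · rw [hs.root.2]; exact hb
  have hB : ¬ ∃ c, Top e (e.x s) (e.x t) (t + 1) c ∧ c ≤ z := by
    rintro ⟨c, hc, hcz⟩
    have : Top e (e.x s) (e.x t) (t + 1) (e.x t) := by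
      refine ⟨by omega, le_rfl, ?_, ?_⟩
      · rw [ht'.root.1]; exact ha
      · rw [ht'.root.2]; exact hb
    have := top_uniq h ha hb (by omega) hc this
    omega
  obtain ⟨k, k1, k2, ⟨c, hc, hcz⟩, k4⟩ :=
    switch (fun k => ∃ c, Top e (e.x s) (e.x t) k c ∧ c ≤ z) (s + 1) (t + 1) (by omega) hA hB
  have hkm : k < e.m := by omega
  have hk := h.step k hkm
  obtain ⟨c', d1, d2, d3, d4⟩ := (h.tree (k + 1) (by omega)).top (e.x s) (e.x t) ha (by omega) hb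
  have hc' : Top e (e.x s) (e.x t) (k + 1) c' := ⟨d1, d2, d3, d4⟩
  have hzc : z < c' := by
    by_contra hn
    exact k4 ⟨c', hc', not_lt.1 hn⟩
  have hcT : c ∈ Tch e k := by
    obtain ⟨c1, c2, c3, c4⟩ := hc
    refine mem_Tch.2 ⟨⟨by omega, by omega⟩, ?_⟩
    by_contra hn
    rw [not_or] at hn
    obtain ⟨o1, o2⟩ := hk.off c (by omega) (by omega) hn.1 hn.2
    exact k4 ⟨c, ⟨c1, c2, by rw [o1]; exact c3, by rw [o2]; exact c4⟩, hcz⟩
  have hcT' : c' ∈ Tch e k := by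
    refine mem_Tch.2 ⟨⟨by omega, by omega⟩, ?_⟩
    by_contra hn
    rw [not_or] at hn
    obtain ⟨o1, o2⟩ := hk.off c' (by omega) (by omega) hn.1 hn.2
    have : Top e (e.x s) (e.x t) k c' := ⟨d1, d2, by rw [← o1]; exact d3, by rw [← o2]; exact d4⟩
    have := top_uniq h ha hb hkm.le hc this
    omega
  obtain ⟨p, hp, hmax⟩ := exists_max_image ((Tch e k).filter fun v => v ≤ z) (fun v => v)
    ⟨c, mem_filter.2 ⟨hcT, hcz⟩⟩
  obtain ⟨p1, p2⟩ := mem_filter.1 hp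
  have hcp : c ≤ p := hmax c (mem_filter.2 ⟨hcT, hcz⟩)
  exact ⟨k, p, by omega, by omega, p1, hc.1.trans hcp, p2,
    fun v hv hvz => hmax v (mem_filter.2 ⟨hv, hvz⟩), c', hcT', hzc, d2⟩

end LWc

theorem p_LW :
    S_LW := by
  intro e h S s t h1 h2
  have hex : ∀ q : ℕ × ℤ, ∃ k p, q ∈ S → (s q < k ∧ k ≤ t q ∧ p ∈ LWc.Tch e k ∧ e.x (s q) ≤ p ∧
      p ≤ e.x q.1 ∧ (∀ v ∈ LWc.Tch e k, v ≤ e.x q.1 → v ≤ p) ∧
      ∃ c ∈ LWc.Tch e k, e.x q.1 < c ∧ c ≤ e.x (t q)) := by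
    intro q
    by_cases hq : q ∈ S
    · obtain ⟨a1, a2, a3, a4, a5, -⟩ := h1 q hq
      obtain ⟨k, p, hp⟩ := LWc.pass h a1 (a2.trans a3) a4 a5
      exact ⟨k, p, fun _ => hp⟩
    · exact ⟨0, 0, fun hq' => absurd hq' hq⟩
  choose k p hkp using hex
  have key : ∀ q ∈ S, ∀ q' ∈ S, q.1 < q'.1 → k q = k q' → p q = p q' → False := by
    intro q hq q' hq' hlt hk hp
    obtain ⟨a1, a2, -, -, a5, a6, -⟩ := hkp q hq
    obtain ⟨b1, -, -, b4, b5, -, c, c1, c2, c3⟩ := hkp q' hq'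
    obtain ⟨-, f2, -⟩ := h1 q hq
    obtain ⟨-, -, -, -, -, g⟩ := h1 q' hq'
    apply g q.1 (by omega) hlt
    refine ⟨by omega, ?_⟩
    by_contra hn
    rw [← hk] at c1
    have := a6 c c1 (by omega)
    omega
  have hcard : #S ≤ #((range e.m).sigma fun k => LWc.Tch e k) := by
    apply card_le_card_of_injOn (fun q => (⟨k q, p q⟩ : Σ _ : ℕ, ℤ))
    · intro q hq
      have hq' : q ∈ S := hq
      obtain ⟨-, a2, a3, -⟩ := hkp q hq'
      obtain ⟨-, f2, f3, -⟩ := h1 q hq'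
      exact mem_coe.2 (mem_sigma.2 ⟨mem_range.2 (by show k q < e.m; omega), a3⟩)
    · intro q hq q' hq' heq
      have hq1 : q ∈ S := hq
      have hq2 : q' ∈ S := hq'
      have hk : k q = k q' := congrArg Sigma.fst heq
      have hp : p q = p q' := congrArg (fun w : (Σ _ : ℕ, ℤ) => w.2) heq
      by_contra hne
      rcases lt_trichotomy q.1 q'.1 with hlt | he | hgt
      · exact key q hq1 q' hq2 hlt hk hp
      · obtain ⟨a1, a2, -⟩ := hkp q hq1
        obtain ⟨b1, b2, -⟩ := hkp q' hq2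
        rcases h2 q hq1 q' hq2 hne he with h3 | h3 <;> omega
      · exact key q' hq2 q hq1 hgt hk.symm hp.symm
  rw [card_sigma] at hcard
  refine hcard.trans ((sum_le_sum fun k _ => LWc.card_Tch e k).trans ?_)
  rw [sum_add_distrib, sum_add_distrib]
  simp only [sum_const, card_range, smul_eq_mul, mul_one]
  exact le_rfl

end Pool.Agent.P.MP_119182_lc.NU
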