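import Pool.Agent.P.MP_119182_lc.NU.EIface

/-! Step NS. -/

set_option autoImplicit false

namespace Pool.Agent.P.MP_119182_lc.NU

open Finset
open scoped Classical

namespace NSc

/-- The keys whose left edge is not stale. -/
noncomputable def Fr (d : Run) (i : ℕ) : Finset ℤ := d.keys.filter fun v => ¬ d.Stale i v

/-- The keys below the accessed one whose left parent changes. -/
noncomputable def Low (d : Run) (i : ℕ) : Finset ℤ :=
  (Ioo d.L (d.x i)).filter fun v => d.lp (i + 1) v ≠ d.lp i v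

theorem card_Low {d : Run} (h : d.OK) {i : ℕ} (hi : i < d.m) : #(Low d i) ≤ #(d.mir.U i) := by
  have hs := h.step i hi
  have ht := h.tree i hi.le
  have key : ∀ v ∈ Low d i, d.L < d.lp i v ∧ d.lp i v < v ∧ v < d.x i ∧
      d.x i < d.rp i (d.lp i v) ∧ d.rp (i + 1) (d.lp i v) = v := by
    intro v hv
    obtain ⟨hv1, hv2⟩ := mem_filter.1 hv
    obtain ⟨a1, a2⟩ := mem_Ioo.1 hv1
    have hR : v < d.R := a2.trans hs.mem.2
    have hb := ht.bnd v a1 hR
    have hx : d.x i < d.rp i v := by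
      by_contra hn
      exact hv2 (hs.off v a1 hR a2.ne (fun hc => hn hc.2)).1
    obtain ⟨b1, b2, -⟩ := hs.lowL v a1 a2 hx hv2
    have := ht.ancL v a1 hR b1
    exact ⟨b1, hb.2.1, a2, by omega, b2⟩
  apply card_le_card_of_injOn (fun v => mr (d.lp i v))
  · intro v hv
    obtain ⟨a1, a2, a3, a4, a5⟩ := key v hv
    refine mem_coe.2 (Run.mem_U.2 ⟨Run.mem_P.2 ⟨?_, ?_, ?_⟩, ?_⟩)
    · exact mr_lt.2 (a2.trans a3)
    · exact mr_lt.2 a1
    · show mr (d.rp i (mr (mr (d.lp i v)))) < mr (d.x i)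
      rw [mr_mr]
      exact mr_lt.2 a4
    · show mr (d.rp (i + 1) (mr (mr (d.lp i v)))) ≠ mr (d.x i)
      rw [mr_mr, a5]
      exact fun hc => a3.ne (mr_inj.1 hc)
  · intro v hv w hw hvw
    have e1 := (key v hv).2.2.2.2
    have e2 := (key w hw).2.2.2.2
    have e3 : d.lp i v = d.lp i w := mr_inj.1 hvw
    rw [← e1, ← e2, e3]

theorem stale_succ {d : Run} {i : ℕ} {v : ℤ} (h1 : d.lp (i + 1) v = d.lp i v)
    (h2 : ¬ (d.lp i v < d.x i ∧ d.x i ≤ v)) (h : d.Stale i v) : d.Stale (i + 1) v := by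
  obtain ⟨s, s1, s2, s3⟩ := h
  refine ⟨s, by omega, by rw [h1]; exact s2, fun t t1 t2 => ?_⟩
  rw [h1]
  rcases Nat.lt_succ_iff_lt_or_eq.1 t2 with t3 | t3
  · exact s3 t t1 t3
  · rw [t3]; exact h2

theorem step {d : Run} (h : d.OK) {i : ℕ} (hi : i < d.m) :
    #(Fr d (i + 1)) + #(d.Ns i) ≤ #(Fr d i) + (2 * #(d.U i) + #(d.mir.U i) + 1) := by
  have hs := h.step i hi
  have hsub : Fr d (i + 1) ⊆ insert (d.x i) ((Fr d i \ d.Ns i) ∪ d.U i ∪ Low d i) := by
    intro v hv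
    obtain ⟨hk, hn⟩ := mem_filter.1 hv
    obtain ⟨k1, k2⟩ := Run.mem_keys.1 hk
    have old : d.lp (i + 1) v = d.lp i v → ¬ (d.lp i v < d.x i ∧ d.x i ≤ v) → v ∉ d.P i →
        v ∈ insert (d.x i) ((Fr d i \ d.Ns i) ∪ d.U i ∪ Low d i) := by
      intro a1 a2 a3
      refine mem_insert_of_mem (mem_union_left _ (mem_union_left _ (mem_sdiff.2 ⟨?_, ?_⟩)))
      · exact mem_filter.2 ⟨hk, fun hc => hn (stale_succ a1 a2 hc)⟩
      · exact fun hc => a3 (mem_filter.1 hc).1
    rcases lt_trichotomy v (d.x i) with hlt | heq | hgt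
    · by_cases hl : d.lp (i + 1) v = d.lp i v
      · exact old hl (fun hc => by omega) (fun hc => by have := (Run.mem_P.1 hc).1; omega)
      · exact mem_insert_of_mem (mem_union_right _ (mem_filter.2 ⟨mem_Ioo.2 ⟨k1, hlt⟩, hl⟩))
    · exact mem_insert.2 (Or.inl heq)
    · by_cases hP : d.lp i v < d.x i
      · by_cases hl : d.lp (i + 1) v = d.x i
        · exact absurd ⟨i, Nat.lt_succ_self i, hl.symm, fun t t1 t2 => by omega⟩ hn
        · exact mem_insert_of_mem (mem_union_left _ (mem_union_right _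
            (Run.mem_U.2 ⟨Run.mem_P.2 ⟨hgt, k2, hP⟩, hl⟩)))
      · exact old (hs.off v k1 k2 hgt.ne' (fun hc => hP hc.1)).1 (fun hc => hP hc.1)
          (fun hc => hP (Run.mem_P.1 hc).2.2)
  have hNs : d.Ns i ⊆ Fr d i := by
    intro v hv
    obtain ⟨a1, a2⟩ := mem_filter.1 hv
    obtain ⟨b1, b2, -⟩ := Run.mem_P.1 a1
    exact mem_filter.2 ⟨Run.mem_keys.2 ⟨hs.mem.1.trans b1, b2⟩, a2⟩
  have a1 := card_le_card hsub
  have a2 := card_insert_le (d.x i) ((Fr d i \ d.Ns i) ∪ d.U i ∪ Low d i)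
  have a3 := card_union_le ((Fr d i \ d.Ns i) ∪ d.U i) (Low d i)
  have a4 := card_union_le (Fr d i \ d.Ns i) (d.U i)
  have a5 := card_sdiff_add_card_eq_card hNs
  have a6 := card_Low h hi
  omega

theorem tele {d : Run} (h : d.OK) : ∀ k ≤ d.m, #(Fr d k) + ∑ i ∈ range k, #(d.Ns i) ≤
    #(Fr d 0) + ∑ i ∈ range k, (2 * #(d.U i) + #(d.mir.U i) + 1) := by
  intro k
  induction k with
  | zero => intro _; simp
  | succ k ih =>
    intro hk
    have a1 := ih (by omega)
    have a2 := step h (show k < d.m by omega)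
    rw [sum_range_succ, sum_range_succ]
    omega

end NSc

theorem p_NS :
    S_NS := by
  intro d h
  have a1 := NSc.tele h d.m le_rfl
  have a2 : #(NSc.Fr d 0) ≤ (d.R - d.L).toNat := by
    refine (card_filter_le _ _).trans ?_
    unfold Run.keys
    rw [Int.card_Ioo]
    omega
  have a3 : ∑ i ∈ range d.m, (2 * #(d.U i) + #(d.mir.U i) + 1) =
      2 * d.LamR + d.mir.LamR + d.m := by
    rw [sum_add_distrib, sum_add_distrib, ← mul_sum]
    simp only [sum_const, card_range, smul_eq_mul, mul_one]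
    rfl
  omega

end Pool.Agent.P.MP_119182_lc.NU
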