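import Pool.Agent.P.MP_119182_lc.NU.EIface

/-! Step TSPL. -/

set_option autoImplicit false

namespace Pool.Agent.P.MP_119182_lc.NU

open Finset
open scoped Classical

namespace TSPLc

end TSPLc

theorem p_TSPL :
    S_TSPL := by
  intro d h i hi
  have hT := h.tree i hi.le
  have hx := (h.step i hi).mem
  have key : ∀ v ∈ d.Tn i, v ∈ d.P i ∧ v < d.rp i v ∧ d.L < d.lp i v ∧
      d.rp i (d.lp i v) = d.rp i v := by
    intro v hv
    obtain ⟨a, b, c⟩ := mem_filter.1 hv
    obtain ⟨a1, a2, a3⟩ := Run.mem_P.1 a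
    have b1 := hT.bnd v (by omega) a2
    have b2 := hT.bnd (d.rp i v) (by omega) b
    have b3 := hT.ancL v (by omega) a2 (by omega)
    have b4 := hT.lamL (d.rp i v) (d.lp i v) (by omega) b c (by omega)
    exact ⟨a, by omega, by omega, by omega⟩
  have h1 : #((d.Tn i).filter fun v => ¬ d.mir.Stale i (mr (d.lp i v))) ≤ #(d.mir.Ns i) := by
    refine card_le_card_of_injOn (fun v => mr (d.lp i v)) (fun v hv => ?_) fun v hv w hw e => ?_
    · obtain ⟨a, b⟩ := mem_filter.1 (mem_coe.1 hv)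
      obtain ⟨a1, a2, a3, a4⟩ := key v a
      obtain ⟨c1, c2, c3⟩ := Run.mem_P.1 a1
      refine mem_coe.2 (mem_filter.2 ⟨Run.mem_P.2 ⟨mr_lt.2 c3, mr_lt.2 a3, mr_lt.2 ?_⟩, b⟩)
      rw [mr_mr, a4]
      omega
    · obtain ⟨a1, a2, -, a4⟩ := key v (mem_filter.1 (mem_coe.1 hv)).1
      obtain ⟨b1, b2, -, b4⟩ := key w (mem_filter.1 (mem_coe.1 hw)).1
      have e1 : d.rp i v = d.rp i w := by rw [← a4, ← b4, mr_inj.1 e]
      rcases lt_trichotomy v w with c | c | c
      · have := Run.P_gap h hi a1 b1 c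
        omega
      · exact c
      · have := Run.P_gap h hi b1 a1 c
        omega
  refine le_trans (card_le_card (t := d.Ns i ∪ ((d.Tn i).filter fun v =>
    ¬ d.mir.Stale i (mr (d.lp i v))) ∪ d.Dbl i) fun v hv => ?_)
    ((card_union_le _ _).trans (Nat.add_le_add_right ((card_union_le _ _).trans
      (Nat.add_le_add_left h1 _)) _))
  by_cases a : d.Stale i v
  · by_cases b : d.mir.Stale i (mr (d.lp i v))
    · exact mem_union_right _ (mem_filter.2 ⟨hv, a, b⟩)
    · exact mem_union_left _ (mem_union_right _ (mem_filter.2 ⟨hv, b⟩))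
  · exact mem_union_left _ (mem_union_left _ (mem_filter.2 ⟨(key v hv).1, a⟩))

end Pool.Agent.P.MP_119182_lc.NU
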