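import Pool.Agent.P.MP_119182_lc.NU.EIface

/-! Step TURN. -/

set_option autoImplicit false

namespace Pool.Agent.P.MP_119182_lc.NU

open Finset
open scoped Classical

namespace TURNc

theorem side (hWCNT : S_WCNT) (hTSPL : S_TSPL) (d : Run) (h : d.OK) (hw : d.Win) :
    d.NR ≤ 2 * (∑ i ∈ range d.m, #(d.Ns i) + ∑ i ∈ range d.m, #(d.mir.Ns i) +
      ∑ i ∈ range d.m, #(d.Dbl i)) + 2 * d.LamR + 2 * d.m := by
  have e : 2 * d.m = ∑ _i ∈ range d.m, 2 := by simp [mul_comm]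
  rw [Run.NR, Run.LamR, ← sum_add_distrib, ← sum_add_distrib, mul_sum, mul_sum, e,
    ← sum_add_distrib, ← sum_add_distrib]
  refine sum_le_sum fun i hi => ?_
  have h1 := hWCNT d h hw i (mem_range.1 hi)
  have h2 := hTSPL d h i (mem_range.1 hi)
  omega

end TURNc

theorem p_TURN (hEMIR : S_EMIR) (hWCNT : S_WCNT) (hTSPL : S_TSPL) (hNS : S_NS) (hDBL : S_DBL) :
    S_TURN := by
  intro d e hd he hs hw hw'
  have hd' := (hEMIR d).2 hd
  have he' := (hEMIR e).2 he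
  have hs' : d.mir.Same e.mir := by
    obtain ⟨a, b, c, f⟩ := hs
    refine ⟨?_, ?_, ?_, ?_⟩ <;> simp only [Run.mir, a, b, c, f]
  have h1 := TURNc.side hWCNT hTSPL d hd hw
  have h2 := TURNc.side hWCNT hTSPL d.mir hd' hw'
  have h3 := hNS d hd
  have h4 := hNS d.mir hd'
  have h5 := hDBL d e hd he hs
  have h6 := hDBL d.mir e.mir hd' he' hs'
  have e1 : d.mir.m = d.m := rfl
  have e2 : e.mir.m = e.m := rfl
  have e3 : d.mir.R - d.mir.L = d.R - d.L := by
    simp only [Run.mir, mr]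
    omega
  have e4 := hs.2.2.1
  rw [(hEMIR d).1] at h2 h4
  rw [(hEMIR e).1] at h6
  rw [e3] at h4
  rw [e1] at h2 h4 h6
  omega

end Pool.Agent.P.MP_119182_lc.NU
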