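import Pool.Agent.P.MP_119182_lc.NU.EIface

/-! Step WCNT. -/

set_option autoImplicit false

namespace Pool.Agent.P.MP_119182_lc.NU

open Finset
open scoped Classical

namespace WCNTc

end WCNTc

theorem p_WCNT :
    S_WCNT := by
  intro d h hw i hi
  have ht := h.tree i hi.le
  have hx := (h.step i hi).mem
  have bd : ∀ v ∈ d.P i, v < d.rp i v ∧ d.rp i v ≤ d.R := fun v hv => by
    obtain ⟨h1, h2, -⟩ := Run.mem_P.1 hv
    exact (ht.bnd v (hx.1.trans h1) h2).2.2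
  have up : ∀ v ∈ d.P i, d.rp i v < d.R → d.rp i v ∈ d.P i ∧ d.lp i (d.rp i v) ≤ d.lp i v :=
    fun v hv hr => by
      have b := bd v hv
      obtain ⟨h1, h2, h3⟩ := Run.mem_P.1 hv
      have := ht.ancR v (hx.1.trans h1) h2 hr
      exact ⟨Run.mem_P.2 ⟨by omega, hr, by omega⟩, this⟩
  obtain ⟨F, hF, cF⟩ : ∃ F : Finset ℤ → Finset ℤ,
      (∀ X v, v ∈ d.P i → d.rp i v ∈ X → v ∈ F X) ∧ ∀ X, #(F X) ≤ #X := by
    refine ⟨fun X => (d.P i).filter fun v => d.rp i v ∈ X, fun X v a b => mem_filter.2 ⟨a, b⟩,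
      fun X => card_le_card_of_injOn (d.rp i) (fun v hv => (mem_filter.1 hv).2) fun a ha b hb e => ?_⟩
    have ha := (mem_filter.1 ha).1
    have hb := (mem_filter.1 hb).1
    have := bd a ha
    have := bd b hb
    rcases lt_trichotomy a b with l | l | l
    · have := Run.P_gap h hi ha hb l
      omega
    · exact l
    · have := Run.P_gap h hi hb ha l
      omega
  have sub : d.P i ⊆ F {d.R} ∪ F (F {d.R}) ∪ d.Tn i ∪ F (d.Tn i) ∪ F (d.U i) ∪ F (F (d.U i)) := by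
    intro v hv
    simp only [mem_union]
    rcases (bd v hv).2.eq_or_lt with e | l1
    · exact .inl (.inl (.inl (.inl (.inl (hF _ _ hv (mem_singleton.2 e))))))
    obtain ⟨p1, a1⟩ := up v hv l1
    rcases (bd _ p1).2.eq_or_lt with e | l2
    · exact .inl (.inl (.inl (.inl (.inr (hF _ _ hv (hF _ _ p1 (mem_singleton.2 e)))))))
    obtain ⟨p2, a2⟩ := up _ p1 l2
    rcases a1.eq_or_lt with e1 | t1
    swap
    · exact .inl (.inl (.inl (.inr (mem_filter.2 ⟨hv, l1, t1⟩))))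
    rcases a2.eq_or_lt with e2 | t2
    swap
    · exact .inl (.inl (.inr (hF _ _ hv (mem_filter.2 ⟨p1, l2, t2⟩))))
    rcases hw i hi v hv l1 l2 e1 (e2.trans e1) with u | u
    · exact .inl (.inr (hF _ _ hv (Run.mem_U.2 ⟨p1, u⟩)))
    · exact .inr (hF _ _ hv (hF _ _ p1 (Run.mem_U.2 ⟨p2, u⟩)))
  have c0 := card_le_card sub
  have c1 := card_union_le (F {d.R} ∪ F (F {d.R}) ∪ d.Tn i ∪ F (d.Tn i) ∪ F (d.U i)) (F (F (d.U i)))
  have c2 := card_union_le (F {d.R} ∪ F (F {d.R}) ∪ d.Tn i ∪ F (d.Tn i)) (F (d.U i))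
  have c3 := card_union_le (F {d.R} ∪ F (F {d.R}) ∪ d.Tn i) (F (d.Tn i))
  have c4 := card_union_le (F {d.R} ∪ F (F {d.R})) (d.Tn i)
  have c5 := card_union_le (F {d.R}) (F (F {d.R}))
  have e1 := cF {d.R}
  have e2 := cF (F {d.R})
  have e3 := cF (d.Tn i)
  have e4 := cF (d.U i)
  have e5 := cF (F (d.U i))
  rw [card_singleton] at e1
  omega

end Pool.Agent.P.MP_119182_lc.NU
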