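import Pool.Agent.P.MP_119182_lc.NU.Base

/-! Elementary facts on runs, good sets and systems. -/

set_option autoImplicit false

namespace Pool.Agent.P.MP_119182_lc.NU

open Finset
open scoped Classical

/-- The capped sum of the class sizes. -/
noncomputable def Psi {α : Type} (c : ℕ) (D : Finset ℤ) (f : ℤ → α) : ℕ :=
  ∑ a ∈ D.image f, min c (D.filter fun v => f v = a).card

@[simp] theorem mr_mr (v : ℤ) : mr (mr v) = v := by unfold mr; omega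

theorem mr_lt {a b : ℤ} : mr a < mr b ↔ b < a := by unfold mr; omega

theorem mr_le {a b : ℤ} : mr a ≤ mr b ↔ b ≤ a := by unfold mr; omega

theorem mr_inj {a b : ℤ} : mr a = mr b ↔ a = b := by unfold mr; omega

namespace Run

variable {d : Run}

theorem mem_keys {v : ℤ} : v ∈ d.keys ↔ d.L < v ∧ v < d.R := by
  unfold keys; exact mem_Ioo

theorem mem_P {i : ℕ} {v : ℤ} : v ∈ d.P i ↔ d.x i < v ∧ v < d.R ∧ d.lp i v < d.x i := by
  unfold P; rw [mem_filter, mem_Ioo, and_assoc]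

theorem mem_U {i : ℕ} {u : ℤ} : u ∈ d.U i ↔ u ∈ d.P i ∧ d.lp (i + 1) u ≠ d.x i := by
  unfold U; exact mem_filter

theorem mem_unp {i : ℕ} {Q : Finset ℤ} {Y : Set ℤ} {u : ℤ} :
    u ∈ d.unp i Q Y ↔ u ∈ d.U i ∧ u ∉ Q ∧ d.lp (i + 1) u ∈ Y ∧ d.rp i u ∈ Y := by
  unfold unp; rw [mem_filter]

/-- The shape of a right link. -/
theorem link (h : d.OK) {i : ℕ} (hi : i < d.m) {u : ℤ} (hu : u ∈ d.U i) :
    d.lp (i + 1) u ∈ d.P i ∧ d.lp (i + 1) u < u ∧ u < d.rp i u ∧ d.rp i u ≤ d.R ∧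
      d.rp i (d.lp (i + 1) u) = u ∧ d.rp (i + 1) u = d.rp i u ∧
      d.lp (i + 1) (d.lp (i + 1) u) = d.x i := by
  obtain ⟨hP, hne⟩ := mem_U.1 hu
  obtain ⟨h1, h2, h3⟩ := mem_P.1 hP
  have hs := h.step i hi
  obtain ⟨a1, a2, a3, a4, a5, a6⟩ := hs.losR u h1 h2 h3 hne
  have hb := (h.tree i hi.le).bnd u (hs.mem.1.trans h1) h2
  exact ⟨mem_P.2 ⟨a1, a2.trans h2, a3⟩, a2, hb.2.2.1, hb.2.2.2, a4, a5, a6⟩

/-- No path node lies strictly between a path node and its right parent. -/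
theorem P_gap (h : d.OK) {i : ℕ} (hi : i < d.m) {y z : ℤ} (hy : y ∈ d.P i) (hz : z ∈ d.P i)
    (hyz : y < z) : d.rp i y ≤ z := by
  obtain ⟨h1, h2, -⟩ := mem_P.1 hy
  obtain ⟨-, -, h3⟩ := mem_P.1 hz
  by_contra hc
  have := ((h.tree i hi.le).lamR y z ((h.step i hi).mem.1.trans h1) h2 hyz (not_le.1 hc)).1
  omega

theorem unp_mem (h : d.OK) {i : ℕ} (hi : i < d.m) {Q : Finset ℤ} {Y : Set ℤ}
    (hY : Y.OrdConnected) {u : ℤ} (hu : u ∈ d.unp i Q Y) : u ∈ Y := by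
  obtain ⟨h1, -, h2, h3⟩ := mem_unp.1 hu
  obtain ⟨-, a, b, -⟩ := link h hi h1
  exact hY.out h2 h3 ⟨a.le, b.le⟩

theorem unp_mono {i : ℕ} {Q Q' : Finset ℤ} {Y Y' : Set ℤ} (hQ : Q' ⊆ Q) (hY : Y ⊆ Y') :
    d.unp i Q Y ⊆ d.unp i Q' Y' := by
  intro u hu
  obtain ⟨h1, h2, h3, h4⟩ := mem_unp.1 hu
  exact mem_unp.2 ⟨h1, fun h => h2 (hQ h), hY h3, hY h4⟩

theorem Good.mono {c i v v' : ℕ} {Q : Finset ℤ} {Y : Set ℤ} (h : d.Good c i Q v Y)
    (hv : v ≤ v') : d.Good c i Q v' Y :=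
  le_trans h (Nat.mul_le_mul_right _ hv)

theorem Good.monoQ {c i v : ℕ} {Q Q' : Finset ℤ} {Y : Set ℤ} (h : d.Good c i Q v Y)
    (hQ : Q ⊆ Q') : d.Good c i Q' v Y :=
  le_trans (Nat.mul_le_mul_left _ (card_le_card (unp_mono hQ subset_rfl))) h

theorem good_of_empty {c i v : ℕ} {Q : Finset ℤ} {Y : Set ℤ}
    (h : ∀ u ∈ d.U i, u ∉ Q → d.lp (i + 1) u ∈ Y → d.rp i u ∈ Y → False) : d.Good c i Q v Y := by
  have : d.unp i Q Y = ∅ := by
    apply eq_empty_of_forall_notMem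
    intro u hu
    obtain ⟨h1, h2, h3, h4⟩ := mem_unp.1 hu
    exact h u h1 h2 h3 h4
  unfold Good
  rw [this]
  simp

/-- An interval with at most one path node is good. -/
theorem good_of_one (h : d.OK) {c i v : ℕ} (hi : i < d.m) {Q : Finset ℤ} {Y : Set ℤ}
    (hY : Y.OrdConnected) (h1 : ∀ a ∈ d.P i, ∀ b ∈ d.P i, a ∈ Y → b ∈ Y → a = b) :
    d.Good c i Q v Y := by
  apply good_of_empty
  intro u hu hq a b
  have huY := unp_mem h hi hY (mem_unp.2 ⟨hu, hq, a, b⟩)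
  obtain ⟨p1, p2, -⟩ := link h hi hu
  have := h1 _ p1 _ (mem_U.1 hu).1 a huY
  omega

theorem GoodF.mono {α : Type} {c i v v' : ℕ} {Q : Finset ℤ} {Y Y' : Set ℤ} {f : ℤ → α}
    (h : d.GoodF c i Q v Y f) (hY : Y' ⊆ Y) (hv : v ≤ v') : d.GoodF c i Q v' Y' f :=
  fun Z hZ hc hf => (h Z (hZ.trans hY) hc hf).mono hv

theorem Rgt.sub {i : ℕ} {Y Z : Set ℤ} (h : d.Rgt i Y) (hZ : Z ⊆ Y) (hc : Z.OrdConnected) :
    d.Rgt i Z := ⟨hc, fun y hy => h.2 y (hZ hy)⟩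

theorem Sys.mono {K K' : ℕ} {r r' : ℕ → Finset ℤ → Prop} (h : d.Sys K r) (hK : K ≤ K')
    (hr : ∀ i < d.m, ∀ Q, r i Q → r' i Q) : d.Sys K' r' := by
  obtain ⟨Pd, h1, h2⟩ := h
  exact ⟨Pd, h1.trans hK, fun i hi Q hQ => hr i hi Q (h2 i hi Q hQ)⟩

theorem Sys.and {K K' : ℕ} {r r' : ℕ → Finset ℤ → Prop} (h : d.Sys K r) (h' : d.Sys K' r') :
    d.Sys (K + K') fun i Q => r i Q ∧ r' i Q := by
  obtain ⟨Pd, h1, h2⟩ := h
  obtain ⟨Pd', h1', h2'⟩ := h'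
  refine ⟨fun i => Pd i ∪ Pd' i, ?_, fun i hi Q hQ =>
    ⟨h2 i hi Q (subset_union_left.trans hQ), h2' i hi Q (subset_union_right.trans hQ)⟩⟩
  calc ∑ i ∈ range d.m, (Pd i ∪ Pd' i).card
      ≤ ∑ i ∈ range d.m, ((Pd i).card + (Pd' i).card) :=
        sum_le_sum fun i _ => card_union_le _ _
    _ ≤ K + K' := by rw [sum_add_distrib]; omega

theorem Sys.triv {r : ℕ → Finset ℤ → Prop} (h : ∀ i < d.m, ∀ Q, r i Q) : d.Sys 0 r :=
  ⟨fun _ => ∅, by simp, fun i hi Q _ => h i hi Q⟩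

theorem Sys.all {ι : Type} (s : Finset ι) (K : ι → ℕ) (r : ι → ℕ → Finset ℤ → Prop)
    (h : ∀ j ∈ s, d.Sys (K j) (r j)) :
    d.Sys (∑ j ∈ s, K j) fun i Q => ∀ j ∈ s, r j i Q := by
  induction s using Finset.induction_on with
  | empty => exact Sys.triv (by simp)
  | insert a s ha ih =>
    rw [sum_insert ha]
    refine ((h a (mem_insert_self _ _)).and
      (ih fun j hj => h j (mem_insert_of_mem hj))).mono le_rfl ?_
    intro i _ Q hQ j hj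
    rcases mem_insert.1 hj with rfl | hj
    · exact hQ.1
    · exact hQ.2 j hj

end Run

end Pool.Agent.P.MP_119182_lc.NU
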