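import Pool.Agent.P.MP_119182_lc.NU.LIface

/-! Step BTW. -/

set_option autoImplicit false

namespace Pool.Agent.P.MP_119182_lc.NU

open Finset
open scoped Classical

namespace BTWc

end BTWc

theorem p_BTW (hJ : S_J) (hKR : S_KR) (hKL : S_KL) :
    S_BTW := by
  intro d l i a b y hd hl hi Ia Ib Iy fa e hay hyb
  rcases hay.eq_or_lt with rfl | hay
  · rfl
  rcases hyb.eq_or_lt with rfl | hyb
  · exact e.symm
  have fb := Lev.far_of_lab e.symm fa
  obtain ⟨s, o, c⟩ := (Lev.lab_eq_far fa fb).1 e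
  have sa := hl.slotm hay.le
  have sb := hl.slotm hyb.le
  have m := (Lev.cnt_eq_iff _ (sa.trans sb)).1 c
  have key : l.far d i y ∧ (d.x (l.tau d i y) < y ↔ d.x (l.tau d i a) < a) ∧
      l.om (l.tau d i y) = l.om (l.tau d i a) := by
    by_cases r : d.x (l.tau d i a) < a
    · obtain ⟨fy, ry, h1⟩ := hKR d l i b y hd hl hi Ib Iy fb (s.1 r) hyb fun z hz => by
        have := m z hz
        omega
      obtain ⟨-, -, h2⟩ := hKR d l i y a hd hl hi Iy Ia fy ry hay fun z hz => by
        have := m z (Lev.Acc_mono h1 le_rfl hz)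
        omega
      exact ⟨fy, iff_of_true ry r, by omega⟩
    · have j := (hJ d l i b hd hl hi Ib fb).1
      have m' : ∀ z ∈ l.Acc d (l.om (l.tau d i b)) i, ¬ (l.slot a < z ∧ z ≤ l.slot b) :=
        fun z hz => by
          have := m z hz
          have : z ≠ l.slot b := fun q => j (q ▸ hz)
          omega
      obtain ⟨fy, ry, h1⟩ := hKL d l i a y hd hl hi Ia Iy fa r hay fun z hz => by
        have := m' z (o ▸ hz)
        omega
      obtain ⟨-, -, h2⟩ := hKL d l i y b hd hl hi Iy Ib fy ry hyb fun z hz => by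
        have := m' z (Lev.Acc_mono (o ▸ h1) le_rfl hz)
        omega
      exact ⟨fy, iff_of_false ry r, by omega⟩
  refine (Lev.lab_eq_far key.1 fa).2 ⟨key.2.1, key.2.2,
    ((Lev.cnt_eq_iff _ sa).2 fun z hz => ?_).symm⟩
  have := m z (o ▸ hz)
  omega

end Pool.Agent.P.MP_119182_lc.NU
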