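import Pool.Agent.P.MP_119182_lc.NU.CIface

/-! Step CHMIR. -/

set_option autoImplicit false

namespace Pool.Agent.P.MP_119182_lc.NU

open Finset
open scoped Classical

namespace CHMIRc

variable (C : Cx)

theorem hy (i : ℕ) : C.mir.d.x i = -1 - C.d.x i := rfl

theorem hix (t w : ℕ) (v : ℤ) : C.mir.ix t w (-1 - v) = -1 - C.ix t w v :=
  congrArg (fun z => -1 - C.ix t w z) (sub_sub_cancel _ _)

theorem dv (e : ℕ) (a b : ℤ) : (-1 - a) / 2 ^ e = (-1 - b) / 2 ^ e ↔ a / 2 ^ e = b / 2 ^ e := by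
  rw [div_mir (by positivity), div_mir (by positivity), sub_right_inj]

variable (h : S_EVMIR)
include h

theorem evB (g t i : ℕ) (p : ℤ) :
    (C.mir.levB g t).Ev C.mir.d i (mr p) ↔ (C.levB g t).Ev C.d i p :=
  (h C.d (C.levB g t) (C.mir.levB g t) rfl rfl (it_mir g)
    (fun a b => dv _ a b) (mem_Sep_mir (hy C) (it_mir g) g) i p).2

theorem evC (g t i : ℕ) (p : ℤ) :
    (C.mir.levC g t).Ev C.mir.d i (mr p) ↔ (C.levC g t).Ev C.d i p :=
  (h C.d (C.levC g t) (C.mir.levC g t) rfl rfl (it_mir t)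
    (fun _ _ => Iff.rfl) (mem_Sep_mir (hy C) (it_mir t) t) i p).2

theorem evG (k l i : ℕ) (p : ℤ) :
    (C.mir.levG k l).Ev C.mir.d i (mr p) ↔ (C.levG k l).Ev C.d i p :=
  (h C.d (C.levG k l) (C.mir.levG k l) rfl rfl (it_mir k)
    (fun a b => by
      change it k (-1 - a) / 2 ^ l = it k (-1 - b) / 2 ^ l ↔ it k a / 2 ^ l = it k b / 2 ^ l
      rw [it_mir, it_mir, dv]) (mem_Sep_mir (hy C) (it_mir k) k) i p).2

theorem evW (t w l i : ℕ) (p : ℤ) :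
    (C.mir.levW t w l).Ev C.mir.d i (mr p) ↔ (C.levW t w l).Ev C.d i p :=
  (h C.d (C.levW t w l) (C.mir.levW t w l) (w0_mir (hy C) C.d.m t w)
    (w0_mir (hy C) C.d.m t (w + 1)) (hix C t w)
    (fun a b => by
      change C.mir.ix t w (-1 - a) / 2 ^ l = C.mir.ix t w (-1 - b) / 2 ^ l ↔
        C.ix t w a / 2 ^ l = C.ix t w b / 2 ^ l
      rw [hix, hix, dv]) (mem_Sep_mir (hy C) (hix C t w) (t - 1)) i p).2

end CHMIRc

theorem p_CHMIR (hEVMIR : S_EVMIR) (hCMIR : S_CMIR) :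
    S_CHMIR := by
  intro C
  have hW : ∀ h t i p, C.mir.chW h t i (mr p) ↔ C.chW h t i p := fun h t i p => by
    simp only [Cx.chW, Cx.fr, win_mir (CHMIRc.hy C), CHMIRc.evW C hEVMIR, (hCMIR C).1, mr_mr,
      or_comm (a := C.mir.frR h t i (mr p))]
  refine ⟨hW, fun j i p => ?_⟩
  simp only [Cx.ch, Cx.chB, Cx.chC, Cx.chG, hW, CHMIRc.evB C hEVMIR, CHMIRc.evC C hEVMIR,
    CHMIRc.evG C hEVMIR]
  rfl

end Pool.Agent.P.MP_119182_lc.NU
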