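import Pool.Agent.P.MP_119182_lc.NU.CIface

/-! Step CMIR. -/

set_option autoImplicit false

namespace Pool.Agent.P.MP_119182_lc.NU

open Finset
open scoped Classical

namespace CMIRc

end CMIRc

theorem p_CMIR (hMIR : S_MIR) :
    S_CMIR := by
  intro C
  have hy : ∀ i, C.mir.d.x i = -1 - C.d.x i := fun _ => rfl
  refine ⟨?_, ?_, fun h => ⟨hMIR _ h.run, Idx.mir hy h.idx, fun u v h1 h2 h3 h4 => ?_⟩⟩
  · obtain ⟨⟨L, R, m, x, lp, rp⟩, T, ix⟩ := C
    simp [Cx.mir, Run.mir]
  · have e : C.mir.d.keys.card = C.d.keys.card := by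
      change (Ioo (mr C.d.R) (mr C.d.L)).card = (Ioo C.d.L C.d.R).card
      rw [Int.card_Ioo, Int.card_Ioo]
      unfold mr
      congr 1
      omega
    unfold Cx.M
    rw [e]
    exact MM_mir hy _ _ _
  · change mr C.d.R ≤ u at h1
    change u ≤ mr C.d.L at h2
    change mr C.d.R ≤ v at h3
    change v ≤ mr C.d.L at h4
    unfold mr at h1 h2 h3 h4
    have e := h.one (-1 - u) (-1 - v) (by omega) (by omega) (by omega) (by omega)
    rw [it_mir, it_mir] at e
    change it C.T u = it C.T v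
    omega

end Pool.Agent.P.MP_119182_lc.NU
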