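import Pool.Agent.P.MP_119182_lc.NU.Sec4

/-! Tiers, recency, windows: the lemmas. -/

set_option autoImplicit false

namespace Pool.Agent.P.MP_119182_lc.NU

open Finset
open scoped Classical

/-! ### Scales and items -/

lemma sg_lt (t : ℕ) : sg t + 1 ≤ sg (t + 1) := by
  cases t with
  | zero => simp [sg]
  | succ t =>
    have := Nat.one_le_two_pow (n := t)
    simp only [sg, pow_succ]; omega

lemma sg_succ_le (t : ℕ) : sg (t + 1) ≤ 2 * sg t + 1 := by
  cases t with
  | zero => simp [sg]
  | succ t => simp only [sg, pow_succ]; omega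

lemma sg_mono : Monotone sg := monotone_nat_of_le_succ fun t => (Nat.le_succ _).trans (sg_lt t)

lemma cc_pos (t : ℕ) : 0 < cc t := Nat.two_pow_pos _

lemma cc_zero : cc 0 = 1 := rfl

lemma two_cc_le (t : ℕ) : 2 * cc t ≤ cc (t + 1) := by
  rw [cc, cc, ← pow_succ']
  exact Nat.pow_le_pow_right two_pos (sg_lt t)

lemma cc_mono : Monotone cc := monotone_nat_of_le_succ fun t => by have := two_cc_le t; omega

lemma div_mir {c : ℤ} (hc : 0 < c) (v : ℤ) : (-1 - v) / c = -1 - v / c := by
  have h1 := Int.mul_ediv_add_emod v c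
  have h2 := Int.emod_nonneg v hc.ne'
  have h3 := Int.emod_lt_of_pos v hc
  have h4 : -1 - v = (c - 1 - v % c) + c * (-1 - v / c) := by linear_combination h1
  rw [h4, Int.add_mul_ediv_left _ _ hc.ne', Int.ediv_eq_zero_of_lt (by omega) (by omega), zero_add]

lemma div_pow_mono (k : ℕ) : Monotone fun v : ℤ => v / 2 ^ k :=
  fun _ _ h => Int.ediv_le_ediv (by positivity) h

lemma div_pow_div (v : ℤ) (k l : ℕ) : v / 2 ^ k / 2 ^ l = v / 2 ^ (k + l) := by
  rw [Int.ediv_ediv_of_nonneg (by positivity), pow_add]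

lemma it_mono (t : ℕ) : Monotone (it t) := div_pow_mono _

@[simp] lemma it_zero (v : ℤ) : it 0 v = v := by simp [it, sg]

lemma it_it {t t' : ℕ} (h : t ≤ t') (v : ℤ) : it t' v = it t v / 2 ^ (sg t' - sg t) := by
  rw [it, it, div_pow_div, Nat.add_sub_cancel' (sg_mono h)]

lemma it_congr {t t' : ℕ} (h : t ≤ t') {u v : ℤ} (e : it t u = it t v) : it t' u = it t' v := by
  rw [it_it h, it_it h, e]

lemma it_le_of {t t' : ℕ} (h : t ≤ t') {u v : ℤ} (e : it t u ≤ it t v) : it t' u ≤ it t' v := by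
  rw [it_it h, it_it h]; exact div_pow_mono _ e

lemma it_lt_of {t t' : ℕ} (h : t ≤ t') {u v : ℤ} (e : it t' u < it t' v) : it t u < it t v :=
  lt_of_not_ge fun h' => e.not_ge (it_le_of h h')

lemma lt_of_it_lt {t : ℕ} {u v : ℤ} (e : it t u < it t v) : u < v :=
  lt_of_not_ge fun h' => e.not_ge (it_mono t h')

lemma it_mir (t : ℕ) (v : ℤ) : it t (-1 - v) = -1 - it t v := div_mir (by positivity) v

lemma grp_le (T j : ℕ) : grp T j ≤ T := by
  cases j with
  | zero => exact Nat.zero_le _
  | succ j => exact min_le_left _ _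

lemma grp_le_succ (T j : ℕ) : grp T j ≤ grp T (j + 1) :=
  le_min (grp_le T j) (by omega)

lemma grp_mono (T : ℕ) : Monotone (grp T) := monotone_nat_of_le_succ (grp_le_succ T)

lemma grp_succ_le (T j : ℕ) : grp T (j + 1) ≤ grp T j + sg (grp T j) + 1 := min_le_right _ _

/-- A coarser labelling takes fewer values. -/
lemma card_coarse {α : Type} (S : Finset α) (y : α → ℤ) {f g : ℤ → ℤ}
    (h : ∀ u v, g u = g v → f u = f v) :
    (S.image fun s => f (y s)).card ≤ (S.image fun s => g (y s)).card := by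
  have hf : Function.FactorsThrough f g := fun u v e => h u v e
  have e : (S.image fun s => f (y s)) =
      (S.image fun s => g (y s)).image (Function.extend g f fun _ => 0) := by
    rw [image_image]
    exact image_congr fun s _ => (hf.extend_apply _ _).symm
  rw [e]
  exact card_image_le

/-! ### Jumps and windows -/

variable {x : ℕ → ℤ}

lemma pass.mono {t t' i : ℕ} (h : pass x t i) (ht : t ≤ t') : pass x t' i := by
  obtain ⟨h1, s, hs, e, hd⟩ := h
  exact ⟨h1.trans ht, s, hs, it_congr ht e, hd.trans (cc_mono ht)⟩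

lemma not_pass_zero (i : ℕ) : ¬ pass x 0 i := fun h => by have := h.1; omega

lemma not_pass_first (t : ℕ) : ¬ pass x t 0 := fun ⟨_, _, h, _⟩ => by omega

lemma jmp_succ (t i : ℕ) : jmp x t (i + 1) = jmp x t i + if pass x t i then 0 else 1 := by
  rw [jmp, jmp, range_add_one, filter_insert]
  by_cases h : pass x t i <;> simp [h]

lemma jmp_le_succ (t i : ℕ) : jmp x t i ≤ jmp x t (i + 1) ∧ jmp x t (i + 1) ≤ jmp x t i + 1 := by
  rw [jmp_succ]; split_ifs <;> omega

lemma jmp_mono (t : ℕ) : Monotone (jmp x t) := monotone_nat_of_le_succ fun i => (jmp_le_succ t i).1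

lemma jmp_le (t m : ℕ) : jmp x t m ≤ m := (card_filter_le _ _).trans (card_range m).le

lemma jmp_zero (m : ℕ) : jmp x 0 m = m := by
  rw [jmp, filter_true_of_mem fun i _ => not_pass_zero i, card_range]

lemma jmp_add (t : ℕ) {s i : ℕ} (h : s ≤ i) :
    jmp x t (i + 1) = jmp x t (s + 1) + ((Ioc s i).filter fun r => ¬ pass x t r).card := by
  rw [jmp, jmp, ← card_union_of_disjoint, ← filter_union]
  · congr 2
    ext r
    simp only [mem_range, mem_union, mem_Ioc]
    omega
  · refine disjoint_filter_filter (disjoint_left.2 fun r h1 h2 => ?_)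
    simp only [mem_range, mem_Ioc] at h1 h2
    omega

lemma jmp_anti {t t' : ℕ} (h : t ≤ t') (m : ℕ) : jmp x t' m ≤ jmp x t m :=
  card_le_card (monotone_filter_right _ fun _ _ h1 h2 => h1 (h2.mono h))

lemma win_mono (t : ℕ) : Monotone (win x t) :=
  fun _ _ h => Nat.div_le_div_right (jmp_mono t (Nat.succ_le_succ h))

lemma rct_of_le {t s i : ℕ} (h : jmp x t (i + 1) ≤ jmp x t (s + 1) + cc t) : rct x t s i := by
  rw [rct, win, win, ← Nat.add_div_right _ (cc_pos t)]
  exact Nat.div_le_div_right h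

lemma rct.lt {t s i : ℕ} (h : rct x t s i) : jmp x t (i + 1) < jmp x t (s + 1) + 2 * cc t := by
  have h1 := Nat.lt_mul_div_succ (jmp x t (i + 1)) (cc_pos t)
  have h2 := Nat.mul_div_le (jmp x t (s + 1)) (cc t)
  have h3 : cc t * (jmp x t (i + 1) / cc t + 1) ≤ cc t * (jmp x t (s + 1) / cc t + 2) :=
    Nat.mul_le_mul_left _ (Nat.succ_le_succ h)
  rw [mul_add _ _ 2] at h3
  omega

lemma rct_refl (t i : ℕ) : rct x t i i := Nat.le_succ _

lemma rct_succ (t i : ℕ) : rct x t i (i + 1) :=
  rct_of_le (by have := (jmp_le_succ (x := x) t (i + 1)).2; have := cc_pos t; omega)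

lemma win_succ_le (t i : ℕ) : win x t (i + 1) ≤ win x t i + 1 := rct_succ t i

lemma rct.of_le {t s i i' : ℕ} (h : rct x t s i) (hi : i' ≤ i) : rct x t s i' :=
  (win_mono t hi).trans h

lemma rct.of_ge {t s s' i : ℕ} (h : rct x t s i) (hs : s ≤ s') : rct x t s' i :=
  h.trans (Nat.succ_le_succ (win_mono t hs))

lemma rct.mono {t t' s i : ℕ} (h : rct x t s i) (ht : t ≤ t') : rct x t' s i := by
  rcases le_or_gt i s with hs | hs
  · exact (rct_refl t' i).of_ge hs
  induction t', ht using Nat.le_induction with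
  | base => exact h
  | succ t' _ ih =>
    have h1 := ih.lt
    have h2 := two_cc_le t'
    have h3 : ((Ioc s i).filter fun r => ¬ pass x (t' + 1) r).card ≤
        ((Ioc s i).filter fun r => ¬ pass x t' r).card :=
      card_le_card (monotone_filter_right _ fun _ _ h1 h2 => h1 (h2.mono (Nat.le_succ _)))
    apply rct_of_le
    rw [jmp_add _ hs.le] at h1 ⊢
    omega

lemma win_zero (i : ℕ) : win x 0 i = i + 1 := by rw [win, jmp_zero, cc_zero, Nat.div_one]

lemma rct_zero {s i : ℕ} : rct x 0 s i ↔ i ≤ s + 1 := by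
  rw [rct, win_zero, win_zero]; omega

/-- The witness of a pass is recent. -/
lemma rct_of_dst {t s i : ℕ} (ht : 1 ≤ t) (hs : s ≤ i) (h : dst x s i ≤ cc t) : rct x t s i := by
  apply rct_of_le
  rw [jmp_add _ hs]
  refine Nat.add_le_add_left (le_trans ?_ h) _
  refine card_le_card_of_injOn x (fun r hr => mem_coe.2 (mem_image_of_mem x (mem_filter.1 hr).1)) ?_
  have key : ∀ r ∈ (Ioc s i).filter fun r => ¬ pass x t r,
      ∀ r' ∈ (Ioc s i).filter fun r => ¬ pass x t r, r < r' → x r ≠ x r' := by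
    intro r hr r' hr' hlt e
    simp only [mem_filter, mem_Ioc] at hr hr'
    refine hr'.2 ⟨ht, r, hlt, by rw [e], le_trans (card_le_card (image_subset_image ?_)) h⟩
    exact Ioc_subset_Ioc hr.1.1.le hr'.1.2
  intro r hr r' hr' e
  rcases lt_trichotomy r r' with h1 | h1 | h1
  · exact absurd e (key r hr r' hr' h1)
  · exact h1
  · exact absurd e.symm (key r' hr' r hr h1)

lemma pass.wit {t i : ℕ} (h : pass x t i) : ∃ s < i, it t (x s) = it t (x i) ∧ rct x t s i :=
  let ⟨h1, s, hs, e, hd⟩ := h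
  ⟨s, hs, e, rct_of_dst h1 hs.le hd⟩

lemma jumps_win (t w N : ℕ) :
    ((range N).filter fun s => win x t s = w ∧ ¬ pass x t s).card ≤ cc t := by
  have h : (Ico (cc t * w) (cc t * w + cc t)).card = cc t := by simp
  rw [← h]
  refine card_le_card_of_injOn (fun s => jmp x t (s + 1)) (fun s hs => ?_) ?_
  · obtain ⟨-, rfl, -⟩ := mem_filter.1 (mem_coe.1 hs)
    have h1 := Nat.lt_mul_div_succ (jmp x t (s + 1)) (cc_pos t)
    have h2 := Nat.mul_div_le (jmp x t (s + 1)) (cc t)
    rw [mul_add, mul_one] at h1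
    exact mem_coe.2 (mem_Ico.2 ⟨h2, h1⟩)
  · have key : ∀ r r', r < r' → ¬ pass x t r' → jmp x t (r + 1) < jmp x t (r' + 1) := by
      intro r r' hlt hp
      have h1 := jmp_mono (x := x) t (show r + 1 ≤ r' from hlt)
      have h2 := jmp_succ (x := x) t r'
      rw [if_neg hp] at h2
      omega
    intro r hr r' hr' e
    rcases lt_trichotomy r r' with h1 | h1 | h1
    · exact absurd e (key r r' h1 (mem_filter.1 (mem_coe.1 hr')).2.2).ne
    · exact h1
    · exact absurd e (key r' r h1 (mem_filter.1 (mem_coe.1 hr)).2.2).ne'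

lemma last_keys (c r : ℕ) :
    (((range r).filter fun s => ((Ioo s r).image x).card ≤ c).image x).card ≤ c + 1 := by
  rcases ((range r).filter fun s => ((Ioo s r).image x).card ≤ c).eq_empty_or_nonempty with h | h
  · simp [h]
  obtain ⟨s, hs, hm⟩ := exists_min_image _ id h
  refine le_trans (card_le_card (t := insert (x s) ((Ioo s r).image x)) ?_)
    ((card_insert_le _ _).trans (Nat.succ_le_succ (mem_filter.1 hs).2))
  intro v hv
  obtain ⟨s', hs', rfl⟩ := mem_image.1 hv
  rcases (show s ≤ s' from hm s' hs').eq_or_lt with rfl | h1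
  · exact mem_insert_self _ _
  · exact mem_insert_of_mem
      (mem_image_of_mem _ (mem_Ioo.2 ⟨h1, mem_range.1 (mem_filter.1 hs').1⟩))

/-- The number of items accessed in one window. -/
lemma items_win (t w N : ℕ) :
    (((range N).filter fun s => win x t s = w).image fun s => it t (x s)).card ≤ 2 * cc t + 1 := by
  rcases ((range N).filter fun s => win x t s = w).eq_empty_or_nonempty with h | h
  · simp [h]
  obtain ⟨r₀, hr₀, hm⟩ := exists_min_image _ id h
  have key : ∀ r, r ∈ (range N).filter (fun s => win x t s = w) → it t (x r) ∈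
      (((range N).filter fun s => win x t s = w ∧ ¬ pass x t s).image fun s => it t (x s)) ∪
        (((range r₀).filter fun s => ((Ioo s r₀).image x).card ≤ cc t).image x).image (it t) := by
    intro r
    induction r using Nat.strong_induction_on with
    | _ r ih =>
      intro hr
      obtain ⟨hr1, hr2⟩ := mem_filter.1 hr
      by_cases hp : pass x t r
      · obtain ⟨-, s, hs, e, hd⟩ := hp
        rw [← e]
        by_cases hw : win x t s = w
        · exact ih s hs (mem_filter.2 ⟨mem_range.2 (hs.trans (mem_range.1 hr1)), hw⟩)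
        · have h1 : s < r₀ := lt_of_not_ge fun h1 => hw (le_antisymm (hr2 ▸ win_mono t hs.le)
            ((mem_filter.1 hr₀).2 ▸ win_mono t h1))
          refine mem_union_right _ (mem_image_of_mem _ (mem_image_of_mem _
            (mem_filter.2 ⟨mem_range.2 h1, le_trans (card_le_card (image_subset_image ?_)) hd⟩)))
          exact Ioo_subset_Ioc_self.trans (Ioc_subset_Ioc_right (hm r hr))
      · exact mem_union_left _ (mem_image_of_mem _ (mem_filter.2 ⟨hr1, hr2, hp⟩))
  refine le_trans (card_le_card (image_subset_iff.2 key)) ((card_union_le _ _).trans ?_)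
  have h1 := (card_image_le (f := fun s => it t (x s))).trans (jumps_win (x := x) t w N)
  have h2 := (card_image_le (f := it t)).trans (last_keys (x := x) (cc t) r₀)
  omega

/-- The number of items accessed in two consecutive windows. -/
lemma items_two (t w N : ℕ) :
    (((range N).filter fun s => win x t s ≤ w ∧ w ≤ win x t s + 1).image
      fun s => it t (x s)).card ≤ 6 * cc t := by
  have h1 := items_win (x := x) t w N
  have h2 := items_win (x := x) t (w - 1) N
  have h3 := cc_pos t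
  refine le_trans (card_le_card (t := _ ∪ _) ?_) ((card_union_le _ _).trans
    ((Nat.add_le_add h1 h2).trans (by omega)))
  rw [← image_union, ← filter_or]
  exact image_subset_image (monotone_filter_right _ fun s _ hs => by omega)

/-! ### Recent labels -/

section

variable {r i : ℕ} {f : ℤ → ℤ} {S : ℤ}

lemma mem_Sep : S ∈ Sep x r f i ↔ ∃ s < i, rct x r s i ∧ f (x s) = S := by
  simp [Sep, and_assoc]

lemma mem_Qs : S ∈ Qs x r f i ↔ ∃ s ≤ i, rct x r s i ∧ f (x s) = S := by
  simp [Qs, and_assoc]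

lemma Qs_eq : Qs x r f i = insert (f (x i)) (Sep x r f i) := by
  ext S
  rw [mem_insert, mem_Qs, mem_Sep]
  constructor
  · rintro ⟨s, hs, h, rfl⟩
    rcases hs.eq_or_lt with rfl | hs
    · exact .inl rfl
    · exact .inr ⟨s, hs, h, rfl⟩
  · rintro (rfl | ⟨s, hs, h, rfl⟩)
    · exact ⟨i, le_rfl, rct_refl _ _, rfl⟩
    · exact ⟨s, hs.le, h, rfl⟩

lemma self_mem_Qs : f (x i) ∈ Qs x r f i := mem_Qs.2 ⟨i, le_rfl, rct_refl _ _, rfl⟩

lemma Sep_subset_Qs : Sep x r f i ⊆ Qs x r f i := by rw [Qs_eq]; exact subset_insert _ _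

lemma Sep_zero : Sep x r f 0 = ∅ := by simp [Sep]

lemma Qs_zero : Qs x r f 0 = {f (x 0)} := by rw [Qs_eq, Sep_zero]; rfl

lemma mem_Sep_succ : f (x i) ∈ Sep x r f (i + 1) :=
  mem_Sep.2 ⟨i, Nat.lt_succ_self i, rct_succ r i, rfl⟩

lemma Sep_succ_subset_Qs : Sep x r f (i + 1) ⊆ Qs x r f i := fun _ h =>
  let ⟨s, hs, h1, e⟩ := mem_Sep.1 h
  mem_Qs.2 ⟨s, Nat.lt_succ_iff.1 hs, h1.of_le (Nat.le_succ i), e⟩

lemma Sep_succ_subset : Sep x r f (i + 1) ⊆ insert (f (x i)) (Sep x r f i) :=
  Qs_eq ▸ Sep_succ_subset_Qs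

lemma Sep_succ_eq (h : win x r (i + 1) = win x r i) : Sep x r f (i + 1) = Qs x r f i :=
  Sep_succ_subset_Qs.antisymm fun _ hS =>
    let ⟨s, hs, h1, e⟩ := mem_Qs.1 hS
    mem_Sep.2 ⟨s, Nat.lt_succ_of_le hs, h.le.trans h1, e⟩

lemma Qs_succ_eq (h : win x r (i + 1) = win x r i) :
    Qs x r f (i + 1) = insert (f (x (i + 1))) (Qs x r f i) := by rw [Qs_eq, Sep_succ_eq h]

lemma Qs_mono {r' : ℕ} (h : r ≤ r') : Qs x r f i ⊆ Qs x r' f i := fun _ hS =>
  let ⟨s, hs, h1, e⟩ := mem_Qs.1 hS
  mem_Qs.2 ⟨s, hs, h1.mono h, e⟩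

lemma Sep_mono {r' : ℕ} (h : r ≤ r') : Sep x r f i ⊆ Sep x r' f i := fun _ hS =>
  let ⟨s, hs, h1, e⟩ := mem_Sep.1 hS
  mem_Sep.2 ⟨s, hs, h1.mono h, e⟩

lemma card_Qs (h : ∀ u v, it r u = it r v → f u = f v) : (Qs x r f i).card ≤ 6 * cc r := by
  refine le_trans (card_coarse _ x h) (le_trans (card_le_card (image_subset_image ?_))
    (items_two (x := x) r (win x r i) (i + 1)))
  exact monotone_filter_right _ fun s hs h1 =>
    ⟨win_mono r (Nat.lt_succ_iff.1 (mem_range.1 hs)), h1⟩

lemma card_Sep (h : ∀ u v, it r u = it r v → f u = f v) : (Sep x r f i).card ≤ 6 * cc r :=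
  (card_le_card Sep_subset_Qs).trans (card_Qs h)

end

/-! ### Common windows -/

lemma om_mono (T t : ℕ) : Monotone (om x T t) :=
  fun _ _ h => sum_le_sum fun t' _ => win_mono t' h

lemma om_eq_add {T t : ℕ} (h : t ≤ T) (i : ℕ) : om x T t i = win x t i + om x T (t + 1) i := by
  rw [om, om, ← insert_Icc_add_one_left_eq_Icc h, sum_insert (by simp)]

lemma win_eq_of_om {T t t' s i : ℕ} (h : om x T t s = om x T t i) (h1 : t ≤ t') (h2 : t' ≤ T) :
    win x t' s = win x t' i := by
  wlog hs : s ≤ i generalizing s i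
  · exact (this h.symm (le_of_not_ge hs)).symm
  exact (sum_eq_sum_iff_of_le fun t' _ => win_mono t' hs).1 h t' (mem_Icc.2 ⟨h1, h2⟩)

lemma om_eq_of_om {T t t' s i : ℕ} (h : om x T t s = om x T t i) (h1 : t ≤ t') :
    om x T t' s = om x T t' i :=
  sum_congr rfl fun _ h2 => win_eq_of_om h (h1.trans (mem_Icc.1 h2).1) (mem_Icc.1 h2).2

/-- The third property of the separators of a level system. -/
lemma Sep_subset_succ {T t r i : ℕ} {f : ℤ → ℤ} (h : om x T t (i + 1) = om x T t i) (h1 : t ≤ r)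
    (h2 : r ≤ T) : Sep x r f i ⊆ Sep x r f (i + 1) :=
  Sep_succ_eq (win_eq_of_om h h1 h2) ▸ Sep_subset_Qs

/-- An access in the current window is recent. -/
lemma rct_of_om {T t r s i : ℕ} (h : om x T t s = om x T t i) (h1 : t ≤ r) (h2 : r ≤ T) :
    rct x r s i := (win_eq_of_om h h1 h2).ge.trans (Nat.le_succ _)

lemma cc_mul_om (T t i : ℕ) : cc t * om x T t i ≤ 2 * jmp x t (i + 1) := by
  induction hd : T + 1 - t generalizing t with
  | zero => rw [om, Icc_eq_empty (by omega), sum_empty]; simp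
  | succ d ih =>
    have h1 := ih (t + 1) (by omega)
    have h2 := Nat.mul_le_mul_right (om x T (t + 1) i) (two_cc_le t)
    have h3 := jmp_anti (x := x) (Nat.le_add_right t 1) (i + 1)
    have h4 := Nat.mul_div_le (jmp x t (i + 1)) (cc t)
    rw [om_eq_add (by omega), mul_add, win]
    rw [mul_assoc] at h2
    omega

lemma chg_le_om (T t m : ℕ) : chg x T t m ≤ om x T t m := by
  induction m with
  | zero => simp [chg]
  | succ m ih =>
    have h := om_mono (x := x) T t (Nat.le_succ m)
    rw [chg, range_add_one, filter_insert]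
    split_ifs with h1
    · exact (card_insert_le _ _).trans (by unfold chg at ih; simp only [Nat.succ_eq_add_one] at h; omega)
    · exact ih.trans h

lemma cc_mul_chg (T t m : ℕ) : cc t * chg x T t m ≤ 2 * (jmp x t m + 1) :=
  (Nat.mul_le_mul_left _ (chg_le_om T t m)).trans
    ((cc_mul_om T t m).trans (Nat.mul_le_mul_left 2 (jmp_le_succ t m).2))

lemma chg_le (T t m : ℕ) : chg x T t m ≤ 2 * (jmp x t m + 1) :=
  (Nat.le_mul_of_pos_left _ (cc_pos t)).trans (cc_mul_chg T t m)

lemma exists_change (g : ℕ → ℕ) {i : ℕ} (h : g i ≠ g 0) :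
    ∃ i' < i, g (i' + 1) = g i ∧ g (i' + 1) ≠ g i' := by
  induction i with
  | zero => exact absurd rfl h
  | succ i ih =>
    by_cases h1 : g (i + 1) = g i
    · obtain ⟨i', h2, h3, h4⟩ := ih (h1 ▸ h)
      exact ⟨i', h2.trans (Nat.lt_succ_self i), h3.trans h1.symm, h4⟩
    · exact ⟨i, Nat.lt_succ_self i, rfl, h1⟩

/-- The number of windows after the first one. -/
lemma card_later (g : ℕ → ℕ) (m : ℕ) :
    (((range (m + 1)).filter fun i => g i ≠ g 0).image g).card ≤
      ((range m).filter fun i => g (i + 1) ≠ g i).card := by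
  refine le_trans (card_le_card ?_) (card_image_le (f := fun i => g (i + 1)))
  intro w hw
  obtain ⟨i, hi, rfl⟩ := mem_image.1 hw
  obtain ⟨i', h1, h2, h3⟩ := exists_change g (mem_filter.1 hi).2
  have := mem_range.1 (mem_filter.1 hi).1
  exact mem_image.2 ⟨i', mem_filter.2 ⟨mem_range.2 (by omega), h3⟩, h2⟩

lemma card_windows (T t m : ℕ) : ((range (m + 1)).image (om x T t)).card ≤ chg x T t m + 1 := by
  refine le_trans (card_le_card (t := insert (om x T t 0) _) ?_)
    ((card_insert_le _ _).trans (Nat.succ_le_succ (card_later (om x T t) m)))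
  intro w hw
  obtain ⟨i, hi, rfl⟩ := mem_image.1 hw
  by_cases h : om x T t i = om x T t 0
  · rw [h]; exact mem_insert_self _ _
  · exact mem_insert_of_mem (mem_image_of_mem _ (mem_filter.2 ⟨hi, h⟩))

lemma mem_fst {T t m i : ℕ} {f : ℤ → ℤ} :
    i ∈ fst x T t f m ↔ i < m ∧ ∀ s < i, om x T t s = om x T t i → f (x s) ≠ f (x i) := by
  simp only [fst, mem_filter, mem_range]

lemma fst_coarse {T t m : ℕ} {f g : ℤ → ℤ} (h : ∀ u v, g u = g v → f u = f v) :
    fst x T t f m ⊆ fst x T t g m := fun _ hi =>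
  mem_fst.2 ⟨(mem_fst.1 hi).1, fun s hs e e' => (mem_fst.1 hi).2 s hs e (h _ _ e')⟩

lemma fst_inj {T t m : ℕ} {f : ℤ → ℤ} (w : ℕ) :
    Set.InjOn (fun i => f (x i)) ((fst x T t f m).filter fun i => om x T t i = w) := by
  intro r hr r' hr' e
  obtain ⟨h1, h2⟩ := mem_filter.1 (mem_coe.1 hr)
  obtain ⟨h3, h4⟩ := mem_filter.1 (mem_coe.1 hr')
  rcases lt_trichotomy r r' with h | h | h
  · exact absurd e ((mem_fst.1 h3).2 r h (h2.trans h4.symm))
  · exact h
  · exact absurd e.symm ((mem_fst.1 h1).2 r' h (h4.trans h2.symm))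

/-- The number of times with a new label. -/
lemma card_fst {T t m n : ℕ} {f : ℤ → ℤ} (ht : t ≤ T) (h : ∀ u v, it t u = it t v → f u = f v)
    (hn : ((range m).image x).card ≤ n) : (fst x T t f m).card ≤ 6 * (n + 1 + jmp x t m) := by
  refine (card_le_card (fst_coarse h)).trans ?_
  rw [← card_filter_add_card_filter_not (fun i => om x T t i = om x T t 0)]
  have h1 : ((fst x T t (it t) m).filter fun i => om x T t i = om x T t 0).card ≤ n := by
    rw [← card_image_of_injOn (fst_inj _)]
    refine le_trans (card_coarse _ x (g := id) fun u v e => congrArg _ e) (le_trans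
      (card_le_card (image_subset_image fun i hi => ?_)) hn)
    exact mem_range.2 (mem_fst.1 (mem_filter.1 hi).1).1
  have h2 : ((fst x T t (it t) m).filter fun i => ¬ om x T t i = om x T t 0).card ≤
      (3 * cc t) * chg x T t m := by
    refine (card_le_mul_card_image (f := om x T t) _ (3 * cc t) fun w hw => ?_).trans
      (Nat.mul_le_mul_left _ (le_trans (card_le_card (image_subset_image fun i hi => ?_))
        (card_later (om x T t) m)))
    · obtain ⟨i, -, rfl⟩ := mem_image.1 hw
      have h3 := items_win (x := x) t (win x t i) m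
      have h4 := cc_pos t
      refine le_trans (card_le_card (filter_subset_filter _ (filter_subset _ _))) ?_
      rw [← card_image_of_injOn (fst_inj _)]
      refine le_trans (card_le_card (image_subset_image fun s hs => ?_)) (h3.trans (by omega))
      exact mem_filter.2 ⟨mem_range.2 (mem_fst.1 (mem_filter.1 hs).1).1,
        win_eq_of_om (mem_filter.1 hs).2 le_rfl ht⟩
    · exact mem_filter.2 ⟨mem_range.2 ((mem_fst.1 (mem_filter.1 hi).1).1.trans (Nat.lt_succ_self m)),
        (mem_filter.1 hi).2⟩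
  have h3 := cc_mul_chg (x := x) T t m
  rw [mul_assoc] at h2
  omega

/-- Every access has a first access with the same label in its window. -/
lemma exists_fst {T t m i : ℕ} (f : ℤ → ℤ) (hi : i < m) :
    ∃ s ∈ fst x T t f m, s ≤ i ∧ om x T t s = om x T t i ∧ f (x s) = f (x i) := by
  have h : ∃ s, om x T t s = om x T t i ∧ f (x s) = f (x i) := ⟨i, rfl, rfl⟩
  have h1 := Nat.find_spec h
  have h2 : Nat.find h ≤ i := Nat.find_min' h ⟨rfl, rfl⟩
  exact ⟨Nat.find h, mem_fst.2 ⟨h2.trans_lt hi, fun s hs e e' =>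
    Nat.find_min h hs ⟨e.trans h1.1, e'.trans h1.2⟩⟩, h2, h1⟩

lemma le_MM {n m T t : ℕ} (ht : t ≤ T) : (sg t + 1) * (n + 1 + jmp x t m) ≤ MM x n m T :=
  single_le_sum (f := fun t => (sg t + 1) * (n + 1 + jmp x t m)) (fun _ _ => Nat.zero_le _)
    (mem_range.2 (Nat.lt_succ_of_le ht))

lemma m_le_MM (n m T : ℕ) : n + 1 + m ≤ MM x n m T := by
  simpa [sg, jmp_zero] using le_MM (x := x) (n := n) (m := m) (Nat.zero_le T)

/-! ### Offline slots -/

lemma exists_Idx (x : ℕ → ℤ) (m : ℕ) : ∃ ix, Idx x m ix := by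
  let R : ℕ → ℕ → Finset ℤ := fun t w =>
    ((range (m + 1)).filter fun s => win x t s ≤ w ∧ w ≤ win x t s + 1).image fun s => it t (x s)
  have hR : ∀ t w, (R t w).card ≤ 6 * cc t := fun t w => items_two t w (m + 1)
  let a : ℕ → ℕ → ℤ → ℕ := fun t w z => ((R t w).filter (· < z)).card
  let b : ℕ → ℕ → ℤ → ℕ := fun t w z => ((R t w).filter (· ≤ z)).card
  have ha : ∀ t w, Monotone (a t w) := fun t w u v h =>
    card_le_card (monotone_filter_right _ fun _ _ h1 => h1.trans_le h)
  have hb : ∀ t w, Monotone (b t w) := fun t w u v h =>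
    card_le_card (monotone_filter_right _ fun _ _ h1 => h1.trans h)
  have hba : ∀ t w u v, u < v → b t w u ≤ a t w v := fun t w u v h =>
    card_le_card (monotone_filter_right _ fun _ _ h1 => h1.trans_lt h)
  have hab : ∀ t w, ∀ z ∈ R t w, a t w z < b t w z := fun t w z hz =>
    card_lt_card ⟨monotone_filter_right _ fun _ _ h1 => h1.le, fun h =>
      lt_irrefl z (mem_filter.1 (h (mem_filter.2 ⟨hz, le_rfl⟩))).2⟩
  have hle : ∀ t w z, a t w z + b t w z ≤ 12 * cc t := fun t w z => by
    have h1 : a t w z ≤ _ := (card_filter_le _ _).trans (hR t w)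
    have h2 : b t w z ≤ _ := (card_filter_le _ _).trans (hR t w)
    omega
  refine ⟨fun t w v => ((a t w (it t v) + b t w (it t v) : ℕ) : ℤ), ?_, ?_, ?_, ?_, ?_⟩
  · intro t w u v h
    exact Int.ofNat_le.2 (Nat.add_le_add (ha t w (it_mono t h)) (hb t w (it_mono t h)))
  · intro t w u v e
    simp only [e]
  · intro t w s v hs h1 h2 e
    have hz : it t (x s) ∈ R t w :=
      mem_image_of_mem _ (mem_filter.2 ⟨mem_range.2 (Nat.lt_succ_of_le hs), h1, h2⟩)
    have e' := Int.ofNat_inj.1 e
    have h3 := hab t w _ hz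
    rcases lt_trichotomy (it t v) (it t (x s)) with h | h | h
    · have := hba t w _ _ h
      have := ha t w h.le
      omega
    · exact h
    · have := hba t w _ _ h
      have := hb t w h.le
      omega
  · have key : ∀ t w z, ((a t w z + b t w z : ℕ) : ℤ) / 2 ^ (sg t + 4) = 0 := fun t w z => by
      refine Int.ediv_eq_zero_of_lt (Int.natCast_nonneg _) ?_
      have h1 := hle t w z
      have h2 := cc_pos t
      have h3 : a t w z + b t w z < 2 ^ (sg t + 4) := by rw [pow_add, ← cc]; omega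
      exact_mod_cast h3
    intro t w u v
    rw [key, key]
  · intro t w S
    refine le_trans (card_le_card (t := (range (12 * cc t + 1)).image fun k : ℕ => (k : ℤ)) ?_)
      (card_image_le.trans ?_)
    · intro z hz
      obtain ⟨v, -, rfl⟩ := mem_image.1 hz
      exact mem_image_of_mem _ (mem_range.2 (Nat.lt_succ_of_le (hle t w _)))
    · have := cc_pos t
      rw [card_range]
      omega

/-! ### The mirror image -/

section

variable {y : ℕ → ℤ} (hy : ∀ i, y i = -1 - x i)
include hy

lemma dst_mir (s i : ℕ) : dst y s i = dst x s i := by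
  rw [dst, dst, show y = (fun v => -1 - v) ∘ x from funext hy, ← image_image]
  exact card_image_of_injective _ sub_right_injective

lemma pass_mir (t i : ℕ) : pass y t i ↔ pass x t i := by
  simp only [pass, dst_mir hy, hy, it_mir, sub_right_inj]

lemma jmp_mir (t m : ℕ) : jmp y t m = jmp x t m := by simp only [jmp, pass_mir hy]

lemma win_mir (t i : ℕ) : win y t i = win x t i := by simp only [win, jmp_mir hy]

lemma rct_mir (t s i : ℕ) : rct y t s i ↔ rct x t s i := by simp only [rct, win_mir hy]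

lemma om_mir (T t i : ℕ) : om y T t i = om x T t i := by simp only [om, win_mir hy]

lemma chg_mir (T t m : ℕ) : chg y T t m = chg x T t m := by simp only [chg, om_mir hy]

lemma MM_mir (n m T : ℕ) : MM y n m T = MM x n m T := by simp only [MM, jmp_mir hy]

lemma mem_Sep_mir {f g : ℤ → ℤ} (h : ∀ v, g (-1 - v) = -1 - f v) (r i : ℕ) (S : ℤ) :
    -1 - S ∈ Sep y r g i ↔ S ∈ Sep x r f i := by
  simp only [mem_Sep, rct_mir hy, hy, h, sub_right_inj]

lemma mem_Qs_mir {f g : ℤ → ℤ} (h : ∀ v, g (-1 - v) = -1 - f v) (r i : ℕ) (S : ℤ) :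
    -1 - S ∈ Qs y r g i ↔ S ∈ Qs x r f i := by
  simp only [mem_Qs, rct_mir hy, hy, h, sub_right_inj]

lemma fst_mir {f g : ℤ → ℤ} (h : ∀ v, g (-1 - v) = -1 - f v) (T t m : ℕ) :
    fst y T t g m = fst x T t f m := by
  simp only [fst, om_mir hy, hy, h, ne_eq, sub_right_inj]

lemma Idx.mir {m : ℕ} {ix : ℕ → ℕ → ℤ → ℤ} (h : Idx x m ix) :
    Idx y m fun t w v => -1 - ix t w (-1 - v) where
  mono t w u v e := sub_le_sub_left (h.mono t w (sub_le_sub_left e _)) _
  itm t w u v e := by rw [h.itm t w (-1 - u) (-1 - v) (by rw [it_mir, it_mir, e])]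
  own t w s v hs h1 h2 e := by
    rw [win_mir hy] at h1 h2
    rw [hy, sub_sub_cancel, sub_right_inj] at e
    rw [hy, it_mir, ← h.own t w s _ hs h1 h2 e, it_mir, sub_sub_cancel]
  uni t w u v := by
    rw [div_mir (by positivity), div_mir (by positivity), h.uni t w (-1 - u) (-1 - v)]
  card t w S := by
    refine le_trans ?_ (h.card t w (S.image fun v => -1 - v))
    rw [image_image, show (fun v => -1 - ix t w (-1 - v)) =
      (fun z => -1 - z) ∘ (ix t w ∘ fun v => -1 - v) from rfl, ← image_image]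
    exact card_image_le

end

end Pool.Agent.P.MP_119182_lc.NU
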