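import Pool.Agent.P.MP_119182_lc.NU.Lib
import Pool.Agent.P.MP_119182_lc.NU.Sec4L

/-! The four families of level systems: definitions, hypotheses and costs. -/

set_option autoImplicit false

namespace Pool.Agent.P.MP_119182_lc.NU

open Finset
open scoped Classical

noncomputable section

/-- A level system with the windows of tier `τ` and the recent labels of tier `r`. -/
def mkL (x : ℕ → ℤ) (T τ r t0 t1 : ℕ) (slot blk : ℤ → ℤ) : Lev :=
  ⟨t0, t1, slot, blk, om x T τ, Sep x r slot⟩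

/-- The first time of the pure window `w` of tier `t`. -/
def w0 (x : ℕ → ℤ) (m t w : ℕ) : ℕ := ((range m).filter fun i => win x t i < w).card

/-- Family B. -/
def levB (d : Run) (T g t : ℕ) : Lev := mkL d.x T g g 0 d.m (it g) (it t)

/-- Family C. -/
def levC (d : Run) (T g t : ℕ) : Lev := mkL d.x T g t 0 d.m (it t) fun _ => 0

/-- Family G. -/
def levG (d : Run) (T k l : ℕ) : Lev := mkL d.x T k k 0 d.m (it k) fun v => it k v / 2 ^ l

/-- Family W. -/
def levW (d : Run) (T : ℕ) (ix : ℕ → ℕ → ℤ → ℤ) (t w l : ℕ) : Lev :=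
  mkL d.x T (t - 1) (t - 1) (w0 d.x d.m t w) (w0 d.x d.m t (w + 1)) (ix t w)
    fun v => ix t w v / 2 ^ l

end

variable {x : ℕ → ℤ} {d : Run} {T : ℕ}

lemma w0_le_m (m t w : ℕ) : w0 x m t w ≤ m := (card_filter_le _ _).trans (card_range m).le

lemma lt_w0 {m t w i : ℕ} : i < w0 x m t w ↔ i < m ∧ win x t i < w := by
  constructor
  · intro h
    by_contra hc
    refine h.not_ge ((card_le_card (t := range i) fun s hs => mem_range.2 ?_).trans
      (card_range i).le)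
    obtain ⟨h1, h2⟩ := mem_filter.1 hs
    by_contra h3
    exact hc ⟨(not_lt.1 h3).trans_lt (mem_range.1 h1), (win_mono t (not_lt.1 h3)).trans_lt h2⟩
  · rintro ⟨h1, h2⟩
    refine (card_range (i + 1)).ge.trans (card_le_card fun s hs => mem_filter.2 ?_)
    have h3 := Nat.lt_succ_iff.1 (mem_range.1 hs)
    exact ⟨mem_range.2 (h3.trans_lt h1), (win_mono t h3).trans_lt h2⟩

/-- The times of a pure window. -/
lemma mem_w0 {m t w i : ℕ} :
    w0 x m t w ≤ i ∧ i < w0 x m t (w + 1) ↔ i < m ∧ win x t i = w := by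
  rw [← not_lt, lt_w0, lt_w0]; omega

lemma w0_mir {y : ℕ → ℤ} (hy : ∀ i, y i = -1 - x i) (m t w : ℕ) : w0 y m t w = w0 x m t w := by
  simp only [w0, win_mir hy]

lemma mkL_Q (τ r t0 t1 : ℕ) (slot blk : ℤ → ℤ) (i : ℕ) :
    (mkL d.x T τ r t0 t1 slot blk).Q d i = Qs d.x r slot i := Qs_eq.symm

lemma mkL_OK {τ r t0 t1 : ℕ} {slot blk : ℤ → ℤ} (h1 : τ ≤ r) (h2 : r ≤ T) (h3 : t1 ≤ d.m)
    (hs : Monotone slot) (hb : Monotone blk) (hsb : ∀ a b, slot a = slot b → blk a = blk b)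
    (h0 : ∀ t, t < t0 → om d.x T τ t < om d.x T τ t0) : (mkL d.x T τ r t0 t1 slot blk).OK d where
  le := h3
  slotm := hs
  blkm := hb
  sb := hsb
  omm := om_mono T τ
  start := h0
  own _ _ _ := mem_Sep_succ
  sub _ _ _ := Sep_succ_subset
  keep _ _ _ h := Sep_subset_succ h h1 h2

lemma levB_OK {g t : ℕ} (h1 : g ≤ t) (h2 : t ≤ T) : (levB d T g t).OK d :=
  mkL_OK le_rfl (h1.trans h2) le_rfl (it_mono g) (it_mono t) (fun _ _ => it_congr h1) (by simp)

lemma levC_OK {g t : ℕ} (h1 : g ≤ t) (h2 : t ≤ T) : (levC d T g t).OK d :=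
  mkL_OK h1 h2 le_rfl (it_mono t) monotone_const (fun _ _ _ => rfl) (by simp)

lemma levG_OK {k : ℕ} (h : k ≤ T) (l : ℕ) : (levG d T k l).OK d :=
  mkL_OK le_rfl h le_rfl (it_mono k) ((div_pow_mono l).comp (it_mono k))
    (fun _ _ e => by simp only [e]) (by simp)

lemma levW_OK {ix : ℕ → ℕ → ℤ → ℤ} (hx : Idx d.x d.m ix) {t w : ℕ} (h : t ≤ T)
    (hw : ∃ i < d.m, win d.x t i = w) (l : ℕ) : (levW d T ix t w l).OK d := by
  refine mkL_OK le_rfl (by omega) (w0_le_m _ _ _) (hx.mono t w)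
    ((div_pow_mono l).comp (hx.mono t w)) (fun _ _ e => by simp only [e]) fun s hs => ?_
  obtain ⟨i, hi⟩ := hw
  have h1 := (mem_w0.2 hi).1
  have h2 : ¬ (w0 d.x d.m t w < d.m ∧ win d.x t (w0 d.x d.m t w) < w) :=
    fun h2 => lt_irrefl _ (lt_w0.2 h2)
  have h3 := (lt_w0.1 hs).2
  refine lt_of_le_of_ne (om_mono T _ hs.le) fun e => ?_
  have := win_eq_of_om e (Nat.sub_le t 1) h
  omega

/-! ### Costs -/

lemma card_x (h : d.OK) : ((range d.m).image d.x).card ≤ d.keys.card :=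
  card_le_card fun _ hv =>
    let ⟨i, hi, e⟩ := mem_image.1 hv
    e ▸ Run.mem_keys.2 (h.step i (mem_range.1 hi)).mem

lemma mkL_fst_zero (τ r : ℕ) (slot blk : ℤ → ℤ) :
    (mkL d.x T τ r 0 d.m slot blk).fst d = fst d.x T τ slot d.m := by
  ext i
  simp [Lev.fst, mkL, mem_fst]

/-- The cost of a level system over the whole run. -/
lemma mkL_cost (h : d.OK) {n τ r : ℕ} {slot blk : ℤ → ℤ} (hn : d.keys.card ≤ n) (h1 : τ ≤ T)
    (hs : ∀ u v, it τ u = it τ v → slot u = slot v) :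
    (mkL d.x T τ r 0 d.m slot blk).cost d ≤ 37 * (n + 1 + jmp d.x τ d.m) := by
  have h2 := card_fst h1 hs ((card_x h).trans hn)
  have h3 : (d.keys.image slot).card ≤ n := card_image_le.trans hn
  rw [Lev.cost, mkL_fst_zero]
  have h4 : ((mkL d.x T τ r 0 d.m slot blk).Sep (mkL d.x T τ r 0 d.m slot blk).t0).card = 0 :=
    congrArg card Sep_zero
  have h5 : (d.keys.image (mkL d.x T τ r 0 d.m slot blk).slot).card ≤ n := h3
  omega

lemma card_chg_le (g : ℕ → ℕ) (m : ℕ) : ((Ioo 0 m).filter fun i => g i ≠ g (i - 1)).card ≤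
    ((range m).filter fun i => g (i + 1) ≠ g i).card := by
  refine card_le_card_of_injOn (fun i => i - 1) (fun i hi => ?_) fun i hi j hj e => ?_
  · obtain ⟨h1, h2⟩ := mem_filter.1 (mem_coe.1 hi)
    obtain ⟨h3, h4⟩ := mem_Ioo.1 h1
    refine mem_coe.2 (mem_filter.2 ⟨mem_range.2 ((Nat.sub_le i 1).trans_lt h4), ?_⟩)
    rwa [Nat.sub_add_cancel h3]
  · have h1 := (mem_Ioo.1 (mem_filter.1 (mem_coe.1 hi)).1).1
    have h2 := (mem_Ioo.1 (mem_filter.1 (mem_coe.1 hj)).1).1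
    simp only at e
    omega

/-- The cost of a dyadic gap system over the whole run. -/
lemma mkL_dyCost (h : d.OK) {n τ : ℕ} {slot blk : ℤ → ℤ} (hn : d.keys.card ≤ n) (h1 : τ ≤ T)
    (hs : ∀ u v, it τ u = it τ v → slot u = slot v) :
    (mkL d.x T τ τ 0 d.m slot blk).dyCost d ≤ 19 * (n + 1 + jmp d.x τ d.m) := by
  have h2 := card_fst h1 hs ((card_x h).trans hn)
  have h3 : ((mkL d.x T τ τ 0 d.m slot blk).Q d (mkL d.x T τ τ 0 d.m slot blk).t0).card = 1 := by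
    rw [mkL_Q]; exact congrArg card Qs_zero
  have h4 : ∑ i ∈ (mkL d.x T τ τ 0 d.m slot blk).chg,
      ((mkL d.x T τ τ 0 d.m slot blk).Q d i).card ≤ chg d.x T τ d.m * (6 * cc τ) :=
    (sum_le_card_nsmul _ _ _ fun i _ => by rw [mkL_Q]; exact card_Qs hs).trans
      (Nat.mul_le_mul_right _ (card_chg_le (om d.x T τ) d.m))
  have h5 := cc_mul_chg (x := d.x) T τ d.m
  rw [Lev.dyCost, mkL_fst_zero]
  rw [mul_left_comm, mul_comm (chg _ _ _ _)] at h4
  omega

end Pool.Agent.P.MP_119182_lc.NU
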