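import Pool.Agent.P.MP_119182_lc.NU.Lib
import Pool.Agent.P.MP_119182_lc.NU.Sec4L

/-! The four families of levels, types of links, charged events and the bundles of rules. -/

set_option autoImplicit false

namespace Pool.Agent.P.MP_119182_lc.NU

open Finset
open scoped Classical

/-- A run with a top tier and offline slot maps. -/
structure Cx where
  d : Run
  T : ℕ
  ix : ℕ → ℕ → ℤ → ℤ

/-- The values of the item rule. -/
def vI (k : ℕ) : ℕ → ℕ
  | 0 => 0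
  | j + 1 => 6 * (vI k j + 2 * 64 ^ (k + 1)) + 12

/-- The value of the top rule of group `j`. -/
def BB (k j : ℕ) : ℕ := 24 * (64 ^ (k + 1) * (vI k (j + 2) + 2)) + 60

/-- The level rule without far ranges. -/
def LZ (d : Run) (l : Lev) (k c i : ℕ) (Q : Finset ℤ) : Prop :=
  ∀ (v : ℕ) (Y : Set ℤ), l.t0 ≤ i → i < l.t1 → l.Solid d i Y → d.GoodF c i Q v Y l.slot →
    d.Good c i Q (6 * (v + 2 * 64 ^ (k + 1)) + 12) Y

namespace Cx

variable (C : Cx)

/-- The hypotheses. -/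
structure OK : Prop where
  run : C.d.OK
  idx : Idx C.d.x C.d.m C.ix
  one : ∀ u v, C.d.L ≤ u → u ≤ C.d.R → C.d.L ≤ v → v ≤ C.d.R → it C.T u = it C.T v

/-- The mirror image. -/
def mir : Cx := ⟨C.d.mir, C.T, fun t w v => -1 - C.ix t w (-1 - v)⟩

/-- The first tier of group `j`. -/
def g (j : ℕ) : ℕ := grp C.T j

noncomputable section

/-- Tower items inside items of tier `t`. -/
def levB (g t : ℕ) : Lev :=
  ⟨0, C.d.m, it g, it t, om C.d.x C.T g, Sep C.d.x g (it g)⟩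

/-- Gaps between recent items of tier `t`. -/
def levC (g t : ℕ) : Lev :=
  ⟨0, C.d.m, it t, fun _ => 0, om C.d.x C.T g, Sep C.d.x t (it t)⟩

/-- Dyadic blocks of items of tier `k`. -/
def levG (k l : ℕ) : Lev :=
  ⟨0, C.d.m, it k, fun v => it k v / 2 ^ l, om C.d.x C.T k, Sep C.d.x k (it k)⟩

/-- The number of times before `m` that lie in a pure window of tier `t` below `w`. -/
def wlo (t w : ℕ) : ℕ := ((range C.d.m).filter fun i => win C.d.x t i < w).card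

/-- Dyadic blocks of offline slots of tier `t` in the pure window `w`. -/
def levW (t w l : ℕ) : Lev :=
  ⟨C.wlo t w, C.wlo t (w + 1), C.ix t w, fun v => C.ix t w v / 2 ^ l, om C.d.x C.T (t - 1),
    Sep C.d.x (t - 1) (C.ix t w)⟩

/-- `v` lies to the right of the `t`-item of the access, before every `t`-item that holds an
`r`-recent access. -/
def AE (r t i : ℕ) (v : ℤ) : Prop :=
  it t (C.d.x i) < it t v ∧ ∀ s ≤ i, rct C.d.x r s i →
    ¬ (it t (C.d.x i) < it t (C.d.x s) ∧ it t (C.d.x s) ≤ it t v)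

/-- The set `A_t`. -/
def A (t i : ℕ) (v : ℤ) : Prop := C.AE t t i v

/-- The set `E_t`. -/
def E (t i : ℕ) (v : ℤ) : Prop := C.AE (t - 1) t i v

/-- Free on the right side. -/
def frR (h t i : ℕ) (p : ℤ) : Prop :=
  ∃ t', t ≤ t' ∧ t' ≤ h ∧ it t' (C.d.x i) < it t' p ∧ ∀ s ≤ i, rct C.d.x t s i →
    ¬ (it t' (C.d.x i) < it t' (C.d.x s) ∧ it t (C.d.x s) ≤ it t p)

/-- Free. -/
def fr (h t i : ℕ) (p : ℤ) : Prop := C.frR h t i p ∨ C.mir.frR h t i (mr p)

/-- An event of the family `B` of group `j`. -/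
def chB (j i : ℕ) (p : ℤ) : Prop :=
  ∃ t ∈ Ioc (C.g j) (C.g (j + 1)), (C.levB (C.g j) t).Ev C.d i p

/-- An event of the family `C` of group `j`. -/
def chC (j i : ℕ) (p : ℤ) : Prop :=
  ∃ t ∈ Ioc (C.g j) (C.g (j + 1)), (C.levC (C.g j) t).Ev C.d i p

/-- An event of the family `G_k`. -/
def chG (k i : ℕ) (p : ℤ) : Prop := ∃ l < sg (k + 1) - sg k, (C.levG k l).Ev C.d i p

/-- A charged event of the family `W_t`. -/
def chW (h t i : ℕ) (p : ℤ) : Prop :=
  (∃ l < sg t + 4, (C.levW t (win C.d.x t i) l).Ev C.d i p) ∧ ¬ C.fr h t i p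

/-- A charged event of group `j`. -/
def ch (j i : ℕ) (p : ℤ) : Prop :=
  C.chB j i p ∨ C.chC j i p ∨ (∃ k ∈ Ico (C.g j) (C.g (j + 1)), C.chG k i p) ∨
    ∃ t ∈ Ioc (C.g j) (C.g (j + 1)), C.chW (C.g (j + 1)) t i p

/-- The pairs of a time and a key with a property. -/
def EvS (F : ℕ → ℤ → Prop) : Finset (ℕ × ℤ) :=
  (range C.d.m ×ˢ C.d.keys).filter fun q => F q.1 q.2

/-- The number of charged pairs of group `j`, both sides. -/
def NEv (j : ℕ) : ℕ := (C.EvS (C.ch j)).card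

/-- The link of `u` lies in `A_t`. -/
def inA (t i : ℕ) (u : ℤ) : Prop :=
  C.A t i (C.d.lp (i + 1) u) ∧ C.A t i (C.d.rp i u) ∧ C.d.rp i u < C.d.R

/-- The link of `u` has group `j`. -/
def ofG (j i : ℕ) (u : ℤ) : Prop :=
  (∀ j' ≤ j, C.inA (C.g j') i u) ∧ ¬ C.inA (C.g (j + 1)) i u

/-- The number of right links of group `j`. -/
def Lam (j : ℕ) : ℕ := ∑ i ∈ range C.d.m, ((C.d.U i).filter fun u => C.ofG j i u).card

/-- The number of right links outside `A_0`. -/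
def Out : ℕ := ∑ i ∈ range C.d.m, ((C.d.U i).filter fun u => ¬ C.inA 0 i u).card

/-- The number of right links of group `j` that are charged in group `j`. -/
def Loud (j : ℕ) : ℕ :=
  ∑ i ∈ range C.d.m,
    ((C.d.U i).filter fun u => C.ofG j i u ∧ C.ch j i (C.d.lp (i + 1) u)).card

/-- Two keys lie in the same zone of group `j`. -/
def sameZ (j i : ℕ) (a b : ℤ) : Prop :=
  ∀ t ∈ Ioc (C.g j) (C.g (j + 1)), (it t (C.d.x i) < it t a ↔ it t (C.d.x i) < it t b) ∧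
    (C.A t i a ↔ C.A t i b) ∧ (C.E t i a ↔ C.E t i b)

/-- The top rule of group `j`. -/
def TH (j c i : ℕ) (Q : Finset ℤ) : Prop :=
  ∀ (v : ℕ) (Y : Set ℤ), C.d.Rgt i Y → (∀ a ∈ Y, C.A (C.g j) i a) →
    (∀ Z ⊆ Y, Z.OrdConnected → (∀ a ∈ Z, ∀ b ∈ Z, C.sameZ j i a b) → C.d.Good c i Q v Z) →
    C.d.Good c i Q (2 * v + 4) Y

/-- The cuts for window `W` of the family `W_t`: they contain the charged nodes, and the class
of a free node meets no item accessed before `W` that is still recent. -/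
def CutOK (h t W : ℕ) (Cut : Finset ℤ) : Prop :=
  ∀ i < C.d.m, om C.d.x C.T (t - 1) i = W → ∀ p,
    (p ∈ C.d.keys → C.chW h t i p → p ∈ Cut) ∧
    (C.fr h t i p → ∀ r, om C.d.x C.T (t - 1) r < W → rct C.d.x t r i →
      ∀ z, it t z = it t (C.d.x r) → cls Cut z ≠ cls Cut p)

/-- The range rule of the family `W_t`. -/
def RWr (h t k c i : ℕ) (Q : Finset ℤ) : Prop :=
  ∀ s < C.d.m, s ≤ i → ∃ Cut, C.CutOK h t (om C.d.x C.T (t - 1) s) Cut ∧
    ∀ (v : ℕ) (Y : Set ℤ), C.d.Rgt i Y →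
      (∀ r ≤ i, om C.d.x C.T (t - 1) s ≤ om C.d.x C.T (t - 1) r → C.d.x r ∉ Y) →
      C.d.GoodF c i Q v Y (cls Cut) → C.d.Good c i Q (64 ^ (k + 1) * (v + 2)) Y

end

/-- The gap rules of group `j`. -/
structure DyTh (j c i : ℕ) (Q : Finset ℤ) : Prop where
  th : C.TH j c i Q
  dyG : ∀ k ∈ Ico (C.g j) (C.g (j + 1)), (C.levG k 0).DyRule C.d (sg (k + 1) - sg k) c i Q
  dyW : ∀ t ∈ Ioc (C.g j) (C.g (j + 1)),
    (C.levW t (win C.d.x t i) 0).DyRule C.d (sg t + 4) c i Q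

/-- The level and range rules of group `j`. -/
structure Lvl (j k c i : ℕ) (Q : Finset ℤ) : Prop where
  lzB : ∀ t ∈ Ioc (C.g j) (C.g (j + 1)), LZ C.d (C.levB (C.g j) t) k c i Q
  lzC : ∀ t ∈ Ioc (C.g j) (C.g (j + 1)), LZ C.d (C.levC (C.g j) t) k c i Q
  lzG : ∀ k' ∈ Ico (C.g j) (C.g (j + 1)), ∀ l < sg (k' + 1) - sg k', LZ C.d (C.levG k' l) k c i Q
  lvW : ∀ t ∈ Ioc (C.g j) (C.g (j + 1)), ∀ l < sg t + 4,
    (C.levW t (win C.d.x t i) l).Rule C.d c i Q
  rwW : ∀ t ∈ Ioc (C.g j) (C.g (j + 1)), C.RWr (C.g (j + 1)) t k c i Q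

end Cx

end Pool.Agent.P.MP_119182_lc.NU
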