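import Pool.Agent.P.MP_119182_lc.NU.SIface
import Pool.Agent.P.MP_119182_lc.NU.Sec5
import Pool.Agent.P.MP_119182_lc.NU.Lv

/-! Shapes of the events of the four families. -/

set_option autoImplicit false

namespace Pool.Agent.P.MP_119182_lc.NU

open Finset
open scoped Classical

theorem pow_div_eq {a b : ℤ} {e e' : ℕ} (h : e ≤ e') (hab : a / 2 ^ e = b / 2 ^ e) :
    a / 2 ^ e' = b / 2 ^ e' := by
  obtain ⟨k, rfl⟩ := Nat.exists_eq_add_of_le h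
  rw [← div_pow_div, ← div_pow_div, hab]

/-- An event inside a free dyadic block that holds the whole link is impossible. -/
theorem no_part (hR : S_EVR) {d : Run} {l : Lev} {i e e0 : ℕ} {p : ℤ} (h : d.OK) (hl : l.OK d)
    (hb : ∀ v, l.blk v = l.slot v / 2 ^ e) (hev : l.Ev d i p) (hx : d.x i < p)
    (h1 : l.slot p / 2 ^ e0 = l.slot (d.rp i (d.rp i p)) / 2 ^ e0)
    (h2 : ∀ s ∈ l.Q d i, l.slot p / 2 ^ e0 ≠ s / 2 ^ e0) : False := by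
  obtain ⟨-, -, -, -, a1, -, a2, -⟩ := hR d l i p h hl hev hx
  have b1 : l.slot (d.x i) / 2 ^ e = l.slot p / 2 ^ e := by
    rw [← hb, ← hb]
    by_contra c
    exact a1 (Or.inl c)
  have b2 : e0 ≤ e := by
    by_contra c
    exact h2 _ (mem_insert_self _ _) (pow_div_eq (not_le.1 c).le b1).symm
  rcases a2 with c | ⟨s, hs, c1, c2⟩
  · rw [hb, hb] at c
    exact c (pow_div_eq b2 h1)
  · have x1 := div_pow_mono e0 c1.le
    have x2 := div_pow_mono e0 c2.le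
    simp only at x1 x2
    exact h2 s (mem_insert_of_mem hs) (by omega)

namespace Cx

variable {C : Cx} {i : ℕ}

theorem g_le (C : Cx) (j : ℕ) : C.g j ≤ C.T := grp_le _ _

theorem g_succ (C : Cx) (j : ℕ) : C.g j ≤ C.g (j + 1) := grp_le_succ _ _

theorem okB {g t : ℕ} (h1 : g ≤ t) (h2 : t ≤ C.T) : (C.levB g t).OK C.d := levB_OK h1 h2

theorem okC {g t : ℕ} (h1 : g ≤ t) (h2 : t ≤ C.T) : (C.levC g t).OK C.d := levC_OK h1 h2

theorem okG {k : ℕ} (h : k ≤ C.T) (l : ℕ) : (C.levG k l).OK C.d := levG_OK h l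

theorem okW (h : C.OK) {t : ℕ} (ht : t ≤ C.T) (hi : i < C.d.m) (l : ℕ) :
    (C.levW t (win C.d.x t i) l).OK C.d := levW_OK h.idx ht ⟨i, hi, rfl⟩ l

theorem AE.lt {r t : ℕ} {v : ℤ} (h : C.AE r t i v) : C.d.x i < v := lt_of_it_lt h.1

theorem AE.down {r t : ℕ} {a b : ℤ} (h : C.AE r t i b) (hab : a ≤ b)
    (ha : it t (C.d.x i) < it t a) : C.AE r t i a :=
  ⟨ha, fun s hs hr c => h.2 s hs hr ⟨c.1, c.2.trans (it_mono t hab)⟩⟩

theorem AE.anti {r r' t : ℕ} {a : ℤ} (h : C.AE r' t i a) (hr : r ≤ r') : C.AE r t i a :=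
  ⟨h.1, fun s hs c => h.2 s hs (c.mono hr)⟩

/-- A key of `A_k` is free for every tier from `t ≤ k`. -/
theorem frR_of_AE {h t r k : ℕ} {p : ℤ} (ha : C.AE r k i p) (h0 : t ≤ r) (h1 : t ≤ k)
    (h2 : k ≤ h) : C.frR h t i p :=
  ⟨k, h1, h2, ha.1, fun s hs hr c => ha.2 s hs (hr.mono h0) ⟨c.1, it_le_of h1 c.2⟩⟩

theorem qB (hR : S_EVR) (h : C.OK) {j : ℕ} {p : ℤ} (hx : C.d.x i < p) (he : C.chB j i p) :
    ∃ t ∈ Ioc (C.g j) (C.g (j + 1)), it t (C.d.x i) = it t p ∧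
      (it t p ≠ it t (C.d.rp i (C.d.rp i p)) ∨ ¬ C.A (C.g j) i (C.d.rp i (C.d.rp i p))) := by
  obtain ⟨t, ht, he⟩ := he
  have ht' := mem_Ioc.1 ht
  obtain ⟨-, -, -, a0, a1, -, a2, -⟩ :=
    hR _ _ i p h.run (okB ht'.1.le (ht'.2.trans (C.g_le _))) he hx
  refine ⟨t, ht, by_contra fun c => a1 (Or.inl c), ?_⟩
  rcases a2 with c | ⟨s, hs, c1, c2⟩
  · exact Or.inl c
  · obtain ⟨s, b1, b2, rfl⟩ := mem_Sep.1 hs
    exact Or.inr fun c => c.2 s b1.le b2 ⟨a0.trans c1, c2.le⟩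

theorem qC (hR : S_EVR) (h : C.OK) {j : ℕ} {p : ℤ} (hx : C.d.x i < p) (he : C.chC j i p) :
    ∃ t ∈ Ioc (C.g j) (C.g (j + 1)), C.A t i p ∧ ∃ s < i, rct C.d.x t s i ∧
      it t p < it t (C.d.x s) ∧ it t (C.d.x s) < it t (C.d.rp i (C.d.rp i p)) := by
  obtain ⟨t, ht, he⟩ := he
  have ht' := mem_Ioc.1 ht
  obtain ⟨-, -, -, a0, a1, -, a2, -⟩ :=
    hR _ _ i p h.run (okC ht'.1.le (ht'.2.trans (C.g_le _))) he hx
  refine ⟨t, ht, ⟨a0, fun s hs hr c => ?_⟩, ?_⟩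
  · have hs' : s < i := lt_of_le_of_ne hs fun e => by rw [e] at c; exact lt_irrefl _ c.1
    have m : it t (C.d.x s) ∈ (C.levC (C.g j) t).Sep i := mem_Sep.2 ⟨s, hs', hr, rfl⟩
    rcases c.2.lt_or_eq with e | e
    · exact a1 (Or.inr ⟨_, m, c.1, e⟩)
    · exact he.2.2.2.2 (by rw [e] at m; exact m)
  · rcases a2 with c | ⟨s, hs, c1, c2⟩
    · exact absurd rfl c
    · obtain ⟨s, b1, b2, rfl⟩ := mem_Sep.1 hs
      exact ⟨s, b1, b2, c1, c2⟩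

theorem up_G {k l : ℕ} (hl : l < sg (k + 1) - sg k) {a b : ℤ}
    (e : it k a / 2 ^ l = it k b / 2 ^ l) : it (k + 1) a = it (k + 1) b := by
  rw [it_it (Nat.le_succ k), it_it (Nat.le_succ k) b]
  exact pow_div_eq hl.le e

theorem qG (hR : S_EVR) (h : C.OK) {k : ℕ} (hk : k ≤ C.T) {p : ℤ} (hx : C.d.x i < p)
    (he : C.chG k i p) : C.A k i p ∧ it (k + 1) (C.d.x i) = it (k + 1) p ∧
      ∀ e : ℕ, it k p / 2 ^ e = it k (C.d.rp i (C.d.rp i p)) / 2 ^ e →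
        (∀ s ∈ Qs C.d.x k (it k) i, it k p / 2 ^ e ≠ s / 2 ^ e) → False := by
  obtain ⟨l, hl, he⟩ := he
  obtain ⟨-, -, -, a0, a1, -, -, -⟩ := hR _ _ i p h.run (okG hk l) he hx
  refine ⟨⟨a0, fun s hs hr c => ?_⟩, up_G hl (by_contra fun c => a1 (Or.inl c)), fun e e1 e2 =>
    no_part hR h.run (okG hk l) (fun _ => rfl) he hx e1 fun s hs => e2 s (Qs_eq ▸ hs)⟩
  have hs' : s < i := lt_of_le_of_ne hs fun e => by rw [e] at c; exact lt_irrefl _ c.1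
  have m : it k (C.d.x s) ∈ (C.levG k l).Sep i := mem_Sep.2 ⟨s, hs', hr, rfl⟩
  rcases c.2.lt_or_eq with e | e
  · exact a1 (Or.inr ⟨_, m, c.1, e⟩)
  · exact he.2.2.2.2 (by rw [e] at m; exact m)

theorem qGL (hL : S_EVL) (h : C.OK) {k : ℕ} (hk : k ≤ C.T) {p : ℤ} (hx : p ≤ C.d.x i)
    (he : C.chG k i p) : it k p < it k (C.d.x i) ∧ it (k + 1) (C.d.x i) = it (k + 1) p := by
  obtain ⟨l, hl, he⟩ := he
  obtain ⟨a0, a1, -⟩ := hL _ _ i p h.run (okG hk l) he hx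
  exact ⟨a0, (up_G hl (by_contra fun c => a1 (Or.inl c))).symm⟩

/-- The slot map respects the order of items. -/
theorem ix_le (h : C.OK) {t w : ℕ} {a b : ℤ} (e : it t a ≤ it t b) : C.ix t w a ≤ C.ix t w b := by
  rcases e.lt_or_eq with e | e
  · exact h.idx.mono t w (lt_of_it_lt e).le
  · exact (h.idx.itm t w a b e).le

theorem it_lt_of_ix (h : C.OK) {t w : ℕ} {a b : ℤ} (e : C.ix t w a < C.ix t w b) :
    it t a < it t b := lt_of_not_ge fun c => absurd (ix_le h c) (not_le.2 e)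

/-- A recent item is its own slot. -/
theorem own (h : C.OK) (hi : i < C.d.m) {t s : ℕ} (hs : s ≤ i) (hr : rct C.d.x t s i) {v : ℤ}
    (e : C.ix t (win C.d.x t i) v = C.ix t (win C.d.x t i) (C.d.x s)) :
    it t v = it t (C.d.x s) := h.idx.own t _ s v (by omega) (win_mono t hs) hr e

theorem ix_lt (h : C.OK) (hi : i < C.d.m) {t s : ℕ} (hs : s ≤ i) (hr : rct C.d.x t s i) {v : ℤ}
    (e : it t v < it t (C.d.x s)) :
    C.ix t (win C.d.x t i) v < C.ix t (win C.d.x t i) (C.d.x s) :=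
  lt_of_le_of_ne (ix_le h e.le) fun c => e.ne (own h hi hs hr c)

theorem ix_gt (h : C.OK) (hi : i < C.d.m) {t s : ℕ} (hs : s ≤ i) (hr : rct C.d.x t s i) {v : ℤ}
    (e : it t (C.d.x s) < it t v) :
    C.ix t (win C.d.x t i) (C.d.x s) < C.ix t (win C.d.x t i) v :=
  lt_of_le_of_ne (ix_le h e.le) fun c => e.ne (own h hi hs hr c.symm).symm

theorem qW (hR : S_EVR) (h : C.OK) (hi : i < C.d.m) {t l : ℕ} (ht : t ≤ C.T) {p : ℤ}
    (hx : C.d.x i < p) (he : (C.levW t (win C.d.x t i) l).Ev C.d i p) : C.E t i p ∧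
      ∀ e : ℕ, C.ix t (win C.d.x t i) p / 2 ^ e =
          C.ix t (win C.d.x t i) (C.d.rp i (C.d.rp i p)) / 2 ^ e →
        (∀ s ∈ Qs C.d.x (t - 1) (C.ix t (win C.d.x t i)) i,
          C.ix t (win C.d.x t i) p / 2 ^ e ≠ s / 2 ^ e) → False := by
  obtain ⟨-, -, -, a0, a1, -, -, -⟩ := hR _ _ i p h.run (okW h ht hi l) he hx
  refine ⟨⟨it_lt_of_ix h a0, fun s hs hr c => ?_⟩, fun e e1 e2 =>
    no_part hR h.run (okW h ht hi l) (fun _ => rfl) he hx e1 fun s hs => e2 s (Qs_eq ▸ hs)⟩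
  have hs' : s < i := lt_of_le_of_ne hs fun e => by rw [e] at c; exact lt_irrefl _ c.1
  have m : C.ix t (win C.d.x t i) (C.d.x s) ∈ (C.levW t (win C.d.x t i) l).Sep i :=
    mem_Sep.2 ⟨s, hs', hr, rfl⟩
  rcases (ix_le (w := win C.d.x t i) h c.2).lt_or_eq with e | e
  · exact a1 (Or.inr ⟨_, m, ix_lt h hi hs (hr.mono (Nat.sub_le _ _)) c.1, e⟩)
  · exact he.2.2.2.2 (by rw [e] at m; exact m)

theorem qWL (hL : S_EVL) (h : C.OK) (hi : i < C.d.m) {t l : ℕ} (ht : t ≤ C.T) {p : ℤ}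
    (hx : p ≤ C.d.x i) (he : (C.levW t (win C.d.x t i) l).Ev C.d i p) :
    C.mir.E t i (mr p) := by
  obtain ⟨a0, a1, -⟩ := hL _ _ i p h.run (okW h ht hi l) he hx
  have b0 := it_lt_of_ix h a0
  refine ⟨?_, fun s hs hr c => ?_⟩
  · show it t (-1 - C.d.x i) < it t (-1 - p)
    rw [it_mir, it_mir]
    omega
  have hr' : rct C.d.x (t - 1) s i := (rct_mir (x := C.d.x) (fun _ => rfl) _ _ _).1 hr
  have c' : it t (-1 - C.d.x i) < it t (-1 - C.d.x s) ∧ it t (-1 - C.d.x s) ≤ it t (-1 - p) := c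
  rw [it_mir, it_mir, it_mir] at c'
  have c1 : it t (C.d.x s) < it t (C.d.x i) := by omega
  have c2 : it t p ≤ it t (C.d.x s) := by omega
  have hs' : s < i := lt_of_le_of_ne hs fun e => by rw [e] at c1; exact lt_irrefl _ c1
  have m : C.ix t (win C.d.x t i) (C.d.x s) ∈ (C.levW t (win C.d.x t i) l).Sep i :=
    mem_Sep.2 ⟨s, hs', hr', rfl⟩
  rcases (ix_le (w := win C.d.x t i) h c2).lt_or_eq with e | e
  · exact a1 (Or.inr ⟨_, m, e, ix_gt h hi hs (hr'.mono (Nat.sub_le _ _)) c1⟩)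
  · exact he.2.2.2.2 (by rw [← e] at m; exact m)

/-- A key carries a charged event of the family `G` for at most one tier. -/
theorem uniqG (hR : S_EVR) (hL : S_EVL) (h : C.OK) {k k' : ℕ} (hk : k ≤ C.T) (hk' : k' ≤ C.T)
    {p : ℤ} (a : C.chG k i p) (b : C.chG k' i p) : k = k' := by
  have key : ∀ k, k ≤ C.T → C.chG k i p →
      it k (C.d.x i) ≠ it k p ∧ it (k + 1) (C.d.x i) = it (k + 1) p := fun k hk a => by
    rcases lt_or_ge (C.d.x i) p with e | e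
    · have := qG hR h hk e a
      exact ⟨this.1.1.ne, this.2.1⟩
    · have := qGL hL h hk e a
      exact ⟨this.1.ne', this.2⟩
  have a' := key k hk a
  have b' := key k' hk' b
  rcases lt_trichotomy k k' with e | e | e
  · exact absurd (it_congr e a'.2) b'.1
  · exact e
  · exact absurd (it_congr e b'.2) a'.1

/-- A key carries a charged event of the family `W` for at most one tier. -/
theorem uniqW (hR : S_EVR) (hL : S_EVL) (h : C.OK) (hi : i < C.d.m) {g t t' : ℕ} (hg : g ≤ C.T)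
    (ht : t ≤ g) (ht' : t' ≤ g) {p : ℤ} (a : C.chW g t i p) (b : C.chW g t' i p) : t = t' := by
  have key : ∀ t t', t < t' → t' ≤ g → C.chW g t i p → C.chW g t' i p → False := by
    intro t t' e ht' a b
    obtain ⟨⟨l, -, b⟩, -⟩ := b
    rcases lt_or_ge (C.d.x i) p with c | c
    · exact a.2 (Or.inl (frR_of_AE (qW hR h hi (ht'.trans hg) c b).1 (by omega) e.le ht'))
    · exact a.2 (Or.inr (frR_of_AE (qWL hL h hi (ht'.trans hg) c b) (by omega) e.le ht'))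
  rcases lt_trichotomy t t' with e | e | e
  · exact (key t t' e ht' a b).elim
  · exact e
  · exact (key t' t e ht b a).elim

/-- A link inside `A_h` has no charged event in the group below `h`. -/
theorem q1 (hR : S_EVR) (h : C.OK) (hi : i < C.d.m) {j : ℕ} {u : ℤ} (hu : u ∈ C.d.U i)
    (hp : C.A (C.g (j + 1)) i (C.d.lp (i + 1) u)) (hw : C.A (C.g (j + 1)) i (C.d.rp i u)) :
    ¬ C.ch j i (C.d.lp (i + 1) u) := by
  obtain ⟨-, -, -, -, e, -⟩ := Run.link h.run hi hu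
  have hx := AE.lt hp
  rintro (c | c | ⟨k, hk, c⟩ | ⟨t, ht, c⟩)
  · obtain ⟨t, ht, c, -⟩ := qB hR h hx c
    exact (it_lt_of (mem_Ioc.1 ht).2 hp.1).ne c
  · obtain ⟨t, ht, -, s, c1, c2, c3, c4⟩ := qC hR h hx c
    rw [e] at c4
    have ht' := (mem_Ioc.1 ht).2
    exact hw.2 s c1.le (c2.mono ht') ⟨hp.1.trans_le (it_le_of ht' c3.le), it_le_of ht' c4.le⟩
  · have hk' := (mem_Ico.1 hk).2
    exact (it_lt_of hk' hp.1).ne (qG hR h (hk'.le.trans (C.g_le _)) hx c).2.1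
  · exact c.2 (Or.inl (frR_of_AE hp (mem_Ioc.1 ht).2 (mem_Ioc.1 ht).2 le_rfl))

/-- A link inside one zone has no event of the families `B` and `C`. -/
theorem qZ (hR : S_EVR) (h : C.OK) (hi : i < C.d.m) {j : ℕ} {u : ℤ} (hu : u ∈ C.d.U i)
    (hw : C.A (C.g j) i (C.d.rp i u)) (hz : C.sameZ j i (C.d.lp (i + 1) u) (C.d.rp i u)) :
    ¬ C.chB j i (C.d.lp (i + 1) u) ∧ ¬ C.chC j i (C.d.lp (i + 1) u) := by
  obtain ⟨a, a1, a2, -, e, -⟩ := Run.link h.run hi hu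
  have hx := (Run.mem_P.1 a).1
  constructor
  · intro c
    obtain ⟨t, ht, c1, c2⟩ := qB hR h hx c
    rw [e] at c2
    have z := (hz t ht).1
    have m := it_mono t (a1.trans a2).le
    rcases c2 with c2 | c2
    · exact absurd (z.2 (by omega)) (by omega)
    · exact c2 hw
  · intro c
    obtain ⟨t, ht, c0, s, c1, c2, c3, c4⟩ := qC hR h hx c
    rw [e] at c4
    exact ((hz t ht).2.1.1 c0).2 s c1.le c2 ⟨c0.1.trans c3, c4.le⟩

/-- A charged event of the family `W` on the right lies in `E_t` and outside `A_t`. -/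
theorem qWY (hR : S_EVR) (h : C.OK) (hi : i < C.d.m) {g t : ℕ} (hg : g ≤ C.T) (ht : t ≤ g)
    {p : ℤ} (hx : C.d.x i < p) (c : C.chW g t i p) : C.E t i p ∧ ¬ C.A t i p := by
  obtain ⟨⟨l, -, b⟩, c⟩ := c
  exact ⟨(qW hR h hi (ht.trans hg) hx b).1, fun a => c (Or.inl (frR_of_AE a le_rfl le_rfl ht))⟩

/-- The classification of an interval inside one zone. -/
theorem ty0 {j : ℕ} {Y : Set ℤ} {y : ℤ} (hy : y ∈ Y) (hA : ∀ a ∈ Y, C.A (C.g j) i a)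
    (hz : ∀ a ∈ Y, ∀ b ∈ Y, C.sameZ j i a b) :
    (∀ a ∈ Y, C.A (C.g (j + 1)) i a) ∨
    (∃ k ∈ Ico (C.g j) (C.g (j + 1)), ∀ a ∈ Y, C.A k i a ∧ it (k + 1) (C.d.x i) = it (k + 1) a) ∨
    ((∀ k ∈ Ico (C.g j) (C.g (j + 1)), ∀ a ∈ Y,
        ¬ (C.A k i a ∧ it (k + 1) (C.d.x i) = it (k + 1) a)) ∧
      ((∃ t ∈ Ioc (C.g j) (C.g (j + 1)), (∀ a ∈ Y, C.E t i a ∧ ¬ C.A t i a) ∧
          ∀ t' ∈ Ioc (C.g j) (C.g (j + 1)), ∀ a ∈ Y, C.E t' i a → ¬ C.A t' i a → t' ≤ t) ∨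
        ((∀ t ∈ Ioc (C.g j) (C.g (j + 1)), ∀ a ∈ Y, ¬ (C.E t i a ∧ ¬ C.A t i a)) ∧
          ∃ k ∈ Ico (C.g j) (C.g (j + 1)), (∀ a ∈ Y, C.A k i a) ∧
            ∃ s ≤ i, rct C.d.x k s i ∧ ∀ a ∈ Y, it (k + 1) a = it (k + 1) (C.d.x s)))) := by
  have eA : ∀ k, C.g j ≤ k → k ≤ C.g (j + 1) → ∀ a ∈ Y, ∀ b ∈ Y, C.A k i a → C.A k i b := by
    intro k k1 k2 a ha b hb c
    rcases k1.lt_or_eq with e | e
    · exact (hz a ha b hb k (mem_Ioc.2 ⟨e, k2⟩)).2.1.1 c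
    · exact e ▸ hA b hb
  have eI : ∀ k ∈ Ico (C.g j) (C.g (j + 1)), ∀ a ∈ Y, ∀ b ∈ Y,
      it (k + 1) (C.d.x i) = it (k + 1) a → it (k + 1) (C.d.x i) = it (k + 1) b := by
    intro k hk a ha b hb c
    have hk' := mem_Ico.1 hk
    have z := (hz a ha b hb (k + 1) (mem_Ioc.2 ⟨by omega, hk'.2⟩)).1
    have m := it_mono (k + 1) (AE.lt (hA b hb)).le
    by_contra n
    exact absurd (z.2 (by omega)) (by omega)
  by_cases c1 : C.A (C.g (j + 1)) i y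
  · exact Or.inl fun a ha => eA _ (C.g_succ j) le_rfl y hy a ha c1
  refine Or.inr ?_
  by_cases c2 : ∃ k ∈ Ico (C.g j) (C.g (j + 1)), ∃ a ∈ Y,
      C.A k i a ∧ it (k + 1) (C.d.x i) = it (k + 1) a
  · obtain ⟨k, hk, a, ha, b1, b2⟩ := c2
    exact Or.inl ⟨k, hk, fun b hb => ⟨eA k (mem_Ico.1 hk).1 (mem_Ico.1 hk).2.le a ha b hb b1,
      eI k hk a ha b hb b2⟩⟩
  have c2' : ∀ k ∈ Ico (C.g j) (C.g (j + 1)), ∀ a ∈ Y,
      ¬ (C.A k i a ∧ it (k + 1) (C.d.x i) = it (k + 1) a) :=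
    fun k hk a ha c => c2 ⟨k, hk, a, ha, c⟩
  refine Or.inr ⟨c2', ?_⟩
  have eY : ∀ t ∈ Ioc (C.g j) (C.g (j + 1)), ∀ a ∈ Y, ∀ b ∈ Y,
      C.E t i a ∧ ¬ C.A t i a → C.E t i b ∧ ¬ C.A t i b := fun t ht a ha b hb c =>
    ⟨(hz a ha b hb t ht).2.2.1 c.1, fun n => c.2 ((hz a ha b hb t ht).2.1.2 n)⟩
  by_cases c3 : ((Ioc (C.g j) (C.g (j + 1))).filter fun t => C.E t i y ∧ ¬ C.A t i y).Nonempty
  · obtain ⟨t, ht, hm⟩ := exists_max_image _ id c3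
    obtain ⟨ht1, ht2⟩ := mem_filter.1 ht
    exact Or.inl ⟨t, ht1, fun a ha => eY t ht1 y hy a ha ht2, fun t' ht' a ha b1 b2 =>
      hm t' (mem_filter.2 ⟨ht', eY t' ht' a ha y hy ⟨b1, b2⟩⟩)⟩
  have c3' : ∀ t ∈ Ioc (C.g j) (C.g (j + 1)), ∀ a ∈ Y, ¬ (C.E t i a ∧ ¬ C.A t i a) :=
    fun t ht a ha c => c3 ⟨t, mem_filter.2 ⟨ht, eY t ht a ha y hy c⟩⟩
  refine Or.inr ⟨c3', ?_⟩
  obtain ⟨k, hk, hm⟩ := exists_max_image
    ((Icc (C.g j) (C.g (j + 1))).filter fun k => C.A k i y) id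
    ⟨C.g j, mem_filter.2 ⟨mem_Icc.2 ⟨le_rfl, C.g_succ j⟩, hA y hy⟩⟩
  obtain ⟨hk1, hk2⟩ := mem_filter.1 hk
  obtain ⟨hk3, hk4⟩ := mem_Icc.1 hk1
  have hk5 : k < C.g (j + 1) := lt_of_le_of_ne hk4 fun e => c1 (e ▸ hk2)
  have hk6 : k ∈ Ico (C.g j) (C.g (j + 1)) := mem_Ico.2 ⟨hk3, hk5⟩
  have hk7 : k + 1 ∈ Ioc (C.g j) (C.g (j + 1)) := mem_Ioc.2 ⟨by omega, hk5⟩
  have all : ∀ a ∈ Y, C.A k i a := fun a ha => eA k hk3 hk4 y hy a ha hk2
  have nA : ∀ a ∈ Y, ¬ C.A (k + 1) i a := fun a ha c => by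
    have := hm (k + 1) (mem_filter.2 ⟨mem_Icc.2 ⟨by omega, hk5⟩,
      eA (k + 1) (by omega) hk5 a ha y hy c⟩)
    simp only [id] at this
    omega
  have blk : ∀ a ∈ Y, ∃ s ≤ i, rct C.d.x k s i ∧ it (k + 1) (C.d.x i) < it (k + 1) (C.d.x s) ∧
      it (k + 1) a = it (k + 1) (C.d.x s) := by
    intro a ha
    have m := it_mono (k + 1) (AE.lt (hA a ha)).le
    have n1 : it (k + 1) (C.d.x i) < it (k + 1) a :=
      lt_of_le_of_ne m fun e => c2' k hk6 a ha ⟨all a ha, e⟩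
    have n2 : ¬ C.E (k + 1) i a := fun e => c3' _ hk7 a ha ⟨e, nA a ha⟩
    by_contra n
    refine n2 ⟨n1, fun s hs hr c => n ⟨s, hs, hr, c.1, le_antisymm ?_ c.2⟩⟩
    by_contra n3
    exact (all a ha).2 s hs hr ⟨it_lt_of (Nat.le_succ k) c.1,
      (it_lt_of (Nat.le_succ k) (not_le.1 n3)).le⟩
  obtain ⟨s, hs, hr, b1, b2⟩ := blk y hy
  refine ⟨k, hk6, all, s, hs, hr, fun a ha => ?_⟩
  obtain ⟨s', hs', hr', b1', b2'⟩ := blk a ha
  rcases lt_trichotomy (it (k + 1) a) (it (k + 1) (C.d.x s)) with e | e | e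
  · exact absurd ⟨it_lt_of (Nat.le_succ k) b1',
      (it_lt_of (Nat.le_succ k) (by omega : it (k + 1) (C.d.x s') < it (k + 1) y)).le⟩
      ((all y hy).2 s' hs' hr')
  · exact e
  · exact absurd ⟨it_lt_of (Nat.le_succ k) b1, (it_lt_of (Nat.le_succ k) e).le⟩
      ((all a ha).2 s hs hr)

/-- The three types of an interval inside one zone. -/
theorem ty (hR : S_EVR) (h : C.OK) (hi : i < C.d.m) {j : ℕ} {Y : Set ℤ}
    (hA : ∀ a ∈ Y, C.A (C.g j) i a) (hz : ∀ a ∈ Y, ∀ b ∈ Y, C.sameZ j i a b) :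
    (∀ a ∈ Y, C.A (C.g (j + 1)) i a) ∨
    (∃ k ∈ Ico (C.g j) (C.g (j + 1)), (∀ a ∈ Y, C.A k i a) ∧
      (∃ s ≤ i, rct C.d.x k s i ∧ ∀ a ∈ Y, it (k + 1) a = it (k + 1) (C.d.x s)) ∧
      ∀ u ∈ C.d.U i, C.d.lp (i + 1) u ∈ Y → C.d.rp i u ∈ Y → ∀ e : ℕ,
        it k (C.d.lp (i + 1) u) / 2 ^ e = it k (C.d.rp i u) / 2 ^ e →
        (∀ s ∈ Qs C.d.x k (it k) i, it k (C.d.lp (i + 1) u) / 2 ^ e ≠ s / 2 ^ e) →
        ¬ C.ch j i (C.d.lp (i + 1) u)) ∨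
    ∃ t ∈ Ioc (C.g j) (C.g (j + 1)), (∀ a ∈ Y, C.E t i a ∧ ¬ C.A t i a) ∧
      ∀ u ∈ C.d.U i, C.d.lp (i + 1) u ∈ Y → C.d.rp i u ∈ Y → ∀ e : ℕ,
        C.ix t (win C.d.x t i) (C.d.lp (i + 1) u) / 2 ^ e =
          C.ix t (win C.d.x t i) (C.d.rp i u) / 2 ^ e →
        (∀ s ∈ Qs C.d.x (t - 1) (C.ix t (win C.d.x t i)) i,
          C.ix t (win C.d.x t i) (C.d.lp (i + 1) u) / 2 ^ e ≠ s / 2 ^ e) →
        ¬ C.ch j i (C.d.lp (i + 1) u) := by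
  rcases Y.eq_empty_or_nonempty with rfl | ⟨y, hy⟩
  · exact Or.inl fun a ha => ha.elim
  have hT := C.g_le (j + 1)
  have base : ∀ u ∈ C.d.U i, C.d.lp (i + 1) u ∈ Y → C.d.rp i u ∈ Y →
      (∀ k ∈ Ico (C.g j) (C.g (j + 1)), ¬ C.chG k i (C.d.lp (i + 1) u)) →
      (∀ t ∈ Ioc (C.g j) (C.g (j + 1)), ¬ C.chW (C.g (j + 1)) t i (C.d.lp (i + 1) u)) →
      ¬ C.ch j i (C.d.lp (i + 1) u) := by
    intro u hu hp hw n1 n2
    have z := qZ hR h hi hu (hA _ hw) (hz _ hp _ hw)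
    rintro (c | c | ⟨k, hk, c⟩ | ⟨t, ht, c⟩)
    · exact z.1 c
    · exact z.2 c
    · exact n1 k hk c
    · exact n2 t ht c
  rcases ty0 hy hA hz with c | ⟨k, hk, c⟩ | ⟨n, ⟨t, ht, c, hm⟩ | ⟨c, k, hk, c1, c2⟩⟩
  · exact Or.inl c
  · have hk' := mem_Ico.1 hk
    refine Or.inr (Or.inl ⟨k, hk, fun a ha => (c a ha).1,
      ⟨i, le_rfl, rct_refl _ _, fun a ha => (c a ha).2.symm⟩, fun u hu hp hw e e1 e2 => ?_⟩)
    have hx := AE.lt (hA _ hp)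
    have e0 := (Run.link h.run hi hu).2.2.2.2.1
    refine base u hu hp hw (fun k' hk2 b => ?_) fun t ht b => ?_
    · have q := qG hR h ((mem_Ico.1 hk2).2.le.trans hT) hx b
      have : k' = k := by
        rcases lt_trichotomy k' k with z | z | z
        · exact absurd (it_congr z q.2.1) (c _ hp).1.1.ne
        · exact z
        · exact absurd (it_congr z (c _ hp).2) q.1.1.ne
      subst this
      exact q.2.2 e (by rw [e0]; exact e1) e2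
    · have q := qWY hR h hi hT (mem_Ioc.1 ht).2 hx b
      have tk : t ≤ k := by
        by_contra z
        exact q.1.1.ne (it_congr (not_le.1 z) (c _ hp).2)
      exact b.2 (Or.inl (frR_of_AE (c _ hp).1 tk tk hk'.2.le))
  · have ht' := mem_Ioc.1 ht
    refine Or.inr (Or.inr ⟨t, ht, c, fun u hu hp hw e e1 e2 => ?_⟩)
    have hx := AE.lt (hA _ hp)
    have e0 := (Run.link h.run hi hu).2.2.2.2.1
    refine base u hu hp hw (fun k hk b => ?_) fun t' ht2 b => ?_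
    · have q := qG hR h ((mem_Ico.1 hk).2.le.trans hT) hx b
      exact n k hk _ hp ⟨q.1, q.2.1⟩
    · have q := qWY hR h hi hT (mem_Ioc.1 ht2).2 hx b
      rcases (hm t' ht2 _ hp q.1 q.2).lt_or_eq with z | z
      · exact b.2 (Or.inl (frR_of_AE (c _ hp).1 (by omega) z.le ht'.2))
      · subst z
        obtain ⟨⟨l, -, b⟩, -⟩ := b
        exact (qW hR h hi (ht'.2.trans hT) hx b).2 e (by rw [e0]; exact e1) e2
  · refine Or.inr (Or.inl ⟨k, hk, c1, c2, fun u hu hp hw e _ _ => ?_⟩)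
    have hx := AE.lt (hA _ hp)
    refine base u hu hp hw (fun k hk b => ?_) fun t ht b => ?_
    · have q := qG hR h ((mem_Ico.1 hk).2.le.trans hT) hx b
      exact n k hk _ hp ⟨q.1, q.2.1⟩
    · exact c t ht _ hp (qWY hR h hi hT (mem_Ioc.1 ht).2 hx b)

/-- Keys of `A_k` lie in a gap of the recent items. -/
theorem gapG {k : ℕ} {a b : ℤ} (ha : C.A k i a) (hb : C.A k i b) :
    ∀ s ∈ Qs C.d.x k (it k) i, ¬ (it k a ≤ s ∧ s ≤ it k b) := by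
  intro s hs c
  obtain ⟨s, b1, b2, rfl⟩ := mem_Qs.1 hs
  exact hb.2 s b1 b2 ⟨ha.1.trans_le c.1, c.2⟩

/-- Keys of `E_t` lie in a gap of the recent slots. -/
theorem gapW (h : C.OK) (hi : i < C.d.m) {t : ℕ} {a b : ℤ} (ha : C.E t i a) (hb : C.E t i b) :
    ∀ s ∈ Qs C.d.x (t - 1) (C.ix t (win C.d.x t i)) i,
      ¬ (C.ix t (win C.d.x t i) a ≤ s ∧ s ≤ C.ix t (win C.d.x t i) b) := by
  intro s hs c
  obtain ⟨s, b1, b2, rfl⟩ := mem_Qs.1 hs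
  have hr := b2.mono (Nat.sub_le t 1)
  have c1 : it t a ≤ it t (C.d.x s) :=
    le_of_not_gt fun z => absurd (ix_gt h hi b1 hr z) (not_lt.2 c.1)
  have c2 : it t (C.d.x s) ≤ it t b :=
    le_of_not_gt fun z => absurd (ix_lt h hi b1 hr z) (not_lt.2 c.2)
  exact hb.2 s b1 b2 ⟨ha.1.trans_le c1, c2⟩

end Cx

end Pool.Agent.P.MP_119182_lc.NU
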