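import Pool.Agent.P.MP_119182_lc.NU.CIface
import Pool.Agent.P.MP_119182_lc.NU.Ev79

/-! Step CNTG. -/

set_option autoImplicit false

namespace Pool.Agent.P.MP_119182_lc.NU

open Finset
open scoped Classical

namespace CNTGc

theorem cnt (C : Cx) (j : ℕ) (s : Finset ℕ) (F : ℕ → ℕ → ℤ → Prop)
    (h1 : ∀ k ∈ s, ∀ i p, F k i p → C.ch j i p)
    (h2 : ∀ k ∈ s, ∀ k' ∈ s, ∀ i < C.d.m, ∀ p, F k i p → F k' i p → k = k') :
    ∑ k ∈ s, (C.EvS (F k)).card ≤ C.NEv j := by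
  rw [← card_biUnion]
  · refine card_le_card fun q hq => ?_
    obtain ⟨k, hk, hq⟩ := mem_biUnion.1 hq
    unfold Cx.EvS at hq ⊢
    rw [mem_filter] at hq ⊢
    exact ⟨hq.1, h1 k hk _ _ hq.2⟩
  · intro k hk k' hk' ne
    refine disjoint_left.2 fun q a b => ne ?_
    unfold Cx.EvS at a b
    rw [mem_filter] at a b
    exact h2 k hk k' hk' _ (mem_range.1 (mem_product.1 a.1).1) _ a.2 b.2

end CNTGc

theorem p_CNTG (hEVR : S_EVR) (hEVL : S_EVL) :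
    S_CNTG := fun C j h =>
  CNTGc.cnt C j _ _ (fun k hk _ _ z => Or.inr (Or.inr (Or.inl ⟨k, hk, z⟩)))
    fun _ hk _ hk' _ _ _ a b => Cx.uniqG hEVR hEVL h ((mem_Ico.1 hk).2.le.trans (C.g_le _))
      ((mem_Ico.1 hk').2.le.trans (C.g_le _)) a b

end Pool.Agent.P.MP_119182_lc.NU
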