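import Pool.Agent.P.MP_119182_lc.NU.CIface
import Pool.Agent.P.MP_119182_lc.NU.Ev79

/-! Step CNTW. -/

set_option autoImplicit false

namespace Pool.Agent.P.MP_119182_lc.NU

open Finset
open scoped Classical

namespace CNTWc

theorem cnt (C : Cx) (j : ℕ) (s : Finset ℕ) (F : ℕ → ℕ → ℤ → Prop)
    (h1 : ∀ k ∈ s, ∀ i p, F k i p → C.ch j i p)
    (h2 : ∀ k ∈ s, ∀ k' ∈ s, ∀ i < C.d.m, ∀ p, F k i p → F k' i p → k = k') :
    ∑ k ∈ s, (C.EvS (F k)).card ≤ C.NEv j := by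
  rw [← card_biUnion]
  · refine card_le_card fun q hq => ?_
    obtain ⟨k, hk, hq⟩ := mem_biUnion.1 hq
    unfold Cx.EvS at hq ⊢
    rw [mem_filter] at hq ⊢
    exact ⟨hq.1, h1 k hk _ _ hq.2⟩
  · intro k hk k' hk' ne
    refine disjoint_left.2 fun q a b => ne ?_
    unfold Cx.EvS at a b
    rw [mem_filter] at a b
    exact h2 k hk k' hk' _ (mem_range.1 (mem_product.1 a.1).1) _ a.2 b.2

end CNTWc

theorem p_CNTW (hEVR : S_EVR) (hEVL : S_EVL) (hCMIR : S_CMIR) (hCHMIR : S_CHMIR) :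
    S_CNTW := fun C j h =>
  CNTWc.cnt C j _ _ (fun t ht _ _ z => Or.inr (Or.inr (Or.inr ⟨t, ht, z⟩)))
    fun _ ht _ ht' _ hi _ a b => Cx.uniqW hEVR hEVL h hi (C.g_le _) (mem_Ioc.1 ht).2
      (mem_Ioc.1 ht').2 a b

end Pool.Agent.P.MP_119182_lc.NU
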