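import Pool.Agent.P.MP_119182_lc.NU.CIface

/-! Step CRULE. -/

set_option autoImplicit false

namespace Pool.Agent.P.MP_119182_lc.NU

open Finset
open scoped Classical

namespace CRULEc

end CRULEc

theorem p_CRULE :
    S_CRULE := by
  intro C j k c i Q _ hi hL hI t ht Y hY hA hN
  refine hL.lzC t ht (vI k (j + 1)) Y (Nat.zero_le i) hi ⟨hY, fun _ _ _ _ => rfl, ?_, ?_⟩ ?_
  · intro a ha b hb s hs hab
    obtain ⟨r, hr, hrc, rfl⟩ := (mem_Sep (x := C.d.x) (r := t) (f := it t) (i := i)).1 hs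
    have h1 : it t a < it t (C.d.x r) := lt_of_le_of_ne hab.1 (hN r hr.le hrc a ha)
    have h2 : it t (C.d.x r) < it t b := lt_of_le_of_ne hab.2 (hN r hr.le hrc b hb).symm
    have h3 : C.d.x r ∈ Y := hY.1.out ha hb ⟨(lt_of_it_lt h1).le, (lt_of_it_lt h2).le⟩
    exact hN r hr.le hrc _ h3 rfl
  · intro y hy
    have h1 : it t (C.d.x i) < it t y :=
      lt_of_le_of_ne (it_mono t (hY.2 y hy).le) (hN i le_rfl (rct_refl t i) y hy).symm
    have h2 : ∃ s ≤ i, rct C.d.x t s i ∧ it t (C.d.x i) < it t (C.d.x s) ∧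
        it t (C.d.x s) ≤ it t y := by
      by_contra hc
      exact hA y hy ⟨h1, fun s hs hr h => hc ⟨s, hs, hr, h⟩⟩
    obtain ⟨s, hs, hr, h3, h4⟩ := h2
    have hsi : s < i := lt_of_le_of_ne hs fun e => by rw [e] at h3; exact lt_irrefl _ h3
    exact Or.inr ⟨it t (C.d.x s),
      (mem_Sep (x := C.d.x) (r := t) (f := it t) (i := i)).2 ⟨s, hsi, hr, rfl⟩, h3,
      lt_of_le_of_ne h4 (hN s hs hr y hy).symm⟩
  · intro Z hZ hc hf
    exact hI t (mem_Ioc.1 ht).2 Z (hY.sub hZ hc) hf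
      fun r hr hrc a ha => hN r hr (hrc.mono (Nat.sub_le t 1)) a (hZ ha)

end Pool.Agent.P.MP_119182_lc.NU
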