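import Pool.Agent.P.MP_119182_lc.NU.SIface
import Pool.Agent.P.MP_119182_lc.NU.Lv

/-! The gap system of the zones. -/

set_option autoImplicit false

namespace Pool.Agent.P.MP_119182_lc.NU

open Finset
open scoped Classical

namespace ThS

noncomputable section

variable (x : ℕ → ℤ) (g h : ℕ)

/-- The item of tier `t` above an item of tier `g`. -/
def up (t : ℕ) (S : ℤ) : ℤ := S / 2 ^ (sg t - sg g)

/-- `S` is the left anchor of `v`. -/
def Anc (i : ℕ) (S v : ℤ) : Prop :=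
  S ∈ Qs x g (it g) i ∧ S < it g v ∧ ∀ S' ∈ Qs x g (it g) i, S' ≤ it g v → S' ≤ S

/-- The predicates which define the zones. -/
def pr (i : ℕ) (S v : ℤ) (e : ℕ × ℕ) : Prop :=
  (e.2 = 0 ∧ up g e.1 S < it e.1 v) ∨
    (e.2 ≠ 0 ∧ ∃ S' ∈ Qs x (e.1 + 1 - e.2) (it e.1) i, up g e.1 S < S' ∧ S' ≤ it e.1 v)

/-- The true predicates. -/
def zs (i : ℕ) (S v : ℤ) : Finset (ℕ × ℕ) := (Ioc g h ×ˢ range 3).filter (pr x g i S v)

/-- The anchor as a function. -/
def la (i : ℕ) (v : ℤ) : ℤ := Classical.epsilon fun S => Anc x g i S v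

/-- The part of a key. -/
def pt (i : ℕ) (v : ℤ) : ℤ × ℕ := (la x g i v, (zs x g h i (la x g i v) v).card)

/-- The left neighbour of the new item. -/
def Nb (i : ℕ) (S : ℤ) : Prop :=
  S < it g (x (i + 1)) ∧ ∀ S' ∈ Qs x g (it g) i, S' < it g (x (i + 1)) → S' ≤ S

/-- The exceptional keys. -/
def XX (T : ℕ) : ℕ → Set ℤ
  | 0 => Set.univ
  | i + 1 => {v | om x T g (i + 1) ≠ om x T g i ∨ (it g (x (i + 1)) ∉ Qs x g (it g) i ∧
      ∃ S, Anc x g (i + 1) S v ∧ (S = it g (x (i + 1)) ∨ Nb x g i S))}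

end

variable {x : ℕ → ℤ} {g h i T : ℕ} {S S' u v : ℤ}

lemma up_it {t : ℕ} (ht : g ≤ t) (v : ℤ) : up g t (it g v) = it t v := (it_it ht v).symm

lemma up_mono (t : ℕ) : Monotone (up g t) := div_pow_mono _

lemma Anc.uniq (h1 : Anc x g i S v) (h2 : Anc x g i S' v) : S = S' :=
  le_antisymm (h2.2.2 S h1.1 h1.2.1.le) (h1.2.2 S' h2.1 h2.2.1.le)

lemma Anc.la (h1 : Anc x g i S v) : la x g i v = S :=
  (Classical.epsilon_spec (p := fun S => Anc x g i S v) ⟨S, h1⟩).uniq h1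

lemma Anc.mid {a b e : ℤ} (h1 : Anc x g i S a) (h2 : Anc x g i S e) (hab : a ≤ b) (hbe : b ≤ e) :
    Anc x g i S b :=
  ⟨h1.1, h1.2.1.trans_le (it_mono g hab), fun S' hS' h => h2.2.2 S' hS' (h.trans (it_mono g hbe))⟩

lemma zs_mono (h1 : u ≤ v) : zs x g h i S u ⊆ zs x g h i S v :=
  monotone_filter_right _ fun _ _ he => he.imp (fun h => ⟨h.1, h.2.trans_le (it_mono _ h1)⟩)
    fun ⟨h0, S', h2, h3, h4⟩ => ⟨h0, S', h2, h3, h4.trans (it_mono _ h1)⟩

lemma zs_card : (zs x g h i S v).card ≤ 3 * (h - g) :=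
  (card_filter_le _ _).trans (by simp [mul_comm])

lemma zs_eq (h1 : (zs x g h i S u).card = (zs x g h i S v).card) :
    zs x g h i S u = zs x g h i S v := by
  rcases le_total u v with h2 | h2
  · exact eq_of_subset_of_card_le (zs_mono h2) h1.ge
  · exact (eq_of_subset_of_card_le (zs_mono h2) h1.le).symm

lemma up_mem {t r : ℕ} (ht : g ≤ t) (hr : g ≤ r) (h1 : S ∈ Qs x g (it g) i) :
    up g t S ∈ Qs x r (it t) i := by
  obtain ⟨s, hs, h2, rfl⟩ := mem_Qs.1 h1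
  exact mem_Qs.2 ⟨s, hs, h2.mono hr, (up_it ht _).symm⟩

lemma Anc.back (hT : g ≤ T) (hv : v ∉ XX x g T (i + 1)) (h1 : Anc x g (i + 1) S v) :
    Anc x g i S v ∧ (∀ u, Anc x g i S u → Anc x g (i + 1) S u) ∧
      (h ≤ T → zs x g h (i + 1) S v = zs x g h i S v) := by
  simp only [XX, Set.mem_ofPred_eq, not_or, not_not, not_and, not_exists] at hv
  obtain ⟨ho, hv⟩ := hv
  have hQ : ∀ r t, g ≤ r → r ≤ T → Qs x r (it t) (i + 1) =
      insert (it t (x (i + 1))) (Qs x r (it t) i) :=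
    fun r t h1 h2 => Qs_succ_eq (win_eq_of_om ho h1 h2)
  have hQg := hQ g g le_rfl hT
  have hS : S ∈ Qs x g (it g) i := by
    have h2 := h1.1
    rw [hQg, mem_insert] at h2
    by_cases h3 : it g (x (i + 1)) ∈ Qs x g (it g) i
    · exact h2.elim (fun e => e ▸ h3) id
    · exact h2.resolve_left (hv h3 S h1).1
  have hA : Anc x g i S v :=
    ⟨hS, h1.2.1, fun S' h2 => h1.2.2 S' (hQg ▸ mem_insert_of_mem h2)⟩
  refine ⟨hA, fun u hu => ⟨h1.1, hu.2.1, fun S' h2 h3 => ?_⟩, fun hh => ?_⟩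
  · rw [hQg, mem_insert] at h2
    rcases h2 with rfl | h2
    · by_cases h4 : it g (x (i + 1)) ∈ Qs x g (it g) i
      · exact hu.2.2 _ h4 h3
      · by_contra h5
        exact (hv h4 S h1).2 ⟨not_le.1 h5, fun S' h6 h7 => hu.2.2 S' h6 (h7.le.trans h3)⟩
    · exact hu.2.2 S' h2 h3
  · refine filter_congr fun e he => or_congr_right (and_congr_right fun h0 => ?_)
    obtain ⟨h2, h3⟩ := mem_product.1 he
    obtain ⟨h4, h5⟩ := mem_Ioc.1 h2
    have h6 := mem_range.1 h3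
    rw [hQ _ _ (by omega) (by omega)]
    refine ⟨fun ⟨S', a1, a2, a3⟩ => ⟨S', ?_, a2, a3⟩, fun ⟨S', a1, a2⟩ =>
      ⟨S', mem_insert_of_mem a1, a2⟩⟩
    rcases mem_insert.1 a1 with rfl | a1
    · rw [← up_it h4.le] at a2 a3 ⊢
      by_cases h7 : it g (x (i + 1)) ∈ Qs x g (it g) i
      · exact up_mem h4.le (by omega) h7
      · have h8 : S < it g (x (i + 1)) := lt_of_not_ge fun h8 => a2.not_ge (up_mono _ h8)
        obtain ⟨S2, b1, b2, b3⟩ : ∃ S2 ∈ Qs x g (it g) i, S2 < it g (x (i + 1)) ∧ S < S2 := by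
          by_contra h9
          exact (hv h7 S h1).2 ⟨h8, fun S' c1 c2 => not_lt.1 fun c3 => h9 ⟨S', c1, c2, c3⟩⟩
        have b4 : it g v < S2 := lt_of_not_ge fun b4 => b3.not_ge (hA.2.2 S2 b1 b4)
        have b5 : up g e.1 (it g (x (i + 1))) = up g e.1 S2 :=
          le_antisymm (a3.trans ((up_it h4.le v).ge.trans (up_mono _ b4.le))) (up_mono _ b2.le)
        rw [b5]
        exact up_mem h4.le (by omega) b1
    · exact a1

lemma card_parts (K : Finset ℤ) (A : Finset ℤ) (hK : ∀ v ∈ K, la x g i v ∈ A) :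
    (K.image (pt x g h i)).card ≤ A.card * (3 * (h - g) + 1) := by
  rw [← card_range (3 * (h - g) + 1), ← card_product]
  exact card_le_card (image_subset_iff.2 fun v hv =>
    mem_product.2 ⟨hK v hv, mem_range.2 (Nat.lt_succ_of_le zs_card)⟩)

/-- The number of anchors of the exceptional keys. -/
noncomputable def na (x : ℕ → ℤ) (g T m : ℕ) : ℕ → ℕ
  | 0 => 1
  | i + 1 => (if om x T g (i + 1) ≠ om x T g i then 6 * cc g else 0) +
      if i + 1 ∈ fst x T g (it g) m then 2 else 0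

lemma card_step {m : ℕ} (hT : g ≤ T) (hi : i < m) (K : Finset ℤ) :
    ((K.filter fun v => v ∈ XX x g T i ∧ ∃ S, Anc x g i S v ∧ Anc x g i S v).image
      (pt x g h i)).card ≤ na x g T m i * (3 * (h - g) + 1) := by
  have hQ : ∀ v ∈ K.filter fun v => v ∈ XX x g T i ∧ ∃ S, Anc x g i S v ∧ Anc x g i S v,
      la x g i v ∈ Qs x g (it g) i := fun v hv =>
    let ⟨_, S, h1, _⟩ := (mem_filter.1 hv).2
    h1.la ▸ h1.1
  cases i with
  | zero => exact (card_parts _ _ hQ).trans (by rw [Qs_zero]; rfl)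
  | succ i =>
    by_cases ho : om x T g (i + 1) ≠ om x T g i
    · refine (card_parts _ _ hQ).trans (Nat.mul_le_mul_right _ ?_)
      rw [na, if_pos ho]
      exact (card_Qs fun _ _ => id).trans (Nat.le_add_right _ _)
    by_cases hq : it g (x (i + 1)) ∈ Qs x g (it g) i
    · rw [filter_false_of_mem fun v _ hv => hv.1.elim ho fun h1 => h1.1 hq]
      simp
    have hf : i + 1 ∈ fst x T g (it g) m := mem_fst.2 ⟨hi, fun s hs e e' => hq
      (mem_Qs.2 ⟨s, Nat.lt_succ_iff.1 hs, rct_of_om (e.trans (not_not.1 ho)) le_rfl hT, e'⟩)⟩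
    refine (card_parts _ {it g (x (i + 1)), Classical.epsilon fun S =>
      S ∈ Qs x g (it g) i ∧ Nb x g i S} fun v hv => ?_).trans (Nat.mul_le_mul_right _ ?_)
    · obtain ⟨-, S, h1, h2⟩ := (mem_filter.1 hv).2.1.resolve_left ho
      rw [h1.la, mem_insert, mem_singleton]
      refine h2.imp_right fun h2 => ?_
      have h3 : S ∈ Qs x g (it g) i := by
        have h4 := h1.1
        rw [Qs_succ_eq (win_eq_of_om (not_not.1 ho) le_rfl hT), mem_insert] at h4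
        exact h4.resolve_left h2.1.ne
      have h4 := Classical.epsilon_spec (p := fun S => S ∈ Qs x g (it g) i ∧ Nb x g i S) ⟨S, h3, h2⟩
      exact le_antisymm (h4.2.2 S h3 h2.1) (h2.2 _ h4.1 h4.2.1)
    · rw [na, if_pos hf]
      exact card_le_two.trans (Nat.le_add_left _ _)

lemma sum_na (m : ℕ) : ∑ i ∈ range m, na x g T m i ≤
    1 + chg x T g m * (6 * cc g) + (fst x T g (it g) m).card * 2 := by
  cases m with
  | zero => simp
  | succ m =>
    rw [sum_range_succ', add_comm, add_assoc]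
    refine Nat.add_le_add_left ?_ 1
    simp only [na]
    rw [sum_add_distrib, ← sum_filter, ← sum_filter, sum_const, sum_const, smul_eq_mul, smul_eq_mul]
    refine Nat.add_le_add (Nat.mul_le_mul_right _ (card_le_card
      (filter_subset_filter _ (range_subset_range.2 (Nat.le_succ m))))) (Nat.mul_le_mul_right _ ?_)
    exact card_le_card_of_injOn (· + 1) (fun i hi => (mem_filter.1 (mem_coe.1 hi)).2)
      fun i _ j _ e => Nat.succ_injective e

end ThS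

/-- The gap system of the zones of the tiers in `(g, h]`. -/
theorem sys_TH (hGAP : S_GAP) {d : Run} (hd : d.OK) {n T g h : ℕ} (c : ℕ) (hn : d.keys.card ≤ n)
    (hg : g ≤ h) (hh : h ≤ T) :
    d.Sys (c * (25 * (n + 1 + jmp d.x g d.m) * (3 * (h - g) + 1))) fun i Q =>
      ∀ (v : ℕ) (Y : Set ℤ), d.Rgt i Y →
        (∀ y ∈ Y, it g (d.x i) < it g y ∧
          ∀ S ∈ Qs d.x g (it g) i, ¬ (it g (d.x i) < S ∧ S ≤ it g y)) →
        (∀ Z ⊆ Y, Z.OrdConnected → (∀ a ∈ Z, ∀ b ∈ Z, ∀ t, g < t → t ≤ h →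
          (it t (d.x i) < it t a → it t (d.x i) < it t b) ∧ ∀ r, r = t ∨ r = t - 1 →
            (∃ S ∈ Qs d.x r (it t) i, it t (d.x i) < S ∧ S ≤ it t a) →
            ∃ S ∈ Qs d.x r (it t) i, it t (d.x i) < S ∧ S ≤ it t b) → d.Good c i Q v Z) →
        d.Good c i Q (2 * v + 4) Y := by
  have hT := hg.trans hh
  refine (hGAP (ℤ × ℕ) d c (fun i a b => ∃ S, ThS.Anc d.x g i S a ∧ ThS.Anc d.x g i S b)
    (ThS.pt d.x g h) (ThS.XX d.x g T) hd ?_ ?_ ?_ ?_ ?_ ?_ ?_ ?_ ?_).mono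
    (Nat.mul_le_mul_left c ?_) ?_
  · exact fun i a b ⟨S, h1, h2⟩ => ⟨S, h2, h1⟩
  · rintro i a b e ⟨S, h1, h2⟩ ⟨S', h3, h4⟩
    exact ⟨S, h1, h2.uniq h3 ▸ h4⟩
  · exact fun i a b e ⟨S, h1, h2⟩ h3 h4 => ⟨S, h1, h1.mid h2 h3 h4⟩
  · exact fun i _ ⟨S, h1, _⟩ => h1.2.1.not_ge (h1.2.2 _ self_mem_Qs le_rfl)
  · rintro i a b e ⟨S, h1, h2⟩ h3 h4 h5
    have h6 := h1.mid h2 h4 h5
    simp only [ThS.pt, h1.la, h2.la, h6.la, Prod.mk.injEq, true_and] at h3 ⊢
    exact le_antisymm (h3 ▸ card_le_card (ThS.zs_mono h5)) (card_le_card (ThS.zs_mono h4))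
  · rintro i a b ⟨S, h1, -⟩ ⟨S', h2, -⟩ h3
    simp only [ThS.pt, h1.la, h2.la, Prod.mk.injEq] at h3
    exact ⟨S, h1, h3.1 ▸ h2⟩
  · exact fun v _ => Set.mem_univ v
  · rintro i - v hv ⟨S, h1, -⟩
    obtain ⟨h2, h3, -⟩ := h1.back (h := h) hT hv
    exact ⟨⟨S, h2, h2⟩, fun u ⟨S', h4, h5⟩ => ⟨S, h1, h3 u (h4.uniq h2 ▸ h5)⟩⟩
  · rintro i - u v hu hv ⟨S, h1, -⟩ ⟨S', h2, -⟩ h3
    obtain ⟨a1, -, a2⟩ := h1.back (h := h) hT hu
    obtain ⟨b1, -, b2⟩ := h2.back (h := h) hT hv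
    simp only [ThS.pt, h1.la, h2.la, a1.la, b1.la, a2 hh, b2 hh] at h3 ⊢
    exact h3
  · refine (sum_le_sum (g := fun i => ThS.na d.x g T d.m i * (3 * (h - g) + 1)) fun i hi => by
      have h1 := ThS.card_step (x := d.x) (h := h) hT (mem_range.1 hi) d.keys
      refine le_trans (card_le_card fun z hz => ?_) h1
      obtain ⟨y, hy, e⟩ := (@mem_image _ _ (_) _ _ _).1 hz
      exact (@mem_image _ _ (_) _ _ _).2
        ⟨y, (@mem_filter _ _ (_) _ _).2 ((@mem_filter _ _ (_) _ _).1 hy), e⟩).trans ?_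
    rw [← sum_mul]
    refine Nat.mul_le_mul_right _ ((ThS.sum_na _).trans ?_)
    have h1 := card_fst (x := d.x) (f := it g) hT (fun _ _ => id) ((card_x hd).trans hn)
    have h2 := cc_mul_chg (x := d.x) T g d.m
    rw [mul_left_comm, mul_comm (chg _ _ _ _)]
    omega
  · intro i _ Q hr v Y hY hA hZ
    have key : ∀ y ∈ Y, ThS.Anc d.x g i (it g (d.x i)) y := fun y hy =>
      ⟨self_mem_Qs, (hA y hy).1, fun S hS h1 => not_lt.1 fun h2 => (hA y hy).2 S hS ⟨h2, h1⟩⟩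
    refine hr v Y hY (fun a ha b hb => ⟨_, key a ha, key b hb⟩) fun Z hZY hZc hp =>
      hZ Z hZY hZc fun a ha b hb t h1 h2 => ?_
    have h3 := hp a ha b hb
    simp only [ThS.pt, (key a (hZY ha)).la, (key b (hZY hb)).la, Prod.mk.injEq, true_and] at h3
    have h4 : ∀ j < 3, ThS.pr d.x g i (it g (d.x i)) a (t, j) →
        ThS.pr d.x g i (it g (d.x i)) b (t, j) := fun j hj h5 =>
      (mem_filter.1 (ThS.zs_eq h3 ▸ mem_filter.2
        ⟨mem_product.2 ⟨mem_Ioc.2 ⟨h1, h2⟩, mem_range.2 hj⟩, h5⟩ :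
          (t, j) ∈ ThS.zs d.x g h i (it g (d.x i)) b)).2
    refine ⟨?_, ?_⟩
    · simpa [ThS.pr, ThS.up_it h1.le] using h4 0 (by omega)
    · rintro r (rfl | rfl)
      · simpa [ThS.pr, ThS.up_it h1.le] using h4 1 (by omega)
      · simpa [ThS.pr, ThS.up_it h1.le] using h4 2 (by omega)

end Pool.Agent.P.MP_119182_lc.NU
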