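import Pool.Agent.P.MP_119182_lc.NU.Sec5
import Pool.Agent.P.MP_119182_lc.NU.LvTh

/-! Costs of the window families, the cuts, and the two bundles of systems. -/

set_option autoImplicit false

namespace Pool.Agent.P.MP_119182_lc.NU

open Finset
open scoped Classical

variable {x : ℕ → ℤ} {d : Run} {T : ℕ} {ix : ℕ → ℕ → ℤ → ℤ}

lemma sum_fiber_le {α : Type} (S : Finset ℕ) (F : Finset α) (g : α → ℕ) :
    ∑ w ∈ S, (F.filter fun i => g i = w).card ≤ F.card := by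
  rw [sum_card_fiberwise_eq_card_filter]
  exact card_filter_le _ _

lemma sum_first_le (S : Finset ℕ) (w₀ a b : ℕ) (f : ℕ → ℕ) (h0 : f w₀ ≤ a)
    (h1 : ∀ w ∈ S, w ≠ w₀ → f w ≤ b) : ∑ w ∈ S, f w ≤ a + (S.erase w₀).card * b := by
  have h2 : ∑ w ∈ S.erase w₀, f w ≤ (S.erase w₀).card * b :=
    sum_le_card_nsmul _ _ _ fun w hw => h1 w (mem_of_mem_erase hw) (ne_of_mem_erase hw)
  by_cases h : w₀ ∈ S
  · rw [← add_sum_erase S f h]; omega
  · rw [erase_eq_of_notMem h] at h2 ⊢; omega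

lemma card_later_win (t m : ℕ) :
    (((range m).image (win x t)).erase (win x t 0)).card * cc t ≤ jmp x t m := by
  refine le_trans (Nat.mul_le_mul_right _ ?_) (Nat.div_mul_le_self (jmp x t m) (cc t))
  refine (card_le_card (t := Icc 1 (jmp x t m / cc t)) fun w hw => ?_).trans (by simp)
  obtain ⟨h1, h2⟩ := mem_erase.1 hw
  obtain ⟨i, hi, rfl⟩ := mem_image.1 h2
  have h3 := win_mono (x := x) t (Nat.zero_le i)
  exact mem_Icc.2 ⟨by omega, Nat.div_le_div_right (jmp_mono t (mem_range.1 hi))⟩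

lemma w0_first (m t : ℕ) : w0 x m t (win x t 0) = 0 :=
  Nat.eq_zero_of_not_pos fun h => lt_irrefl _ (lt_w0.1 h).2

lemma ix_coarse (hx : Idx d.x d.m ix) (t w : ℕ) (u v : ℤ) (e : it (t - 1) u = it (t - 1) v) :
    ix t w u = ix t w v := hx.itm t w u v (it_congr (Nat.sub_le t 1) e)

lemma levW_fst (hx : Idx d.x d.m ix) {t : ℕ} (ht : t ≤ T) (w l : ℕ) :
    (levW d T ix t w l).fst d ⊆
      (fst d.x T (t - 1) (it (t - 1)) d.m).filter fun i => win d.x t i = w := by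
  intro i hi
  obtain ⟨h1, h2⟩ := mem_filter.1 hi
  obtain ⟨h3, h4⟩ := mem_w0.1 (mem_Ico.1 h1)
  refine mem_filter.2 ⟨mem_fst.2 ⟨h3, fun s hs e e' => h2 s ?_ hs e (ix_coarse hx t w _ _ e')⟩, h4⟩
  exact (mem_w0.2 ⟨hs.trans h3, (win_eq_of_om e (Nat.sub_le t 1) ht).trans h4⟩).1

lemma sum_levW_fst (hd : d.OK) (hx : Idx d.x d.m ix) {n t : ℕ} (hn : d.keys.card ≤ n) (ht : t ≤ T)
    (S : Finset ℕ) (l : ℕ) :
    ∑ w ∈ S, ((levW d T ix t w l).fst d).card ≤ 6 * (n + 1 + jmp d.x (t - 1) d.m) :=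
  (sum_le_sum fun w _ => card_le_card (levW_fst hx ht w l)).trans ((sum_fiber_le _ _ _).trans
    (card_fst (by omega) (fun _ _ => id) ((card_x hd).trans hn)))

lemma levW_cost (hd : d.OK) (hx : Idx d.x d.m ix) {n t : ℕ} (hn : d.keys.card ≤ n) (ht : t ≤ T)
    (l : ℕ) : ∑ w ∈ (range d.m).image (win d.x t), (levW d T ix t w l).cost d ≤
      55 * (n + 1 + jmp d.x (t - 1) d.m) := by
  have h1 := sum_levW_fst hd hx hn ht ((range d.m).image (win d.x t)) l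
  have h2 := sum_first_le ((range d.m).image (win d.x t)) (win d.x t 0) n (19 * cc t)
    (fun w => (d.keys.image (ix t w)).card + (Sep d.x (t - 1) (ix t w) (w0 d.x d.m t w)).card)
    (by rw [w0_first, Sep_zero]; exact card_image_le.trans hn) fun w _ _ => by
      have a1 := hx.card t w d.keys
      have a2 := card_Sep (x := d.x) (i := w0 d.x d.m t w) (ix_coarse hx t w)
      have a3 := cc_mono (Nat.sub_le t 1)
      omega
  have h3 := card_later_win (x := d.x) t d.m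
  have h4 := jmp_anti (x := d.x) (Nat.sub_le t 1) d.m
  rw [mul_left_comm] at h2
  have h5 : ∑ w ∈ (range d.m).image (win d.x t), (levW d T ix t w l).cost d =
      ∑ w ∈ (range d.m).image (win d.x t), ((d.keys.image (ix t w)).card +
        (Sep d.x (t - 1) (ix t w) (w0 d.x d.m t w)).card) +
      6 * ∑ w ∈ (range d.m).image (win d.x t), ((levW d T ix t w l).fst d).card := by
    rw [mul_sum, ← sum_add_distrib]; rfl
  omega

lemma levW_dyCost (hd : d.OK) (hx : Idx d.x d.m ix) {n t : ℕ} (hn : d.keys.card ≤ n) (ht : t ≤ T)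
    (l : ℕ) : ∑ w ∈ (range d.m).image (win d.x t), (levW d T ix t w l).dyCost d ≤
      25 * (n + 1 + jmp d.x (t - 1) d.m) := by
  have h1 := sum_levW_fst hd hx hn ht ((range d.m).image (win d.x t)) l
  have hQ : ∀ w i, (levW d T ix t w l).Q d i = Qs d.x (t - 1) (ix t w) i := fun _ _ => Qs_eq.symm
  have h2 := sum_first_le ((range d.m).image (win d.x t)) (win d.x t 0) 1 (6 * cc t)
    (fun w => (Qs d.x (t - 1) (ix t w) (w0 d.x d.m t w)).card)
    (by rw [w0_first, Qs_zero]; rfl) fun w _ _ =>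
      (card_Qs (ix_coarse hx t w)).trans (Nat.mul_le_mul_left 6 (cc_mono (Nat.sub_le t 1)))
  have h3 := card_later_win (x := d.x) t d.m
  have h4 := jmp_anti (x := d.x) (Nat.sub_le t 1) d.m
  rw [mul_left_comm] at h2
  have h6 : ∑ w ∈ (range d.m).image (win d.x t), ∑ i ∈ (levW d T ix t w l).chg,
      ((levW d T ix t w l).Q d i).card ≤ chg d.x T (t - 1) d.m * (6 * cc (t - 1)) := by
    refine (sum_le_sum (g := fun w => (levW d T ix t w l).chg.card * (6 * cc (t - 1)))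
      fun w _ => sum_le_card_nsmul _ _ _ fun i _ => hQ w i ▸ card_Qs (ix_coarse hx t w)).trans ?_
    rw [← sum_mul]
    refine Nat.mul_le_mul_right _ (le_trans (sum_le_sum fun w _ => card_le_card fun i hi => ?_)
      ((sum_fiber_le _ _ (win d.x t)).trans (card_chg_le (om d.x T (t - 1)) d.m)))
    obtain ⟨a1, a2⟩ := mem_filter.1 hi
    obtain ⟨a3, a4⟩ := mem_Ioo.1 a1
    obtain ⟨a5, a6⟩ := mem_w0.1 ⟨a3.le, a4⟩
    exact mem_filter.2 ⟨mem_filter.2 ⟨mem_Ioo.2 ⟨(Nat.zero_le _).trans_lt a3, a5⟩, a2⟩, a6⟩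
  have h7 := cc_mul_chg (x := d.x) T (t - 1) d.m
  rw [mul_left_comm, mul_comm (chg _ _ _ _)] at h6
  have h5 : ∑ w ∈ (range d.m).image (win d.x t), (levW d T ix t w l).dyCost d =
      ∑ w ∈ (range d.m).image (win d.x t), (Qs d.x (t - 1) (ix t w) (w0 d.x d.m t w)).card +
      ∑ w ∈ (range d.m).image (win d.x t), ∑ i ∈ (levW d T ix t w l).chg,
        ((levW d T ix t w l).Q d i).card +
      ∑ w ∈ (range d.m).image (win d.x t), ((levW d T ix t w l).fst d).card := by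
    rw [← sum_add_distrib, ← sum_add_distrib]
    exact sum_congr rfl fun w _ => by rw [← hQ]; rfl
  omega

lemma sum_Ico_MM {n m g h : ℕ} (hh : h ≤ T) :
    ∑ k ∈ Ico g h, (sg k + 1) * (n + 1 + jmp x k m) ≤ MM x n m T :=
  sum_le_sum_of_subset fun k hk => mem_range.2 (by have := mem_Ico.1 hk; omega)

lemma sum_Ioc_MM {n m g h : ℕ} (hh : h ≤ T) :
    ∑ t ∈ Ioc g h, (sg (t - 1) + 1) * (n + 1 + jmp x (t - 1) m) ≤ MM x n m T := by
  rw [← sum_image (f := fun k => (sg k + 1) * (n + 1 + jmp x k m)) (g := fun t => t - 1)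
    fun a ha b hb e => by
      have h1 := mem_Ioc.1 (mem_coe.1 ha)
      have h2 := mem_Ioc.1 (mem_coe.1 hb)
      simp only at e
      omega]
  refine sum_le_sum_of_subset fun k hk => ?_
  obtain ⟨t, ht, rfl⟩ := mem_image.1 hk
  have := mem_Ioc.1 ht
  exact mem_range.2 (by omega)

lemma sg_four {t : ℕ} (h : 0 < t) : sg t + 4 ≤ 5 * (sg (t - 1) + 1) := by
  have := sg_succ_le (t - 1)
  rw [Nat.sub_add_cancel h] at this
  omega

lemma card_om (n t m : ℕ) : ((range m).image (om x T t)).card ≤ 3 * (n + 1 + jmp x t m) := by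
  have h1 := card_windows (x := x) T t m
  have h2 := chg_le (x := x) T t m
  have h3 : ((range m).image (om x T t)).card ≤ ((range (m + 1)).image (om x T t)).card :=
    card_le_card (image_subset_image (range_subset_range.2 (Nat.le_succ m)))
  omega

lemma card_keys (d : Run) : d.keys.card ≤ (d.R - d.L).toNat := by
  rw [Run.keys, Int.card_Ioo]; omega

/-! ### Cuts -/

lemma it_lt_iff (t : ℕ) (v S : ℤ) : it t v < S ↔ v < S * 2 ^ sg t :=
  Int.ediv_lt_iff_lt_mul (by positivity)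

lemma cls_ne {K : Finset ℤ} {a u v : ℤ} (h : a ∈ K) (h1 : u < a) (h2 : a ≤ v) :
    cls K u ≠ cls K v :=
  (card_lt_card ⟨monotone_filter_right _ fun _ _ h3 => h3.trans (h1.le.trans h2), fun h3 =>
    h1.not_ge (mem_filter.1 (h3 (mem_filter.2 ⟨h, h2⟩))).2⟩).ne

lemma cut_hi (t : ℕ) (R : Finset ℤ) :
    ∃ a, ∀ p z, it t z ∈ R → (∀ S ∈ R, it t p < S) → p < a ∧ a ≤ z := by
  rcases R.eq_empty_or_nonempty with rfl | h
  · exact ⟨0, by simp⟩
  · exact ⟨R.min' h * 2 ^ sg t, fun p z h1 h2 => ⟨(it_lt_iff _ _ _).1 (h2 _ (R.min'_mem h)),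
      not_lt.1 fun h3 => ((it_lt_iff _ _ _).2 h3).not_ge (R.min'_le _ h1)⟩⟩

lemma cut_lo (t : ℕ) (R : Finset ℤ) :
    ∃ a, ∀ p z, it t z ∈ R → (∀ S ∈ R, S < it t p) → z < a ∧ a ≤ p := by
  rcases R.eq_empty_or_nonempty with rfl | h
  · exact ⟨0, by simp⟩
  · exact ⟨(R.max' h + 1) * 2 ^ sg t, fun p z h1 h2 =>
      ⟨(it_lt_iff _ _ _).1 (Int.lt_add_one_iff.2 (R.le_max' _ h1)),
      not_lt.1 fun h3 => (h2 _ (R.max'_mem h)).not_ge
        (Int.lt_add_one_iff.1 ((it_lt_iff _ _ _).2 h3))⟩⟩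

/-- Four cuts around an item. -/
lemma four_cuts {t t' : ℕ} (h : t ≤ t') (y : ℕ → ℤ) (F : Finset ℕ) (I : ℤ) :
    ∃ K : Finset ℤ, K.card ≤ 4 ∧ ∀ p z, ∀ r ∈ F, it t z = it t (y r) →
      ((I < it t' p ∧ ∀ s ∈ F, ¬ (I < it t' (y s) ∧ it t (y s) ≤ it t p)) ∨
        (it t' p < I ∧ ∀ s ∈ F, ¬ (it t' (y s) < I ∧ it t p ≤ it t (y s)))) →
      ∃ a ∈ K, (z < a ∧ a ≤ p) ∨ (p < a ∧ a ≤ z) := by
  obtain ⟨a, ha⟩ := cut_hi t ((F.filter fun s => I < it t' (y s)).image fun s => it t (y s))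
  obtain ⟨b, hb⟩ := cut_lo t ((F.filter fun s => it t' (y s) < I).image fun s => it t (y s))
  refine ⟨{(I + 1) * 2 ^ sg t', a, I * 2 ^ sg t', b}, card_le_four, fun p z r hr e h1 => ?_⟩
  have e' := it_congr h e
  rcases h1 with ⟨h1, h2⟩ | ⟨h1, h2⟩
  · by_cases h3 : I < it t' (y r)
    · refine ⟨a, by simp, .inr (ha p z (e ▸ mem_image_of_mem _ (mem_filter.2 ⟨hr, h3⟩)) ?_)⟩
      intro S hS
      obtain ⟨s, hs, rfl⟩ := mem_image.1 hS
      exact not_le.1 fun h4 => h2 s (mem_filter.1 hs).1 ⟨(mem_filter.1 hs).2, h4⟩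
    · exact ⟨(I + 1) * 2 ^ sg t', by simp, .inl ⟨(it_lt_iff _ _ _).1 (by omega),
        not_lt.1 fun h4 => by have := (it_lt_iff _ _ _).2 h4; omega⟩⟩
  · by_cases h3 : it t' (y r) < I
    · refine ⟨b, by simp, .inl (hb p z (e ▸ mem_image_of_mem _ (mem_filter.2 ⟨hr, h3⟩)) ?_)⟩
      intro S hS
      obtain ⟨s, hs, rfl⟩ := mem_image.1 hS
      exact not_le.1 fun h4 => h2 s (mem_filter.1 hs).1 ⟨(mem_filter.1 hs).2, h4⟩
    · exact ⟨I * 2 ^ sg t', by simp, .inr ⟨(it_lt_iff _ _ _).1 h1,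
        not_lt.1 fun h4 => by have := (it_lt_iff _ _ _).2 h4; omega⟩⟩

namespace Cx

variable {C : Cx}

lemma fr_iff {h t i : ℕ} {p : ℤ} (hf : C.fr h t i p) : ∃ t', t ≤ t' ∧ t' ≤ h ∧
    ((it t' (C.d.x i) < it t' p ∧ ∀ s ≤ i, rct C.d.x t s i →
      ¬ (it t' (C.d.x i) < it t' (C.d.x s) ∧ it t (C.d.x s) ≤ it t p)) ∨
    (it t' p < it t' (C.d.x i) ∧ ∀ s ≤ i, rct C.d.x t s i →
      ¬ (it t' (C.d.x s) < it t' (C.d.x i) ∧ it t p ≤ it t (C.d.x s)))) := by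
  rcases hf with ⟨t', h1, h2, h3⟩ | ⟨t', h1, h2, h3, h4⟩
  · exact ⟨t', h1, h2, .inl h3⟩
  · have hy : ∀ i, C.mir.d.x i = -1 - C.d.x i := fun _ => rfl
    simp only [rct_mir hy] at h4
    simp only [hy, mr, it_mir] at h3 h4
    exact ⟨t', h1, h2, .inr ⟨by omega, fun s hs hr h5 => h4 s hs hr (by omega)⟩⟩

theorem exists_cut' {h t : ℕ} (ht : t ≤ C.T) :
    ∃ Cut : ℕ → Finset ℤ, (∀ W, C.CutOK h t W (Cut W)) ∧
      ∀ S : Finset ℕ, ∑ W ∈ S, (Cut W).card ≤ (C.EvS (C.chW h t)).card +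
        4 * (h + 1 - t) * (fst C.d.x C.T (t - 1) (it (t - 1)) C.d.m).card := by
  have hK := fun (q : ℕ × Icc t h) => four_cuts (mem_Icc.1 q.2.2).1 C.d.x
    ((range q.1).filter fun r => om C.d.x C.T (t - 1) r < om C.d.x C.T (t - 1) q.1 ∧
      rct C.d.x t r q.1) (it q.2 (C.d.x q.1))
  choose K hK1 hK2 using hK
  refine ⟨fun W => ((C.EvS (C.chW h t)).filter fun q => om C.d.x C.T (t - 1) q.1 = W).image
    Prod.snd ∪ (((fst C.d.x C.T (t - 1) (it (t - 1)) C.d.m).filter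
      fun s => om C.d.x C.T (t - 1) s = W) ×ˢ univ).biUnion K, fun W i hi hW p => ⟨?_, ?_⟩, ?_⟩
  · exact fun h1 h2 => mem_union_left _ (mem_image.2 ⟨(i, p), mem_filter.2
      ⟨mem_filter.2 ⟨mem_product.2 ⟨mem_range.2 hi, h1⟩, h2⟩, hW⟩, rfl⟩)
  · intro hf r hr hrc z hz
    obtain ⟨t', h1, h2, h3⟩ := fr_iff hf
    obtain ⟨s, hs, hsi, ho, he⟩ := exists_fst (x := C.d.x) (T := C.T) (t := t - 1) (it (t - 1)) hi
    have hw := win_eq_of_om ho (Nat.sub_le t 1) ht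
    have he' : it t' (C.d.x s) = it t' (C.d.x i) := it_congr (by omega) he
    have hr' : om C.d.x C.T (t - 1) r < om C.d.x C.T (t - 1) s := by omega
    have hrs : r < s := lt_of_not_ge fun h4 => hr'.not_ge (om_mono _ _ h4)
    have hF : ∀ s' ∈ (range s).filter fun r => om C.d.x C.T (t - 1) r < om C.d.x C.T (t - 1) s ∧
        rct C.d.x t r s, s' ≤ i ∧ rct C.d.x t s' i := fun s' hs' =>
      ⟨(mem_range.1 (mem_filter.1 hs').1).le.trans hsi, hw.ge.trans (mem_filter.1 hs').2.2⟩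
    obtain ⟨a, ha, h4⟩ := hK2 (s, ⟨t', mem_Icc.2 ⟨h1, h2⟩⟩) p z r
      (mem_filter.2 ⟨mem_range.2 hrs, hr', hrc.of_le hsi⟩) hz (by
        simp only [he']
        exact h3.imp (fun h => ⟨h.1, fun s' hs' => h.2 s' (hF s' hs').1 (hF s' hs').2⟩)
          fun h => ⟨h.1, fun s' hs' => h.2 s' (hF s' hs').1 (hF s' hs').2⟩)
    have hm : a ∈ ((C.EvS (C.chW h t)).filter fun q => om C.d.x C.T (t - 1) q.1 = W).image
        Prod.snd ∪ (((fst C.d.x C.T (t - 1) (it (t - 1)) C.d.m).filter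
          fun s => om C.d.x C.T (t - 1) s = W) ×ˢ univ).biUnion K :=
      mem_union_right _ (mem_biUnion.2 ⟨_, mem_product.2
        ⟨mem_filter.2 ⟨hs, ho.trans hW⟩, mem_univ _⟩, ha⟩)
    exact h4.elim (fun h => cls_ne hm h.1 h.2) fun h => (cls_ne hm h.1 h.2).symm
  · intro S
    refine (sum_le_sum fun W _ => (card_union_le _ _).trans (Nat.add_le_add card_image_le
      (card_biUnion_le_card_mul _ _ 4 fun q _ => hK1 q))).trans ?_
    rw [sum_add_distrib]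
    refine Nat.add_le_add (sum_fiber_le _ _ _) ?_
    simp only [card_product, card_univ, Fintype.card_coe, Nat.card_Icc, ← sum_mul]
    have h1 := sum_fiber_le S (fst C.d.x C.T (t - 1) (it (t - 1)) C.d.m) (om C.d.x C.T (t - 1))
    calc _ ≤ (fst C.d.x C.T (t - 1) (it (t - 1)) C.d.m).card * (h + 1 - t) * 4 := by gcongr
      _ = _ := by ring

theorem exists_cut (hC : C.OK) {n h t : ℕ} (hn : C.d.keys.card ≤ n) (ht : t ≤ C.T) :
    ∃ Cut : ℕ → Finset ℤ, (∀ W, C.CutOK h t W (Cut W)) ∧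
      ∀ S : Finset ℕ, ∑ W ∈ S, (Cut W).card ≤ (C.EvS (C.chW h t)).card +
        24 * (h + 1 - t) * (n + 1 + jmp C.d.x (t - 1) C.d.m) := by
  obtain ⟨Cut, h1, h2⟩ := exists_cut' (C := C) (h := h) ht
  refine ⟨Cut, h1, fun S => (h2 S).trans (Nat.add_le_add_left ?_ _)⟩
  have h3 := card_fst (x := C.d.x) (T := C.T) (t := t - 1) (f := it (t - 1)) (by omega)
    (fun _ _ => id) ((card_x hC.run).trans hn)
  calc _ ≤ 4 * (h + 1 - t) * (6 * (n + 1 + jmp C.d.x (t - 1) C.d.m)) := by gcongr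
    _ = _ := by ring

/-- The gap systems of group `j`. -/
theorem sys_DyTh (hGAP : S_GAP) (hDY : S_DY) (hC : C.OK) {n : ℕ} (hn : C.d.keys.card ≤ n)
    (j c : ℕ) : C.d.Sys (c * (964 * MM C.d.x n C.d.m C.T)) (C.DyTh j c) := by
  have hh : C.g (j + 1) ≤ C.T := grp_le _ _
  have hg : C.g j ≤ C.g (j + 1) := grp_le_succ _ _
  have hs : C.g (j + 1) ≤ C.g j + sg (C.g j) + 1 := grp_succ_le _ _
  have s1 := sys_TH hGAP hC.run c hn hg hh
  have s2 := Run.Sys.all (Ico (C.g j) (C.g (j + 1))) _ _ fun k hk =>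
    hDY C.d (NU.levG C.d C.T k 0) (sg (k + 1) - sg k) c hC.run
      (levG_OK (by have := mem_Ico.1 hk; omega) 0)
  have s3 := Run.Sys.all (Ioc (C.g j) (C.g (j + 1))) _ _ fun t ht =>
    Run.Sys.all ((range C.d.m).image (win C.d.x t)) _ _ fun w hw =>
      hDY C.d (NU.levW C.d C.T C.ix t w 0) (sg t + 4) c hC.run
        (levW_OK hC.idx ((mem_Ioc.1 ht).2.trans hh) (by simpa using hw) 0)
  refine ((s1.and s2).and s3).mono ?_ fun i hi Q ⟨⟨r1, r2⟩, r3⟩ => ⟨?_, r2, fun t ht =>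
    r3 t ht _ (mem_image_of_mem _ (mem_range.2 hi))⟩
  · have b1 : 25 * (n + 1 + jmp C.d.x (C.g j) C.d.m) * (3 * (C.g (j + 1) - C.g j) + 1) ≤
        100 * MM C.d.x n C.d.m C.T :=
      calc _ ≤ 25 * (n + 1 + jmp C.d.x (C.g j) C.d.m) * (4 * (sg (C.g j) + 1)) := by
            gcongr; omega
        _ = 100 * ((sg (C.g j) + 1) * (n + 1 + jmp C.d.x (C.g j) C.d.m)) := by ring
        _ ≤ _ := Nat.mul_le_mul_left _ (le_MM (hg.trans hh))
    have b2 : ∑ k ∈ Ico (C.g j) (C.g (j + 1)),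
        6 * (sg (k + 1) - sg k) * c * (NU.levG C.d C.T k 0).dyCost C.d ≤
        c * (114 * MM C.d.x n C.d.m C.T) :=
      calc _ ≤ ∑ k ∈ Ico (C.g j) (C.g (j + 1)),
            c * (114 * ((sg k + 1) * (n + 1 + jmp C.d.x k C.d.m))) := sum_le_sum fun k hk => by
            have a1 := sg_succ_le k
            have a2 : (NU.levG C.d C.T k 0).dyCost C.d ≤ _ :=
              mkL_dyCost hC.run hn (by have := mem_Ico.1 hk; omega) fun _ _ => id
            calc _ ≤ 6 * (sg k + 1) * c * (19 * (n + 1 + jmp C.d.x k C.d.m)) := by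
                  gcongr; omega
              _ = _ := by ring
        _ ≤ _ := by
            rw [← mul_sum, ← mul_sum]
            exact Nat.mul_le_mul_left _ (Nat.mul_le_mul_left _ (sum_Ico_MM hh))
    have b3 : ∑ t ∈ Ioc (C.g j) (C.g (j + 1)), ∑ w ∈ (range C.d.m).image (win C.d.x t),
        6 * (sg t + 4) * c * (NU.levW C.d C.T C.ix t w 0).dyCost C.d ≤
        c * (750 * MM C.d.x n C.d.m C.T) :=
      calc _ ≤ ∑ t ∈ Ioc (C.g j) (C.g (j + 1)),
            c * (750 * ((sg (t - 1) + 1) * (n + 1 + jmp C.d.x (t - 1) C.d.m))) :=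
            sum_le_sum fun t ht => by
            have a0 := mem_Ioc.1 ht
            have a1 := sg_four (t := t) (by omega)
            have a2 := levW_dyCost hC.run hC.idx hn (a0.2.trans hh) 0
            rw [← mul_sum]
            calc _ ≤ 6 * (5 * (sg (t - 1) + 1)) * c * (25 * (n + 1 + jmp C.d.x (t - 1) C.d.m)) := by
                  gcongr
              _ = _ := by ring
        _ ≤ _ := by
            rw [← mul_sum, ← mul_sum]
            exact Nat.mul_le_mul_left _ (Nat.mul_le_mul_left _ (sum_Ioc_MM hh))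
    calc _ ≤ c * (100 * MM C.d.x n C.d.m C.T) + c * (114 * MM C.d.x n C.d.m C.T) +
          c * (750 * MM C.d.x n C.d.m C.T) := by gcongr
      _ = _ := by ring
  · have key : ∀ (r t : ℕ) (v : ℤ), C.AE r t i v ↔ it t (C.d.x i) < it t v ∧
        ¬ ∃ S ∈ Qs C.d.x r (it t) i, it t (C.d.x i) < S ∧ S ≤ it t v := fun r t v =>
      and_congr_right fun _ => ⟨fun h ⟨S, h1, h2⟩ =>
        let ⟨s, a1, a2, a3⟩ := mem_Qs.1 h1
        h s a1 a2 (a3 ▸ h2), fun h s a1 a2 a3 => h ⟨_, mem_Qs.2 ⟨s, a1, a2, rfl⟩, a3⟩⟩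
    intro v Y hY hA hZ
    refine r1 v Y hY (fun y hy => ⟨(hA y hy).1, fun S hS h => ((key _ _ _).1 (hA y hy)).2
      ⟨S, hS, h⟩⟩) fun Z hZY hZc hp => hZ Z hZY hZc fun a ha b hb t ht => ?_
    obtain ⟨a1, a2⟩ := hp a ha b hb t (mem_Ioc.1 ht).1 (mem_Ioc.1 ht).2
    obtain ⟨b1, b2⟩ := hp b hb a ha t (mem_Ioc.1 ht).1 (mem_Ioc.1 ht).2
    simp only [Cx.A, Cx.E, key]
    exact ⟨⟨a1, b1⟩, and_congr ⟨a1, b1⟩ (not_congr ⟨a2 _ (.inl rfl), b2 _ (.inl rfl)⟩),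
      and_congr ⟨a1, b1⟩ (not_congr ⟨a2 _ (.inr rfl), b2 _ (.inr rfl)⟩)⟩

lemma mem_EvS {F : ℕ → ℤ → Prop} {l : Lev} {i : ℕ} {p : ℤ} (h : l.Ev C.d i p) (hm : l.t1 ≤ C.d.m)
    (hF : F i p) : (i, p) ∈ C.EvS F :=
  mem_filter.2 ⟨mem_product.2 ⟨mem_range.2 (h.2.1.trans_le hm),
    Run.mem_keys.2 ⟨h.2.2.2.1.1, h.2.2.2.1.2.1⟩⟩, hF⟩

lemma EvS_le {j : ℕ} {F : ℕ → ℤ → Prop} (h : ∀ i p, F i p → C.ch j i p) :
    (C.EvS F).card ≤ C.NEv j :=
  card_le_card (monotone_filter_right _ fun q _ => h q.1 q.2)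

/-- One family of levels over the whole run. -/
lemma sys_fam (hLZ : S_LZ) (hC : C.OK) {n τ : ℕ} (k c : ℕ) (hk : (C.d.R - C.d.L).toNat < 2 ^ ee k)
    (s : Finset ℕ) (lv : ℕ → Lev) (F : ℕ → ℤ → Prop) (hs : s.card ≤ sg τ + 1)
    (h1 : ∀ t ∈ s, (lv t).OK C.d ∧ (lv t).om = om C.d.x C.T τ)
    (h2 : ∀ t ∈ s, (lv t).cost C.d ≤ 37 * (n + 1 + jmp C.d.x τ C.d.m))
    (h3 : ∀ t ∈ s, ∀ i p, (lv t).Ev C.d i p → F i p) :
    C.d.Sys (c * (72 * (k + 1) * ((sg τ + 1) * (n + 1 + jmp C.d.x τ C.d.m) + (C.EvS F).card)))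
      fun i Q => ∀ t ∈ s, LZ C.d (lv t) k c i Q := by
  refine (hLZ ℕ C.d c k s lv _ (C.EvS F) hC.run hk (om_mono _ _) h1 fun t ht i p h =>
    mem_EvS h (h1 t ht).1.le (h3 t ht i p h)).mono ?_ fun _ _ _ h => h
  have a1 : ∑ t ∈ s, (lv t).cost C.d ≤ 37 * ((sg τ + 1) * (n + 1 + jmp C.d.x τ C.d.m)) :=
    (sum_le_card_nsmul _ _ _ h2).trans (by rw [smul_eq_mul, mul_left_comm]; gcongr)
  have a2 : ((range C.d.m).image (om C.d.x C.T τ)).card ≤
      3 * ((sg τ + 1) * (n + 1 + jmp C.d.x τ C.d.m)) :=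
    (card_om n τ C.d.m).trans (Nat.mul_le_mul_left _ (Nat.le_mul_of_pos_left _ (Nat.succ_pos _)))
  generalize (sg τ + 1) * (n + 1 + jmp C.d.x τ C.d.m) = M at *
  calc _ ≤ c * (37 * M) + 24 * k * c * ((C.EvS F).card + 3 * M) := by gcongr
    _ ≤ _ := by nlinarith [Nat.zero_le (c * M), Nat.zero_le (c * (C.EvS F).card),
        Nat.zero_le (k * c * (C.EvS F).card)]

/-- The level and range systems of group `j`. -/
theorem sys_Lvl (hLEV : S_LEV) (hLZ : S_LZ) (hRW : S_RW) (hC : C.OK) {n : ℕ}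
    (hn : C.d.keys.card ≤ n) (j k c : ℕ) (hk : (C.d.R - C.d.L).toNat < 2 ^ ee k)
    (hG : ∑ k' ∈ Ico (C.g j) (C.g (j + 1)), (C.EvS (C.chG k')).card ≤ C.NEv j)
    (hW : ∑ t ∈ Ioc (C.g j) (C.g (j + 1)), (C.EvS (C.chW (C.g (j + 1)) t)).card ≤ C.NEv j) :
    C.d.Sys (c * (1200 * (k + 1) * (MM C.d.x n C.d.m C.T + C.NEv j))) (C.Lvl j k c) := by
  have hh : C.g (j + 1) ≤ C.T := grp_le _ _
  have hg : C.g j ≤ C.g (j + 1) := grp_le_succ _ _
  have hs : C.g (j + 1) ≤ C.g j + sg (C.g j) + 1 := grp_succ_le _ _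
  have hI : (Ioc (C.g j) (C.g (j + 1))).card ≤ sg (C.g j) + 1 := by rw [Nat.card_Ioc]; omega
  have s1 := sys_fam (n := n) hLZ hC k c hk _ (C.levB (C.g j)) (C.chB j) hI
    (fun t ht => ⟨levB_OK (mem_Ioc.1 ht).1.le ((mem_Ioc.1 ht).2.trans hh), rfl⟩)
    (fun t _ => mkL_cost hC.run hn (hg.trans hh) fun _ _ => id) fun t ht i p h => ⟨t, ht, h⟩
  have s2 := sys_fam (n := n) hLZ hC k c hk _ (C.levC (C.g j)) (C.chC j) hI
    (fun t ht => ⟨levC_OK (mem_Ioc.1 ht).1.le ((mem_Ioc.1 ht).2.trans hh), rfl⟩)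
    (fun t ht => mkL_cost hC.run hn (hg.trans hh) fun _ _ => it_congr (mem_Ioc.1 ht).1.le)
    fun t ht i p h => ⟨t, ht, h⟩
  have s3 := Run.Sys.all (Ico (C.g j) (C.g (j + 1))) _ _ fun k' hk' =>
    sys_fam (n := n) (τ := k') hLZ hC k c hk (range (sg (k' + 1) - sg k')) (C.levG k') (C.chG k')
      (by have := sg_succ_le k'; rw [card_range]; omega)
      (fun l _ => ⟨levG_OK ((mem_Ico.1 hk').2.le.trans hh) l, rfl⟩)
      (fun l _ => mkL_cost hC.run hn ((mem_Ico.1 hk').2.le.trans hh) fun _ _ => id)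
      fun l hl i p h => ⟨l, mem_range.1 hl, h⟩
  have s4 := Run.Sys.all (Ioc (C.g j) (C.g (j + 1))) _ _ fun t ht =>
    Run.Sys.all (range (sg t + 4)) _ _ fun l _ =>
      Run.Sys.all ((range C.d.m).image (win C.d.x t)) _ _ fun w hw =>
        hLEV C.d (NU.levW C.d C.T C.ix t w l) c hC.run
          (levW_OK hC.idx ((mem_Ioc.1 ht).2.trans hh) (by simpa using hw) l)
  have hc := fun t : Ioc (C.g j) (C.g (j + 1)) =>
    exists_cut (h := C.g (j + 1)) hC hn ((mem_Ioc.1 t.2).2.trans hh)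
  choose Cut hc1 hc2 using hc
  have s5 := Run.Sys.all univ _ _ fun (t : Ioc (C.g j) (C.g (j + 1))) _ =>
    hRW C.d c k 0 C.d.m (om C.d.x C.T (t - 1)) (Cut t) hC.run hk (om_mono _ _)
  refine ((((s1.and s2).and s3).and s4).and s5).mono ?_ fun i hi Q ⟨⟨⟨⟨r1, r2⟩, r3⟩, r4⟩, r5⟩ =>
    ⟨r1, r2, fun k' hk' l hl => r3 k' hk' l (mem_range.2 hl), fun t ht l hl =>
      r4 t ht l (mem_range.2 hl) _ (mem_image_of_mem _ (mem_range.2 hi)), fun t ht s hs hsi =>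
      ⟨_, hc1 ⟨t, ht⟩ _, fun v Y => r5 ⟨t, ht⟩ (mem_univ _) _ v Y
        (mem_image_of_mem _ (mem_Ico.2 ⟨Nat.zero_le _, hs⟩)) (om_mono _ _ hsi)⟩⟩
  have m1 := le_MM (x := C.d.x) (n := n) (m := C.d.m) (hg.trans hh)
  have e1 : (C.EvS (C.chB j)).card ≤ C.NEv j := EvS_le fun _ _ => .inl
  have e2 : (C.EvS (C.chC j)).card ≤ C.NEv j := EvS_le fun _ _ h => .inr (.inl h)
  have b3 : ∑ k' ∈ Ico (C.g j) (C.g (j + 1)), c * (72 * (k + 1) *
      ((sg k' + 1) * (n + 1 + jmp C.d.x k' C.d.m) + (C.EvS (C.chG k')).card)) ≤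
      c * (72 * (k + 1) * (MM C.d.x n C.d.m C.T + C.NEv j)) := by
    rw [← mul_sum, ← mul_sum, sum_add_distrib]
    gcongr
    exact sum_Ico_MM hh
  have b4 : ∑ t ∈ Ioc (C.g j) (C.g (j + 1)), ∑ l ∈ range (sg t + 4),
      ∑ w ∈ (range C.d.m).image (win C.d.x t), c * (NU.levW C.d C.T C.ix t w l).cost C.d ≤
      c * (275 * MM C.d.x n C.d.m C.T) :=
    calc _ ≤ ∑ t ∈ Ioc (C.g j) (C.g (j + 1)),
          c * (275 * ((sg (t - 1) + 1) * (n + 1 + jmp C.d.x (t - 1) C.d.m))) :=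
          sum_le_sum fun t ht => by
          have a0 := mem_Ioc.1 ht
          have a1 := sg_four (t := t) (by omega)
          refine (sum_le_card_nsmul _ _ (c * (55 * (n + 1 + jmp C.d.x (t - 1) C.d.m)))
            fun l _ => ?_).trans ?_
          · rw [← mul_sum]
            exact Nat.mul_le_mul_left _ (levW_cost hC.run hC.idx hn (a0.2.trans hh) l)
          · rw [card_range, smul_eq_mul]
            calc _ ≤ 5 * (sg (t - 1) + 1) * (c * (55 * (n + 1 + jmp C.d.x (t - 1) C.d.m))) := by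
                  gcongr
              _ = _ := by ring
      _ ≤ _ := by
          rw [← mul_sum, ← mul_sum]
          exact Nat.mul_le_mul_left _ (Nat.mul_le_mul_left _ (sum_Ioc_MM hh))
  have b5 : ∑ t : Ioc (C.g j) (C.g (j + 1)), 24 * k * c *
      ∑ W ∈ (Ico 0 C.d.m).image (om C.d.x C.T (t - 1)), ((Cut t W).card + 1) ≤
      24 * k * c * (C.NEv j + 27 * MM C.d.x n C.d.m C.T) := by
    rw [← mul_sum]
    refine Nat.mul_le_mul_left _ (le_trans (sum_le_sum (g := fun t : Ioc (C.g j) (C.g (j + 1)) =>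
      (C.EvS (C.chW (C.g (j + 1)) t)).card +
        27 * ((sg (t - 1) + 1) * (n + 1 + jmp C.d.x (t - 1) C.d.m))) fun t _ => ?_) ?_)
    · have a0 := mem_Ioc.1 t.2
      have a1 := hc2 t ((Ico 0 C.d.m).image (om C.d.x C.T (t - 1)))
      have a2 := card_om (x := C.d.x) (T := C.T) n (t - 1) C.d.m
      have a3 : sg (C.g j) ≤ sg (t - 1) := sg_mono (by omega)
      have a4 : 24 * (C.g (j + 1) + 1 - t) * (n + 1 + jmp C.d.x (t - 1) C.d.m) ≤
          24 * ((sg (t - 1) + 1) * (n + 1 + jmp C.d.x (t - 1) C.d.m)) := by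
        rw [mul_assoc]; gcongr; omega
      have a5 := Nat.le_mul_of_pos_left (n + 1 + jmp C.d.x (t - 1) C.d.m) (Nat.succ_pos (sg (t - 1)))
      rw [sum_add_distrib, sum_const, smul_eq_mul, mul_one, ← range_eq_Ico]
      rw [← range_eq_Ico] at a1
      simp only [Nat.succ_eq_add_one] at a5
      omega
    · rw [sum_coe_sort (Ioc (C.g j) (C.g (j + 1))) fun t => (C.EvS (C.chW (C.g (j + 1)) t)).card +
        27 * ((sg (t - 1) + 1) * (n + 1 + jmp C.d.x (t - 1) C.d.m)), sum_add_distrib, ← mul_sum]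
      exact Nat.add_le_add hW (Nat.mul_le_mul_left _ (sum_Ioc_MM hh))
  generalize MM C.d.x n C.d.m C.T = M at *
  generalize C.NEv j = N at *
  calc _ ≤ c * (72 * (k + 1) * (M + N)) + c * (72 * (k + 1) * (M + N)) +
        c * (72 * (k + 1) * (M + N)) + c * (275 * M) + 24 * k * c * (N + 27 * M) := by gcongr
    _ ≤ _ := by nlinarith [Nat.zero_le (c * M), Nat.zero_le (c * N), Nat.zero_le (k * c * N),
        Nat.zero_le (k * c * M)]

end Cx

end Pool.Agent.P.MP_119182_lc.NU
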