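import Pool.Agent.P.MP_119182_lc.NU.CIface
import Pool.Agent.P.MP_119182_lc.NU.LvW

/-! Step CUT. -/

set_option autoImplicit false

namespace Pool.Agent.P.MP_119182_lc.NU

open Finset
open scoped Classical

namespace CUTc

end CUTc

theorem p_CUT :
    S_CUT := by
  intro C h t _ _ h2 h3
  obtain ⟨Cut, h4, h5⟩ := Cx.exists_cut' (C := C) (h := h) (h2.trans h3)
  refine ⟨Cut, h4, ?_⟩
  rw [show h - t + 1 = h + 1 - t by omega]
  exact h5 _

end Pool.Agent.P.MP_119182_lc.NU
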