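import Pool.Agent.P.MP_119182_lc.NU.CIface

/-! Step DYG. -/

set_option autoImplicit false

namespace Pool.Agent.P.MP_119182_lc.NU

open Finset
open scoped Classical

namespace DYGc

end DYGc

theorem p_DYG :
    S_DYG := by
  intro C k c i v Q Y _ hi hD hY hG hZ
  have eQ : ∀ s, s ∈ (C.levG k 0).Q C.d i ↔ ∃ r ≤ i, rct C.d.x k r i ∧ it k (C.d.x r) = s :=
    fun s => by rw [← mem_Qs, Qs_eq]; rfl
  refine hD v Y (Nat.zero_le _) hi hY (fun a ha b hb s hs hab => ?_) ?_ fun Z hz hc e he h1 h2 =>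
    hZ Z hz hc e he h1 fun a ha s hs hr => h2 a ha _ ((eQ _).2 ⟨s, hs, hr, rfl⟩)
  · obtain ⟨r, h1, h2, rfl⟩ := (eQ s).1 hs
    exact (hG.1 b hb).2 r h1 h2 ⟨(hG.1 a ha).1.trans_le hab.1, hab.2⟩
  · obtain ⟨r, h1, h2, h3⟩ := hG.2
    refine ⟨_, (eQ _).2 ⟨r, h1, h2, rfl⟩, fun a ha => ?_⟩
    have := h3 a ha
    rwa [it_it (Nat.le_succ k), it_it (Nat.le_succ k) (C.d.x r)] at this

end Pool.Agent.P.MP_119182_lc.NU
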