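import Pool.Agent.P.MP_119182_lc.NU.CIface

/-! Step DYW. -/

set_option autoImplicit false

namespace Pool.Agent.P.MP_119182_lc.NU

open Finset
open scoped Classical

namespace DYWc

end DYWc

theorem p_DYW :
    S_DYW := by
  intro C t c i v Q Y hC hi hD hY hW hZ
  have hQ : (C.levW t (win C.d.x t i) 0).Q C.d i =
      Qs C.d.x (t - 1) (C.ix t (win C.d.x t i)) i := Qs_eq.symm
  obtain ⟨h0, h1⟩ := (mem_w0 (x := C.d.x) (m := C.d.m) (t := t) (w := win C.d.x t i)).2 ⟨hi, rfl⟩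
  refine hD v Y h0 h1 hY ?_ ⟨C.ix t (win C.d.x t i) (C.d.x i), hQ ▸ self_mem_Qs,
    fun a _ => hC.idx.uni _ _ _ _⟩ fun Z h2 h3 e he h4 h5 =>
      hZ Z h2 h3 e he h4 fun a ha s hs hr => h5 a ha _ (hQ ▸ mem_Qs.2 ⟨s, hs, hr, rfl⟩)
  rintro a ha b hb s hs ⟨h2, h3⟩
  rw [hQ] at hs
  obtain ⟨r, hr, h4, rfl⟩ := mem_Qs.1 hs
  have own := fun z => hC.idx.own t (win C.d.x t i) r z (by omega) (win_mono t hr)
    (h4.mono (Nat.sub_le t 1))
  have mono := hC.idx.mono t (win C.d.x t i)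
  have k1 : it t a ≤ it t (C.d.x r) := by
    rcases le_total a (C.d.x r) with h | h
    · exact it_mono t h
    · exact (own a (le_antisymm h2 (mono h))).le
  have k2 : it t (C.d.x r) ≤ it t b := by
    rcases le_total (C.d.x r) b with h | h
    · exact it_mono t h
    · exact (own b (le_antisymm (mono h) h3)).ge
  exact (hW b hb).1.2 r hr h4 ⟨(hW a ha).1.1.trans_le k1, k2⟩

end Pool.Agent.P.MP_119182_lc.NU
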