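import Pool.Agent.P.MP_119182_lc.NU.SIface

/-! Step EVL. -/

set_option autoImplicit false

namespace Pool.Agent.P.MP_119182_lc.NU

open Finset
open scoped Classical

namespace EVLc

theorem sub {d : Run} {l : Lev} (h : l.OK d) {i : ℕ} {a b a' b' : ℤ} (hc : ¬ l.cross i a b)
    (h1 : a ≤ a') (h2 : a' ≤ b') (h3 : b' ≤ b) : ¬ l.cross i a' b' := by
  rintro (k | ⟨s, k1, k2, k3⟩)
  · have e : l.blk a = l.blk b := by_contra fun e => hc (Or.inl e)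
    have := h.blkm h1
    have := h.blkm h2
    have := h.blkm h3
    omega
  · exact hc (Or.inr ⟨s, k1, (h.slotm h1).trans_lt k2, k3.trans_le (h.slotm h3)⟩)

theorem nxt {d : Run} {l : Lev} (h : l.OK d) {i : ℕ} (h0 : l.t0 ≤ i) (h1 : i < l.t1) {a b : ℤ}
    (hc : ¬ l.cross i a b) (hb : b ≤ d.x i) : ¬ l.cross (i + 1) a b := by
  rintro (k | ⟨s, k1, k2, k3⟩)
  · exact hc (Or.inl k)
  · rcases mem_insert.1 (h.sub i h0 h1 k1) with rfl | k
    · exact k3.not_ge (h.slotm hb)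
    · exact hc (Or.inr ⟨s, k, k2, k3⟩)

end EVLc

theorem p_EVL :
    S_EVL := by
  rintro d l i v hd hl ⟨h0, h1, hn, ⟨v1, v2, v3, v4⟩, v5⟩ hv
  have hi : i < d.m := h1.trans_le hl.le
  have st := hd.step i hi
  have T := hd.tree i hi.le
  have T' := hd.tree (i + 1) hi
  obtain ⟨x1, x2⟩ := st.mem
  have c1 : ¬ l.cross i (d.lp i v) v := fun k => hn ⟨v1, v2, v5, Or.inl k⟩
  have c2 : ¬ l.cross i v (d.rp i v) := fun k => hn ⟨v1, v2, v5, Or.inr k⟩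
  have s1 : l.slot v < l.slot (d.x i) :=
    (hl.slotm hv).lt_of_ne fun e => v3 (e ▸ hl.own i h0 h1)
  have vx : v < d.x i := hv.lt_of_ne fun e => s1.ne (congrArg _ e)
  have r1 := (T'.lamL (d.x i) v x1 x2 (st.root.1 ▸ v1) vx).2
  obtain ⟨-, b1, b2, -⟩ := T.bnd v v1 v2
  obtain ⟨-, -, b3, -⟩ := T'.bnd v v1 v2
  have off := fun k : ¬ d.x i < d.rp i v => st.off v v1 v2 vx.ne fun e => k e.2
  have r2 : d.rp (i + 1) v ≤ d.rp i v := by
    by_cases k : d.x i < d.rp i v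
    · omega
    · exact (off k).2.le
  have c3 := v4.resolve_right (EVLc.nxt hl h0 h1 (EVLc.sub hl c2 le_rfl b3.le r2) r1)
  have ne : d.lp (i + 1) v ≠ d.lp i v := fun e => EVLc.nxt hl h0 h1 c1 hv (e ▸ c3)
  have xr : d.x i < d.rp i v := by_contra fun k => ne (off k).1
  have c4 := EVLc.sub hl c2 le_rfl hv xr.le
  refine ⟨s1, c4, ?_⟩
  rintro y y1 y2 ⟨y3, y4, -, y5⟩
  have yx : y < d.x i := hl.slotm.reflect_lt y2
  obtain ⟨a1, a2, -⟩ := st.lowL v v1 vx xr ne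
  have a3 := (st.losL (d.lp i v) a1 (by omega) (xr.trans_le (T.ancL v v1 v2 a1))
    (a2.trans_ne vx.ne)).2.2.2.2.2
  rw [a2] at a3
  obtain ⟨a4, a5⟩ := T'.lamR v y v1 v2 y1 (a3 ▸ yx)
  obtain ⟨-, a6, a7, -⟩ := T'.bnd y y3 y4
  rw [a3] at a5
  rcases y5 with k | k
  · exact EVLc.nxt hl h0 h1 (EVLc.sub hl c4 a4 a6.le yx.le) yx.le k
  · exact EVLc.nxt hl h0 h1 (EVLc.sub hl c4 y1.le a7.le a5) a5 k

end Pool.Agent.P.MP_119182_lc.NU
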