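import Pool.Agent.P.MP_119182_lc.NU.SIface

/-! Step EVMIR. -/

set_option autoImplicit false

namespace Pool.Agent.P.MP_119182_lc.NU

open Finset
open scoped Classical

namespace EVMIRc

theorem cross_iff {l l' : Lev} (hs : ∀ v, l'.slot (mr v) = mr (l.slot v))
    (hb : ∀ a b, l'.blk (mr a) = l'.blk (mr b) ↔ l.blk a = l.blk b)
    (hS : ∀ i s, mr s ∈ l'.Sep i ↔ s ∈ l.Sep i) (i : ℕ) (a b : ℤ) :
    l'.cross i (mr b) (mr a) ↔ l.cross i a b := by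
  unfold Lev.cross
  rw [hs, hs]
  refine or_congr ?_ ?_
  · refine not_congr ((hb b a).trans eq_comm)
  · constructor
    · rintro ⟨s, h1, h2, h3⟩
      refine ⟨mr s, (hS i (mr s)).1 (by rw [mr_mr]; exact h1), ?_, ?_⟩
      · exact mr_lt.1 (by rw [mr_mr]; exact h3)
      · exact mr_lt.1 (by rw [mr_mr]; exact h2)
    · rintro ⟨s, h1, h2, h3⟩
      exact ⟨mr s, (hS i s).2 h1, mr_lt.2 h3, mr_lt.2 h2⟩

theorem inc_iff (d : Run) {l l' : Lev} (hs : ∀ v, l'.slot (mr v) = mr (l.slot v))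
    (hb : ∀ a b, l'.blk (mr a) = l'.blk (mr b) ↔ l.blk a = l.blk b)
    (hS : ∀ i s, mr s ∈ l'.Sep i ↔ s ∈ l.Sep i) (i : ℕ) (v : ℤ) :
    l'.Inc d.mir i (mr v) ↔ l.Inc d i v := by
  have e1 : d.mir.lp i (mr v) = mr (d.rp i v) := by
    show mr (d.rp i (mr (mr v))) = _
    rw [mr_mr]
  have e2 : d.mir.rp i (mr v) = mr (d.lp i v) := by
    show mr (d.lp i (mr (mr v))) = _
    rw [mr_mr]
  have e3 : d.mir.L = mr d.R := rfl
  have e4 : d.mir.R = mr d.L := rfl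
  unfold Lev.Inc
  rw [e1, e2, e3, e4, mr_lt, mr_lt, hs, hS, cross_iff hs hb hS, cross_iff hs hb hS]
  constructor
  · rintro ⟨h1, h2, h3, h4⟩
    exact ⟨h2, h1, h3, h4.symm⟩
  · rintro ⟨h1, h2, h3, h4⟩
    exact ⟨h2, h1, h3, h4.symm⟩

end EVMIRc

theorem p_EVMIR :
    S_EVMIR := by
  intro d l l' h0 h1 hs hb hS i v
  refine ⟨EVMIRc.inc_iff d hs hb hS i v, ?_⟩
  unfold Lev.Ev
  rw [h0, h1, EVMIRc.inc_iff d hs hb hS, EVMIRc.inc_iff d hs hb hS, hs, hS]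

end Pool.Agent.P.MP_119182_lc.NU
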