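import Pool.Agent.P.MP_119182_lc.NU.SIface

/-! Step EVR. -/

set_option autoImplicit false

namespace Pool.Agent.P.MP_119182_lc.NU

open Finset
open scoped Classical

namespace EVRc

theorem cross_mono {d : Run} {l : Lev} (hl : l.OK d) {i : ℕ} {a a' b b' : ℤ} (h1 : a' ≤ a)
    (h2 : a ≤ b) (h3 : b ≤ b') (h : l.cross i a b) : l.cross i a' b' := by
  rcases h with h | ⟨s, hs, h4, h5⟩
  · left
    have e1 := hl.blkm h1
    have e2 := hl.blkm h2
    have e3 := hl.blkm h3
    omega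
  · exact Or.inr ⟨s, hs, (hl.slotm h1).trans_lt h4, h5.trans_le (hl.slotm h3)⟩

theorem cross_back {d : Run} {l : Lev} (hl : l.OK d) {i : ℕ} (h0 : l.t0 ≤ i) (h1 : i < l.t1)
    {a b : ℤ} (ha : d.x i ≤ a) (h : l.cross (i + 1) a b) : l.cross i a b := by
  rcases h with h | ⟨s, hs, h4, h5⟩
  · exact Or.inl h
  · rcases mem_insert.1 (hl.sub i h0 h1 hs) with e | e
    · have := hl.slotm ha
      omega
    · exact Or.inr ⟨s, e, h4, h5⟩

end EVRc

open EVRc in
theorem p_EVR :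
    S_EVR := by
  intro d l i v hd hl hev hxv
  obtain ⟨h0, h1, hn, ⟨hL, hR, hs', hc⟩, hs⟩ := hev
  have hi : i < d.m := h1.trans_le hl.le
  have hT := hd.tree i hi.le
  have hT' := hd.tree (i + 1) hi
  have hS := hd.step i hi
  have hb := hT.bnd v hL hR
  have hb' := hT'.bnd v hL hR
  have n1 : ¬ l.cross i (d.lp i v) v := fun h => hn ⟨hL, hR, hs, Or.inl h⟩
  have n2 : ¬ l.cross i v (d.rp i v) := fun h => hn ⟨hL, hR, hs, Or.inr h⟩
  have hslot : l.slot (d.x i) < l.slot v := by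
    refine lt_of_le_of_ne (hl.slotm hxv.le) fun e => hs' ?_
    rw [← e]
    exact hl.own i h0 h1
  have hlq : d.x i ≤ d.lp (i + 1) v ∧ d.lp i v ≤ d.lp (i + 1) v := by
    by_cases hp : d.lp i v < d.x i
    · by_cases e : d.lp (i + 1) v = d.x i
      · omega
      · have := (hS.losR v hxv hR hp e).1
        omega
    · have := (hS.off v hL hR hxv.ne' fun h => hp h.1).1
      omega
  have hc2 : l.cross i v (d.rp (i + 1) v) := by
    rcases hc with h | h
    · exact absurd (cross_mono hl hlq.2 hb'.2.1.le le_rfl (cross_back hl h0 h1 hlq.1 h)) n1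
    · exact cross_back hl h0 h1 hxv.le h
  have hne : d.rp (i + 1) v ≠ d.rp i v := fun e => n2 (e ▸ hc2)
  have hp : d.lp i v < d.x i := by
    by_contra hp
    exact hne (hS.off v hL hR hxv.ne' fun h => hp h.1).2
  obtain ⟨a1, a2, a3⟩ := hS.lowR v hxv hR hp hne
  have a4 := hT.ancR v hL hR a1
  have hU : d.rp i v ∈ d.U i :=
    Run.mem_U.2 ⟨Run.mem_P.2 ⟨by omega, a1, by omega⟩, by omega⟩
  have n3 : ¬ l.cross i (d.x i) v := fun h => n1 (cross_mono hl hp.le hxv.le le_rfl h)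
  refine ⟨Run.mem_P.2 ⟨hxv, hR, hp⟩, hU, a2, hslot, n3, n2, a3 ▸ hc2, ?_⟩
  intro y hy hsy hinc
  obtain ⟨yL, yR, -, hc'⟩ := hinc
  have hxy : d.x i < y := by
    by_contra h
    have := hl.slotm (not_lt.1 h)
    omega
  have e1 : d.lp (i + 1) v = d.x i := by
    have := (Run.link hd hi hU).2.2.2.2.2.2
    rwa [a2] at this
  obtain ⟨b1, b2⟩ := hT'.lamL v y hL hR (by omega) hy
  have hy' := hT'.bnd y yL yR
  rcases hc' with h | h
  · exact n3 (cross_mono hl (by omega) hy'.2.1.le hy.le (cross_back hl h0 h1 (by omega) h))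
  · exact n3 (cross_mono hl hxy.le hy'.2.2.1.le b2 (cross_back hl h0 h1 hxy.le h))

end Pool.Agent.P.MP_119182_lc.NU
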