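import Pool.Agent.P.MP_119182_lc.NU.SIface

/-! Step F1. -/

set_option autoImplicit false

namespace Pool.Agent.P.MP_119182_lc.NU

open Finset
open scoped Classical

namespace F1c

theorem one {S : Finset ℤ} (h : ∀ u ∈ S, ∀ v ∈ S, u < v → False) : S.card ≤ 1 :=
  card_le_one.2 fun u hu v hv => le_antisymm (not_lt.1 (h v hv u hu)) (not_lt.1 (h u hu v hv))

end F1c

theorem p_F1 :
    S_F1 := by
  intro d i Q Y Z h hi _ hZ
  have hA : (((d.unp i Q Y).filter fun u => u ∈ Z).filter fun u => d.lp (i + 1) u ∉ Z).card ≤ 1 := by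
    refine F1c.one fun u hu v hv huv => ?_
    simp only [mem_filter] at hu hv
    obtain ⟨⟨u1, u2⟩, -⟩ := hu
    obtain ⟨⟨v1, v2⟩, v3⟩ := hv
    obtain ⟨a1, a2, -, -, a5, -⟩ := Run.link h hi (Run.mem_unp.1 v1).1
    refine v3 (hZ.out u2 v2 ⟨not_lt.1 fun c => ?_, a2.le⟩)
    have := Run.P_gap h hi a1 (Run.mem_U.1 (Run.mem_unp.1 u1).1).1 c
    omega
  have hB : (((d.unp i Q Y).filter fun u => u ∈ Z).filter fun u => d.rp i u ∉ Z).card ≤ 1 := by
    refine F1c.one fun u hu v hv huv => ?_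
    simp only [mem_filter] at hu hv
    obtain ⟨⟨u1, u2⟩, u3⟩ := hu
    obtain ⟨⟨v1, v2⟩, -⟩ := hv
    obtain ⟨-, -, a3, -⟩ := Run.link h hi (Run.mem_unp.1 u1).1
    exact u3 (hZ.out u2 v2 ⟨a3.le, Run.P_gap h hi (Run.mem_U.1 (Run.mem_unp.1 u1).1).1
      (Run.mem_U.1 (Run.mem_unp.1 v1).1).1 huv⟩)
  have hs : ((d.unp i Q Y).filter fun u => u ∈ Z) ⊆ d.unp i Q (Z ∩ Y) ∪
      ((((d.unp i Q Y).filter fun u => u ∈ Z).filter fun u => d.lp (i + 1) u ∉ Z) ∪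
        (((d.unp i Q Y).filter fun u => u ∈ Z).filter fun u => d.rp i u ∉ Z)) := by
    intro u hu
    obtain ⟨a, b, c, e⟩ := Run.mem_unp.1 (mem_filter.1 hu).1
    by_cases h1 : d.lp (i + 1) u ∈ Z
    · by_cases h2 : d.rp i u ∈ Z
      · exact mem_union_left _ (Run.mem_unp.2 ⟨a, b, ⟨h1, c⟩, h2, e⟩)
      · exact mem_union_right _ (mem_union_right _ (mem_filter.2 ⟨hu, h2⟩))
    · exact mem_union_right _ (mem_union_left _ (mem_filter.2 ⟨hu, h1⟩))
  exact (card_le_card hs).trans ((card_union_le _ _).trans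
    (Nat.add_le_add_left ((card_union_le _ _).trans (Nat.add_le_add hA hB)) _))

end Pool.Agent.P.MP_119182_lc.NU
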