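import Pool.Agent.P.MP_119182_lc.NU.SIface

/-! Step F2. -/

set_option autoImplicit false

namespace Pool.Agent.P.MP_119182_lc.NU

open Finset
open scoped Classical

namespace F2c

end F2c

theorem p_F2 :
    S_F2 := by
  intro d i p q v h hi hp hq hpv hvq hv
  obtain ⟨p1, p2, p3⟩ := Run.mem_P.1 hp
  obtain ⟨q1, q2, q3⟩ := Run.mem_P.1 hq
  have hL := (h.step i hi).mem.1
  have hx : d.x i ≤ d.lp i v := by
    by_contra hc
    exact hv (Run.mem_P.2 ⟨by omega, by omega, not_le.1 hc⟩)
  have ht := h.tree i hi.le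
  constructor
  · by_contra hc
    have := (ht.lamL v p (by omega) (by omega) (not_le.1 hc) hpv).1
    omega
  · by_contra hc
    have := (ht.lamR v q (by omega) (by omega) hvq (not_le.1 hc)).1
    omega

end Pool.Agent.P.MP_119182_lc.NU
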