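import Pool.Agent.P.MP_119182_lc.NU.CIface

/-! Step FAR. -/

set_option autoImplicit false

namespace Pool.Agent.P.MP_119182_lc.NU

open Finset
open scoped Classical

namespace FARc

theorem cls_lt {Cut : Finset ℤ} {a b : ℤ} (h : a < b) (hb : b ∈ Cut) : cls Cut a < cls Cut b := by
  unfold cls
  refine card_lt_card ⟨fun z hz => ?_, fun hc => ?_⟩
  · obtain ⟨h1, h2⟩ := mem_filter.1 hz
    exact mem_filter.2 ⟨h1, h2.trans h.le⟩
  · have := (mem_filter.1 (hc (mem_filter.2 ⟨hb, le_rfl⟩))).2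
    omega

end FARc

theorem p_FAR :
    S_FAR := by
  intro C j k c i Q hC hi hL hR t ht e W Z he hZ hA hF
  obtain ⟨-, hF2, hF3⟩ := hF
  by_cases hne : ∃ p ∈ C.d.P i, p ∈ Z
  swap
  · exact Run.good_of_one hC.run hi hZ.1 fun a ha _ _ h _ => absurd ⟨a, ha, h⟩ hne
  obtain ⟨p, hp, hpZ⟩ := hne
  obtain ⟨s, hs, hsW, -⟩ := hF3 p hp hpZ
  have hsW' : om C.d.x C.T (t - 1) s = W := hsW
  obtain ⟨Cut, hCut, hrule⟩ := hL.rwW t ht s (hs.trans hi) hs.le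
  rw [hsW'] at hCut hrule
  refine hrule _ Z hZ (fun r hr hW hx => hF2 r hr hW _ hx _ hx ⟨le_rfl, le_rfl⟩) ?_
  intro Y hY hYc hcls
  by_cases h1 : ∀ a ∈ C.d.P i, ∀ b ∈ C.d.P i, a ∈ Y → b ∈ Y → a = b
  · exact Run.good_of_one hC.run hi hYc h1
  have h2 : ∃ a ∈ Y, ∃ b ∈ C.d.P i, b ∈ Y ∧ a < b := by
    push Not at h1
    obtain ⟨a, ha, b, hb, haY, hbY, hab⟩ := h1
    rcases lt_or_gt_of_ne hab with h | h
    · exact ⟨a, haY, b, hb, hbY, h⟩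
    · exact ⟨b, hbY, a, ha, haY, h⟩
  obtain ⟨a, haY, b, hb, hbY, hab⟩ := h2
  have hbC : b ∉ Cut := fun h => (FARc.cls_lt hab h).ne (hcls a haY b hbY)
  obtain ⟨r, hr, hrW, hev⟩ := hF3 b hb (hY hbY)
  have hrW' : om C.d.x C.T (t - 1) r = W := hrW
  have hw : win C.d.x t r = win C.d.x t i :=
    ((mem_w0 (x := C.d.x) (m := C.d.m) (t := t) (w := win C.d.x t i) (i := r)).1
      ⟨hev.1, hev.2.1⟩).2
  obtain ⟨hc1, hc2⟩ := hCut r (hr.trans hi) hrW' b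
  have hkey : b ∈ C.d.keys := Run.mem_keys.2 ⟨hev.2.2.2.1.1, hev.2.2.2.1.2.1⟩
  have hfr : C.fr (C.g (j + 1)) t r b := by
    by_contra hn
    exact hbC (hc1 hkey ⟨⟨e, he, hw ▸ hev⟩, hn⟩)
  refine hR t ht Y (hZ.sub hY hYc) (fun y hy => hA y (hY hy)) fun r' hr' hrc y hy e' => ?_
  have h3 : ¬ W ≤ om C.d.x C.T (t - 1) r' := fun hW =>
    hF2 r' hr' hW y (hY hy) y (hY hy)
      ⟨(hC.idx.itm t _ _ _ e').le, (hC.idx.itm t _ _ _ e').ge⟩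
  refine hc2 hfr r' (not_le.1 h3) ?_ y e' (hcls y hy b hbY)
  unfold rct at hrc ⊢
  omega

end Pool.Agent.P.MP_119182_lc.NU
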