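import Pool.Agent.P.MP_119182_lc.NU.FIface

/-! Step FIN. -/

set_option autoImplicit false

namespace Pool.Agent.P.MP_119182_lc.NU

open Finset
open scoped Classical

namespace FINc

theorem tow_eq (J : ℕ) : tow J = (fun k : ℕ => 2 ^ k)^[J] 1 := by
  induction J with
  | zero => rfl
  | succ J ih => rw [tow, Function.iterate_succ_apply', ih]

theorem pw (C J : ℕ) : 2 ^ 14 * 2 ^ C ^ (J + 1) ≤ 2 ^ (C + 14) ^ (J + 1) := by
  rw [← pow_add]
  refine Nat.pow_le_pow_right (by norm_num) ?_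
  have h1 : C ^ (J + 1) + 14 ^ (J + 1) ≤ (C + 14) ^ (J + 1) :=
    pow_add_pow_le (Nat.zero_le _) (Nat.zero_le _) (by omega)
  have h2 : 14 ≤ 14 ^ (J + 1) := Nat.le_self_pow (by omega) _
  omega

end FINc

theorem p_FIN (hLINK : S_LINK) (hALGA : S_ALGA) (hBRG : S_BRG) (hTURN : S_TURN) :
    S_FIN := by
  obtain ⟨C, hC⟩ := hLINK
  refine ⟨C + 14, fun J n m T a h1 h2 h3 h4 => ?_⟩
  rw [← FINc.tow_eq] at h1
  rcases Nat.eq_zero_or_pos n with rfl | hn
  · rcases Nat.eq_zero_or_pos m with rfl | hm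
    · simp [cost, unified]
    · have := h3 0 hm
      omega
  obtain ⟨S, σ, -, s2, -, -, s5, s6⟩ := exists_shift (tw := tow) rfl (fun _ => rfl) hn h1 h3 h4
  obtain ⟨d, d1, d2, d3, d4, d5, d6, d7, d8⟩ := hBRG n m σ T a h2 h3
  obtain ⟨e, e1, e2, e3, e4⟩ := hALGA d d5
  have t := hTURN d e d5 e2 e1 d6 d7
  obtain ⟨f1, f2, f3, f4⟩ := e1
  have k1 : d.R = d.L + n + 1 := by rw [d1, d2]
  have k2 : it S d.L = it S d.R := by
    have c : ((2 : ℤ) ^ sg S) = (cc S : ℕ) := by simp [cc]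
    unfold it
    rw [c, d1, d2, Int.ediv_eq_zero_of_lt (by omega) (by omega),
      Int.ediv_eq_zero_of_lt (by omega) (by omega)]
  have l1 := hC J S n d d5 k1 h1 s2 k2
  have l2 := hC J S n e e2 (by rw [f1, f2, k1]) h1 s2 (by rw [f1, f2, k2])
  rw [f4, f3] at l2
  rw [f3] at e3 e4
  have k3 : (d.R - d.L).toNat = n + 1 := by omega
  have k4 : n ≤ m := by
    have : (n : ℝ) * 1 ≤ n * max 1 (Real.logb 2 n) :=
      mul_le_mul_of_nonneg_left (le_max_left _ _) (Nat.cast_nonneg _)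
    exact_mod_cast (show (n : ℝ) ≤ m by linarith)
  rw [mul_assoc] at l1 l2
  have k5 : cost T ((List.range m).map a) ≤ 30 * (2 ^ C ^ (J + 1) * MM d.x n d.m S) + 50 * m := by
    omega
  have k6 : (MM d.x n d.m S : ℝ) ≤ 195 * unified n m a := by
    rw [d3]; exact s6 d.x fun i _ => by rw [d4]
  have k7 := le_unified hn m a
  have k8 : (cost T ((List.range m).map a) : ℝ) ≤
      30 * (2 ^ C ^ (J + 1) * (MM d.x n d.m S : ℝ)) + 50 * m := by exact_mod_cast k5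
  have k9 : (2 : ℝ) ^ 14 * 2 ^ C ^ (J + 1) ≤ 2 ^ (C + 14) ^ (J + 1) := by
    exact_mod_cast FINc.pw C J
  have p1 : (1 : ℝ) ≤ 2 ^ C ^ (J + 1) := one_le_pow₀ (by norm_num)
  have u0 : (0 : ℝ) ≤ unified n m a := (Nat.cast_nonneg m).trans k7
  have q1 := mul_le_mul_of_nonneg_left k6 (zero_le_one.trans p1)
  have q2 := mul_le_mul_of_nonneg_right k9 u0
  have q3 := mul_le_mul_of_nonneg_right p1 u0
  nlinarith

end Pool.Agent.P.MP_119182_lc.NU
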