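import Pool.Agent.P.MP_119182_lc.NU.CIface

/-! Step GCH. -/

set_option autoImplicit false

namespace Pool.Agent.P.MP_119182_lc.NU

open Finset Run
open scoped Classical

theorem p_GCH (hDYG : S_DYG) :
    S_GCH := by
  intro C j k c i Q hC hi hD hL hI t ht Y hY h
  have nq : ∀ a ∈ Y, ∀ b ∈ Y, ∀ r ≤ i, rct C.d.x t r i →
      ¬ (it t a ≤ it t (C.d.x r) ∧ it t (C.d.x r) ≤ it t b) := fun a ha b hb r r1 r2 e =>
    (h.1 b hb).2 r r1 r2 ⟨(h.1 a ha).1.trans_le e.1, e.2⟩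
  refine hDYG C t c i _ Q Y hC hi (hD.dyG t ht) hY h fun Z hZ hc e he f1 f2 =>
    hL.lzG t ht e he _ Z (Nat.zero_le _) hi ⟨hY.sub hZ hc, f1, fun a ha b hb s hs => ?_,
      fun y hy => .inl (f2 y hy i le_rfl (rct_refl _ _)).symm⟩
      fun Z' hZ' hc' hf => hI t (mem_Ico.1 ht).2.le Z' (hY.sub (hZ'.trans hZ) hc') hf
        fun s hs r a ha e => nq a (hZ (hZ' ha)) a (hZ (hZ' ha)) s hs (r.mono (by omega))
          ⟨e.le, e.ge⟩
  obtain ⟨r, r1, r2, rfl⟩ := mem_Sep.1 hs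
  exact nq a (hZ ha) b (hZ hb) r r1.le r2

end Pool.Agent.P.MP_119182_lc.NU
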