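import Pool.Agent.P.MP_119182_lc.NU.CIface

/-! Step ITEM. -/

set_option autoImplicit false

namespace Pool.Agent.P.MP_119182_lc.NU

open Finset Run
open scoped Classical

theorem p_ITEM :
    S_ITEM := by
  intro C j k c i Q hC hi hL
  induction j with
  | zero =>
    intro t ht Y hY h1 _
    obtain rfl : t = 0 := Nat.le_zero.1 ht
    exact good_of_one hC.run hi hY.1 fun a _ b _ ha hb => by simpa [it, sg] using h1 a ha b hb
  | succ j ih =>
    intro t ht Y hY h1 h2
    have ih := ih fun j' h => hL j' (by omega)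
    rcases le_or_gt t (C.g j) with h | h
    · exact (ih t h Y hY h1 h2).mono (by rw [vI]; omega)
    refine (hL j (by omega)).lzB t (mem_Ioc.2 ⟨h, ht⟩) _ Y (Nat.zero_le _) hi
      ⟨hY, h1, fun a ha b hb s hs e => ?_, fun y hy => .inl (h2 i le_rfl (rct_refl _ _) y hy).symm⟩
      fun Z hZ hc hf => ih _ le_rfl Z (hY.sub hZ hc) hf fun s hs r a ha e =>
        h2 s hs (r.mono (by omega)) a (hZ ha) (it_congr h.le e)
    obtain ⟨r, r1, r2, rfl⟩ := mem_Sep.1 hs
    exact h2 r r1.le (r2.mono (by omega)) a ha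
      (le_antisymm (it_le_of h.le e.1) ((it_le_of h.le e.2).trans_eq (h1 b hb a ha)))

end Pool.Agent.P.MP_119182_lc.NU
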