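import Pool.Agent.P.MP_119182_lc.NU.LIface

/-! Step J. -/

set_option autoImplicit false

namespace Pool.Agent.P.MP_119182_lc.NU

open Finset
open scoped Classical

namespace Jc

end Jc

theorem p_J (hEVR : S_EVR) (hEVL : S_EVL) :
    S_J := by
  intro d l i v hd hl hi hinc hfar
  have ev := hfar.ev hinc hi
  have lt := hfar.tau_lt hinc
  have h0 := hfar.1
  have acc : ∀ t, l.tau d i v ≤ t → t < i → l.slot (d.x t) ∈ l.Acc d (l.om (l.tau d i v)) i :=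
    fun t a b => Lev.mem_Acc.2 ⟨t, h0.trans a, b, hl.omm a, rfl⟩
  refine ⟨fun h => ?_, fun hx s hs hlt => ?_, fun hx s hs hlt => ?_⟩
  · obtain ⟨t, h1, h2, h3, h4⟩ := Lev.mem_Acc.1 h
    rcases le_or_gt (l.tau d i v) t with a | a
    · exact (Lev.inc_of_tau_lt (Nat.lt_succ_of_le a) h2).2.2.1 (h4 ▸ hl.own t h1 (by omega))
    · exact hfar.2.2 (h4 ▸ hl.slot_mem h1 a (by omega) (le_antisymm (hl.omm a.le) h3))
  · rcases hl.sep_back h0 lt.le hi hs with a | ⟨t, a1, a2, rfl⟩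
    · obtain ⟨-, -, -, b1, b2, -⟩ := hEVR d l _ v hd hl ev hx
      exact ⟨_, acc _ le_rfl lt, not_lt.1 fun c => b2 (Or.inr ⟨s, a, c, hlt⟩), b1⟩
    · exact ⟨_, acc t a1 a2, le_rfl, hlt⟩
  · rcases hl.sep_back h0 lt.le hi hs with a | ⟨t, a1, a2, rfl⟩
    · obtain ⟨b1, b2, -⟩ := hEVL d l _ v hd hl ev (not_lt.1 hx)
      exact ⟨_, acc _ le_rfl lt, b1, not_lt.1 fun c => b2 (Or.inr ⟨s, a, hlt, c⟩)⟩
    · exact ⟨_, acc t a1 a2, hlt, le_rfl⟩

end Pool.Agent.P.MP_119182_lc.NU
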