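import Pool.Agent.P.MP_119182_lc.NU.LIface

/-! Step KL. -/

set_option autoImplicit false

namespace Pool.Agent.P.MP_119182_lc.NU

open Finset
open scoped Classical

namespace KLc

end KLc

theorem p_KL (hEVR : S_EVR) (hEVL : S_EVL) (hJ : S_J) :
    S_KL := by
  intro d l i v y hd hl hi hv hy hf hx hvy hA
  have t1 := hf.tau_lt hv
  obtain ⟨a1, -, a3⟩ := hEVL d l _ v hd hl (hf.ev hv hi) (not_lt.1 hx)
  have a4 := hA _ (Lev.mem_Acc.2 ⟨_, hf.1, t1, le_rfl, rfl⟩)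
  have n1 := a3 y hvy (by omega)
  have s1 := Lev.le_tau t1 n1
  have s2 := Lev.not_inc_tau t1 n1
  have s3 : l.tau d i y < i := (Lev.tau_le i y).lt_of_ne fun e => s2 (e.symm ▸ hy)
  have s4 : l.tau d (l.tau d i y) v = l.tau d i v := Lev.tau_eq_of_le (by omega) s3.le
  have s5 : l.Inc d (l.tau d i y) v := Lev.inc_of_tau_lt (i := i) (by omega) s3.le
  have s6 : l.far d (l.tau d i y) v := by
    unfold Lev.far
    rw [s4]
    exact hf
  have m1 := hl.slotm hvy.le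
  have om : l.om (l.tau d i v) ≤ l.om (l.tau d i y) := hl.omm (by omega)
  have t0 : l.t0 ≤ l.tau d i y := hf.1.trans (by omega)
  have fy : l.far d i y := by
    refine ⟨t0, s2, fun h => ?_⟩
    have := (hJ d l _ v hd hl (by omega) s5 s6).2.2
    rw [s4] at this
    obtain ⟨a, b, c⟩ := this hx _ h (m1.lt_of_ne fun e => s5.2.2.1 (e ▸ h))
    exact hA a (Lev.Acc_mono le_rfl s3.le b) c
  refine ⟨fy, fun h => ?_, om⟩
  obtain ⟨-, -, -, b1, -, -, -, b2⟩ := hEVR d l _ y hd hl (fy.ev hy hi) h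
  have c1 : l.Inc d (l.tau d i y + 1) v := Lev.inc_of_tau_lt (i := i) (by omega) s3
  have c2 : l.slot v ≤ l.slot (d.x (l.tau d i y)) := not_lt.1 fun e => b2 v hvy e c1
  exact hA _ (Lev.mem_Acc.2 ⟨_, t0, s3, om, rfl⟩)
    ⟨c2.lt_of_ne fun e => c1.2.2.1 (e ▸ hl.own _ t0 (by omega)), b1.le⟩

end Pool.Agent.P.MP_119182_lc.NU
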