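import Pool.Agent.P.MP_119182_lc.NU.LIface

/-! Step KR. -/

set_option autoImplicit false

namespace Pool.Agent.P.MP_119182_lc.NU

open Finset
open scoped Classical

namespace KRc

end KRc

theorem p_KR (hEVR : S_EVR) (hEVL : S_EVL) (hJ : S_J) :
    S_KR := by
  intro d l i v y hd hl hi hv hy hf hx hyv hA
  have hτ := hf.tau_lt hv
  obtain ⟨-, -, -, a4, -, -, -, a8⟩ := hEVR d l _ v hd hl (hf.ev hv hi) hx
  have n1 : ¬ l.Inc d (l.tau d i v + 1) y := a8 y hyv (not_le.1 fun h =>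
    hA _ (Lev.mem_Acc.2 ⟨_, hf.1, hτ, le_rfl, rfl⟩) ⟨h, a4⟩)
  have h1 : l.tau d i v + 1 ≤ l.tau d i y := Lev.le_tau hτ n1
  have n2 : ¬ l.Inc d (l.tau d i y) y := Lev.not_inc_tau hτ n1
  have h2 : l.tau d i y ≤ i := Lev.tau_le i y
  have h0 := hf.1
  have ho : l.om (l.tau d i v) ≤ l.om (l.tau d i y) := hl.omm (by omega)
  have e : l.tau d (l.tau d i y) v = l.tau d i v := Lev.tau_eq_of_le (by omega) h2
  have iv : l.Inc d (l.tau d i y) v := Lev.inc_of_tau_lt h1 h2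
  have fv : l.far d (l.tau d i y) v := by
    unfold Lev.far
    rw [e]
    exact hf
  have n3 : l.slot y ∉ l.Sep (l.tau d i y) := fun hs => by
    obtain ⟨a, b1, b2⟩ := (hJ d l _ v hd hl (h2.trans hi) iv fv).2.1 (by rw [e]; exact hx) _ hs
      (lt_of_le_of_ne (hl.slotm hyv.le) fun h => iv.2.2.1 (h ▸ hs))
    rw [e] at b1
    exact hA a (Lev.Acc_mono le_rfl h2 b1) b2
  have fy : l.far d i y := ⟨by omega, n2, n3⟩
  have h3 := fy.tau_lt hy
  refine ⟨fy, not_le.1 fun hc => ?_, ho⟩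
  obtain ⟨b1, -, b3⟩ := hEVL d l _ y hd hl (fy.ev hy hi) hc
  have iv' : l.Inc d (l.tau d i y + 1) v := Lev.inc_of_tau_lt (by omega) h3
  refine hA _ (Lev.mem_Acc.2 ⟨_, fy.1, h3, ho, rfl⟩) ⟨b1.le, lt_of_le_of_ne
    (not_lt.1 fun h => b3 v hyv h iv') fun h => iv'.2.2.1 ?_⟩
  rw [← h]
  exact hl.own _ fy.1 (by omega)

end Pool.Agent.P.MP_119182_lc.NU
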