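import Pool.Agent.P.MP_119182_lc.NU.CIface

/-! Step LAM. -/

set_option autoImplicit false

namespace Pool.Agent.P.MP_119182_lc.NU

open Finset
open scoped Classical

theorem p_LAM (hTYPE : S_TYPE) (hITEM : S_ITEM) (hCRULE : S_CRULE) (hGCH : S_GCH) (hWCH : S_WCH) (hTOP : S_TOP) :
    S_LAM := by
  intro C j k c K hC hS
  refine hTOP C j c K (BB k j) _ (fun i u => C.ofG j i u) hC hS
    (fun i _ u _ h => h.1 j le_rfl) ?_
  rintro i hi Q ⟨hD, hL⟩ hF Y hY hA
  have hLj : C.Lvl j k c i Q := hL j (self_mem_range_succ j)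
  have hI : C.Item (j + 1) k c i Q :=
    hITEM C (j + 1) k c i Q hC hi fun j' h => hL j' (mem_range.2 h)
  have hR : C.CRule j k c i Q := hCRULE C j k c i Q hC hi hLj hI
  refine (hD.th (12 * (64 ^ (k + 1) * (vI k (j + 2) + 2)) + 28) Y hY (fun a ha => (hA a ha).1)
    fun Z hZ hc hz => ?_).mono (by unfold BB; omega)
  rcases hTYPE C j i Z hC hi (hY.sub hZ hc) (fun a ha => (hA a (hZ ha)).1) hz with
    h | ⟨k', hk', h, -⟩ | ⟨t, ht, h, -⟩
  · exact Run.good_of_empty fun u hu hq a b =>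
      (hF u hu hq).2 ⟨h _ a, h _ b, (hA _ (hZ b)).2⟩
  · refine (hGCH C j k c i Q hC hi hD hLj hI k' hk' Z (hY.sub hZ hc) h).mono ?_
    have h1 : vI k (j + 2) + 2 ≤ 64 ^ (k + 1) * (vI k (j + 2) + 2) :=
      Nat.le_mul_of_pos_left _ (by positivity)
    omega
  · exact hWCH C j k c i Q hC hi hD hLj hI hR t ht Z (hY.sub hZ hc) h

end Pool.Agent.P.MP_119182_lc.NU
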