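import Pool.Agent.P.MP_119182_lc.NU.LIface

/-! Step LEVEL. -/

set_option autoImplicit false

namespace Pool.Agent.P.MP_119182_lc.NU

open Finset
open scoped Classical

namespace LEVELc

theorem step (hPOT : S_POT) (hLPA : S_LPA) (hLPB : S_LPB) (d : Run) (l : Lev) (c i : ℕ)
    (hd : d.OK) (hl : l.OK d) (h0 : l.t0 ≤ i) (h1 : i < l.t1) :
    Psi c (l.DD d (i + 1)) (l.lab d (i + 1)) + (l.LD d c i).card ≤
      Psi c (l.DD d i) (l.lab d i) + c * l.exc d i := by
  obtain ⟨a1, a2⟩ := hLPA d l c i hd hl h0 h1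
  have a3 := hLPB d l i hd hl h0 h1
  refine hPOT (ℕ × ℕ × ℤ) c (l.exc d i) (l.DD d i) (l.DD d (i + 1)) (l.XX d i) (l.LD d c i)
    (l.lab d i) (l.lab d (i + 1)) ?_ a1 a2 (filter_subset _ _) ?_
  · refine le_trans (card_le_card ?_) a3
    intro a ha
    simp only [mem_image, mem_filter] at ha ⊢
    obtain ⟨v, hv, rfl⟩ := ha
    exact ⟨v, hv.2, rfl⟩
  · intro v hv
    have h2 := (mem_filter.1 hv).2.2
    refine le_trans (card_le_card ?_) h2
    intro z hz
    simp only [mem_filter] at hz ⊢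
    exact hz

theorem start (d : Run) (l : Lev) (c : ℕ) :
    Psi c (l.DD d l.t0) (l.lab d l.t0) ≤ c * (d.keys.image l.slot).card := by
  unfold Psi
  refine le_trans (sum_le_card_nsmul _ _ c fun a _ => min_le_left _ _) ?_
  rw [smul_eq_mul, mul_comm]
  refine Nat.mul_le_mul_left c ?_
  refine le_trans (card_le_card ?_)
    (card_image_le (s := d.keys.image l.slot) (f := fun a : ℤ => ((0, 0, a) : ℕ × ℕ × ℤ)))
  intro a ha
  simp only [mem_image] at ha ⊢
  obtain ⟨v, hv, rfl⟩ := ha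
  have h2 := mem_filter.1 hv
  have h3 : ¬ l.far d l.t0 v := fun h => absurd (h.tau_lt h2.2.1) (not_lt.2 h.1)
  exact ⟨l.slot v, ⟨v, h2.1, rfl⟩, (Lev.lab_plain h3).symm⟩

theorem total (hPOT : S_POT) (hLPA : S_LPA) (hLPB : S_LPB) (d : Run) (l : Lev) (c : ℕ)
    (hd : d.OK) (hl : l.OK d) (n : ℕ) (h0 : l.t0 ≤ n) (h1 : n ≤ l.t1) :
    Psi c (l.DD d n) (l.lab d n) + ∑ i ∈ Ico l.t0 n, (l.LD d c i).card ≤
      Psi c (l.DD d l.t0) (l.lab d l.t0) + c * ∑ i ∈ Ico l.t0 n, l.exc d i := by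
  induction n, h0 using Nat.le_induction with
  | base => simp
  | succ n hn ih =>
    have a1 := ih (by omega)
    have a2 := step hPOT hLPA hLPB d l c n hd hl hn (by omega)
    rw [sum_Ico_succ_top hn, sum_Ico_succ_top hn, mul_add]
    omega

end LEVELc

theorem p_LEVEL (hPOT : S_POT) (hLPA : S_LPA) (hLPB : S_LPB) (hLSUM : S_LSUM) (hLRULE : S_LRULE) :
    S_LEVEL := by
  intro d l c hd hl
  refine ⟨fun i => if i ∈ Ico l.t0 l.t1 then l.LD d c i else ∅, ?_, ?_⟩
  · have e1 : ∑ i ∈ range d.m, (if i ∈ Ico l.t0 l.t1 then l.LD d c i else ∅).card ≤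
        ∑ i ∈ Ico l.t0 l.t1, (l.LD d c i).card := by
      have e2 : ∀ i, (if i ∈ Ico l.t0 l.t1 then l.LD d c i else ∅).card =
          if i ∈ Ico l.t0 l.t1 then (l.LD d c i).card else 0 := by
        intro i
        split_ifs <;> simp
      simp only [e2]
      rw [← sum_filter]
      exact sum_le_sum_of_subset fun i hi => (mem_filter.1 hi).2
    refine e1.trans ?_
    rcases le_or_gt l.t0 l.t1 with h | h
    · have a1 := LEVELc.total hPOT hLPA hLPB d l c hd hl l.t1 h le_rfl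
      have a2 := LEVELc.start d l c
      have a3 := Nat.mul_le_mul_left c (hLSUM d l hl)
      unfold Lev.cost
      rw [add_assoc, mul_add]
      omega
    · rw [Ico_eq_empty_of_le h.le]
      simp
  · intro i _ Q hQ v Y h0 h1
    have h2 : i ∈ Ico l.t0 l.t1 := mem_Ico.2 ⟨h0, h1⟩
    simp only [if_pos h2] at hQ
    exact hLRULE d l c i Q hd hl hQ v Y h0 h1

end Pool.Agent.P.MP_119182_lc.NU
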