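import Mathlib

/-! The triangular recursion and the size of its constant. -/

set_option autoImplicit false

namespace Pool.Agent.P.MP_119182_lc.NU

open Finset

/-- The triangular recursion. -/
theorem tri (B N G : ℕ) (hB : 1 ≤ B) (S : ℕ → ℕ)
    (h : ∀ j < G, ∀ c, 1 ≤ c → c * S (j + 1) ≤ c * S j + c * c * B * S j + B * N) :
    ∀ r ≤ G, ∀ E, 1 ≤ E → E * S r ≤ E * (6 * B ^ 2 * E) ^ (2 ^ r - 1) * S 0 + N := by
  intro r
  induction r with
  | zero => intro _ E _; simp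
  | succ r ih =>
    intro hr E hE
    have h1 := h r hr (2 * B * E) (Nat.succ_le_of_lt (by positivity))
    have h2 := ih (by omega) (6 * B ^ 2 * E ^ 2) (Nat.succ_le_of_lt (by positivity))
    have h3 : 2 ^ (r + 1) - 1 = 2 * (2 ^ r - 1) + 1 := by
      have := Nat.one_le_two_pow (n := r)
      omega
    rw [show 6 * B ^ 2 * (6 * B ^ 2 * E ^ 2) = (6 * B ^ 2 * E) ^ 2 by ring, ← pow_mul] at h2
    rw [h3, pow_succ (6 * B ^ 2 * E)]
    generalize (6 * B ^ 2 * E) ^ (2 * (2 ^ r - 1)) = F at *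
    have h4 : B * (2 * E * S (r + 1)) ≤ B * (2 * E * S r + 4 * B ^ 2 * E ^ 2 * S r + N) := by
      linarith
    have h5 : 2 * E * S r ≤ 2 * B ^ 2 * E ^ 2 * S r := Nat.mul_le_mul_right _ (by
      nlinarith [Nat.one_le_pow 2 B hB, Nat.mul_le_mul hE hE])
    have h6 := Nat.le_of_mul_le_mul_left h4 hB
    nlinarith [Nat.zero_le (E * (F * (6 * B ^ 2 * E)) * S 0)]

/-- The loud links and the links of the groups. -/
theorem alg (B M N G L : ℕ) (hB : 1 ≤ B) (Λ : ℕ → ℕ)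
    (hL : ∀ c, 1 ≤ c → c * L ≤ c * c * B * M + B * N)
    (h : ∀ j < G, ∀ c, 1 ≤ c → c * Λ j ≤ c * c * B * (M + L + ∑ i ∈ range j, Λ i) + B * N)
    (E : ℕ) (hE : 1 ≤ E) :
    E * (L + ∑ i ∈ range G, Λ i) ≤ E * (6 * B ^ 2 * E) ^ 2 ^ (G + 1) * M + N := by
  have h1 := tri B N (G + 1) hB (fun j => match j with
    | 0 => M
    | j + 1 => M + L + ∑ i ∈ range j, Λ i) (fun j hj c hc => by
      rcases j with _ | j
      · have := hL c hc
        simp only [range_zero, sum_empty, add_zero]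
        linarith
      · have := h j (by omega) c hc
        simp only [sum_range_succ]
        linarith) (G + 1) le_rfl E hE
  have h2 : (6 * B ^ 2 * E) ^ (2 ^ (G + 1) - 1) ≤ (6 * B ^ 2 * E) ^ 2 ^ (G + 1) :=
    Nat.pow_le_pow_right (by positivity) (Nat.sub_le _ _)
  have h3 := Nat.mul_le_mul_right M (Nat.mul_le_mul_left E h2)
  simp only at h1
  nlinarith [Nat.zero_le (E * M)]

/-- The size of the constant. -/
theorem pow_le (K E d : ℕ) : ∃ C : ℕ, ∀ J B : ℕ, B ≤ 2 ^ K ^ (J + 1) →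
    (6 * B ^ 2 * E) ^ 2 ^ (J + d) ≤ 2 ^ C ^ (J + 1) := by
  refine ⟨2 * (K + 1) * (2 ^ d * (6 * E + 2)), fun J B hB => ?_⟩
  have h0 : K ^ (J + 1) ≤ (K + 1) ^ (J + 1) := Nat.pow_le_pow_left (by omega) _
  have h1 : 1 ≤ (K + 1) ^ (J + 1) := Nat.one_le_pow _ _ (by omega)
  have h2 : 6 * B ^ 2 * E ≤ 2 ^ ((6 * E + 2) * (K + 1) ^ (J + 1)) :=
    calc 6 * B ^ 2 * E = 6 * E * B ^ 2 := by ring
      _ ≤ 2 ^ (6 * E) * (2 ^ K ^ (J + 1)) ^ 2 :=
        Nat.mul_le_mul Nat.lt_two_pow_self.le (Nat.pow_le_pow_left hB 2)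
      _ ≤ _ := by
        rw [← pow_mul, ← pow_add]
        exact Nat.pow_le_pow_right two_pos (by nlinarith)
  refine (Nat.pow_le_pow_left h2 _).trans ?_
  rw [← pow_mul]
  refine Nat.pow_le_pow_right two_pos ?_
  have h3 : 2 ^ d * (6 * E + 2) ≤ (2 ^ d * (6 * E + 2)) ^ (J + 1) :=
    Nat.le_self_pow (by omega) _
  calc (6 * E + 2) * (K + 1) ^ (J + 1) * 2 ^ (J + d)
      = 2 ^ J * (K + 1) ^ (J + 1) * (2 ^ d * (6 * E + 2)) := by ring
    _ ≤ 2 ^ (J + 1) * (K + 1) ^ (J + 1) * (2 ^ d * (6 * E + 2)) ^ (J + 1) :=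
      Nat.mul_le_mul (Nat.mul_le_mul_right _ (Nat.pow_le_pow_right two_pos (by omega))) h3
    _ = _ := by rw [← mul_pow, ← mul_pow]

end Pool.Agent.P.MP_119182_lc.NU
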