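import Pool.Agent.P.MP_119182_lc.NU.EIface
import Pool.Agent.P.MP_119182_lc.NU.Avg

/-! The link theorem and the final bound. -/

set_option autoImplicit false

namespace Pool.Agent.P.MP_119182_lc.NU

open Finset
open scoped Classical

def S_LINK : Prop :=
  ∃ C : ℕ, ∀ (J T n : ℕ) (d : Run), d.OK → d.R = d.L + n + 1 → n ≤ tow J → grp T (J + 2) = T →
    it T d.L = it T d.R →
    100 * (d.LamR + d.mir.LamR) ≤ 100 * 2 ^ C ^ (J + 1) * MM d.x n d.m T + d.NR + d.mir.NR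

-- deps: LINK ALGA BRG TURN
def S_FIN : Prop :=
  ∃ C : ℕ, ∀ (J n m : ℕ) (T : BT) (a : ℕ → ℕ), n ≤ (fun k : ℕ => 2 ^ k)^[J] 1 →
    T.keys = List.range' 1 n → (∀ i < m, 1 ≤ a i ∧ a i ≤ n) →
    (n : ℝ) * max 1 (Real.logb 2 n) ≤ m →
    (cost T ((List.range m).map a) : ℝ) ≤ 2 ^ C ^ (J + 1) * unified n m a

end Pool.Agent.P.MP_119182_lc.NU
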