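import Pool.Agent.P.MP_119182_lc.NU.CIface
import Pool.Agent.P.MP_119182_lc.NU.FIface
import Pool.Agent.P.MP_119182_lc.NU.Alg

/-! Step LINK. -/

set_option autoImplicit false

namespace Pool.Agent.P.MP_119182_lc.NU

open Finset
open scoped Classical

namespace LINKc

theorem ee_big (J : ℕ) : 2 * tow J ≤ ee (2 * J + 2) := by
  induction J with
  | zero => decide
  | succ J ih =>
    have h1 : ∀ r, 2 * tow J ≤ ee r → ee r + 2 ^ tow J ≤ ee (r + 1) := fun r h =>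
      Nat.add_le_add_left (Nat.pow_le_pow_right two_pos (by omega)) _
    have h2 := h1 _ ih
    have h3 := h1 (2 * J + 2 + 1) (ih.trans ((Nat.le_add_right _ _).trans h2))
    rw [tow, show 2 * (J + 1) + 2 = 2 * J + 2 + 1 + 1 by ring]
    omega

theorem lt_ee {n J : ℕ} (h : n ≤ tow J) : n + 1 < 2 ^ ee (2 * J + 2) := by
  have h1 := ee_big J
  have h2 : 1 ≤ tow J := by
    rcases J with _ | J
    · exact le_rfl
    · exact Nat.one_le_two_pow
  have h3 : ee (2 * J + 2) < 2 ^ ee (2 * J + 2) := Nat.lt_two_pow_self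
  omega

theorem vI_le (k j : ℕ) : vI k j + 5 * 64 ^ (k + 1) ≤ 6 ^ j * (5 * 64 ^ (k + 1)) := by
  have : 1 ≤ 64 ^ (k + 1) := Nat.one_le_pow _ _ (by norm_num)
  induction j with
  | zero => simp [vI]
  | succ j ih =>
    rw [vI, pow_succ' 6, mul_assoc]
    omega

theorem BB_le {J j : ℕ} (hj : j ≤ J + 2) : BB (2 * J + 2) j ≤ 2 ^ (56 * (J + 1)) := by
  have h1 : 1 ≤ 64 ^ (2 * J + 2 + 1) := Nat.one_le_pow _ _ (by norm_num)
  have h2 := vI_le (2 * J + 2) (j + 2)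
  have h3 : 6 ^ (j + 2) ≤ 8 ^ (J + 4) :=
    (Nat.pow_le_pow_left (by norm_num) _).trans (Nat.pow_le_pow_right (by norm_num) (by omega))
  have h4 : vI (2 * J + 2) (j + 2) + 5 ≤ 8 ^ (J + 4) * (8 * 64 ^ (2 * J + 2 + 1)) :=
    le_trans (by omega) (h2.trans (Nat.mul_le_mul h3 (by omega)))
  calc _ ≤ 32 * (64 ^ (2 * J + 2 + 1) * (vI (2 * J + 2) (j + 2) + 5)) := by
        rw [BB]
        nlinarith [Nat.zero_le (64 ^ (2 * J + 2 + 1) * vI (2 * J + 2) (j + 2))]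
    _ ≤ 32 * (64 ^ (2 * J + 2 + 1) * (8 ^ (J + 4) * (8 * 64 ^ (2 * J + 2 + 1)))) := by gcongr
    _ = 2 ^ (27 * J + 56) := by
        rw [show 64 = 2 ^ 6 from rfl, show 8 = 2 ^ 3 from rfl, show 32 = 2 ^ 5 from rfl]
        simp only [← pow_mul, ← pow_add]
        congr 1
        ring
    _ ≤ _ := Nat.pow_le_pow_right two_pos (by omega)

theorem ar1 {c Z G K M m N O S : ℕ} (hc : 1 ≤ c) (hZ : 32 ≤ Z) (hG : G ≤ Z) (hK : K ≤ Z)
    (hm : m ≤ M) (hO : O ≤ 4 * m) (h : c * S ≤ G * (2 * (c * (c * K * M)) + 12 * (2 * (c * m) + N))) :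
    c * (O + S) ≤ c * c * Z ^ 4 * M + Z ^ 4 * N := by
  have h1 : c * m ≤ c * c * M := by
    rw [mul_assoc]
    exact Nat.mul_le_mul_left _ (hm.trans (Nat.le_mul_of_pos_left _ hc))
  have h2 : c * S ≤ Z * (2 * (c * (c * Z * M)) + 12 * (2 * (c * c * M) + N)) :=
    h.trans (by gcongr)
  have h3 : c * O ≤ 4 * (c * c * M) := by nlinarith
  have h4 : 32 * 32 ≤ Z * Z := Nat.mul_le_mul hZ hZ
  have h5 : 2 * (Z * Z) + 24 * Z + 4 ≤ Z ^ 4 := by nlinarith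
  have h6 := Nat.mul_le_mul_right (c * c * M) h5
  have h7 := Nat.mul_le_mul_right N (show 12 * Z ≤ Z ^ 4 by omega)
  linarith

theorem ar2 {c Z K M m N W X B S : ℕ} (hc : 1 ≤ c) (hZ : 32 ≤ Z) (hK : K ≤ Z) (hB : B ≤ Z)
    (hm : m ≤ M) (hW : M ≤ W) (hX : X ≤ Z * (c * Z * Z * W))
    (h : c * S ≤ c * (c * K * M + X) + B * (c * m + N)) :
    2 * (c * S) ≤ c * c * Z ^ 4 * W + 2 * (Z * N) := by
  have h1 : c * m ≤ c * c * W := by
    rw [mul_assoc]
    exact Nat.mul_le_mul_left _ ((hm.trans hW).trans (Nat.le_mul_of_pos_left _ hc))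
  have h2 : c * S ≤ c * (c * Z * W + Z * (c * Z * Z * W)) + Z * (c * c * W + N) :=
    h.trans (by gcongr)
  have h4 : 32 * 32 ≤ Z * Z := Nat.mul_le_mul hZ hZ
  have h3 := Nat.mul_le_mul_left Z h4
  have h5 : 4 * Z + 2 * (Z * (Z * Z)) ≤ Z ^ 4 := by nlinarith
  have h6 := Nat.mul_le_mul_right (c * c * W) h5
  linarith

theorem exZ (K K' J : ℕ) : ∃ Z, 32 ≤ Z ∧ J + 2 ≤ Z ∧ 2 * J + 2 + 1 ≤ Z ∧ K ≤ Z ∧ K' ≤ Z ∧
    2 ^ (56 * (J + 1)) ≤ Z ∧ Z ^ 4 ≤ 2 ^ (2 * ((K + K' + 56) * 4)) ^ (J + 1) := by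
  have z1 : ∀ a ≤ (K + K' + 56) * (J + 1), a ≤ 2 ^ ((K + K' + 56) * (J + 1)) := fun a h =>
    h.trans Nat.lt_two_pow_self.le
  refine ⟨_, z1 _ (by nlinarith), z1 _ (by nlinarith), z1 _ (by nlinarith), z1 _ (by nlinarith),
    z1 _ (by nlinarith), Nat.pow_le_pow_right two_pos (Nat.mul_le_mul_right _ (by omega)), ?_⟩
  rw [← pow_mul, mul_pow 2, mul_right_comm, mul_comm]
  exact Nat.pow_le_pow_right two_pos
    (Nat.mul_le_mul Nat.lt_two_pow_self.le (Nat.le_self_pow (by omega) _))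

end LINKc

open LINKc in
theorem p_LINK (hCMIR : S_CMIR) (hSYSD : S_SYSD) (hSYSL : S_SYSL) (hOUT : S_OUT) (hLSPL : S_LSPL)
    (hNEV : S_NEV) (hLOUD : S_LOUD) (hLAM : S_LAM) :
    S_LINK := by
  obtain ⟨K, hD⟩ := hSYSD
  obtain ⟨K', hL⟩ := hSYSL
  obtain ⟨C0, h0⟩ := pow_le (2 * ((K + K' + 56) * 4)) 100 3
  refine ⟨C0, fun J T n d hd hR hn hT h1 => ?_⟩
  obtain ⟨ix, hix⟩ := exists_Idx d.x d.m
  let C : Cx := ⟨d, T, ix⟩
  have hok : C.OK := ⟨hd, hix, fun u v a b e f =>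
    ((it_mono T b).trans (h1.ge.trans (it_mono T e))).antisymm
      ((it_mono T f).trans (h1.ge.trans (it_mono T a)))⟩
  obtain ⟨hmm, hM, hok'⟩ := hCMIR C
  have hok' := hok' hok
  have hM0 : C.M = MM d.x n d.m T := by
    rw [Cx.M, Run.keys, Int.card_Ioo]
    congr 1
    show (d.R - d.L - 1).toNat = n
    omega
  have hm : d.m ≤ C.M := hM0 ▸ le_trans (Nat.le_add_left _ _) (m_le_MM n d.m T)
  obtain ⟨Z, z2, z4, z5, z6, z7, z8, z3⟩ := exZ K K' J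
  obtain ⟨L, hL0⟩ : ∃ L, L = C.Out + C.mir.Out + ∑ j ∈ range (J + 2), (C.Loud j + C.mir.Loud j) :=
    ⟨_, rfl⟩
  have key : ∀ E : Cx, E.OK → E.M = C.M → E.d.m = d.m → (E.d.R - E.d.L).toNat = n + 1 →
      ∀ j < J + 2, ∀ c, 1 ≤ c → (∀ j' ≤ j, E.NEv j' ≤ L + ∑ i ∈ range j, (C.Lam i + C.mir.Lam i)) →
      2 * (c * E.Lam j) ≤ c * c * Z ^ 4 * (C.M + L + ∑ i ∈ range j, (C.Lam i + C.mir.Lam i)) +
        2 * (Z * E.d.NR) := fun E hE e1 e2 e3 j hj c hc hN => by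
    have h2 := hLAM E j (2 * J + 2) c _ hE ((hD E j c hE).and (Run.Sys.all (range (j + 1)) _ _
      fun j' _ => hL E j' (2 * J + 2) c hE (e3 ▸ lt_ee hn)))
    rw [e1, e2] at h2
    refine ar2 hc z2 z6 ((BB_le hj.le).trans z8) hm (by omega) ?_ h2
    refine (sum_le_card_nsmul _ _ (c * Z * Z * (C.M + L + ∑ i ∈ range j, (C.Lam i + C.mir.Lam i)))
      fun j' hj' => ?_).trans ?_
    · have h3 := hN j' (by have := mem_range.1 hj'; omega)
      rw [add_assoc C.M]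
      exact Nat.mul_le_mul (Nat.mul_le_mul (Nat.mul_le_mul_left _ z7) z5)
        (Nat.add_le_add_left h3 _)
    · rw [card_range, smul_eq_mul]
      exact Nat.mul_le_mul_right _ (by omega)
  have hN : ∀ j < J + 2, ∀ j' ≤ j, C.Out + C.Loud j' + ∑ i ∈ range j', C.Lam i +
      (C.mir.Out + C.mir.Loud j' + ∑ i ∈ range j', C.mir.Lam i) ≤
      L + ∑ i ∈ range j, (C.Lam i + C.mir.Lam i) := fun j hj j' hj' => by
    have h2 := single_le_sum (f := fun j => C.Loud j + C.mir.Loud j) (fun _ _ => Nat.zero_le _)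
      (mem_range.2 (show j' < J + 2 by omega))
    have h3 := sum_le_sum_of_subset (f := fun i => C.Lam i + C.mir.Lam i) (range_mono hj')
    rw [sum_add_distrib] at h3
    omega
  have h2 := alg (Z ^ 4) C.M (d.NR + d.mir.NR) (J + 2) L (Nat.one_le_pow _ _ (by omega))
    (fun j => C.Lam j + C.mir.Lam j) (fun c hc => by
      rw [hL0]
      refine ar1 hc z2 z4 z6 hm
        ((Nat.add_le_add (hOUT C hok) (hOUT _ hok')).trans (le_of_eq ?_)) ?_
      · show 2 * d.m + 2 * d.m = _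
        ring
      rw [mul_sum]
      refine (sum_le_card_nsmul _ _ _ fun j _ => ?_).trans (by rw [card_range, smul_eq_mul])
      have h3 : _ ≤ _ + 12 * (c * d.m + d.NR) := hLOUD C j c _ hok (hD C j c hok)
      have h4 : _ ≤ _ + 12 * (c * d.m + d.mir.NR) := hLOUD _ j c _ hok' (hD _ j c hok')
      rw [hM] at h4
      linarith) (fun j hj c hc => by
      have h3 : _ ≤ _ + 2 * (Z * d.NR) := key C hok rfl rfl (by show (d.R - d.L).toNat = _; omega)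
        j hj c hc fun j' hj' => (hNEV C j' hok).trans (hN j hj j' hj')
      have h4 : _ ≤ _ + 2 * (Z * d.mir.NR) := key C.mir hok' hM rfl
        (by show (mr d.L - mr d.R).toNat = _; unfold mr; omega) j hj c hc fun j' hj' =>
        (hNEV _ j' hok').trans (by rw [hmm, add_comm]; exact hN j hj j' hj')
      have h5 := Nat.mul_le_mul_right (d.NR + d.mir.NR) (Nat.le_self_pow four_ne_zero Z)
      linarith) 100 (by norm_num)
  have h3 : d.LamR ≤ _ := hLSPL C (J + 2) hok hT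
  have h4 : d.mir.LamR ≤ _ := hLSPL C.mir (J + 2) hok' hT
  have h5 := Nat.mul_le_mul_right C.M (Nat.mul_le_mul_left 100 (h0 J _ z3))
  rw [sum_add_distrib] at h2
  rw [← hM0]
  have h6 : J + 2 + 1 = J + 3 := rfl
  rw [h6] at h2
  omega

end Pool.Agent.P.MP_119182_lc.NU
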