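import Pool.Agent.P.MP_119182_lc.NU.CIface

/-! Step LOUD. -/

set_option autoImplicit false

namespace Pool.Agent.P.MP_119182_lc.NU

open Finset
open scoped Classical

namespace LOUDc

end LOUDc

theorem p_LOUD (hTYPE : S_TYPE) (hDYG : S_DYG) (hDYW : S_DYW) (hTOP : S_TOP) :
    S_LOUD := by
  intro C j c K hC hS
  refine le_of_eq_of_le ?_ (hTOP C j c K 12 (C.DyTh j c)
    (fun i u => C.ofG j i u ∧ C.ch j i (C.d.lp (i + 1) u)) hC hS
    (fun i _ u _ h => h.1.1 j le_rfl) fun i hi Q hQ hF Y hY hA => ?_)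
  · unfold Cx.Loud
    exact congrArg _ (sum_congr rfl fun i _ => congrArg card (filter_congr_decidable _ _ _).symm)
  refine hQ.th 4 Y hY (fun a ha => (hA a ha).1) fun Z hZ hc hs => ?_
  have hR := hY.sub hZ hc
  rcases hTYPE C j i Z hC hi hR (fun a ha => (hA a (hZ ha)).1) hs with h | ⟨k, hk, h1, h2⟩ |
    ⟨t, ht, h1, h2⟩
  · exact Run.good_of_empty fun u hu hq a b =>
      (hF u hu hq).1.2 ⟨h _ a, h _ b, (hA _ (hZ b)).2⟩
  · refine hDYG C k c i 0 Q Z hC hi (hQ.dyG k hk) hR h1 fun Z' hZ' _ e he e1 e2 => ?_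
    exact Run.good_of_empty fun u hu hq a b =>
      h2 u hu (hZ' a) (hZ' b) ⟨e, he, e1 _ a _ b, e2 _ a⟩ (hF u hu hq).2
  · refine hDYW C t c i 0 Q Z hC hi (hQ.dyW t ht) hR h1 fun Z' hZ' _ e he e1 e2 => ?_
    exact Run.good_of_empty fun u hu hq a b =>
      h2 u hu (hZ' a) (hZ' b) ⟨e, he, e1 _ a _ b, e2 _ a⟩ (hF u hu hq).2

end Pool.Agent.P.MP_119182_lc.NU
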