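import Pool.Agent.P.MP_119182_lc.NU.LIface

/-! Step LPA. -/

set_option autoImplicit false

namespace Pool.Agent.P.MP_119182_lc.NU

open Finset
open scoped Classical

namespace LPAc

open Lev

variable {d : Run} {l : Lev} {i : ℕ} {v : ℤ}

theorem inc (h0 : l.t0 ≤ i) (hv : v ∈ l.DD d (i + 1)) (hx : v ∉ l.XX d i) :
    l.Inc d (i + 1) v ∧ l.Inc d i v ∧ ¬ (l.far d i v ∧ l.om (l.tau d i v) = l.om i) ∧
      (l.far d i v → l.slot (d.x i) < l.slot v → ∀ u, l.Inc d i u → l.lab d i u = l.lab d i v →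
        ¬ l.slot u < l.slot (d.x i)) := by
  have h1 : l.Inc d (i + 1) v := (mem_filter.1 hv).2.1
  have h2 := fun a => hx (mem_filter.2 ⟨hv, a⟩)
  have h3 : ¬ (l.far d i v ∧ l.om (l.tau d i v) = l.om i) := fun a =>
    h2 (Or.inr (Or.inl ⟨(far_succ h1).2 a.1, by rw [tau_succ h1, a.2]⟩))
  have h4 : l.Inc d i v := by
    by_contra hn
    by_cases hs : l.slot v ∈ l.Sep i
    · exact h2 (Or.inl ⟨hn, hs⟩)
    · have e := tau_of_not hn
      exact h3 ⟨by unfold far; rw [e]; exact ⟨h0, hn, hs⟩, by rw [e]⟩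
  exact ⟨h1, h4, h3, fun a b u c e f => h2 (Or.inr (Or.inr ⟨h4, a, b, u, c, e, f⟩))⟩

theorem cnt_insert {A : Finset ℤ} {q a b : ℤ} (hq : q < a ↔ q < b)
    (h : (A.filter fun z => z < a).card = (A.filter fun z => z < b).card) :
    ((insert q A).filter fun z => z < a).card = ((insert q A).filter fun z => z < b).card := by
  by_cases hA : q ∈ A
  · rwa [insert_eq_of_mem hA]
  rw [filter_insert, filter_insert]
  by_cases h1 : q < a
  · rw [if_pos h1, if_pos (hq.1 h1), card_insert_of_notMem fun c => hA (mem_filter.1 c).1,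
      card_insert_of_notMem fun c => hA (mem_filter.1 c).1, h]
  · rw [if_neg h1, if_neg fun c => h1 (hq.2 c), h]

end LPAc

open Lev in
theorem p_LPA :
    S_LPA := by
  intro d l c i _ hl h0 h1
  refine ⟨fun v hv hx => ?_, fun u hu v hv hxu hxv he => ?_⟩
  · obtain ⟨a1, a2, a3, -⟩ := LPAc.inc h0 hv hx
    exact ⟨mem_filter.2 ⟨(mem_filter.1 hv).1, a2, a3⟩, fun a => (mem_filter.1 a).2.1 a1⟩
  · obtain ⟨a1, a2, -, a4⟩ := LPAc.inc h0 hu hxu
    obtain ⟨b1, b2, -, b4⟩ := LPAc.inc h0 hv hxv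
    by_cases fv : l.far d i v
    · have fu := far_of_lab he fv
      obtain ⟨e1, e2, e3⟩ := (lab_eq_far fu fv).1 he
      rw [lab_eq_far ((far_succ a1).2 fu) ((far_succ b1).2 fv), tau_succ a1, tau_succ b1,
        Acc_succ h0 (hl.omm (tau_le i v))]
      refine ⟨e1, e2, LPAc.cnt_insert ?_ e3⟩
      have q := hl.own i h0 h1
      have n1 : l.slot u ≠ l.slot (d.x i) := fun a => a1.2.2.1 (a ▸ q)
      have n2 : l.slot v ≠ l.slot (d.x i) := fun a => b1.2.2.1 (a ▸ q)
      constructor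
      · intro a
        have := a4 fu a v b2 he.symm
        omega
      · intro a
        have := b4 fv a u a2 he
        omega
    · have fu : ¬ l.far d i u := fun a => fv (far_of_lab he.symm a)
      rw [lab_plain fu, lab_plain fv] at he
      rw [lab_plain fun a => fu ((far_succ a1).1 a), lab_plain fun a => fv ((far_succ b1).1 a), he]

end Pool.Agent.P.MP_119182_lc.NU
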