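import Pool.Agent.P.MP_119182_lc.NU.LIface

/-! Step LRULE. -/

set_option autoImplicit false

namespace Pool.Agent.P.MP_119182_lc.NU

open Finset
open scoped Classical

namespace LRULEc

open Lev Run

/-- The range of a class. -/
def hull (l : Lev) (d : Run) (i : ℕ) (a : ℕ × ℕ × ℤ) : Set ℤ :=
  {z | ∃ y1 y2, l.Inc d i y1 ∧ l.Inc d i y2 ∧ l.lab d i y1 = a ∧ l.lab d i y2 = a ∧
    y1 ≤ z ∧ z ≤ y2}

theorem hull_oc (l : Lev) (d : Run) (i : ℕ) (a : ℕ × ℕ × ℤ) : (hull l d i a).OrdConnected := by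
  constructor
  rintro x ⟨y1, -, a1, -, a3, -, a5, -⟩ y ⟨-, y2, -, b2, -, b4, -, b6⟩ z hz
  exact ⟨y1, y2, a1, b2, a3, b4, a5.trans hz.1, hz.2.trans b6⟩

theorem slot_lt {l : Lev} {d : Run} (hl : l.OK d) {i : ℕ} {a b : ℤ} (hab : a ≤ b)
    (h : l.cross i a b) : l.slot a < l.slot b := by
  rcases h with h | ⟨s, -, h1, h2⟩
  · exact lt_of_le_of_ne (hl.slotm hab) fun e => h (hl.sb _ _ e)
  · omega

end LRULEc

open LRULEc Lev Run in
theorem p_LRULE (hF1 : S_F1) (hF2 : S_F2) (hPART : S_PART) (hJ : S_J) (hBTW : S_BTW) :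
    S_LRULE := by
  intro d l c i Q hd hl hQ v Y h0 h1 hS hslot hfar
  have hi : i < d.m := h1.trans_le hl.le
  obtain ⟨⟨hY, hx⟩, hb, hsep, hcr⟩ := hS
  have hLx := (hd.step i hi).mem.1
  have nocr : ∀ a ∈ Y, ∀ b ∈ Y, ¬ l.cross i a b := by
    rintro a ha b hb' (h | ⟨s, hs, h2, h3⟩)
    · exact h (hb a ha b hb')
    · exact hsep a ha b hb' s hs ⟨h2.le, h3.le⟩
  have hA : ∀ p ∈ d.P i, p ∈ Y → l.Inc d i p := by
    intro p hp hpY
    obtain ⟨a1, a2, a3⟩ := mem_P.1 hp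
    refine ⟨by omega, a2, fun h => hsep p hpY p hpY _ h ⟨le_rfl, le_rfl⟩, Or.inl ?_⟩
    rcases hcr p hpY with h | ⟨s, hs, h2, h3⟩
    · left
      have b1 := hl.blkm a3.le
      have b2 := hl.blkm a1.le
      omega
    · exact Or.inr ⟨s, hs, lt_of_le_of_lt (hl.slotm a3.le) h2, h3⟩
  have hB : ∀ u ∈ d.unp i Q Y, ¬ l.Inc d (i + 1) u := by
    intro u hu hinc
    have huY := unp_mem hd hi hY hu
    obtain ⟨a1, -, a3, a4⟩ := mem_unp.1 hu
    obtain ⟨-, -, -, -, -, b6, -⟩ := link hd hi a1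
    have key : ∀ a ∈ Y, ∀ b ∈ Y, ¬ l.cross (i + 1) a b := by
      rintro a ha b hb' (h | ⟨s, hs, h2, h3⟩)
      · exact h (hb a ha b hb')
      · rcases mem_insert.1 (hl.sub i h0 h1 hs) with e | e
        · have := hl.slotm (hx a ha).le
          omega
        · exact hsep a ha b hb' s e ⟨h2.le, h3.le⟩
    rcases hinc.2.2.2 with h | h
    · exact key _ a3 _ huY h
    · rw [b6] at h
      exact key _ huY _ a4 h
  have hC : ∀ z, l.Inc d i z → ∀ p ∈ d.P i, ∀ q ∈ d.P i, p ∈ Y → q ∈ Y → p ≤ z → z ≤ q →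
      z ∈ d.P i := by
    intro z hz p hp q hq hpY hqY hpz hzq
    by_contra hn
    have e1 : p < z := lt_of_le_of_ne hpz fun e => hn (e ▸ hp)
    have e2 : z < q := lt_of_le_of_ne hzq fun e => hn (e ▸ hq)
    obtain ⟨f1, f2⟩ := hF2 d i p q z hd hi hp hq e1 e2 hn
    have hbd := (hd.tree i hi.le).bnd z hz.1 hz.2.1
    have zY : z ∈ Y := hY.out hpY hqY ⟨hpz, hzq⟩
    rcases hz.2.2.2 with h | h
    · exact nocr _ (hY.out hpY hqY ⟨f1, by omega⟩) _ zY h
    · exact nocr _ zY _ (hY.out hpY hqY ⟨by omega, f2⟩) h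
  have hU : ∀ u ∈ d.unp i Q Y, u ∈ d.P i ∧ u ∈ Y ∧ l.Inc d i u := by
    intro u hu
    have a := (mem_U.1 (mem_unp.1 hu).1).1
    have b := unp_mem hd hi hY hu
    exact ⟨a, b, hA u a b⟩
  have hD : ∀ u ∈ d.unp i Q Y, ¬ (l.far d i u ∧ l.om (l.tau d i u) = l.om i) →
      u ∈ l.DD d i ∧ c < ((l.DD d i).filter fun z => l.lab d i z = l.lab d i u).card := by
    intro u hu hn
    obtain ⟨-, -, a3⟩ := hU u hu
    have a4 : u ∈ l.DD d i := mem_filter.2 ⟨mem_keys.2 ⟨a3.1, a3.2.1⟩, a3, hn⟩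
    refine ⟨a4, ?_⟩
    by_contra hc
    exact (mem_unp.1 hu).2.1 (hQ (mem_filter.2 ⟨a4, hB u hu, not_lt.1 hc⟩))
  have hDC : ∀ z ∈ l.DD d i, ∀ p ∈ d.P i, ∀ q ∈ d.P i, p ∈ Y → q ∈ Y → p ≤ z → z ≤ q →
      z ∈ d.P i := fun z hz => hC z (mem_filter.1 hz).2.1
  have hH : ∀ u, l.far d i u → ∀ z ∈ d.P i, z ∈ Y → z ∈ hull l d i (l.lab d i u) →
      l.lab d i z = l.lab d i u := by
    rintro u hu z hz hzY ⟨y1, y2, a1, a2, a3, a4, a5, a6⟩
    rw [← a3]
    exact hBTW d l i y1 y2 z hd hl h1.le a1 a2 (hA z hz hzY) (far_of_lab a3 hu)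
      (a3.trans a4.symm) a5 a6
  have hG : ∀ u, l.far d i u → d.Good c i Q v (hull l d i (l.lab d i u) ∩ Y) := by
    intro u hu
    refine hfar (l.om (l.tau d i u)) _ Set.inter_subset_right ((hull_oc l d i _).inter hY)
      ⟨hl.omm (tau_le i u), ?_, ?_⟩
    · rintro t ht hW a ⟨⟨y1, -, a1, -, a3, -, a5, -⟩, haY⟩ b
        ⟨⟨-, y2, -, b2, -, b4, -, b6⟩, hbY⟩ ⟨c1, c2⟩
      rcases ht.lt_or_eq with ht | rfl
      · have ht0 : l.t0 ≤ t := by
          by_contra hc
          have e1 := hl.start t (not_le.1 hc)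
          have e2 := hl.omm hu.1
          omega
        have f1 := far_of_lab a3 hu
        have f2 := far_of_lab b4 hu
        obtain ⟨-, g2, -⟩ := (lab_eq_far f2 hu).1 b4
        obtain ⟨-, -, g3⟩ := (lab_eq_far f1 f2).1 (a3.trans b4.symm)
        have hm : l.slot (d.x t) ∈ l.Acc d (l.om (l.tau d i y2)) i :=
          mem_Acc.2 ⟨t, ht0, ht, by omega, rfl⟩
        have s1 := hl.slotm a5
        have s2 := hl.slotm b6
        have s3 := (cnt_eq_iff _ (show l.slot y1 ≤ l.slot y2 by omega)).1 g3 _ hm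
        have s4 : l.slot (d.x t) = l.slot y2 := by omega
        exact (hJ d l i y2 hd hl h1.le b2 f2).1 (s4 ▸ hm)
      · have := slot_lt hl (hx a haY).le (hcr a haY)
        omega
    · rintro p hp ⟨h2, hpY⟩
      have e := hH u hu p hp hpY h2
      have f := far_of_lab e hu
      have hin := hA p hp hpY
      exact ⟨l.tau d i p, f.tau_lt hin, ((lab_eq_far f hu).1 e).2.1, f.ev hin h1.le⟩
  set PY := ((d.P i).filter fun z => z ∈ Y).card with hPY
  have k1 := hPART _ d c i v Q (l.DD d i) ((d.unp i Q Y).filter fun u => ¬ l.far d i u) Y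
    (l.lab d i) (fun a => {z | l.slot z = a.2.2}) hd hi hY (filter_subset _ _)
    (fun u hu => (hD u (mem_filter.1 hu).1 fun h => (mem_filter.1 hu).2 h.1).1)
    (fun u hu => by convert (hD u (mem_filter.1 hu).1 fun h => (mem_filter.1 hu).2 h.1).2) hDC
    (by
      intro u hu
      have hn := (mem_filter.1 hu).2
      have oc : ({z | l.slot z = (l.lab d i u).2.2} : Set ℤ).OrdConnected := by
        constructor
        intro a ha b hb' z hz
        have e1 := hl.slotm hz.1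
        have e2 := hl.slotm hz.2
        simp only [Set.mem_setOf_eq] at ha hb' ⊢
        omega
      refine ⟨oc, ?_, hslot _ Set.inter_subset_right (oc.inter hY) ?_⟩
      · intro z _ e
        have hz : ¬ l.far d i z := fun h => hn (far_of_lab e.symm h)
        simp only [Set.mem_setOf_eq]
        rw [← e, lab_plain hz]
      · rintro a ⟨ha, -⟩ b ⟨hb', -⟩
        exact ha.trans hb'.symm)
    (by
      intro u hu u' hu' z _ _ e e'
      simp only [Set.mem_setOf_eq] at e e'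
      rw [lab_plain (mem_filter.1 hu).2] at e ⊢
      rw [lab_plain (mem_filter.1 hu').2] at e' ⊢
      simp only at e e'
      rw [← e, ← e'])
  have k2 := hPART _ d c i v Q (l.DD d i)
    ((d.unp i Q Y).filter fun u => l.far d i u ∧ l.om (l.tau d i u) ≠ l.om i) Y
    (l.lab d i) (hull l d i) hd hi hY (filter_subset _ _)
    (fun u hu => (hD u (mem_filter.1 hu).1 fun h => (mem_filter.1 hu).2.2 h.2).1)
    (fun u hu => by convert (hD u (mem_filter.1 hu).1 fun h => (mem_filter.1 hu).2.2 h.2).2) hDC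
    (by
      intro u hu
      refine ⟨hull_oc l d i _, ?_, hG u (mem_filter.1 hu).2.1⟩
      intro z hz e
      have a := (mem_filter.1 hz).2.1
      exact ⟨z, z, a, a, e, e, le_rfl, le_rfl⟩)
    (by
      intro u hu u' hu' z hz hzY e e'
      rw [← hH u (mem_filter.1 hu).2.1 z hz hzY e, ← hH u' (mem_filter.1 hu').2.1 z hz hzY e'])
  have k3 : ∀ S ⊆ d.unp i Q Y, (∀ u ∈ S, l.far d i u ∧ l.om (l.tau d i u) = l.om i) →
      (∀ u ∈ S, ∀ u' ∈ S, (d.x (l.tau d i u) < u ↔ d.x (l.tau d i u') < u')) →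
      c * S.card ≤ v * (c + PY) + 2 * c := by
    intro S hS hf hs
    rcases S.eq_empty_or_nonempty with rfl | ⟨u0, h0'⟩
    · simp
    have hacc : ∀ a ∈ Y, ∀ b ∈ Y, ∀ z ∈ l.Acc d (l.om i) i, ¬ (l.slot a ≤ z ∧ z < l.slot b) := by
      intro a ha b hb' z hz hc
      obtain ⟨t, t1, t2, t3, rfl⟩ := mem_Acc.1 hz
      exact hsep a ha b hb' _
        (hl.slot_mem t1 t2 h1.le (le_antisymm (hl.omm t2.le) t3)) ⟨hc.1, hc.2.le⟩
    have hsub : S ⊆ (d.unp i Q Y).filter fun u => u ∈ hull l d i (l.lab d i u0) := by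
      intro u hu
      obtain ⟨-, a2, a3⟩ := hU u (hS hu)
      obtain ⟨-, b2, -⟩ := hU u0 (hS h0')
      have e : l.lab d i u = l.lab d i u0 := by
        refine (lab_eq_far (hf u hu).1 (hf u0 h0').1).2
          ⟨hs u hu u0 h0', (hf u hu).2.trans (hf u0 h0').2.symm, ?_⟩
        rw [(hf u0 h0').2]
        rcases le_total (l.slot u) (l.slot u0) with h | h
        · exact (cnt_eq_iff _ h).2 (hacc u a2 u0 b2)
        · exact ((cnt_eq_iff _ h).2 (hacc u0 b2 u a2)).symm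
      exact mem_filter.2 ⟨hS hu, u, u, a3, a3, e, e, le_rfl, le_rfl⟩
    have e1 := (card_le_card hsub).trans (hF1 d i Q Y _ hd hi hY (hull_oc l d i _))
    have e2 : c * (d.unp i Q (hull l d i (l.lab d i u0) ∩ Y)).card ≤ v * (c + PY) := by
      refine le_trans (hG u0 (hf u0 h0').1) (Nat.mul_le_mul_left _ (Nat.add_le_add_left
        (card_le_card ?_) _))
      intro z hz
      have hz' := (@mem_filter _ _ (_) _ _).1 hz
      exact mem_filter.2 ⟨hz'.1, hz'.2.2⟩
    have e4 := Nat.mul_le_mul_left c e1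
    rw [Nat.mul_add] at e4
    omega
  have k4 := k3 ((d.unp i Q Y).filter fun u => (l.far d i u ∧ l.om (l.tau d i u) = l.om i) ∧
      d.x (l.tau d i u) < u) (filter_subset _ _) (fun u hu => (mem_filter.1 hu).2.1)
    (fun u hu u' hu' => iff_of_true (mem_filter.1 hu).2.2 (mem_filter.1 hu').2.2)
  have k5 := k3 ((d.unp i Q Y).filter fun u => (l.far d i u ∧ l.om (l.tau d i u) = l.om i) ∧
      ¬ d.x (l.tau d i u) < u) (filter_subset _ _) (fun u hu => (mem_filter.1 hu).2.1)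
    (fun u hu u' hu' => iff_of_false (mem_filter.1 hu).2.2 (mem_filter.1 hu').2.2)
  have hcov : d.unp i Q Y ⊆ ((d.unp i Q Y).filter fun u => ¬ l.far d i u) ∪
      ((d.unp i Q Y).filter fun u => l.far d i u ∧ l.om (l.tau d i u) ≠ l.om i) ∪
      ((d.unp i Q Y).filter fun u => (l.far d i u ∧ l.om (l.tau d i u) = l.om i) ∧
        d.x (l.tau d i u) < u) ∪
      ((d.unp i Q Y).filter fun u => (l.far d i u ∧ l.om (l.tau d i u) = l.om i) ∧
        ¬ d.x (l.tau d i u) < u) := by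
    intro u hu
    simp only [mem_union, mem_filter]
    tauto
  have e := (card_le_card hcov).trans ((card_union_le _ _).trans (Nat.add_le_add_right
    ((card_union_le _ _).trans (Nat.add_le_add_right (card_union_le _ _) _)) _))
  have e' := Nat.mul_le_mul_left c e
  unfold Run.Good
  rw [← hPY]
  simp only [Nat.mul_add] at e'
  nlinarith

end Pool.Agent.P.MP_119182_lc.NU
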