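import Pool.Agent.P.MP_119182_lc.NU.CIface

/-! Step LSPL. -/

set_option autoImplicit false

namespace Pool.Agent.P.MP_119182_lc.NU

open Finset
open scoped Classical

namespace LSPLc

theorem not_top (C : Cx) (h : C.OK) {i : ℕ} (hi : i < C.d.m) {u : ℤ} (hu : u ∈ C.d.U i) :
    ¬ C.inA C.T i u := by
  rintro ⟨-, ⟨h1, -⟩, h2⟩
  obtain ⟨h3, h4, -⟩ := Run.mem_P.1 (Run.mem_U.1 hu).1
  obtain ⟨h5, h6⟩ := (h.run.step i hi).mem
  obtain ⟨-, -, h7, -⟩ := (h.run.tree i hi.le).bnd u (h5.trans h3) h4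
  exact h1.ne (h.one _ _ h5.le h6.le (by omega) h2.le)

theorem cover (C : Cx) (G : ℕ) (h : C.OK) (hG : C.g G = C.T) {i : ℕ} (hi : i < C.d.m) {u : ℤ}
    (hu : u ∈ C.d.U i) (h0 : C.inA 0 i u) : ∃ j ∈ range G, C.ofG j i u := by
  have hex : ∃ j, ¬ C.inA (C.g j) i u := ⟨G, hG ▸ not_top C h hi hu⟩
  have h1 := Nat.find_spec hex
  have h2 : Nat.find hex ≤ G := Nat.find_min' hex (hG ▸ not_top C h hi hu)
  have h3 : Nat.find hex ≠ 0 := fun e => h1 (by rw [e]; exact h0)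
  obtain ⟨j, hj⟩ := Nat.exists_eq_succ_of_ne_zero h3
  refine ⟨j, mem_range.2 (by omega), fun j' hj' => ?_, by rwa [hj] at h1⟩
  exact not_not.1 (Nat.find_min hex (by omega))

end LSPLc

theorem p_LSPL :
    S_LSPL := by
  intro C G h hG
  unfold Run.LamR Cx.Out Cx.Lam
  rw [sum_comm, ← sum_add_distrib]
  refine sum_le_sum fun i hi => ?_
  refine le_trans (card_le_card (t := (C.d.U i).filter (fun u => ¬ C.inA 0 i u) ∪
    (range G).biUnion fun j => (C.d.U i).filter fun u => C.ofG j i u) fun u hu => ?_)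
    ((card_union_le _ _).trans (Nat.add_le_add_left card_biUnion_le _))
  by_cases h0 : C.inA 0 i u
  · obtain ⟨j, h1, h2⟩ := LSPLc.cover C G h hG (mem_range.1 hi) hu h0
    exact mem_union_right _ (mem_biUnion.2 ⟨j, h1, mem_filter.2 ⟨hu, h2⟩⟩)
  · exact mem_union_left _ (mem_filter.2 ⟨hu, h0⟩)

end Pool.Agent.P.MP_119182_lc.NU
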