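import Pool.Agent.P.MP_119182_lc.NU.LIface

/-! Step LSUM. -/

set_option autoImplicit false

namespace Pool.Agent.P.MP_119182_lc.NU

open Finset
open scoped Classical

namespace LSUMc

variable {l : Lev} {d : Run}

theorem step (h : l.OK d) {i : ℕ} (h0 : l.t0 ≤ i) (h1 : i < l.t1) :
    (l.Sep (i + 1)).card + (l.Sep i \ l.Sep (i + 1)).card ≤
      (l.Sep i).card + if l.slot (d.x i) ∈ l.Sep i then 0 else 1 := by
  have a1 : (l.Sep (i + 1) ∪ (l.Sep i \ l.Sep (i + 1))).card ≤
      (insert (l.slot (d.x i)) (l.Sep i)).card :=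
    card_le_card (union_subset (h.sub i h0 h1) (sdiff_subset.trans (subset_insert _ _)))
  rw [card_union_of_disjoint disjoint_sdiff, card_insert_eq_ite] at a1
  split_ifs at a1 ⊢ <;> omega

theorem partA (h : l.OK d) {j : ℕ} (h0 : l.t0 ≤ j) (h1 : j ≤ l.t1) :
    (l.Sep j).card + ∑ i ∈ Ico l.t0 j, (l.Sep i \ l.Sep (i + 1)).card ≤
      (l.Sep l.t0).card + ∑ i ∈ Ico l.t0 j, if l.slot (d.x i) ∈ l.Sep i then 0 else 1 := by
  induction j, h0 using Nat.le_induction with
  | base => simp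
  | succ j hj ih =>
    have a1 := ih (by omega)
    have a2 := step h hj (by omega)
    rw [sum_Ico_succ_top hj, sum_Ico_succ_top hj]
    omega

theorem partB (h : l.OK d) :
    (∑ i ∈ Ico l.t0 l.t1, if l.slot (d.x i) ∈ l.Sep i then 0 else 1) ≤ (l.fst d).card := by
  unfold Lev.fst
  rw [card_filter]
  refine sum_le_sum fun i hi => ?_
  rw [mem_Ico] at hi
  by_cases a : l.slot (d.x i) ∈ l.Sep i
  · rw [if_pos a]
    exact Nat.zero_le _
  · rw [if_neg a, if_pos]
    intro s s0 s1 s2 e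
    exact a (e ▸ h.slot_mem s0 s1 hi.2.le s2)

theorem acc_le (h : l.OK d) {i : ℕ} (h1 : i < l.t1) :
    (l.Acc d (l.om i) (i + 1)).card ≤ ((l.fst d).filter fun t => l.om t = l.om i).card := by
  refine le_trans (card_le_card fun a ha => ?_) (card_image_le (f := fun t => l.slot (d.x t)))
  have hex := Lev.mem_Acc.1 ha
  obtain ⟨a1, a2, a3, a4⟩ := Nat.find_spec hex
  have a5 : l.om (Nat.find hex) ≤ l.om i := h.omm (by omega)
  refine mem_image.2 ⟨Nat.find hex, mem_filter.2 ⟨mem_filter.2 ⟨mem_Ico.2 ⟨a1, by omega⟩,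
    fun s s0 s1 s2 e => ?_⟩, by omega⟩, a4⟩
  exact Nat.find_min hex s1 ⟨s0, by omega, by omega, e.trans a4⟩

theorem partC (h : l.OK d) :
    (∑ i ∈ Ico l.t0 l.t1, if l.om (i + 1) = l.om i then 0
      else 2 * ((l.Acc d (l.om i) (i + 1)).card + 1)) ≤ 4 * (l.fst d).card := by
  have a1 : ∑ i ∈ (Ico l.t0 l.t1).filter (fun i => ¬ l.om (i + 1) = l.om i),
      ((l.fst d).filter fun t => l.om t = l.om i).card ≤ (l.fst d).card := by
    rw [← card_biUnion]
    · exact card_le_card (biUnion_subset.2 fun i _ => filter_subset _ _)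
    · have key : ∀ i j, i < j → ¬ l.om (i + 1) = l.om i → l.om i ≠ l.om j := by
        intro i j hij hi
        have b1 : l.om i ≤ l.om (i + 1) := h.omm (Nat.le_succ i)
        have b2 : l.om (i + 1) ≤ l.om j := h.omm hij
        omega
      intro i hi j hj hij
      have hi' := (mem_filter.1 (mem_coe.1 hi)).2
      have hj' := (mem_filter.1 (mem_coe.1 hj)).2
      refine disjoint_left.2 fun t ht ht' => ?_
      have c1 := (mem_filter.1 ht).2
      have c2 := (mem_filter.1 ht').2
      rcases lt_or_gt_of_ne hij with c | c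
      · exact key i j c hi' (c1.symm.trans c2)
      · exact key j i c hj' (c2.symm.trans c1)
  refine le_trans ?_ (Nat.mul_le_mul_left 4 a1)
  rw [mul_sum, sum_filter]
  refine sum_le_sum fun i hi => ?_
  rw [mem_Ico] at hi
  by_cases a : l.om (i + 1) = l.om i
  · rw [if_pos a]
    exact Nat.zero_le _
  · rw [if_neg a, if_pos a]
    have b1 := acc_le h hi.2
    have b2 : 0 < (l.Acc d (l.om i) (i + 1)).card :=
      card_pos.2 ⟨_, Lev.mem_Acc.2 ⟨i, hi.1, Nat.lt_succ_self i, le_rfl, rfl⟩⟩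
    omega

end LSUMc

theorem p_LSUM :
    S_LSUM := by
  intro d l h
  rcases le_or_gt l.t0 l.t1 with h0 | h0
  · have a := LSUMc.partA h h0 le_rfl
    have b := LSUMc.partB h
    have c := LSUMc.partC h
    unfold Lev.exc
    rw [sum_add_distrib, sum_add_distrib]
    omega
  · rw [Ico_eq_empty_of_le h0.le, sum_empty]
    exact Nat.zero_le _

end Pool.Agent.P.MP_119182_lc.NU
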