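import Pool.Agent.P.MP_119182_lc.NU.SIface

/-! Step LZ. -/

set_option autoImplicit false

namespace Pool.Agent.P.MP_119182_lc.NU

open Finset
open scoped Classical

namespace LZc

theorem cls_lt {Cut : Finset ℤ} {a b : ℤ} (hb : b ∈ Cut) (hab : a < b) :
    cls Cut a < cls Cut b := by
  unfold cls
  apply card_lt_card
  refine ⟨fun z hz => ?_, fun h => ?_⟩
  · rw [mem_filter] at hz ⊢
    exact ⟨hz.1, hz.2.trans hab.le⟩
  · have := h (mem_filter.2 ⟨hb, le_rfl⟩)
    rw [mem_filter] at this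
    exact absurd this.2 (not_le.2 hab)

/-- The cuts of a window. -/
noncomputable def cut (EvS : Finset (ℕ × ℤ)) (om : ℕ → ℕ) (W : ℕ) : Finset ℤ :=
  (EvS.filter fun e => om e.1 = W).image Prod.snd

theorem sum_cut (EvS : Finset (ℕ × ℤ)) (om : ℕ → ℕ) (T : Finset ℕ) :
    ∑ W ∈ T, ((cut EvS om W).card + 1) ≤ EvS.card + T.card := by
  rw [sum_add_distrib]
  have h1 : ∑ W ∈ T, (cut EvS om W).card ≤
      ∑ W ∈ T, (EvS.filter fun e => om e.1 = W).card :=
    sum_le_sum fun W _ => card_image_le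
  have h2 : ∑ W ∈ T, (EvS.filter fun e => om e.1 = W).card ≤ EvS.card := by
    rw [sum_card_fiberwise_eq_card_filter]
    exact card_filter_le _ _
  have h3 : ∑ _W ∈ T, 1 = T.card := by simp
  omega

end LZc

open LZc in
theorem p_LZ (hLEV : S_LEV) (hRW : S_RW) :
    S_LZ := by
  intro ι d c k s lv om EvS hd hk hom hl hE
  have hA := Run.Sys.all s (fun j => c * (lv j).cost d) (fun j => (lv j).Rule d c)
    (fun j hj => hLEV d (lv j) c hd (hl j hj).1)
  have hB := hRW d c k 0 d.m om (cut EvS om) hd hk hom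
  refine (hA.and hB).mono ?_ ?_
  · rw [← mul_sum, range_eq_Ico]
    exact Nat.add_le_add_left (Nat.mul_le_mul_left _ (sum_cut EvS om _)) _
  · intro i hi Q hQ j hj v Y h0 h1 hS hG
    have hom' := (hl j hj).2
    refine hQ.1 j hj (v + 2 * 64 ^ (k + 1)) Y h0 h1 hS
      (hG.mono subset_rfl (Nat.le_add_right _ _)) ?_
    intro W Z hZY hZc hFar
    obtain ⟨hF1, hF2, hF3⟩ := hFar
    rw [hom'] at hF1 hF2 hF3
    by_cases hp : ∃ p ∈ d.P i, p ∈ Z
    · obtain ⟨p, hp1, hp2⟩ := hp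
      obtain ⟨t, ht, htW, -⟩ := hF3 p hp1 hp2
      have hcut : ∀ b ∈ d.P i, b ∈ Z → b ∈ cut EvS om W := by
        intro b hb hbZ
        obtain ⟨t', -, h2, h3⟩ := hF3 b hb hbZ
        exact mem_image.2 ⟨(t', b), mem_filter.2 ⟨hE j hj t' b h3, h2⟩, rfl⟩
      have hg := hQ.2 W 0 Z (mem_image.2 ⟨t, mem_Ico.2 ⟨Nat.zero_le _, ht.trans hi⟩, htW⟩) hF1
        (hS.1.sub hZY hZc)
        (fun t' ht' hW hx => hF2 t' ht' hW _ hx _ hx ⟨le_rfl, le_rfl⟩) (by
          intro Z' hZ' hc hf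
          apply Run.good_of_one hd hi hc
          intro a ha b hb haZ hbZ
          have he := hf a haZ b hbZ
          rcases lt_trichotomy a b with h | h | h
          · exact absurd he (cls_lt (hcut b hb (hZ' hbZ)) h).ne
          · exact h
          · exact absurd he (cls_lt (hcut a ha (hZ' haZ)) h).ne')
      exact hg.mono (by omega)
    · apply Run.good_of_one hd hi hZc
      intro a ha b _ haZ _
      exact absurd ⟨a, ha, haZ⟩ hp

end Pool.Agent.P.MP_119182_lc.NU
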