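import Pool.Agent.P.MP_119182_lc.NU.CIface

/-! Step NEV. -/

set_option autoImplicit false

namespace Pool.Agent.P.MP_119182_lc.NU

open Finset
open scoped Classical

namespace NEVc

theorem lev {C : Cx} {j i : ℕ} {p : ℤ} (h : C.OK) (hi : i < C.d.m) (hc : C.ch j i p) :
    ∃ l : Lev, l.OK C.d ∧ l.Ev C.d i p := by
  have hT : C.g (j + 1) ≤ C.T := grp_le _ _
  rcases hc with ⟨t, ht, e⟩ | ⟨t, ht, e⟩ | ⟨k, hk, l, -, e⟩ | ⟨t, ht, ⟨l, -, e⟩, -⟩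
  · exact ⟨_, levB_OK (mem_Ioc.1 ht).1.le ((mem_Ioc.1 ht).2.trans hT), e⟩
  · exact ⟨_, levC_OK (mem_Ioc.1 ht).1.le ((mem_Ioc.1 ht).2.trans hT), e⟩
  · exact ⟨_, levG_OK ((mem_Ico.1 hk).2.le.trans hT) l, e⟩
  · exact ⟨_, levW_OK h.idx ((mem_Ioc.1 ht).2.trans hT) ⟨i, hi, rfl⟩ l, e⟩

theorem mem {C : Cx} {F : ℕ → ℤ → Prop} {q : ℕ × ℤ} :
    q ∈ C.EvS F ↔ q.1 < C.d.m ∧ q.2 ∈ C.d.keys ∧ F q.1 q.2 := by
  rw [Cx.EvS, mem_filter, mem_product, mem_range, and_assoc]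

theorem right (hEVR : S_EVR) (hQ1 : S_Q1) (C : Cx) (j : ℕ) (h : C.OK) :
    (C.EvS fun i p => C.ch j i p ∧ C.d.x i < p).card ≤
      C.Out + C.Loud j + ∑ j' ∈ range j, C.Lam j' := by
  unfold Cx.Out Cx.Loud Cx.Lam
  rw [sum_comm, ← sum_add_distrib, ← sum_add_distrib, Cx.EvS, card_filter, sum_product]
  refine sum_le_sum fun i hi => ?_
  refine le_trans (@card_filter _ (fun p => C.ch j i p ∧ C.d.x i < p)
    (fun _ => Classical.propDecidable _) _).ge ?_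
  have hi := mem_range.1 hi
  have key : ∀ p, C.ch j i p ∧ C.d.x i < p →
      C.d.rp i p ∈ C.d.U i ∧ C.d.lp (i + 1) (C.d.rp i p) = p := fun p hp =>
    let ⟨l, h1, h2⟩ := lev h hi hp.1
    let q := hEVR C.d l i p h.run h1 h2 hp.2
    ⟨q.2.1, q.2.2.1⟩
  refine le_trans ?_ (Nat.add_le_add (card_union_le _ _) card_biUnion_le)
  refine le_trans ?_ (card_union_le _ _)
  refine card_le_card_of_injOn (C.d.rp i) (fun p hp => ?_) fun p hp p' hp' e => ?_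
  · have hp := ((@mem_filter _ _ (fun _ => Classical.propDecidable _) _ _).1 (mem_coe.1 hp)).2
    obtain ⟨h1, h2⟩ := key p hp
    have h3 : ¬ C.inA (C.g (j + 1)) i (C.d.rp i p) := fun h3 =>
      hQ1 C j i _ h hi h1 h3 (h2.symm ▸ hp.1)
    have ex : ∃ n, ¬ C.inA (C.g n) i (C.d.rp i p) := ⟨_, h3⟩
    have h4 := Nat.find_min' ex h3
    have h5 := Nat.find_spec ex
    have h6 : ∀ n < Nat.find ex, C.inA (C.g n) i (C.d.rp i p) := fun n hn =>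
      not_not.1 (Nat.find_min ex hn)
    rw [mem_coe, mem_union, mem_union, mem_biUnion]
    generalize Nat.find ex = n at h4 h5 h6
    cases n with
    | zero => exact .inl (.inl (mem_filter.2 ⟨h1, h5⟩))
    | succ n =>
      have h7 : C.ofG n i (C.d.rp i p) := ⟨fun j' hj => h6 j' (Nat.lt_succ_of_le hj), h5⟩
      rcases (Nat.le_of_succ_le_succ h4).eq_or_lt with rfl | h8
      · exact .inl (.inr (mem_filter.2 ⟨h1, h7, h2.symm ▸ hp.1⟩))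
      · exact .inr ⟨n, mem_range.2 h8, mem_filter.2 ⟨h1, h7⟩⟩
  · simp only [coe_filter, Set.mem_ofPred_eq] at hp hp'
    rw [← (key p hp.2).2, e, (key p' hp'.2).2]

end NEVc

theorem p_NEV (hEVR : S_EVR) (hEVL : S_EVL) (hCMIR : S_CMIR) (hCHMIR : S_CHMIR) (hQ1 : S_Q1) :
    S_NEV := by
  intro C j h
  refine le_trans ?_ (Nat.add_le_add (NEVc.right hEVR hQ1 C j h)
    (NEVc.right hEVR hQ1 C.mir j ((hCMIR C).2.2 h)))
  have inj : Function.Injective fun q : ℕ × ℤ => (q.1, mr q.2) := fun a b e =>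
    Prod.ext (Prod.mk.inj e).1 (mr_inj.1 (Prod.mk.inj e).2)
  rw [← card_image_of_injective (C.mir.EvS _) inj]
  refine le_trans (card_le_card fun q hq => ?_) (card_union_le _ _)
  obtain ⟨h1, h2, h3⟩ := NEVc.mem.1 hq
  rcases lt_or_ge (C.d.x q.1) q.2 with h4 | h4
  · exact mem_union_left _ (NEVc.mem.2 ⟨h1, h2, h3, h4⟩)
  · obtain ⟨l, h5, h6⟩ := NEVc.lev h h1 h3
    have h7 := (hEVL C.d l q.1 q.2 h.run h5 h6 h4).1
    have h8 : q.2 < C.d.x q.1 := lt_of_not_ge fun h8 => h7.not_ge (h5.slotm h8)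
    have h9 := Run.mem_keys.1 h2
    refine mem_union_right _ (mem_image.2 ⟨(q.1, mr q.2), NEVc.mem.2 ⟨h1,
      Run.mem_keys.2 ⟨mr_lt.2 h9.2, mr_lt.2 h9.1⟩, ((hCHMIR C).2 j _ _).2 h3, mr_lt.2 h8⟩, ?_⟩)
    simp

end Pool.Agent.P.MP_119182_lc.NU
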