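import Pool.Agent.P.MP_119182_lc.NU.CIface

/-! Step OUT. -/

set_option autoImplicit false

namespace Pool.Agent.P.MP_119182_lc.NU

open Finset
open scoped Classical

namespace OUTc

theorem rp_inj {d : Run} (h : d.OK) {i : ℕ} (hi : i < d.m) {u v : ℤ} (hu : u ∈ d.P i)
    (hv : v ∈ d.P i) (e : d.rp i u = d.rp i v) : u = v := by
  have key : ∀ a ∈ d.P i, ∀ b ∈ d.P i, a < b → d.rp i a ≠ d.rp i b := fun a ha b hb hab e => by
    have h1 := Run.P_gap h hi ha hb hab
    obtain ⟨h2, h3, -⟩ := Run.mem_P.1 hb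
    have h4 := ((h.tree i hi.le).bnd b ((h.step i hi).mem.1.trans h2) h3).2.2.1
    omega
  rcases lt_trichotomy u v with a | a | a
  · exact absurd e (key u hu v hv a)
  · exact a
  · exact absurd e.symm (key v hv u hu a)

theorem rp_mem {C : Cx} (hC : C.OK) {i : ℕ} (hi : i < C.d.m) {u : ℤ} (hu : u ∈ C.d.U i)
    (hn : ¬ C.inA 0 i u) : C.d.rp i u ∈ ({C.d.R, C.d.x (i - 1)} : Finset ℤ) := by
  by_contra hc
  simp only [mem_insert, mem_singleton, not_or] at hc
  obtain ⟨h1, h2, h3, h4, -⟩ := Run.link hC.run hi hu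
  have hP := (Run.mem_U.1 hu).1
  have hx := (Run.mem_P.1 h1).1
  have key : ∀ v, C.d.x i < v → v ≤ C.d.rp i u → C.A 0 i v := fun v a b => by
    refine ⟨by simpa using a, fun s hs hr => ?_⟩
    rw [rct_zero] at hr
    simp only [it_zero]
    rintro ⟨c1, c2⟩
    rcases hs.eq_or_lt with rfl | hs
    · exact lt_irrefl _ c1
    obtain rfl : i = s + 1 := by omega
    have hst := hC.run.step s (by omega)
    have hm : C.d.x s ∈ C.d.P (s + 1) := Run.mem_P.2 ⟨c1, hst.mem.2, by
      rw [hst.root.1]; exact (hC.run.step _ hi).mem.1⟩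
    have hc2 : C.d.rp (s + 1) u ≠ C.d.x s := hc.2
    rcases lt_trichotomy u (C.d.x s) with e | e | e
    · have := Run.P_gap hC.run hi hP hm e
      omega
    · exact hc.1 (e ▸ hst.root.2)
    · have h5 := Run.P_gap hC.run hi hm hP e
      have h6 := hst.root.2
      have h7 := (Run.mem_P.1 hP).2.1
      omega
  exact hn ⟨key _ hx (by omega), key _ (by omega) le_rfl, lt_of_le_of_ne h4 hc.1⟩

end OUTc

theorem p_OUT :
    S_OUT := by
  intro C hC
  unfold Cx.Out
  refine (sum_le_card_nsmul _ _ 2 fun i hi => ?_).trans (by simp [mul_comm])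
  have hi := mem_range.1 hi
  refine le_trans (card_le_card_of_injOn (t := {C.d.R, C.d.x (i - 1)}) (C.d.rp i)
    (fun u hu => ?_) fun u hu v hv e => ?_) card_le_two
  · obtain ⟨h1, h2⟩ := mem_filter.1 (mem_coe.1 hu)
    exact mem_coe.2 (OUTc.rp_mem hC hi h1 h2)
  · exact OUTc.rp_inj hC.run hi (Run.mem_U.1 (mem_filter.1 (mem_coe.1 hu)).1).1
      (Run.mem_U.1 (mem_filter.1 (mem_coe.1 hv)).1).1 e

end Pool.Agent.P.MP_119182_lc.NU
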