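import Pool.Agent.P.MP_119182_lc.NU.SIface

/-! Step PART. -/

set_option autoImplicit false

namespace Pool.Agent.P.MP_119182_lc.NU

open Finset
open scoped Classical

theorem p_PART (hF1 : S_F1) :
    S_PART := by
  intro α d c i v Q D S Y f hull hd hi hY hS hD hc hz hh hdis
  rcases S.eq_empty_or_nonempty with rfl | ⟨u₀, hu₀⟩
  · simp
  set PY := (d.P i).filter fun z => z ∈ Y with hPY
  set K := S.image f with hK
  set T : α → Finset ℤ := fun a => (d.P i).filter fun z => z ∈ hull a ∩ Y with hT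
  have hm : ∀ u ∈ S, u ∈ PY := fun u hu =>
    mem_filter.2 ⟨(Run.mem_U.1 (Run.mem_unp.1 (hS hu)).1).1, Run.unp_mem hd hi hY (hS hu)⟩
  have un : ∀ z ∈ PY, ∀ a ∈ K, ∀ b ∈ K, z ∈ hull a → z ∈ hull b → a = b := fun z h a ha b hb => by
    obtain ⟨u, hu, rfl⟩ := mem_image.1 ha
    obtain ⟨u', hu', rfl⟩ := mem_image.1 hb
    exact hdis u hu u' hu' z (mem_filter.1 h).1 (mem_filter.1 h).2
  have h1 : c * S.card ≤ ∑ a ∈ K, ((v + 2) * c + v * (T a).card) := by
    rw [card_eq_sum_card_image f S, mul_sum]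
    refine sum_le_sum fun a ha => ?_
    obtain ⟨u, hu, rfl⟩ := mem_image.1 ha
    obtain ⟨a1, a2, a3⟩ := hh u hu
    have a4 := (card_le_card (s := S.filter fun z => f z = f u) fun z h => mem_filter.2
      ⟨hS (mem_filter.1 h).1, a2 z (hD (mem_filter.1 h).1) (mem_filter.1 h).2⟩).trans
      (hF1 d i Q Y _ hd hi hY a1)
    have a5 := Nat.mul_le_mul_left c a4
    have a6 : c * (d.unp i Q (hull (f u) ∩ Y)).card ≤ v * (c + (T (f u)).card) := by
      unfold Run.Good at a3
      convert a3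
    nlinarith
  have h2 : ∑ a ∈ K, (T a).card ≤ PY.card := by
    have s : ∀ a, T a ⊆ PY := fun a z h => mem_filter.2 ⟨(mem_filter.1 h).1, (mem_filter.1 h).2.2⟩
    rw [← card_biUnion fun a ha b hb e => disjoint_left.2 fun z h h' =>
      e (un z (s a h) a ha b hb (mem_filter.1 h).2.1 (mem_filter.1 h').2.1)]
    exact card_le_card (biUnion_subset.2 fun a _ => s a)
  have ne : PY.Nonempty := ⟨u₀, hm u₀ hu₀⟩
  have lo := PY.min'_mem ne
  have hi' := PY.max'_mem ne
  have o : ∀ z ∈ PY, (K.filter fun a => z ∈ hull a).card ≤ 1 := fun z h =>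
    card_le_one.2 fun a ha b hb => un z h a (mem_filter.1 ha).1 b (mem_filter.1 hb).1
      (mem_filter.1 ha).2 (mem_filter.1 hb).2
  set I := K.filter fun a => PY.min' ne ∉ hull a ∧ PY.max' ne ∉ hull a with hI
  have h3 : K.card ≤ I.card + 2 := by
    have : K ⊆ I ∪ ((K.filter fun a => PY.min' ne ∈ hull a) ∪
        K.filter fun a => PY.max' ne ∈ hull a) := fun a ha => by
      simp only [hI, mem_union, mem_filter, ha, true_and]
      tauto
    have b1 := (card_le_card this).trans ((card_union_le _ _).trans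
      (Nat.add_le_add_left (card_union_le _ _) _))
    have b2 := o _ lo
    have b3 := o _ hi'
    omega
  have h4 : I.card * c ≤ ∑ a ∈ K, (T a).card := by
    refine (card_nsmul_le_sum I _ c fun a ha => ?_).trans
      (sum_le_sum_of_subset (filter_subset _ _))
    obtain ⟨ha, n1, n2⟩ := mem_filter.1 ha
    obtain ⟨u, hu, rfl⟩ := mem_image.1 ha
    obtain ⟨a1, a2, -⟩ := hh u hu
    refine (hc u hu).le.trans (card_le_card fun z h => ?_)
    obtain ⟨z1, z2⟩ := mem_filter.1 h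
    have z3 := a2 z z1 z2
    have u3 := a2 u (hD hu) rfl
    have l : PY.min' ne ≤ z := not_lt.1 fun e => n1 (a1.out z3 u3 ⟨e.le, PY.min'_le u (hm u hu)⟩)
    have r : z ≤ PY.max' ne := not_lt.1 fun e => n2 (a1.out u3 z3 ⟨PY.le_max' u (hm u hu), e.le⟩)
    obtain ⟨l1, l2⟩ := mem_filter.1 lo
    obtain ⟨r1, r2⟩ := mem_filter.1 hi'
    exact mem_filter.2 ⟨hz z z1 _ l1 _ r1 l2 r2 l r, z3, hY.out l2 r2 ⟨l, r⟩⟩
  rw [sum_add_distrib, sum_const, smul_eq_mul, ← mul_sum] at h1
  have h5 := Nat.mul_le_mul_right ((v + 2) * c) h3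
  have h6 := Nat.mul_le_mul_left (v + 2) (h4.trans h2)
  have h7 := Nat.mul_le_mul_left v h2
  nlinarith

end Pool.Agent.P.MP_119182_lc.NU
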