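import Pool.Agent.P.MP_119182_lc.NU.CIface
import Pool.Agent.P.MP_119182_lc.NU.Ev79

/-! Step Q1. -/

set_option autoImplicit false

namespace Pool.Agent.P.MP_119182_lc.NU

open Finset
open scoped Classical

theorem p_Q1 (hEVR : S_EVR) :
    S_Q1 := fun _ _ _ _ h hi hu ha => Cx.q1 hEVR h hi hu ha.1 ha.2.1

end Pool.Agent.P.MP_119182_lc.NU
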