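import Pool.Agent.P.MP_119182_lc.NU.SIface

/-! Step RANGE. -/

set_option autoImplicit false

namespace Pool.Agent.P.MP_119182_lc.NU

open Finset
open scoped Classical

namespace RANGEc

open Run

theorem sand {a b e l : ℕ} (h1 : a ≤ b) (h2 : b ≤ e) (h : a / 2 ^ l = e / 2 ^ l) :
    b / 2 ^ l = a / 2 ^ l :=
  (h ▸ Nat.div_le_div_right h2 :).antisymm (Nat.div_le_div_right h1)

theorem up {a b l l' : ℕ} (h1 : l ≤ l') (h : a / 2 ^ l = b / 2 ^ l) : a / 2 ^ l' = b / 2 ^ l' := by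
  obtain ⟨e, rfl⟩ := Nat.exists_eq_add_of_le h1
  rw [pow_add, ← Nat.div_div_eq_div_mul, ← Nat.div_div_eq_div_mul, h]

theorem half (a l : ℕ) : a / 2 ^ (l + 1) = a / 2 ^ l / 2 := by
  rw [pow_succ, Nat.div_div_eq_div_mul]

theorem ex (a b : ℕ) : ∃ l, b / 2 ^ l = a / 2 ^ l :=
  ⟨a + b, by
    have : a + b < 2 ^ (a + b) := Nat.lt_two_pow_self
    rw [Nat.div_eq_of_lt (by omega), Nat.div_eq_of_lt (by omega)]⟩

/-- The first level at which `b` lies in the block of `a`. -/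
noncomputable def lv (a b : ℕ) : ℕ := Nat.find (ex a b)

theorem lv_spec (a b : ℕ) : b / 2 ^ lv a b = a / 2 ^ lv a b := Nat.find_spec (ex a b)

theorem lv_le {a b l : ℕ} (h : b / 2 ^ l = a / 2 ^ l) : lv a b ≤ l := Nat.find_min' (ex a b) h

/-- One side of `a` in its block of level `l`. -/
def G (j : ℤ → ℕ) (s : Bool) (a l : ℕ) : Set ℤ :=
  {y | (if s then a ≤ j y else j y ≤ a) ∧ j y / 2 ^ l = a / 2 ^ l}

/-- The values of the range rule. -/
def zv (v : ℕ) : ℕ → ℕ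
  | 0 => v
  | r + 1 => 32 * zv v r + 110

theorem zv_le (v r : ℕ) : zv v r + 2 ≤ 64 ^ r * (v + 2) := by
  induction r with
  | zero => simp [zv]
  | succ r ih =>
    rw [zv, pow_succ', mul_assoc]
    omega

variable {d : Run} {c t0 N : ℕ} {j : ℤ → ℕ}

theorem sysD (hS : S_STATIC) (hd : d.OK) (hj : Monotone j) (hN : ∀ y, j y < N) (Lv : ℕ) :
    d.Sys (c * ((Lv + 1) * N)) fun i Q => t0 ≤ i → ∀ e ≤ Lv, ∀ (B v : ℕ) (Y : Set ℤ),
      (∀ t, t0 ≤ t → t ≤ i → j (d.x t) / 2 ^ e ≠ B) → (∀ y ∈ Y, j y / 2 ^ e = B) → d.Rgt i Y →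
      d.GoodF c i Q v Y j → d.Good c i Q (2 * v + 4) Y := by
  refine (Sys.all (range (Lv + 1) ×ˢ range N) _ _ fun p _ =>
    hS ℕ d c t0 {y | j y / 2 ^ p.1 = p.2} j hd
      ⟨fun a ha b hb y hy => (sand (hj hy.1) (hj hy.2) (ha.trans hb.symm)).trans ha⟩
      fun a _ e _ b h h1 h2 => (h ▸ hj h2 :).antisymm (hj h1)).mono ?_ ?_
  · rw [← mul_sum, sum_product]
    refine Nat.mul_le_mul_left _ ((sum_le_card_nsmul _ _ N fun e _ => ?_).trans (by simp))
    have h := card_eq_sum_card_fiberwise (s := range N) (t := range N) (f := fun a => a / 2 ^ e)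
      fun a ha => mem_range.2 ((Nat.div_le_self _ _).trans_lt (mem_range.1 ha))
    rw [card_range] at h
    refine le_trans (sum_le_sum fun B _ => card_le_card fun a ha => ?_) h.ge
    simp only [mem_image, mem_filter, mem_range] at ha ⊢
    obtain ⟨y, hy, rfl⟩ := ha
    exact ⟨hN y, hy.2⟩
  · intro i _ Q h hi e he B v Y h1 h2 h3 h4
    by_cases hB : B < N
    · exact h (e, B) (mem_product.2 ⟨mem_range.2 (by omega), mem_range.2 hB⟩) v Y hi h1 h2 h3 h4
    · exact good_of_empty fun u _ _ h5 _ =>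
        hB (h2 _ h5 ▸ (Nat.div_le_self _ _).trans_lt (hN _))

theorem sysS (hS : S_STATIC) (hd : d.OK) (hj : Monotone j) (Lv : ℕ) (s : Bool) :
    d.Sys (c * ((Lv + 1) ^ 2 * N)) fun i Q => t0 ≤ i → ∀ a < N, ∀ l ≤ Lv, ∀ (v : ℕ) (Y : Set ℤ),
      (∀ t, t0 ≤ t → t ≤ i → d.x t ∉ G j s a l) → Y ⊆ G j s a l → d.Rgt i Y →
      d.GoodF c i Q v Y (fun y => lv a (j y)) → d.Good c i Q (2 * v + 4) Y := by
  refine (Sys.all (range N ×ˢ range (Lv + 1)) _ _ fun p _ =>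
    hS ℕ d c t0 (G j s p.1 p.2) (fun y => lv p.1 (j y)) hd ⟨fun a ha b hb y hy =>
      ⟨?_, (sand (hj hy.1) (hj hy.2) (ha.2.trans hb.2.symm)).trans ha.2⟩⟩
      fun a ha e he b h h1 h2 => le_antisymm (lv_le ((sand (hj h1) (hj h2)
        ((lv_spec _ _).trans (by rw [show lv p.1 (j a) = lv p.1 (j e) from h, lv_spec]))).trans (lv_spec _ _))) ?_).mono ?_ ?_
  · cases s
    · exact (hj hy.2).trans hb.1
    · exact le_trans ha.1 (hj hy.1)
  · cases s
    · exact h ▸ lv_le ((sand (hj h2) he.1 (lv_spec _ _)).trans (lv_spec _ _))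
    · exact lv_le (sand ha.1 (hj h1) (lv_spec _ _).symm)
  · rw [← mul_sum]
    refine Nat.mul_le_mul_left _ ((sum_le_card_nsmul _ _ (Lv + 1) fun p hp => ?_).trans
      (le_of_eq (by simp; ring)))
    refine (card_le_card (t := range (Lv + 1)) fun a ha => ?_).trans (card_range _).le
    simp only [mem_image, mem_filter, mem_range] at ha ⊢
    obtain ⟨y, hy, rfl⟩ := ha
    exact (lv_le hy.2.2).trans_lt (mem_range.1 (mem_product.1 hp).2)
  · intro i _ Q h hi a ha l hl v Y h1 h2 h3 h4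
    exact h (a, l) (mem_product.2 ⟨mem_range.2 ha, mem_range.2 (by omega)⟩) v Y hi h1 h2 h3 h4

theorem sysC (hS : S_STATIC) (hP : S_SPLIT) (hd : d.OK) (hj : Monotone j) (hN : ∀ y, j y < N)
    (Lv : ℕ) : d.Sys (c * (3 * (Lv + 1) ^ 2 * N)) fun i Q => t0 ≤ i → ∀ (v : ℕ) (Y : Set ℤ),
      d.Rgt i Y → (∀ a ∈ Y, ∀ b ∈ Y, j a / 2 ^ Lv = j b / 2 ^ Lv) →
      (∀ t, t0 ≤ t → t ≤ i → ∀ a ∈ Y, ∀ b ∈ Y, ¬ (j a ≤ j (d.x t) ∧ j (d.x t) ≤ j b)) →
      d.GoodF c i Q v Y j → d.Good c i Q (8 * v + 26) Y := by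
  refine (((sysD (c := c) (t0 := t0) hS hd hj hN Lv).and (sysS (c := c) (t0 := t0) (N := N) hS hd
    hj Lv true)).and (sysS (c := c) (t0 := t0) (N := N) hS hd hj Lv false)).mono ?_ ?_
  · rw [← mul_add, ← mul_add]
    exact Nat.mul_le_mul_left _ (by nlinarith [Nat.zero_le (Lv * Lv * N), Nat.zero_le (Lv * N)])
  rintro i hi Q ⟨⟨hD, h1⟩, h0⟩ ht v Y hY hb hf hg
  have side : ∀ (s : Bool) (a l : ℕ) (Z : Set ℤ), a < N → l ≤ Lv → Z ⊆ Y → Z.OrdConnected →
      (∀ t, t0 ≤ t → t ≤ i → d.x t ∉ G j s a l) → Z ⊆ G j s a l →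
      d.Good c i Q (4 * v + 12) Z := fun s a l Z ha hl hZ hc hx hG => by
    have h2 : d.GoodF c i Q (2 * v + 4) Z fun y => lv a (j y) := fun W hW hW' hk => by
      rcases W.eq_empty_or_nonempty with rfl | ⟨y, hy⟩
      · exact good_of_empty fun _ _ _ h _ => h
      have h3 : ∀ z ∈ W, j z / 2 ^ lv a (j y) = a / 2 ^ lv a (j y) := fun z hz =>
        (show lv a (j z) = lv a (j y) from hk z hz y hy) ▸ lv_spec a (j z)
      have h4 := lv_le (hG (hW hy)).2
      rcases h5 : lv a (j y) with _ | e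
      · refine (hg W (hW.trans hZ) hW' fun z hz z' hz' => ?_).mono (by omega)
        simpa [h5] using (h3 z hz).trans (h3 z' hz').symm
      have h6 : ∀ z ∈ W, j z / 2 ^ e ≠ a / 2 ^ e := fun z hz h => by
        have := lv_le h
        rw [show lv a (j z) = lv a (j y) from hk z hz y hy] at this
        omega
      rw [h5] at h3
      refine hD ht e (by omega) (j y / 2 ^ e) v W (fun t h7 h8 h9 => hx t h7 h8
        ⟨?_, (up (by omega) h9).trans (hG (hW hy)).2⟩) (fun z hz => ?_)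
        (hY.sub (hW.trans hZ) hW') (hg.mono (hW.trans hZ) le_rfl)
      · have h10 := (hG (hW hy)).1
        have h11 := h6 y hy
        cases s
        · exact le_of_not_gt fun h => h11 (le_antisymm (Nat.div_le_div_right h10)
            (h9 ▸ Nat.div_le_div_right h.le))
        · exact le_of_not_gt fun h => h11 (le_antisymm (h9 ▸ Nat.div_le_div_right h.le)
            (Nat.div_le_div_right h10))
      · have := h3 z hz
        have := h3 y hy
        have := h6 z hz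
        have := h6 y hy
        simp only [half] at *
        omega
    cases s
    · exact (h0 ht a ha l hl _ Z hx hG (hY.sub hZ hc) h2).mono (by omega)
    · exact (h1 ht a ha l hl _ Z hx hG (hY.sub hZ hc) h2).mono (by omega)
  rcases Y.eq_empty_or_nonempty with rfl | hne
  · exact good_of_empty fun _ _ _ h _ => h
  have hfin : (j '' Y).Finite := (Set.finite_Iio N).subset fun _ ⟨y, _, e⟩ => e ▸ hN y
  obtain ⟨_, ⟨a, ha, rfl⟩, hmin⟩ := Set.exists_min_image _ id hfin (hne.image j)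
  obtain ⟨_, ⟨b, hb', rfl⟩, hmax⟩ := Set.exists_max_image _ id hfin (hne.image j)
  have h2 : ∀ y ∈ Y, j a ≤ j y ∧ j y ≤ j b := fun y hy =>
    ⟨hmin _ ⟨y, hy, rfl⟩, hmax _ ⟨y, hy, rfl⟩⟩
  have h3 := lv_spec (j a) (j b)
  have h4 := lv_le (hb b hb' a ha)
  rcases h5 : lv (j a) (j b) with _ | l
  · refine (hg Y subset_rfl hY.1 fun y hy z hz => ?_).mono (by omega)
    have := h2 y hy
    have := h2 z hz
    simp only [h5, pow_zero, Nat.div_one] at h3
    omega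
  have h6 : j b / 2 ^ l ≠ j a / 2 ^ l := fun h => by
    have := lv_le h
    omega
  have h7 : j a / 2 ^ l ≤ j b / 2 ^ l := Nat.div_le_div_right (h2 a ha).2
  rw [h5, half, half] at h3
  have hc : ∀ B, (Y ∩ {y | j y / 2 ^ l = B}).OrdConnected := fun B => hY.1.inter
    ⟨fun a ha b hb y hy => (sand (hj hy.1) (hj hy.2) (ha.trans hb.symm)).trans ha⟩
  refine (hP d c i _ Q Y _ _ hd hi hY.1 (Set.ext fun y => ⟨fun hy => ?_, fun hy => ?_⟩) ?_
    (side true (j a) l _ (hN a) (by omega) Set.inter_subset_left (hc _) ?_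
      fun y hy => ⟨(h2 y hy.1).1, hy.2⟩)
    (side false (j b) l _ (hN b) (by omega) Set.inter_subset_left (hc _) ?_
      fun y hy => ⟨(h2 y hy.1).2, hy.2⟩)).mono (by omega)
  · have h8 : j a / 2 ^ l ≤ j y / 2 ^ l := Nat.div_le_div_right (h2 y hy).1
    have h9 : j y / 2 ^ l ≤ j b / 2 ^ l := Nat.div_le_div_right (h2 y hy).2
    by_cases h : j y / 2 ^ l = j a / 2 ^ l
    · exact .inl ⟨hy, h⟩
    · exact .inr ⟨hy, show j y / 2 ^ l = _ by omega⟩
  · exact hy.elim (·.1) (·.1)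
  · refine fun y hy z hz => lt_of_not_ge fun h => h6 (h7.antisymm' ?_)
    exact hy.2 ▸ hz.2 ▸ Nat.div_le_div_right (hj h)
  · refine fun t h8 h9 h => hf t h8 h9 a ha b hb' ⟨h.1, le_of_not_gt fun h' => h6 (h7.antisymm' ?_)⟩
    exact h.2 ▸ Nat.div_le_div_right h'.le
  · refine fun t h8 h9 h => hf t h8 h9 a ha b hb' ⟨le_of_not_gt fun h' => h6 (h7.antisymm' ?_), h.1⟩
    exact h.2 ▸ Nat.div_le_div_right h'.le

theorem split3 (hP : S_SPLIT) (hd : d.OK) (hj : Monotone j) {i v : ℕ} (hi : i < d.m)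
    {Q : Finset ℤ} {Y : Set ℤ} (hY : Y.OrdConnected) (h1 : d.GoodF c i Q v Y j)
    (h2 : ∀ Z ⊆ Y, Z.OrdConnected → (∀ z ∈ Z, (∃ a ∈ Y, j a < j z) ∧ ∃ b ∈ Y, j z < j b) →
      d.Good c i Q v Z) : d.Good c i Q (4 * v + 6) Y := by
  have c1 : ∀ p : ℕ → Prop, (∀ a b, a ≤ b → p a → p b) → {y | p (j y)}.OrdConnected ∧
      {y | ¬ p (j y)}.OrdConnected := fun p hp =>
    ⟨⟨fun a ha _ _ y hy => hp _ _ (hj hy.1) ha⟩, ⟨fun _ _ b hb y hy h => hb (hp _ _ (hj hy.2) h)⟩⟩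
  have c2 := c1 (fun n => ∃ a ∈ Y, j a < n) fun _ _ h ⟨a, ha, h'⟩ => ⟨a, ha, h'.trans_le h⟩
  have c3 := c1 (fun n => ¬ ∃ b ∈ Y, n < j b) fun _ _ h h1 ⟨a, ha, h'⟩ => h1 ⟨a, ha, h.trans_lt h'⟩
  have g1 := h1 _ Set.inter_subset_left (hY.inter c2.2) fun a ha b hb =>
    le_antisymm (le_of_not_gt fun h => ha.2 ⟨b, hb.1, h⟩) (le_of_not_gt fun h => hb.2 ⟨a, ha.1, h⟩)
  have g2 := h2 _ (Set.inter_subset_left.trans Set.inter_subset_left)
    ((hY.inter c2.1).inter c3.2) fun z hz => ⟨hz.1.2, not_not.1 hz.2⟩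
  have g3 := h1 _ (Set.inter_subset_left.trans Set.inter_subset_left)
    ((hY.inter c2.1).inter c3.1) fun a ha b hb => le_antisymm
      (le_of_not_gt fun h => hb.2 ⟨a, ha.1.1, h⟩) (le_of_not_gt fun h => ha.2 ⟨b, hb.1.1, h⟩)
  have g4 := hP d c i v Q _ _ _ hd hi (hY.inter c2.1) (by
    rw [← Set.inter_union_distrib_left]
    exact (Set.inter_eq_left.2 fun y _ => (em _).symm).symm) (fun a ha b hb =>
      lt_of_not_ge fun h => ha.2 fun ⟨y, hy, h'⟩ => hb.2 ⟨y, hy, (hj h).trans_lt h'⟩) g2 g3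
  refine (hP d c i _ Q Y _ _ hd hi hY (by
    rw [← Set.inter_union_distrib_left]
    exact (Set.inter_eq_left.2 fun y _ => (em _).symm).symm) (fun a ha b hb =>
      lt_of_not_ge fun h => ha.2 ?_) (g1.mono (by omega)) g4).mono (by omega)
  obtain ⟨y, hy, h'⟩ := hb.2
  exact ⟨y, hy, h'.trans_le (hj h)⟩

theorem sysR (hS : S_STATIC) (hP : S_SPLIT) (hd : d.OK) (hj : Monotone j) (hN : ∀ y, j y < N)
    (k : ℕ) : d.Sys (24 * k * c * N) fun i Q => t0 ≤ i → ∀ (v : ℕ) (Y : Set ℤ), d.Rgt i Y →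
      (∀ t, t0 ≤ t → t ≤ i → d.x t ∉ Y) → (∀ a ∈ Y, ∀ b ∈ Y, j a / 2 ^ ee k = j b / 2 ^ ee k) →
      d.GoodF c i Q v Y j → d.Good c i Q (zv v k) Y := by
  induction k with
  | zero =>
    refine (Sys.triv fun i _ Q _ v Y hY _ h1 h2 => h2 Y subset_rfl hY.1 ?_).mono (Nat.zero_le _)
      fun _ _ _ h => h
    simpa [ee] using h1
  | succ k ih =>
    by_cases h : N ≤ 2 ^ ee k
    · refine ih.mono (by gcongr; omega) fun i _ Q h1 ht v Y hY h2 _ h3 =>
        (h1 ht v Y hY h2 (fun a _ b _ => ?_) h3).mono (by rw [zv]; omega)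
      rw [Nat.div_eq_of_lt ((hN a).trans_le h), Nat.div_eq_of_lt ((hN b).trans_le h)]
    have hj' : Monotone fun y => j y / 2 ^ ee k := fun a b h => Nat.div_le_div_right (hj h)
    refine (ih.and (sysC (c := c) (t0 := t0) (N := N / 2 ^ ee k + 1) hS hP hd hj'
      (fun y => Nat.lt_succ_of_le (Nat.div_le_div_right (hN y).le)) (2 ^ (ee k / 2)))).mono ?_ ?_
    · have h1 : (2 ^ (ee k / 2) + 1) ^ 2 ≤ 4 * 2 ^ ee k :=
        calc _ ≤ (2 * 2 ^ (ee k / 2)) ^ 2 :=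
            Nat.pow_le_pow_left (by have := Nat.one_le_two_pow (n := ee k / 2); omega) 2
          _ = 4 * 2 ^ (ee k / 2 * 2) := by rw [mul_pow, ← pow_mul]; rfl
          _ ≤ _ := Nat.mul_le_mul_left _ (Nat.pow_le_pow_right two_pos (Nat.div_mul_le_self _ _))
      have h2 := Nat.mul_div_le N (2 ^ ee k)
      have h3 : 3 * (2 ^ (ee k / 2) + 1) ^ 2 * (N / 2 ^ ee k + 1) ≤ 24 * N :=
        calc _ ≤ 3 * (4 * 2 ^ ee k) * (N / 2 ^ ee k + 1) := by gcongr
          _ ≤ _ := by nlinarith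
      have := Nat.mul_le_mul_left c h3
      linarith
    · rintro i hi Q ⟨h1, h2⟩ ht v Y hY h3 h4 h5
      have h6 : d.GoodF c i Q (zv v k) Y fun y => j y / 2 ^ ee k := fun Z hZ hc hk =>
        h1 ht v Z (hY.sub hZ hc) (fun t a b e => h3 t a b (hZ e)) hk (h5.mono hZ le_rfl)
      refine (split3 (v := 8 * zv v k + 26) hP hd hj' hi hY.1 (h6.mono subset_rfl (by omega))
        fun Z hZ hc h7 => h2 ht _ Z (hY.sub hZ hc) (fun a ha b hb => ?_)
          (fun t h8 h9 a ha b hb h10 => h3 t h8 h9 ?_) (h6.mono hZ le_rfl)).mono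
        (by rw [zv]; omega)
      · simpa only [ee, pow_add, Nat.div_div_eq_div_mul] using h4 a (hZ ha) b (hZ hb)
      · obtain ⟨a', ha', h11⟩ := (h7 a ha).1
        obtain ⟨b', hb', h12⟩ := (h7 b hb).2
        exact hY.1.out ha' hb' ⟨(hj'.reflect_lt (h11.trans_le h10.1)).le,
          (hj'.reflect_lt (h10.2.trans_lt h12)).le⟩

theorem clip (Cut : Finset ℤ) {L R a : ℤ} (h1 : L ≤ a) (h2 : a ≤ R) :
    cls Cut a = cls (Cut ∩ Ioc L R) a + (Cut.filter fun z => z ≤ L).card := by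
  rw [cls, cls, ← card_union_of_disjoint (disjoint_left.2 fun z hz hz' => by
    simp only [mem_filter, mem_inter, mem_Ioc] at hz hz'
    omega)]
  congr 1
  ext z
  simp only [mem_filter, mem_inter, mem_Ioc, mem_union]
  by_cases hz : z ∈ Cut <;> simp only [hz, true_and, false_and, or_self]
  omega

end RANGEc

open RANGEc Run in
theorem p_RANGE (hSTATIC : S_STATIC) (hSPLIT : S_SPLIT) :
    S_RANGE := by
  intro d c k t0 Cut hd hn
  have h1 : ∀ y, cls (Cut ∩ Ioc d.L d.R) y ≤ (Cut ∩ Ioc d.L d.R).card := fun y =>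
    card_filter_le _ _
  have h2 : ∀ y, cls (Cut ∩ Ioc d.L d.R) y < 2 ^ ee k := fun y =>
    ((h1 y).trans ((card_le_card inter_subset_right).trans (Int.card_Ioc _ _).le)).trans_lt hn
  refine (sysR (c := c) (t0 := t0) (j := cls (Cut ∩ Ioc d.L d.R)) hSTATIC hSPLIT hd
    (fun a b h => card_le_card (monotone_filter_right _ fun z _ hz => le_trans hz h))
    (fun y => Nat.lt_succ_of_le ((h1 y).trans (card_le_card inter_subset_left))) k).mono le_rfl
    fun i hi Q h v Y ht hY hx hg => ?_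
  have h3 := h ht v (Y ∩ Set.Iic d.R) (hY.sub Set.inter_subset_left
    (hY.1.inter Set.ordConnected_Iic)) (fun t a b e => hx t a b e.1)
    (fun a _ b _ => by rw [Nat.div_eq_of_lt (h2 a), Nat.div_eq_of_lt (h2 b)])
    fun Z hZ hc hk => hg Z (hZ.trans Set.inter_subset_left) hc fun a ha b hb => by
      have h4 : ∀ y ∈ Z, d.L ≤ y := fun y hy =>
        ((hd.step i hi).mem.1.trans (hY.2 y (hZ hy).1)).le
      rw [clip Cut (h4 a ha) (hZ ha).2, clip Cut (h4 b hb) (hZ hb).2, hk a ha b hb]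
  refine le_trans (Nat.mul_le_mul_left _ (card_le_card fun u hu => ?_)) (le_trans h3
    (Nat.mul_le_mul ?_ (Nat.add_le_add_left (card_le_card fun z hz => ?_) _)))
  · obtain ⟨a, b, e, f⟩ := mem_unp.1 hu
    obtain ⟨-, g1, g2, g3, -⟩ := link hd hi a
    exact mem_unp.2 ⟨a, b, ⟨e, ((g1.trans g2).le.trans g3 :)⟩, f, g3⟩
  · have := zv_le v k
    rw [pow_succ', mul_assoc]
    omega
  · simp only [mem_filter] at hz ⊢
    exact ⟨hz.1, hz.2.1⟩

end Pool.Agent.P.MP_119182_lc.NU
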