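import Pool.Agent.P.MP_119182_lc.NU.SIface

/-! Step RW. -/

set_option autoImplicit false

namespace Pool.Agent.P.MP_119182_lc.NU

open Finset
open scoped Classical

namespace RWc

end RWc

theorem p_RW (hRANGE : S_RANGE) :
    S_RW := by
  intro d c k t0 t1 om Cut h hk hm
  rw [mul_sum]
  refine (Run.Sys.all _ _ (fun W => RangeRule d c k (sInf {t | W ≤ om t}) (Cut W))
    fun W _ => hRANGE d c k _ (Cut W) h hk).mono le_rfl ?_
  intro i _ Q hQ W v Y hW hi hY hx hG
  exact hQ W hW v Y (Nat.sInf_le hi) hY (fun t h1 h2 => hx t h2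
    ((Nat.sInf_mem (s := {t | W ≤ om t}) ⟨i, hi⟩).trans (hm h1))) hG

end Pool.Agent.P.MP_119182_lc.NU
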