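import Pool.Agent.P.MP_119182_lc.NU.SIface

/-! Step SPLIT. -/

set_option autoImplicit false

namespace Pool.Agent.P.MP_119182_lc.NU

open Finset
open scoped Classical

namespace SPLITc

end SPLITc

theorem p_SPLIT :
    S_SPLIT := by
  intro d c i v Q Y Y1 Y2 h hi hY hU hlt g1 g2
  have hA : ((d.U i).filter fun u => u ∈ Y1 ∧ d.rp i u ∈ Y2).card ≤ 1 := by
    refine card_le_one.2 fun a ha b hb => ?_
    obtain ⟨a1, a2, a3⟩ := mem_filter.1 ha
    obtain ⟨b1, b2, b3⟩ := mem_filter.1 hb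
    have pa := (Run.mem_U.1 a1).1
    have pb := (Run.mem_U.1 b1).1
    rcases lt_trichotomy a b with e | e | e
    · exact absurd (Run.P_gap h hi pa pb e) (not_le.2 (hlt _ b2 _ a3))
    · exact e
    · exact absurd (Run.P_gap h hi pb pa e) (not_le.2 (hlt _ a2 _ b3))
  have hB : ((d.U i).filter fun u => d.lp (i + 1) u ∈ Y1 ∧ u ∈ Y2).card ≤ 1 := by
    refine card_le_one.2 fun a ha b hb => ?_
    obtain ⟨a1, a2, a3⟩ := mem_filter.1 ha
    obtain ⟨b1, b2, b3⟩ := mem_filter.1 hb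
    obtain ⟨c1, -, -, -, c2, -⟩ := Run.link h hi a1
    obtain ⟨e1, -, -, -, e2, -⟩ := Run.link h hi b1
    have x1 := Run.P_gap h hi c1 (Run.mem_U.1 b1).1 (hlt _ a2 _ b3)
    have x2 := Run.P_gap h hi e1 (Run.mem_U.1 a1).1 (hlt _ b2 _ a3)
    omega
  have hsub : d.unp i Q Y ⊆ (d.unp i Q Y1 ∪ d.unp i Q Y2) ∪
      (((d.U i).filter fun u => u ∈ Y1 ∧ d.rp i u ∈ Y2) ∪
        (d.U i).filter fun u => d.lp (i + 1) u ∈ Y1 ∧ u ∈ Y2) := by
    intro u hu
    have hm := Run.unp_mem h hi hY hu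
    obtain ⟨h1, h2, h3, h4⟩ := Run.mem_unp.1 hu
    obtain ⟨-, k1, k2, -⟩ := Run.link h hi h1
    rw [hU] at hm h3 h4
    simp only [mem_union, mem_filter, Run.mem_unp]
    rcases h3 with h3 | h3 <;> rcases h4 with h4 | h4
    · exact Or.inl (Or.inl ⟨h1, h2, h3, h4⟩)
    · rcases hm with hm | hm
      · exact Or.inr (Or.inl ⟨h1, hm, h4⟩)
      · exact Or.inr (Or.inr ⟨h1, h3, hm⟩)
    · have := hlt _ h4 _ h3
      omega
    · exact Or.inl (Or.inr ⟨h1, h2, h3, h4⟩)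
  have hc : (d.unp i Q Y).card ≤ (d.unp i Q Y1).card + (d.unp i Q Y2).card + 2 := by
    have e1 := (card_le_card hsub).trans (card_union_le _ _)
    have e2 := card_union_le (d.unp i Q Y1) (d.unp i Q Y2)
    have e3 := card_union_le ((d.U i).filter fun u => u ∈ Y1 ∧ d.rp i u ∈ Y2)
      ((d.U i).filter fun u => d.lp (i + 1) u ∈ Y1 ∧ u ∈ Y2)
    omega
  have n1 : ((d.P i).filter fun z => z ∈ Y1).card ≤ ((d.P i).filter fun z => z ∈ Y).card :=
    card_le_card fun z hz =>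
      mem_filter.2 ⟨(mem_filter.1 hz).1, hU ▸ Or.inl (mem_filter.1 hz).2⟩
  have n2 : ((d.P i).filter fun z => z ∈ Y2).card ≤ ((d.P i).filter fun z => z ∈ Y).card :=
    card_le_card fun z hz =>
      mem_filter.2 ⟨(mem_filter.1 hz).1, hU ▸ Or.inr (mem_filter.1 hz).2⟩
  unfold Run.Good at g1 g2 ⊢
  have m0 := Nat.mul_le_mul_left c hc
  have m1 := Nat.mul_le_mul_left v n1
  have m2 := Nat.mul_le_mul_left v n2
  nlinarith [Nat.zero_le ((d.P i).filter fun z => z ∈ Y).card]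

end Pool.Agent.P.MP_119182_lc.NU
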