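import Pool.Agent.P.MP_119182_lc.NU.SIface

/-! Step STATIC. -/

set_option autoImplicit false

namespace Pool.Agent.P.MP_119182_lc.NU

open Finset
open scoped Classical

theorem p_STATIC (hGAP : S_GAP) :
    S_STATIC := by
  intro α d c t0 G f hd hG hf
  have key := hGAP α d c
    (fun i a b => t0 ≤ i ∧ (∀ t, t0 ≤ t → t ≤ i → d.x t ∉ G) ∧ a ∈ G ∧ b ∈ G) (fun _ => f)
    (fun i => {_v | i = t0}) hd (fun i a b h => ⟨h.1, h.2.1, h.2.2.2, h.2.2.1⟩)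
    (fun i a b e h h' => ⟨h.1, h.2.1, h.2.2.1, h'.2.2.2⟩)
    (fun i a b e h h1 h2 => ⟨h.1, h.2.1, h.2.2.1, hG.out h.2.2.1 h.2.2.2 ⟨h1, h2⟩⟩)
    (fun i _ h => h.2.1 i h.1 le_rfl h.2.2.1)
    (fun i a b e h h1 h2 h3 => hf a h.2.2.1 e h.2.2.2 b h1 h2 h3)
    (fun i a b h h' _ => ⟨h.1, h.2.1, h.2.2.1, h'.2.2.1⟩)
    (fun v h => (Nat.le_zero.1 h.1).symm)
    (fun i _ v hv h => ⟨⟨by have h1 := h.1; have h2 : i + 1 ≠ t0 := hv; omega,
      fun t a b => h.2.1 t a (by omega), h.2.2⟩, fun u hu => ⟨h.1, h.2.1, hu.2.2⟩⟩)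
    (fun i _ u v _ _ _ _ h => h)
  refine key.mono (Nat.mul_le_mul_left _ ?_) fun i _ Q h v Y h1 h2 h3 h4 h5 =>
    h v Y h4 (fun a ha b hb => ⟨h1, h2, h3 ha, h3 hb⟩) h5
  refine (sum_le_sum (g := fun i => if i = t0 then
    ((d.keys.filter fun v => v ∈ G).image f).card else 0) fun i _ => ?_).trans ?_
  · split_ifs with h
    · refine card_le_card (image_subset_image fun v hv => ?_)
      simp only [mem_filter] at hv ⊢
      exact ⟨hv.1, hv.2.2.2.2.1⟩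
    · simp [h]
  · rw [sum_ite_eq']
    split_ifs <;> simp

end Pool.Agent.P.MP_119182_lc.NU
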