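import Pool.Agent.P.MP_119182_lc.NU.CIface
import Pool.Agent.P.MP_119182_lc.NU.LvW

/-! Step SYSD. -/

set_option autoImplicit false

namespace Pool.Agent.P.MP_119182_lc.NU

open Finset
open scoped Classical

namespace SYSDc

end SYSDc

theorem p_SYSD (hGAP : S_GAP) (hDY : S_DY) :
    S_SYSD := by
  refine ⟨964, fun C j c hC => ?_⟩
  rw [mul_assoc]
  exact Cx.sys_DyTh hGAP hDY hC le_rfl j c

end Pool.Agent.P.MP_119182_lc.NU
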