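import Pool.Agent.P.MP_119182_lc.NU.CIface
import Pool.Agent.P.MP_119182_lc.NU.LvW

/-! Step SYSL. -/

set_option autoImplicit false

namespace Pool.Agent.P.MP_119182_lc.NU

open Finset
open scoped Classical

namespace SYSLc

end SYSLc

theorem p_SYSL (hLEV : S_LEV) (hLZ : S_LZ) (hRW : S_RW) (hCUT : S_CUT) (hCNTG : S_CNTG) (hCNTW : S_CNTW) :
    S_SYSL := by
  have _ := hCUT
  refine ⟨1200, fun C j k c hC hk => ?_⟩
  rw [mul_assoc, mul_assoc, ← mul_assoc 1200]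
  exact Cx.sys_Lvl hLEV hLZ hRW hC le_rfl j k c hk (hCNTG C j hC) (hCNTW C j hC)

end Pool.Agent.P.MP_119182_lc.NU
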