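import Pool.Agent.P.MP_119182_lc.NU.CIface

/-! Step TOP. -/

set_option autoImplicit false

namespace Pool.Agent.P.MP_119182_lc.NU

open Finset
open scoped Classical

theorem p_TOP :
    S_TOP := by
  intro C j c K v rule F _ ⟨Pd, h1, h2⟩ hF hR
  have key : ∀ i ∈ range C.d.m, c * ((C.d.U i).filter fun u => F i u).card ≤
      c * (Pd i).card + v * (c + (C.d.P i).card) := by
    intro i hi
    rw [mem_range] at hi
    have hg := hR i hi (Pd i ∪ (C.d.U i).filter fun u => ¬ F i u) (h2 i hi _ subset_union_left)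
      (fun u hu hq => by
        by_contra h
        exact hq (mem_union_right _ (mem_filter.2 ⟨hu, h⟩)))
      {a | C.A (C.g j) i a ∧ a < C.d.R}
      ⟨⟨fun a ha b hb z hz => ⟨⟨ha.1.1.trans_le (it_mono _ hz.1), fun s hs hr h =>
        hb.1.2 s hs hr ⟨h.1, h.2.trans (it_mono _ hz.2)⟩⟩, hz.2.trans_lt hb.2⟩⟩,
        fun y hy => lt_of_not_ge fun h => absurd (it_mono _ h) (not_le.2 hy.1.1)⟩
      fun a ha => ha
    refine le_trans (Nat.mul_le_mul_left _ ((card_le_card fun u hu => ?_).trans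
      (card_union_le _ _))) ((mul_add _ _ _).trans_le (Nat.add_le_add_left (hg.trans
        (Nat.mul_le_mul_left _ (Nat.add_le_add_left (@card_filter_le _ _ _ (_)) _))) _))
    obtain ⟨u1, u2⟩ := mem_filter.1 hu
    by_cases h : u ∈ Pd i
    · exact mem_union_left _ h
    · obtain ⟨a1, a2, a3⟩ := hF i hi u u1 u2
      obtain ⟨b1, -⟩ := Run.link ‹C.OK›.run hi u1
      exact mem_union_right _ (Run.mem_unp.2 ⟨u1, fun e => (mem_union.1 e).elim h
        fun e => (mem_filter.1 e).2 u2, ⟨a1, (Run.mem_P.1 b1).2.1⟩, a2, a3⟩)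
  rw [mul_sum]
  refine (sum_le_sum key).trans ?_
  rw [sum_add_distrib, ← mul_sum, ← mul_sum, sum_add_distrib, sum_const, card_range, smul_eq_mul,
    mul_comm C.d.m]
  exact Nat.add_le_add_right (Nat.mul_le_mul_left _ h1) _

end Pool.Agent.P.MP_119182_lc.NU
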