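import Pool.Agent.P.MP_119182_lc.NU.CIface

/-! Step WCH. -/

set_option autoImplicit false

namespace Pool.Agent.P.MP_119182_lc.NU

open Finset
open scoped Classical

theorem p_WCH (hDYW : S_DYW) (hFAR : S_FAR) :
    S_WCH := by
  intro C j k c i Q hC hi hD hL hI hR t ht Y hY hW
  have hz : vI k (j + 2) ≤ 64 ^ (k + 1) * (vI k (j + 2) + 2) :=
    (Nat.le_add_right _ 2).trans (Nat.le_mul_of_pos_left _ (by positivity))
  have hz' : vI k (j + 1) ≤ vI k (j + 2) := by rw [vI.eq_2 k (j + 1)]; omega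
  refine (hDYW C t c i (6 * (64 ^ (k + 1) * (vI k (j + 2) + 2)) + 12) Q Y hC hi (hD.dyW t ht) hY hW
    fun Z hZ hZc e he h1 h2 => ?_).mono (by omega)
  have hw := (mem_w0 (x := C.d.x) (t := t)).2 ⟨hi, rfl⟩
  have hZr := hY.sub hZ hZc
  refine hL.lvW t ht e he _ Z hw.1 hw.2 ⟨hZr, h1, ?_, fun y hy =>
    .inl (h2 y hy i le_rfl (rct_refl _ _)).symm⟩ (fun Z' hZ' hc hs => ?_) fun W Z' hZ' hc hF =>
    hFAR C j k c i Q hC hi hL hR t ht e W Z' he (hZr.sub hZ' hc)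
      (fun a ha => (hW a (hZ (hZ' ha))).2) hF
  · rintro a ha b hb s hs ⟨h3, h4⟩
    obtain ⟨r, hr, h5, rfl⟩ := mem_Sep.1 hs
    exact h2 a ha r hr.le h5 (le_antisymm (div_pow_mono e h3)
      ((div_pow_mono e h4).trans (h1 b hb a ha).le))
  by_cases h : ∃ r ≤ i, rct C.d.x t r i ∧ ∃ a ∈ Z', it t a = it t (C.d.x r)
  · obtain ⟨r, hr, h3, a, ha, h4⟩ := h
    have h5 : ∀ b ∈ Z', it t b = it t (C.d.x r) := fun b hb =>
      hC.idx.own t _ r b (hr.trans hi.le) (win_mono t hr) h3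
        ((hs b hb a ha).trans (hC.idx.itm t _ _ _ h4))
    refine (hI t (mem_Ioc.1 ht).2 Z' (hZr.sub hZ' hc)
      (fun a ha b hb => (h5 a ha).trans (h5 b hb).symm) fun s hs h6 b hb h7 => ?_).mono
      (hz'.trans hz)
    have h8 := (hW b (hZ (hZ' hb))).1
    exact h8.2 s hs h6 ⟨h7 ▸ h8.1, h7.ge⟩
  · exact (hR t ht Z' (hZr.sub hZ' hc) (fun a ha => (hW a (hZ (hZ' ha))).2)
      fun r hr h3 a ha h4 => h ⟨r, hr, h3, a, ha, h4⟩).mono hz

end Pool.Agent.P.MP_119182_lc.NU
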