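import Pool.Agent.P.MP_119182_lc.NU.TALGA
import Pool.Agent.P.MP_119182_lc.NU.TBRG
import Pool.Agent.P.MP_119182_lc.NU.TBTW
import Pool.Agent.P.MP_119182_lc.NU.TCHMIR
import Pool.Agent.P.MP_119182_lc.NU.TCMIR
import Pool.Agent.P.MP_119182_lc.NU.TCNTG
import Pool.Agent.P.MP_119182_lc.NU.TCNTW
import Pool.Agent.P.MP_119182_lc.NU.TCRULE
import Pool.Agent.P.MP_119182_lc.NU.TCUT
import Pool.Agent.P.MP_119182_lc.NU.TDBL
import Pool.Agent.P.MP_119182_lc.NU.TDY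
import Pool.Agent.P.MP_119182_lc.NU.TDYG
import Pool.Agent.P.MP_119182_lc.NU.TDYW
import Pool.Agent.P.MP_119182_lc.NU.TEMIR
import Pool.Agent.P.MP_119182_lc.NU.TEVL
import Pool.Agent.P.MP_119182_lc.NU.TEVMIR
import Pool.Agent.P.MP_119182_lc.NU.TEVR
import Pool.Agent.P.MP_119182_lc.NU.TF1
import Pool.Agent.P.MP_119182_lc.NU.TF2
import Pool.Agent.P.MP_119182_lc.NU.TFAR
import Pool.Agent.P.MP_119182_lc.NU.TFIN
import Pool.Agent.P.MP_119182_lc.NU.TGAP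
import Pool.Agent.P.MP_119182_lc.NU.TGCH
import Pool.Agent.P.MP_119182_lc.NU.TITEM
import Pool.Agent.P.MP_119182_lc.NU.TJ
import Pool.Agent.P.MP_119182_lc.NU.TKL
import Pool.Agent.P.MP_119182_lc.NU.TKR
import Pool.Agent.P.MP_119182_lc.NU.TLAM
import Pool.Agent.P.MP_119182_lc.NU.TLEVEL
import Pool.Agent.P.MP_119182_lc.NU.TLINK
import Pool.Agent.P.MP_119182_lc.NU.TLOUD
import Pool.Agent.P.MP_119182_lc.NU.TLPA
import Pool.Agent.P.MP_119182_lc.NU.TLPB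
import Pool.Agent.P.MP_119182_lc.NU.TLRULE
import Pool.Agent.P.MP_119182_lc.NU.TLSPL
import Pool.Agent.P.MP_119182_lc.NU.TLSUM
import Pool.Agent.P.MP_119182_lc.NU.TLW
import Pool.Agent.P.MP_119182_lc.NU.TLZ
import Pool.Agent.P.MP_119182_lc.NU.TMIR
import Pool.Agent.P.MP_119182_lc.NU.TNEV
import Pool.Agent.P.MP_119182_lc.NU.TNS
import Pool.Agent.P.MP_119182_lc.NU.TOUT
import Pool.Agent.P.MP_119182_lc.NU.TPART
import Pool.Agent.P.MP_119182_lc.NU.TPOT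
import Pool.Agent.P.MP_119182_lc.NU.TQ1
import Pool.Agent.P.MP_119182_lc.NU.TRANGE
import Pool.Agent.P.MP_119182_lc.NU.TRW
import Pool.Agent.P.MP_119182_lc.NU.TSPLIT
import Pool.Agent.P.MP_119182_lc.NU.TSTATIC
import Pool.Agent.P.MP_119182_lc.NU.TSYSD
import Pool.Agent.P.MP_119182_lc.NU.TSYSL
import Pool.Agent.P.MP_119182_lc.NU.TTOP
import Pool.Agent.P.MP_119182_lc.NU.TTSPL
import Pool.Agent.P.MP_119182_lc.NU.TTURN
import Pool.Agent.P.MP_119182_lc.NU.TTYPE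
import Pool.Agent.P.MP_119182_lc.NU.TWCH
import Pool.Agent.P.MP_119182_lc.NU.TWCNT

/-! Assembly. -/

set_option autoImplicit false

namespace Pool.Agent.P.MP_119182_lc.NU

theorem a_MIR : S_MIR := p_MIR

theorem a_CMIR : S_CMIR := p_CMIR a_MIR

theorem a_F2 : S_F2 := p_F2

theorem a_POT : S_POT := p_POT

theorem a_F1 : S_F1 := p_F1

theorem a_PART : S_PART := p_PART a_F1

theorem a_GAP : S_GAP := p_GAP a_F2 a_POT a_PART

theorem a_DY : S_DY := p_DY a_GAP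

theorem a_SYSD : S_SYSD := p_SYSD a_GAP a_DY

theorem a_LPA : S_LPA := p_LPA

theorem a_EVR : S_EVR := p_EVR

theorem a_EVL : S_EVL := p_EVL

theorem a_J : S_J := p_J a_EVR a_EVL

theorem a_KR : S_KR := p_KR a_EVR a_EVL a_J

theorem a_KL : S_KL := p_KL a_EVR a_EVL a_J

theorem a_BTW : S_BTW := p_BTW a_J a_KR a_KL

theorem a_LPB : S_LPB := p_LPB a_J a_BTW

theorem a_LSUM : S_LSUM := p_LSUM

theorem a_LRULE : S_LRULE := p_LRULE a_F1 a_F2 a_PART a_J a_BTW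

theorem a_LEVEL : S_LEVEL := p_LEVEL a_POT a_LPA a_LPB a_LSUM a_LRULE

theorem a_STATIC : S_STATIC := p_STATIC a_GAP

theorem a_SPLIT : S_SPLIT := p_SPLIT

theorem a_RANGE : S_RANGE := p_RANGE a_STATIC a_SPLIT

theorem a_RW : S_RW := p_RW a_RANGE

theorem a_LZ : S_LZ := p_LZ a_LEVEL a_RW

theorem a_CUT : S_CUT := p_CUT

theorem a_CNTG : S_CNTG := p_CNTG a_EVR a_EVL

theorem a_EVMIR : S_EVMIR := p_EVMIR

theorem a_CHMIR : S_CHMIR := p_CHMIR a_EVMIR a_CMIR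

theorem a_CNTW : S_CNTW := p_CNTW a_EVR a_EVL a_CMIR a_CHMIR

theorem a_SYSL : S_SYSL := p_SYSL a_LEVEL a_LZ a_RW a_CUT a_CNTG a_CNTW

theorem a_OUT : S_OUT := p_OUT

theorem a_LSPL : S_LSPL := p_LSPL

theorem a_Q1 : S_Q1 := p_Q1 a_EVR

theorem a_NEV : S_NEV := p_NEV a_EVR a_EVL a_CMIR a_CHMIR a_Q1

theorem a_TYPE : S_TYPE := p_TYPE a_EVR

theorem a_DYG : S_DYG := p_DYG

theorem a_DYW : S_DYW := p_DYW

theorem a_TOP : S_TOP := p_TOP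

theorem a_LOUD : S_LOUD := p_LOUD a_TYPE a_DYG a_DYW a_TOP

theorem a_ITEM : S_ITEM := p_ITEM

theorem a_CRULE : S_CRULE := p_CRULE

theorem a_GCH : S_GCH := p_GCH a_DYG

theorem a_FAR : S_FAR := p_FAR

theorem a_WCH : S_WCH := p_WCH a_DYW a_FAR

theorem a_LAM : S_LAM := p_LAM a_TYPE a_ITEM a_CRULE a_GCH a_WCH a_TOP

theorem a_LINK : S_LINK := p_LINK a_CMIR a_SYSD a_SYSL a_OUT a_LSPL a_NEV a_LOUD a_LAM

theorem a_EMIR : S_EMIR := p_EMIR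

theorem a_ALGA : S_ALGA := p_ALGA a_EMIR

theorem a_BRG : S_BRG := p_BRG

theorem a_WCNT : S_WCNT := p_WCNT

theorem a_TSPL : S_TSPL := p_TSPL

theorem a_NS : S_NS := p_NS

theorem a_LW : S_LW := p_LW

theorem a_DBL : S_DBL := p_DBL a_LW

theorem a_TURN : S_TURN := p_TURN a_EMIR a_WCNT a_TSPL a_NS a_DBL

theorem q_FIN : S_FIN := p_FIN a_LINK a_ALGA a_BRG a_TURN

end Pool.Agent.P.MP_119182_lc.NU
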