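import Mathlib

/-! Abstract runs of a splay-like algorithm on integer keys, paying rules, level systems. -/

set_option autoImplicit false

namespace Pool.Agent.P.MP_119182_lc.NU

open Finset
open scoped Classical

/-- Left and right parents of a search tree on the integers strictly between `L` and `R`. -/
structure Tree (L R : ℤ) (lp rp : ℤ → ℤ) : Prop where
  bnd : ∀ v, L < v → v < R → L ≤ lp v ∧ lp v < v ∧ v < rp v ∧ rp v ≤ R
  lamL : ∀ y z, L < y → y < R → lp y < z → z < y → lp y ≤ lp z ∧ rp z ≤ y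
  lamR : ∀ y z, L < y → y < R → y < z → z < rp y → y ≤ lp z ∧ rp z ≤ rp y
  ancR : ∀ y, L < y → y < R → rp y < R → lp (rp y) ≤ lp y
  ancL : ∀ y, L < y → y < R → L < lp y → rp y ≤ rp (lp y)
  top : ∀ a b, L < a → a ≤ b → b < R → ∃ c, a ≤ c ∧ c ≤ b ∧ lp c < a ∧ b < rp c

/-- One access at `x`: parents `lp`, `rp` before and `lq`, `rq` after. -/
structure Step (L R x : ℤ) (lp rp lq rq : ℤ → ℤ) : Prop where
  mem : L < x ∧ x < R
  off : ∀ v, L < v → v < R → v ≠ x → ¬ (lp v < x ∧ x < rp v) → lq v = lp v ∧ rq v = rp v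
  root : lq x = L ∧ rq x = R
  losR : ∀ u, x < u → u < R → lp u < x → lq u ≠ x →
    x < lq u ∧ lq u < u ∧ lp (lq u) < x ∧ rp (lq u) = u ∧ rq u = rp u ∧ lq (lq u) = x
  lowR : ∀ v, x < v → v < R → lp v < x → rq v ≠ rp v →
    rp v < R ∧ lq (rp v) = v ∧ rq v = rp (rp v)
  losL : ∀ u, L < u → u < x → x < rp u → rq u ≠ x →
    rq u < x ∧ u < rq u ∧ x < rp (rq u) ∧ lp (rq u) = u ∧ lq u = lp u ∧ rq (rq u) = x
  lowL : ∀ v, L < v → v < x → x < rp v → lq v ≠ lp v →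
    L < lp v ∧ rq (lp v) = v ∧ lq v = lp (lp v)

/-- The data of a run: keys between `L` and `R`, accesses `x 0, …, x (m - 1)`, parents before
each access. -/
structure Run where
  L : ℤ
  R : ℤ
  m : ℕ
  x : ℕ → ℤ
  lp : ℕ → ℤ → ℤ
  rp : ℕ → ℤ → ℤ

/-- The reflection of the integers. -/
def mr (v : ℤ) : ℤ := -1 - v

namespace Run

variable (d : Run)

/-- The hypotheses on a run. -/
structure OK : Prop where
  tree : ∀ i ≤ d.m, Tree d.L d.R (d.lp i) (d.rp i)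
  step : ∀ i < d.m, Step d.L d.R (d.x i) (d.lp i) (d.rp i) (d.lp (i + 1)) (d.rp (i + 1))

/-- The mirror image of a run. -/
def mir : Run where
  L := mr d.R
  R := mr d.L
  m := d.m
  x := fun i => mr (d.x i)
  lp := fun i v => mr (d.rp i (mr v))
  rp := fun i v => mr (d.lp i (mr v))

/-- The keys. -/
noncomputable def keys : Finset ℤ := Ioo d.L d.R

/-- The ancestors of the key of access `i` that are larger than it. -/
noncomputable def P (i : ℕ) : Finset ℤ := (Ioo (d.x i) d.R).filter fun v => d.lp i v < d.x i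

/-- The upper nodes of the right links of access `i`. The link of `u` is
`(lp (i + 1) u, u, rp i u)`. -/
noncomputable def U (i : ℕ) : Finset ℤ := (d.P i).filter fun u => d.lp (i + 1) u ≠ d.x i

/-- The total size of the right paths. -/
noncomputable def NR : ℕ := ∑ i ∈ range d.m, (d.P i).card

/-- The number of right links. -/
noncomputable def LamR : ℕ := ∑ i ∈ range d.m, (d.U i).card

/-- The upper nodes outside `Q` whose link lies in `Y`. -/
noncomputable def unp (i : ℕ) (Q : Finset ℤ) (Y : Set ℤ) : Finset ℤ :=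
  (d.U i).filter fun u => u ∉ Q ∧ d.lp (i + 1) u ∈ Y ∧ d.rp i u ∈ Y

/-- Few unpaid links lie in `Y`. -/
def Good (c i : ℕ) (Q : Finset ℤ) (v : ℕ) (Y : Set ℤ) : Prop :=
  c * (d.unp i Q Y).card ≤ v * (c + ((d.P i).filter fun z => z ∈ Y).card)

/-- `Y` is an interval to the right of the key of access `i`. -/
def Rgt (i : ℕ) (Y : Set ℤ) : Prop := Y.OrdConnected ∧ ∀ y ∈ Y, d.x i < y

/-- Every interval inside `Y` on which `f` is constant is good. -/
def GoodF {α : Type} (c i : ℕ) (Q : Finset ℤ) (v : ℕ) (Y : Set ℤ) (f : ℤ → α) : Prop :=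
  ∀ Z ⊆ Y, Z.OrdConnected → (∀ a ∈ Z, ∀ b ∈ Z, f a = f b) → d.Good c i Q v Z

/-- A system: paid sets of total size at most `K` such that the rule holds for all larger sets. -/
def Sys (K : ℕ) (rule : ℕ → Finset ℤ → Prop) : Prop :=
  ∃ Pd : ℕ → Finset ℤ, ∑ i ∈ range d.m, (Pd i).card ≤ K ∧
    ∀ i < d.m, ∀ Q, Pd i ⊆ Q → rule i Q

end Run

/-- The class of a key for a finite set of cuts. -/
noncomputable def cls (Cut : Finset ℤ) (v : ℤ) : ℕ := (Cut.filter fun z => z ≤ v).card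

/-- The rule of a range system started at time `t0`. -/
def RangeRule (d : Run) (c k t0 : ℕ) (Cut : Finset ℤ) (i : ℕ) (Q : Finset ℤ) : Prop :=
  ∀ (v : ℕ) (Y : Set ℤ), t0 ≤ i → d.Rgt i Y → (∀ t, t0 ≤ t → t ≤ i → d.x t ∉ Y) →
    d.GoodF c i Q v Y (cls Cut) → d.Good c i Q (64 ^ (k + 1) * (v + 2)) Y

/-- The exponents of the range systems. -/
def ee : ℕ → ℕ
  | 0 => 0
  | r + 1 => ee r + 2 ^ (ee r / 2)

/-- The data of a level system. -/
structure Lev where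
  t0 : ℕ
  t1 : ℕ
  slot : ℤ → ℤ
  blk : ℤ → ℤ
  om : ℕ → ℕ
  Sep : ℕ → Finset ℤ

namespace Lev

variable (l : Lev) (d : Run)

/-- The hypotheses on a level system. -/
structure OK : Prop where
  le : l.t1 ≤ d.m
  slotm : Monotone l.slot
  blkm : Monotone l.blk
  sb : ∀ a b, l.slot a = l.slot b → l.blk a = l.blk b
  omm : Monotone l.om
  start : ∀ t, t < l.t0 → l.om t < l.om l.t0
  own : ∀ i, l.t0 ≤ i → i < l.t1 → l.slot (d.x i) ∈ l.Sep (i + 1)
  sub : ∀ i, l.t0 ≤ i → i < l.t1 → l.Sep (i + 1) ⊆ insert (l.slot (d.x i)) (l.Sep i)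
  keep : ∀ i, l.t0 ≤ i → i < l.t1 → l.om (i + 1) = l.om i → l.Sep i ⊆ l.Sep (i + 1)

/-- The pair `a ≤ b` is separated at time `i`. -/
def cross (i : ℕ) (a b : ℤ) : Prop :=
  l.blk a ≠ l.blk b ∨ ∃ s ∈ l.Sep i, l.slot a < s ∧ s < l.slot b

/-- The key `v` has a separated parent at time `i`. -/
def Inc (i : ℕ) (v : ℤ) : Prop :=
  d.L < v ∧ v < d.R ∧ l.slot v ∉ l.Sep i ∧ (l.cross i (d.lp i v) v ∨ l.cross i v (d.rp i v))

/-- The key `v` is pushed into the level by access `i`. -/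
def Ev (i : ℕ) (v : ℤ) : Prop :=
  l.t0 ≤ i ∧ i < l.t1 ∧ ¬ l.Inc d i v ∧ l.Inc d (i + 1) v ∧ l.slot v ∉ l.Sep i

/-- `Y` is solid at time `i`. -/
def Solid (i : ℕ) (Y : Set ℤ) : Prop :=
  d.Rgt i Y ∧ (∀ a ∈ Y, ∀ b ∈ Y, l.blk a = l.blk b) ∧
    (∀ a ∈ Y, ∀ b ∈ Y, ∀ s ∈ l.Sep i, ¬ (l.slot a ≤ s ∧ s ≤ l.slot b)) ∧
    ∀ y ∈ Y, l.cross i (d.x i) y

/-- `Z` is a far range of window `W` at time `i`. -/
def Far (i W : ℕ) (Z : Set ℤ) : Prop :=
  W ≤ l.om i ∧
    (∀ t ≤ i, W ≤ l.om t → ∀ a ∈ Z, ∀ b ∈ Z,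
      ¬ (l.slot a ≤ l.slot (d.x t) ∧ l.slot (d.x t) ≤ l.slot b)) ∧
    ∀ p ∈ d.P i, p ∈ Z → ∃ t < i, l.om t = W ∧ l.Ev d t p

/-- The rule of a level system. -/
def Rule (c i : ℕ) (Q : Finset ℤ) : Prop :=
  ∀ (v : ℕ) (Y : Set ℤ), l.t0 ≤ i → i < l.t1 → l.Solid d i Y → d.GoodF c i Q v Y l.slot →
    (∀ (W : ℕ) (Z : Set ℤ), Z ⊆ Y → Z.OrdConnected → l.Far d i W Z → d.Good c i Q v Z) →
    d.Good c i Q (6 * v + 12) Y

/-- The times whose slot is new in its window. -/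
noncomputable def fst : Finset ℕ :=
  (Ico l.t0 l.t1).filter fun i =>
    ∀ s, l.t0 ≤ s → s < i → l.om s = l.om i → l.slot (d.x s) ≠ l.slot (d.x i)

/-- The cost of a level system per unit of the cap. -/
noncomputable def cost : ℕ :=
  (d.keys.image l.slot).card + (l.Sep l.t0).card + 6 * (l.fst d).card

/-- The separating slots together with the slot of the current access. -/
noncomputable def Q (i : ℕ) : Finset ℤ := insert (l.slot (d.x i)) (l.Sep i)

/-- The times after `t0` at which the window changes. -/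
noncomputable def chg : Finset ℕ := (Ioo l.t0 l.t1).filter fun i => l.om i ≠ l.om (i - 1)

/-- The rule of the dyadic gap system with `D` levels (the field `blk` is not used). -/
def DyRule (D c i : ℕ) (Q : Finset ℤ) : Prop :=
  ∀ (v : ℕ) (Y : Set ℤ), l.t0 ≤ i → i < l.t1 → d.Rgt i Y →
    (∀ a ∈ Y, ∀ b ∈ Y, ∀ s ∈ l.Q d i, ¬ (l.slot a ≤ s ∧ s ≤ l.slot b)) →
    (∃ s ∈ l.Q d i, ∀ a ∈ Y, l.slot a / 2 ^ D = s / 2 ^ D) →
    (∀ Z ⊆ Y, Z.OrdConnected → ∀ e < D, (∀ a ∈ Z, ∀ b ∈ Z, l.slot a / 2 ^ e = l.slot b / 2 ^ e) →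
      (∀ a ∈ Z, ∀ s ∈ l.Q d i, l.slot a / 2 ^ e ≠ s / 2 ^ e) → d.Good c i Q v Z) →
    d.Good c i Q (2 * v + 4) Y

/-- The cost of the dyadic gap system per unit of the cap and per level. -/
noncomputable def dyCost : ℕ :=
  (l.Q d l.t0).card + ∑ i ∈ l.chg, (l.Q d i).card + (l.fst d).card

end Lev

end Pool.Agent.P.MP_119182_lc.NU
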