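import Pool.Agent.P.MP_119182_lc.NU.SIface
import Pool.Agent.P.MP_119182_lc.NU.Sec5
import Pool.Agent.P.MP_119182_lc.NU.Lv

/-! Statements on types of links, chains of rules and the counting of links. -/

set_option autoImplicit false

namespace Pool.Agent.P.MP_119182_lc.NU

open Finset
open scoped Classical

namespace Cx

variable (C : Cx)

/-- The measure of the run. -/
noncomputable def M : ℕ := MM C.d.x C.d.keys.card C.d.m C.T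

/-- `Y` lies in `A_k` and in an item of tier `k + 1` that holds a `k`-recent access. -/
def RegG (k i : ℕ) (Y : Set ℤ) : Prop :=
  (∀ a ∈ Y, C.A k i a) ∧
    ∃ r ≤ i, rct C.d.x k r i ∧ ∀ a ∈ Y, it (k + 1) a = it (k + 1) (C.d.x r)

/-- `Y` lies in `E_t` and outside `A_t`. -/
def RegW (t i : ℕ) (Y : Set ℤ) : Prop := ∀ a ∈ Y, C.E t i a ∧ ¬ C.A t i a

/-- The keys `p` and `w` lie in one dyadic block of slots, of level below `D`, that holds no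
`r`-recent access. -/
def Part (f : ℤ → ℤ) (D r i : ℕ) (p w : ℤ) : Prop :=
  ∃ e < D, f p / 2 ^ e = f w / 2 ^ e ∧
    ∀ s ≤ i, rct C.d.x r s i → f p / 2 ^ e ≠ f (C.d.x s) / 2 ^ e

/-- The item rule up to group `j`. -/
def Item (j k c i : ℕ) (Q : Finset ℤ) : Prop :=
  ∀ t ≤ C.g j, ∀ Y : Set ℤ, C.d.Rgt i Y → (∀ a ∈ Y, ∀ b ∈ Y, it t a = it t b) →
    (∀ r ≤ i, rct C.d.x (t - 1) r i → ∀ a ∈ Y, it t a ≠ it t (C.d.x r)) →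
    C.d.Good c i Q (vI k j) Y

/-- The rule for gaps between recent items in group `j`. -/
def CRule (j k c i : ℕ) (Q : Finset ℤ) : Prop :=
  ∀ t ∈ Ioc (C.g j) (C.g (j + 1)), ∀ Y : Set ℤ, C.d.Rgt i Y → (∀ a ∈ Y, ¬ C.A t i a) →
    (∀ r ≤ i, rct C.d.x t r i → ∀ a ∈ Y, it t a ≠ it t (C.d.x r)) →
    C.d.Good c i Q (vI k (j + 2)) Y

end Cx

-- deps: MIR
def S_CMIR : Prop :=
  ∀ C : Cx, C.mir.mir = C ∧ C.mir.M = C.M ∧ (C.OK → C.mir.OK)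

-- deps: EVMIR CMIR
def S_CHMIR : Prop :=
  ∀ C : Cx, (∀ h t i p, C.mir.chW h t i (mr p) ↔ C.chW h t i p) ∧
    ∀ j i p, C.mir.ch j i (mr p) ↔ C.ch j i p

-- deps: GAP DY
def S_SYSD : Prop :=
  ∃ K : ℕ, ∀ (C : Cx) (j c : ℕ), C.OK → C.d.Sys (c * K * C.M) (C.DyTh j c)

-- deps:
def S_CUT : Prop :=
  ∀ (C : Cx) (h t : ℕ), C.OK → 1 ≤ t → t ≤ h → h ≤ C.T →
    ∃ Cut : ℕ → Finset ℤ, (∀ W, C.CutOK h t W (Cut W)) ∧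
      ∑ W ∈ (Ico 0 C.d.m).image (om C.d.x C.T (t - 1)), (Cut W).card ≤
        (C.EvS (C.chW h t)).card +
          4 * (h - t + 1) * (fst C.d.x C.T (t - 1) (it (t - 1)) C.d.m).card

-- deps: EVR EVL
def S_CNTG : Prop :=
  ∀ (C : Cx) (j : ℕ), C.OK →
    ∑ k ∈ Ico (C.g j) (C.g (j + 1)), (C.EvS (C.chG k)).card ≤ C.NEv j

-- deps: EVR EVL CMIR CHMIR
def S_CNTW : Prop :=
  ∀ (C : Cx) (j : ℕ), C.OK →
    ∑ t ∈ Ioc (C.g j) (C.g (j + 1)), (C.EvS (C.chW (C.g (j + 1)) t)).card ≤ C.NEv j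

-- deps: LEV LZ RW CUT CNTG CNTW
def S_SYSL : Prop :=
  ∃ K : ℕ, ∀ (C : Cx) (j k c : ℕ), C.OK → (C.d.R - C.d.L).toNat < 2 ^ ee k →
    C.d.Sys (c * K * (k + 1) * (C.M + C.NEv j)) (C.Lvl j k c)

-- deps:
def S_OUT : Prop := ∀ C : Cx, C.OK → C.Out ≤ 2 * C.d.m

-- deps:
def S_LSPL : Prop :=
  ∀ (C : Cx) (G : ℕ), C.OK → C.g G = C.T → C.d.LamR ≤ C.Out + ∑ j ∈ range G, C.Lam j

-- deps: EVR
def S_Q1 : Prop :=
  ∀ (C : Cx) (j i : ℕ) (u : ℤ), C.OK → i < C.d.m → u ∈ C.d.U i → C.inA (C.g (j + 1)) i u →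
    ¬ C.ch j i (C.d.lp (i + 1) u)

-- deps: EVR EVL CMIR CHMIR Q1
def S_NEV : Prop :=
  ∀ (C : Cx) (j : ℕ), C.OK →
    C.NEv j ≤ (C.Out + C.Loud j + ∑ j' ∈ range j, C.Lam j') +
      (C.mir.Out + C.mir.Loud j + ∑ j' ∈ range j, C.mir.Lam j')

-- deps: EVR
def S_TYPE : Prop :=
  ∀ (C : Cx) (j i : ℕ) (Y : Set ℤ), C.OK → i < C.d.m → C.d.Rgt i Y →
    (∀ a ∈ Y, C.A (C.g j) i a) → (∀ a ∈ Y, ∀ b ∈ Y, C.sameZ j i a b) →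
    (∀ a ∈ Y, C.A (C.g (j + 1)) i a) ∨
    (∃ k ∈ Ico (C.g j) (C.g (j + 1)), C.RegG k i Y ∧
      ∀ u ∈ C.d.U i, C.d.lp (i + 1) u ∈ Y → C.d.rp i u ∈ Y →
        C.Part (it k) (sg (k + 1) - sg k) k i (C.d.lp (i + 1) u) (C.d.rp i u) →
        ¬ C.ch j i (C.d.lp (i + 1) u)) ∨
    (∃ t ∈ Ioc (C.g j) (C.g (j + 1)), C.RegW t i Y ∧
      ∀ u ∈ C.d.U i, C.d.lp (i + 1) u ∈ Y → C.d.rp i u ∈ Y →
        C.Part (C.ix t (win C.d.x t i)) (sg t + 4) (t - 1) i (C.d.lp (i + 1) u) (C.d.rp i u) →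
        ¬ C.ch j i (C.d.lp (i + 1) u))

-- deps:
def S_DYG : Prop :=
  ∀ (C : Cx) (k c i v : ℕ) (Q : Finset ℤ) (Y : Set ℤ), C.OK → i < C.d.m →
    (C.levG k 0).DyRule C.d (sg (k + 1) - sg k) c i Q → C.d.Rgt i Y → C.RegG k i Y →
    (∀ Z ⊆ Y, Z.OrdConnected → ∀ e < sg (k + 1) - sg k,
      (∀ a ∈ Z, ∀ b ∈ Z, it k a / 2 ^ e = it k b / 2 ^ e) →
      (∀ a ∈ Z, ∀ s ≤ i, rct C.d.x k s i → it k a / 2 ^ e ≠ it k (C.d.x s) / 2 ^ e) →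
      C.d.Good c i Q v Z) →
    C.d.Good c i Q (2 * v + 4) Y

-- deps:
def S_DYW : Prop :=
  ∀ (C : Cx) (t c i v : ℕ) (Q : Finset ℤ) (Y : Set ℤ), C.OK → i < C.d.m →
    (C.levW t (win C.d.x t i) 0).DyRule C.d (sg t + 4) c i Q → C.d.Rgt i Y → C.RegW t i Y →
    (∀ Z ⊆ Y, Z.OrdConnected → ∀ e < sg t + 4,
      (∀ a ∈ Z, ∀ b ∈ Z,
        C.ix t (win C.d.x t i) a / 2 ^ e = C.ix t (win C.d.x t i) b / 2 ^ e) →
      (∀ a ∈ Z, ∀ s ≤ i, rct C.d.x (t - 1) s i →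
        C.ix t (win C.d.x t i) a / 2 ^ e ≠ C.ix t (win C.d.x t i) (C.d.x s) / 2 ^ e) →
      C.d.Good c i Q v Z) →
    C.d.Good c i Q (2 * v + 4) Y

-- deps:
def S_ITEM : Prop :=
  ∀ (C : Cx) (j k c i : ℕ) (Q : Finset ℤ), C.OK → i < C.d.m →
    (∀ j' < j, C.Lvl j' k c i Q) → C.Item j k c i Q

-- deps:
def S_CRULE : Prop :=
  ∀ (C : Cx) (j k c i : ℕ) (Q : Finset ℤ), C.OK → i < C.d.m → C.Lvl j k c i Q →
    C.Item (j + 1) k c i Q → C.CRule j k c i Q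

-- deps: DYG
def S_GCH : Prop :=
  ∀ (C : Cx) (j k c i : ℕ) (Q : Finset ℤ), C.OK → i < C.d.m → C.DyTh j c i Q → C.Lvl j k c i Q →
    C.Item (j + 1) k c i Q → ∀ k' ∈ Ico (C.g j) (C.g (j + 1)), ∀ Y : Set ℤ, C.d.Rgt i Y →
    C.RegG k' i Y → C.d.Good c i Q (2 * vI k (j + 2) + 4) Y

-- deps:
def S_FAR : Prop :=
  ∀ (C : Cx) (j k c i : ℕ) (Q : Finset ℤ), C.OK → i < C.d.m → C.Lvl j k c i Q →
    C.CRule j k c i Q → ∀ t ∈ Ioc (C.g j) (C.g (j + 1)), ∀ (e W : ℕ) (Z : Set ℤ),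
    e < sg t + 4 → C.d.Rgt i Z → (∀ a ∈ Z, ¬ C.A t i a) →
    (C.levW t (win C.d.x t i) e).Far C.d i W Z →
    C.d.Good c i Q (64 ^ (k + 1) * (vI k (j + 2) + 2)) Z

-- deps: DYW FAR
def S_WCH : Prop :=
  ∀ (C : Cx) (j k c i : ℕ) (Q : Finset ℤ), C.OK → i < C.d.m → C.DyTh j c i Q → C.Lvl j k c i Q →
    C.Item (j + 1) k c i Q → C.CRule j k c i Q → ∀ t ∈ Ioc (C.g j) (C.g (j + 1)), ∀ Y : Set ℤ,
    C.d.Rgt i Y → C.RegW t i Y →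
    C.d.Good c i Q (12 * (64 ^ (k + 1) * (vI k (j + 2) + 2)) + 28) Y

-- deps:
def S_TOP : Prop :=
  ∀ (C : Cx) (j c K v : ℕ) (rule : ℕ → Finset ℤ → Prop) (F : ℕ → ℤ → Prop), C.OK →
    C.d.Sys K rule → (∀ i < C.d.m, ∀ u ∈ C.d.U i, F i u → C.inA (C.g j) i u) →
    (∀ i < C.d.m, ∀ Q, rule i Q → (∀ u ∈ C.d.U i, u ∉ Q → F i u) →
      ∀ Y : Set ℤ, C.d.Rgt i Y → (∀ a ∈ Y, C.A (C.g j) i a ∧ a < C.d.R) → C.d.Good c i Q v Y) →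
    c * ∑ i ∈ range C.d.m, ((C.d.U i).filter fun u => F i u).card ≤
      c * K + v * (c * C.d.m + C.d.NR)

-- deps: TYPE DYG DYW TOP
def S_LOUD : Prop :=
  ∀ (C : Cx) (j c K : ℕ), C.OK → C.d.Sys K (C.DyTh j c) →
    c * C.Loud j ≤ c * K + 12 * (c * C.d.m + C.d.NR)

-- deps: TYPE ITEM CRULE GCH WCH TOP
def S_LAM : Prop :=
  ∀ (C : Cx) (j k c K : ℕ), C.OK →
    C.d.Sys K (fun i Q => C.DyTh j c i Q ∧ ∀ j' ∈ range (j + 1), C.Lvl j' k c i Q) →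
    c * C.Lam j ≤ c * K + BB k j * (c * C.d.m + C.d.NR)

end Pool.Agent.P.MP_119182_lc.NU
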