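import Pool.Agent.P.MP_119182_lc.NU.SIface

/-! Labels and classes of a level system. -/

set_option autoImplicit false

namespace Pool.Agent.P.MP_119182_lc.NU

open Finset
open scoped Classical

namespace Lev

section
variable (l : Lev) (d : Run)

/-- The last time up to `i` at which `v` had no separated parent. -/
noncomputable def tau (i : ℕ) (v : ℤ) : ℕ := Nat.findGreatest (fun t => ¬ l.Inc d t v) i

/-- The key `v` was pushed into the level by an access. -/
def far (i : ℕ) (v : ℤ) : Prop :=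
  l.t0 ≤ l.tau d i v ∧ ¬ l.Inc d (l.tau d i v) v ∧ l.slot v ∉ l.Sep (l.tau d i v)

/-- The slots accessed before time `i` in the windows from `W` on. -/
noncomputable def Acc (W i : ℕ) : Finset ℤ :=
  ((Ico l.t0 i).filter fun t => W ≤ l.om t).image fun t => l.slot (d.x t)

/-- The class of `v` at time `i`. -/
noncomputable def lab (i : ℕ) (v : ℤ) : ℕ × ℕ × ℤ :=
  if l.far d i v then
    (if d.x (l.tau d i v) < v then 1 else 2, l.om (l.tau d i v),
      (((l.Acc d (l.om (l.tau d i v)) i).filter fun a => a < l.slot v).card : ℤ))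
  else (0, 0, l.slot v)

/-- The keys that carry potential at time `i`. -/
noncomputable def DD (i : ℕ) : Finset ℤ :=
  d.keys.filter fun v => l.Inc d i v ∧ ¬ (l.far d i v ∧ l.om (l.tau d i v) = l.om i)

/-- The keys paid at time `i`. -/
noncomputable def LD (c i : ℕ) : Finset ℤ :=
  (l.DD d i).filter fun u => ¬ l.Inc d (i + 1) u ∧
    ((l.DD d i).filter fun z => l.lab d i z = l.lab d i u).card ≤ c

/-- The exceptional keys of step `i`. -/
noncomputable def XX (i : ℕ) : Finset ℤ :=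
  (l.DD d (i + 1)).filter fun v => (¬ l.Inc d i v ∧ l.slot v ∈ l.Sep i) ∨
    (l.far d (i + 1) v ∧ l.om (l.tau d (i + 1) v) = l.om i) ∨
    (l.Inc d i v ∧ l.far d i v ∧ l.slot (d.x i) < l.slot v ∧
      ∃ u, l.Inc d i u ∧ l.lab d i u = l.lab d i v ∧ l.slot u < l.slot (d.x i))

/-- The number of new classes at step `i`. -/
noncomputable def exc (i : ℕ) : ℕ :=
  (l.Sep i \ l.Sep (i + 1)).card +
    (if l.om (i + 1) = l.om i then 0 else 2 * ((l.Acc d (l.om i) (i + 1)).card + 1)) +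
    if l.slot (d.x i) ∈ l.Sep i then 0 else 1

end

variable {l : Lev} {d : Run}

theorem tau_le (i : ℕ) (v : ℤ) : l.tau d i v ≤ i := Nat.findGreatest_le _

theorem tau_of_not {i : ℕ} {v : ℤ} (h : ¬ l.Inc d i v) : l.tau d i v = i :=
  Nat.findGreatest_eq h

theorem tau_succ {i : ℕ} {v : ℤ} (h : l.Inc d (i + 1) v) : l.tau d (i + 1) v = l.tau d i v := by
  unfold tau
  rw [Nat.findGreatest_succ, if_neg (not_not.2 h)]

theorem inc_of_tau_lt {i s : ℕ} {v : ℤ} (h1 : l.tau d i v < s) (h2 : s ≤ i) : l.Inc d s v :=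
  not_not.1 (Nat.findGreatest_is_greatest h1 h2)

theorem le_tau {i s : ℕ} {v : ℤ} (h1 : s ≤ i) (h2 : ¬ l.Inc d s v) : s ≤ l.tau d i v :=
  Nat.le_findGreatest h1 h2

theorem not_inc_tau {i s : ℕ} {v : ℤ} (h1 : s ≤ i) (h2 : ¬ l.Inc d s v) :
    ¬ l.Inc d (l.tau d i v) v :=
  Nat.findGreatest_spec (P := fun t => ¬ l.Inc d t v) h1 h2

theorem tau_eq_of_le {i s : ℕ} {v : ℤ} (h1 : l.tau d i v ≤ s) (h2 : s ≤ i) :
    l.tau d s v = l.tau d i v := by
  induction s, h1 using Nat.le_induction with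
  | base =>
    by_cases h : l.Inc d (l.tau d i v) v
    · have h0 : l.tau d i v = 0 := by
        by_contra h0
        exact (Nat.findGreatest_of_ne_zero (P := fun t => ¬ l.Inc d t v) rfl h0) h
      rw [h0]
      exact Nat.le_zero.1 (tau_le 0 v)
    · exact tau_of_not h
  | succ s hs ih =>
    rw [tau_succ (inc_of_tau_lt (Nat.lt_succ_of_le hs) h2), ih (by omega)]

theorem far_succ {i : ℕ} {v : ℤ} (h : l.Inc d (i + 1) v) : l.far d (i + 1) v ↔ l.far d i v := by
  unfold far
  rw [tau_succ h]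

theorem far.tau_lt {i : ℕ} {v : ℤ} (h : l.far d i v) (hi : l.Inc d i v) : l.tau d i v < i := by
  rcases (tau_le (l := l) (d := d) i v).lt_or_eq with h1 | h1
  · exact h1
  · exact absurd (h1.symm ▸ hi) h.2.1

theorem far.ev {i : ℕ} {v : ℤ} (h : l.far d i v) (hi : l.Inc d i v) (h1 : i ≤ l.t1) :
    l.Ev d (l.tau d i v) v :=
  ⟨h.1, (h.tau_lt hi).trans_le h1, h.2.1, inc_of_tau_lt (Nat.lt_succ_self _) (h.tau_lt hi), h.2.2⟩

theorem mem_Acc {W i : ℕ} {a : ℤ} :
    a ∈ l.Acc d W i ↔ ∃ t, l.t0 ≤ t ∧ t < i ∧ W ≤ l.om t ∧ l.slot (d.x t) = a := by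
  unfold Acc
  simp only [mem_image, mem_filter, mem_Ico, and_assoc]

theorem Acc_mono {W W' i i' : ℕ} (hW : W' ≤ W) (hi : i ≤ i') : l.Acc d W i ⊆ l.Acc d W' i' := by
  intro a ha
  obtain ⟨t, h1, h2, h3, h4⟩ := mem_Acc.1 ha
  exact mem_Acc.2 ⟨t, h1, by omega, by omega, h4⟩

theorem Acc_succ {W i : ℕ} (h0 : l.t0 ≤ i) (hW : W ≤ l.om i) :
    l.Acc d W (i + 1) = insert (l.slot (d.x i)) (l.Acc d W i) := by
  ext a
  rw [mem_insert, mem_Acc, mem_Acc]
  constructor
  · rintro ⟨t, h1, h2, h3, h4⟩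
    rcases Nat.lt_succ_iff_lt_or_eq.1 h2 with h | rfl
    · exact Or.inr ⟨t, h1, h, h3, h4⟩
    · exact Or.inl h4.symm
  · rintro (rfl | ⟨t, h1, h2, h3, h4⟩)
    · exact ⟨i, h0, by omega, hW, rfl⟩
    · exact ⟨t, h1, by omega, h3, h4⟩

/-- Inside one window the separating slots only grow. -/
theorem OK.sep_keep (h : l.OK d) {s i : ℕ} (h0 : l.t0 ≤ s) (hs : s ≤ i) (hi : i ≤ l.t1)
    (ho : l.om s = l.om i) : l.Sep s ⊆ l.Sep i := by
  induction i, hs using Nat.le_induction with
  | base => exact subset_rfl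
  | succ i hs ih =>
    have a1 := h.omm hs
    have a2 := h.omm (Nat.le_succ i)
    exact (ih (by omega) (by simp only [Nat.succ_eq_add_one] at a2; omega)).trans
      (h.keep i (by omega) (by omega) (by simp only [Nat.succ_eq_add_one] at a2; omega))

/-- A slot accessed earlier in the same window is separating. -/
theorem OK.slot_mem (h : l.OK d) {s i : ℕ} (h0 : l.t0 ≤ s) (hs : s < i) (hi : i ≤ l.t1)
    (ho : l.om s = l.om i) : l.slot (d.x s) ∈ l.Sep i := by
  have a1 : l.om s ≤ l.om (s + 1) := h.omm (Nat.le_succ s)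
  have a2 : l.om (s + 1) ≤ l.om i := h.omm hs
  exact h.sep_keep (s := s + 1) (by omega) hs hi (by omega) (h.own s h0 (by omega))

/-- A separating slot is old or was accessed in between. -/
theorem OK.sep_back (h : l.OK d) {s i : ℕ} (h0 : l.t0 ≤ s) (hs : s ≤ i) (hi : i ≤ l.t1) {a : ℤ}
    (ha : a ∈ l.Sep i) : a ∈ l.Sep s ∨ ∃ t, s ≤ t ∧ t < i ∧ l.slot (d.x t) = a := by
  induction i, hs using Nat.le_induction with
  | base => exact Or.inl ha
  | succ i hs ih =>
    rcases mem_insert.1 (h.sub i (by omega) (by omega) ha) with h1 | h1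
    · exact Or.inr ⟨i, hs, by omega, h1.symm⟩
    · rcases ih (by omega) h1 with h2 | ⟨t, a1, a2, a3⟩
      · exact Or.inl h2
      · exact Or.inr ⟨t, a1, by omega, a3⟩

theorem lab_far {i : ℕ} {v : ℤ} (h : l.far d i v) : l.lab d i v =
    (if d.x (l.tau d i v) < v then 1 else 2, l.om (l.tau d i v),
      (((l.Acc d (l.om (l.tau d i v)) i).filter fun a => a < l.slot v).card : ℤ)) := if_pos h

theorem lab_plain {i : ℕ} {v : ℤ} (h : ¬ l.far d i v) : l.lab d i v = (0, 0, l.slot v) := if_neg h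

theorem far_of_lab {i : ℕ} {u v : ℤ} (h : l.lab d i u = l.lab d i v) (hv : l.far d i v) :
    l.far d i u := by
  by_contra hu
  rw [lab_plain hu, lab_far hv] at h
  have := congrArg Prod.fst h
  by_cases h1 : d.x (l.tau d i v) < v <;> simp [h1] at this

/-- What equal far labels mean. -/
theorem lab_eq_far {i : ℕ} {u v : ℤ} (hu : l.far d i u) (hv : l.far d i v) :
    l.lab d i u = l.lab d i v ↔ (d.x (l.tau d i u) < u ↔ d.x (l.tau d i v) < v) ∧
      l.om (l.tau d i u) = l.om (l.tau d i v) ∧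
      ((l.Acc d (l.om (l.tau d i v)) i).filter fun a => a < l.slot u).card =
        ((l.Acc d (l.om (l.tau d i v)) i).filter fun a => a < l.slot v).card := by
  rw [lab_far hu, lab_far hv, Prod.mk.injEq, Prod.mk.injEq, Nat.cast_inj]
  constructor
  · rintro ⟨h1, h2, h3⟩
    refine ⟨?_, h2, by rw [← h3, h2]⟩
    by_cases a : d.x (l.tau d i u) < u <;> by_cases b : d.x (l.tau d i v) < v <;>
      simp [a, b] at h1 ⊢
  · rintro ⟨h1, h2, h3⟩
    refine ⟨?_, h2, by rw [h2, h3]⟩
    by_cases b : d.x (l.tau d i v) < v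
    · rw [if_pos b, if_pos (h1.2 b)]
    · rw [if_neg b, if_neg fun a => b (h1.1 a)]

/-- Equal counts below two slots mean that no element lies between them. -/
theorem cnt_eq_iff (A : Finset ℤ) {a b : ℤ} (h : a ≤ b) :
    (A.filter fun z => z < a).card = (A.filter fun z => z < b).card ↔
      ∀ z ∈ A, ¬ (a ≤ z ∧ z < b) := by
  have hs : (A.filter fun z => z < a) ⊆ A.filter fun z => z < b := by
    intro z hz
    rw [mem_filter] at hz ⊢
    exact ⟨hz.1, by omega⟩
  constructor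
  · intro he z hz hc
    have := eq_of_subset_of_card_le hs he.ge
    have h2 : z ∈ A.filter fun z => z < b := mem_filter.2 ⟨hz, hc.2⟩
    rw [← this, mem_filter] at h2
    omega
  · intro hn
    congr 1
    refine Subset.antisymm hs fun z hz => ?_
    rw [mem_filter] at hz ⊢
    have := hn z hz.1
    exact ⟨hz.1, by omega⟩

end Lev

end Pool.Agent.P.MP_119182_lc.NU
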