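import Pool.Agent.P.MP_119182_lc.NU.LBase

/-! Statements on the level system. -/

set_option autoImplicit false

namespace Pool.Agent.P.MP_119182_lc.NU

open Finset
open scoped Classical

-- deps: EVR EVL
def S_J : Prop :=
  ∀ (d : Run) (l : Lev) (i : ℕ) (v : ℤ), d.OK → l.OK d → i ≤ l.t1 → l.Inc d i v → l.far d i v →
    l.slot v ∉ l.Acc d (l.om (l.tau d i v)) i ∧
    (d.x (l.tau d i v) < v → ∀ s ∈ l.Sep i, s < l.slot v →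
      ∃ a ∈ l.Acc d (l.om (l.tau d i v)) i, s ≤ a ∧ a < l.slot v) ∧
    (¬ d.x (l.tau d i v) < v → ∀ s ∈ l.Sep i, l.slot v < s →
      ∃ a ∈ l.Acc d (l.om (l.tau d i v)) i, l.slot v < a ∧ a ≤ s)

-- deps: EVR EVL J
def S_KR : Prop :=
  ∀ (d : Run) (l : Lev) (i : ℕ) (v y : ℤ), d.OK → l.OK d → i ≤ l.t1 → l.Inc d i v →
    l.Inc d i y → l.far d i v → d.x (l.tau d i v) < v → y < v →
    (∀ a ∈ l.Acc d (l.om (l.tau d i v)) i, ¬ (l.slot y ≤ a ∧ a < l.slot v)) →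
    l.far d i y ∧ d.x (l.tau d i y) < y ∧ l.om (l.tau d i v) ≤ l.om (l.tau d i y)

-- deps: EVR EVL J
def S_KL : Prop :=
  ∀ (d : Run) (l : Lev) (i : ℕ) (v y : ℤ), d.OK → l.OK d → i ≤ l.t1 → l.Inc d i v →
    l.Inc d i y → l.far d i v → ¬ d.x (l.tau d i v) < v → v < y →
    (∀ a ∈ l.Acc d (l.om (l.tau d i v)) i, ¬ (l.slot v < a ∧ a ≤ l.slot y)) →
    l.far d i y ∧ ¬ d.x (l.tau d i y) < y ∧ l.om (l.tau d i v) ≤ l.om (l.tau d i y)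

-- deps: J KR KL
def S_BTW : Prop :=
  ∀ (d : Run) (l : Lev) (i : ℕ) (a b y : ℤ), d.OK → l.OK d → i ≤ l.t1 → l.Inc d i a →
    l.Inc d i b → l.Inc d i y → l.far d i a → l.lab d i a = l.lab d i b → a ≤ y → y ≤ b →
    l.lab d i y = l.lab d i a

-- deps:
def S_LPA : Prop :=
  ∀ (d : Run) (l : Lev) (c i : ℕ), d.OK → l.OK d → l.t0 ≤ i → i < l.t1 →
    (∀ v ∈ l.DD d (i + 1), v ∉ l.XX d i → v ∈ l.DD d i ∧ v ∉ l.LD d c i) ∧
    ∀ u ∈ l.DD d (i + 1), ∀ v ∈ l.DD d (i + 1), u ∉ l.XX d i → v ∉ l.XX d i →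
      l.lab d i u = l.lab d i v → l.lab d (i + 1) u = l.lab d (i + 1) v

-- deps: J BTW
def S_LPB : Prop :=
  ∀ (d : Run) (l : Lev) (i : ℕ), d.OK → l.OK d → l.t0 ≤ i → i < l.t1 →
    ((l.XX d i).image (l.lab d (i + 1))).card ≤ l.exc d i

-- deps:
def S_LSUM : Prop :=
  ∀ (d : Run) (l : Lev), l.OK d →
    ∑ i ∈ Ico l.t0 l.t1, l.exc d i ≤ (l.Sep l.t0).card + 6 * (l.fst d).card

-- deps: F1 F2 PART J BTW
def S_LRULE : Prop :=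
  ∀ (d : Run) (l : Lev) (c i : ℕ) (Q : Finset ℤ), d.OK → l.OK d → l.LD d c i ⊆ Q →
    l.Rule d c i Q

-- deps: POT LPA LPB LSUM LRULE
def S_LEVEL : Prop := S_LEV

end Pool.Agent.P.MP_119182_lc.NU
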