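import Pool.Agent.P.MP_119182_lc.NU.Lib

/-! Statements on paying systems. -/

set_option autoImplicit false

namespace Pool.Agent.P.MP_119182_lc.NU

open Finset
open scoped Classical

-- deps:
def S_MIR : Prop := ∀ d : Run, d.OK → d.mir.OK

-- deps:
def S_EVMIR : Prop :=
  ∀ (d : Run) (l l' : Lev), l'.t0 = l.t0 → l'.t1 = l.t1 →
    (∀ v, l'.slot (mr v) = mr (l.slot v)) →
    (∀ a b, l'.blk (mr a) = l'.blk (mr b) ↔ l.blk a = l.blk b) →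
    (∀ i s, mr s ∈ l'.Sep i ↔ s ∈ l.Sep i) →
    ∀ i v, (l'.Inc d.mir i (mr v) ↔ l.Inc d i v) ∧ (l'.Ev d.mir i (mr v) ↔ l.Ev d i v)

-- deps:
def S_F1 : Prop :=
  ∀ (d : Run) (i : ℕ) (Q : Finset ℤ) (Y Z : Set ℤ), d.OK → i < d.m → Y.OrdConnected →
    Z.OrdConnected →
    ((d.unp i Q Y).filter fun u => u ∈ Z).card ≤ (d.unp i Q (Z ∩ Y)).card + 2

-- deps:
def S_F2 : Prop :=
  ∀ (d : Run) (i : ℕ) (p q v : ℤ), d.OK → i < d.m → p ∈ d.P i → q ∈ d.P i → p < v → v < q →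
    v ∉ d.P i → p ≤ d.lp i v ∧ d.rp i v ≤ q

-- deps:
def S_SPLIT : Prop :=
  ∀ (d : Run) (c i v : ℕ) (Q : Finset ℤ) (Y Y1 Y2 : Set ℤ), d.OK → i < d.m → Y.OrdConnected →
    Y = Y1 ∪ Y2 → (∀ a ∈ Y1, ∀ b ∈ Y2, a < b) → d.Good c i Q v Y1 → d.Good c i Q v Y2 →
    d.Good c i Q (2 * v + 2) Y

-- deps:
def S_POT : Prop :=
  ∀ (α : Type) (c k : ℕ) (D D' X LD : Finset ℤ) (f f' : ℤ → α),
    ((D'.filter fun v => v ∈ X).image f').card ≤ k → (∀ v ∈ D', v ∉ X → v ∈ D ∧ v ∉ LD) →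
    (∀ u ∈ D', ∀ v ∈ D', u ∉ X → v ∉ X → f u = f v → f' u = f' v) → LD ⊆ D →
    (∀ v ∈ LD, (D.filter fun z => f z = f v).card ≤ c) →
    Psi c D' f' + LD.card ≤ Psi c D f + c * k

-- deps: F1
def S_PART : Prop :=
  ∀ (α : Type) (d : Run) (c i v : ℕ) (Q D S : Finset ℤ) (Y : Set ℤ) (f : ℤ → α)
    (hull : α → Set ℤ), d.OK → i < d.m → Y.OrdConnected → S ⊆ d.unp i Q Y → S ⊆ D →
    (∀ u ∈ S, c < (D.filter fun z => f z = f u).card) →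
    (∀ z ∈ D, ∀ p ∈ d.P i, ∀ q ∈ d.P i, p ∈ Y → q ∈ Y → p ≤ z → z ≤ q → z ∈ d.P i) →
    (∀ u ∈ S, (hull (f u)).OrdConnected ∧ (∀ z ∈ D, f z = f u → z ∈ hull (f u)) ∧
      d.Good c i Q v (hull (f u) ∩ Y)) →
    (∀ u ∈ S, ∀ u' ∈ S, ∀ z ∈ d.P i, z ∈ Y → z ∈ hull (f u) → z ∈ hull (f u') → f u = f u') →
    c * S.card ≤ c * (2 * v + 4) + (2 * v + 2) * ((d.P i).filter fun z => z ∈ Y).card

-- deps: F2 POT PART
def S_GAP : Prop :=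
  ∀ (α : Type) (d : Run) (c : ℕ) (E : ℕ → ℤ → ℤ → Prop) (pt : ℕ → ℤ → α) (X : ℕ → Set ℤ),
    d.OK → (∀ i a b, E i a b → E i b a) → (∀ i a b e, E i a b → E i b e → E i a e) →
    (∀ i a b e, E i a e → a ≤ b → b ≤ e → E i a b) → (∀ i < d.m, ¬ E i (d.x i) (d.x i)) →
    (∀ i a b e, E i a e → pt i a = pt i e → a ≤ b → b ≤ e → pt i b = pt i a) →
    (∀ i a b, E i a a → E i b b → pt i a = pt i b → E i a b) →
    (∀ v, E 0 v v → v ∈ X 0) →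
    (∀ i, i + 1 < d.m → ∀ v, v ∉ X (i + 1) → E (i + 1) v v →
      E i v v ∧ ∀ u, E i v u → E (i + 1) v u) →
    (∀ i, i + 1 < d.m → ∀ u v, u ∉ X (i + 1) → v ∉ X (i + 1) → E (i + 1) u u → E (i + 1) v v →
      pt i u = pt i v → pt (i + 1) u = pt (i + 1) v) →
    d.Sys (c * ∑ i ∈ range d.m, ((d.keys.filter fun v => v ∈ X i ∧ E i v v).image (pt i)).card)
      fun i Q => ∀ (v : ℕ) (Y : Set ℤ), d.Rgt i Y → (∀ a ∈ Y, ∀ b ∈ Y, E i a b) →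
        d.GoodF c i Q v Y (pt i) → d.Good c i Q (2 * v + 4) Y

-- deps: GAP
def S_STATIC : Prop :=
  ∀ (α : Type) (d : Run) (c t0 : ℕ) (G : Set ℤ) (f : ℤ → α), d.OK → G.OrdConnected →
    (∀ a ∈ G, ∀ e ∈ G, ∀ b, f a = f e → a ≤ b → b ≤ e → f b = f a) →
    d.Sys (c * ((d.keys.filter fun v => v ∈ G).image f).card)
      fun i Q => ∀ (v : ℕ) (Y : Set ℤ), t0 ≤ i → (∀ t, t0 ≤ t → t ≤ i → d.x t ∉ G) → Y ⊆ G →
        d.Rgt i Y → d.GoodF c i Q v Y f → d.Good c i Q (2 * v + 4) Y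

-- deps: STATIC SPLIT
def S_RANGE : Prop :=
  ∀ (d : Run) (c k t0 : ℕ) (Cut : Finset ℤ), d.OK → (d.R - d.L).toNat < 2 ^ ee k →
    d.Sys (24 * k * c * (Cut.card + 1)) (RangeRule d c k t0 Cut)

-- deps: RANGE
def S_RW : Prop :=
  ∀ (d : Run) (c k t0 t1 : ℕ) (om : ℕ → ℕ) (Cut : ℕ → Finset ℤ), d.OK →
    (d.R - d.L).toNat < 2 ^ ee k → Monotone om →
    d.Sys (24 * k * c * ∑ W ∈ (Ico t0 t1).image om, ((Cut W).card + 1))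
      fun i Q => ∀ (W v : ℕ) (Y : Set ℤ), W ∈ (Ico t0 t1).image om → W ≤ om i → d.Rgt i Y →
        (∀ t ≤ i, W ≤ om t → d.x t ∉ Y) → d.GoodF c i Q v Y (cls (Cut W)) →
        d.Good c i Q (64 ^ (k + 1) * (v + 2)) Y

-- deps: GAP
def S_DY : Prop :=
  ∀ (d : Run) (l : Lev) (D c : ℕ), d.OK → l.OK d →
    d.Sys (6 * D * c * l.dyCost d) (l.DyRule d D c)

-- deps:
def S_EVR : Prop :=
  ∀ (d : Run) (l : Lev) (i : ℕ) (v : ℤ), d.OK → l.OK d → l.Ev d i v → d.x i < v →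
    v ∈ d.P i ∧ d.rp i v ∈ d.U i ∧ d.lp (i + 1) (d.rp i v) = v ∧
    l.slot (d.x i) < l.slot v ∧ ¬ l.cross i (d.x i) v ∧ ¬ l.cross i v (d.rp i v) ∧
    l.cross i v (d.rp i (d.rp i v)) ∧
    ∀ y < v, l.slot (d.x i) < l.slot y → ¬ l.Inc d (i + 1) y

-- deps:
def S_EVL : Prop :=
  ∀ (d : Run) (l : Lev) (i : ℕ) (v : ℤ), d.OK → l.OK d → l.Ev d i v → v ≤ d.x i →
    l.slot v < l.slot (d.x i) ∧ ¬ l.cross i v (d.x i) ∧
    ∀ y, v < y → l.slot y < l.slot (d.x i) → ¬ l.Inc d (i + 1) y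

/-- The level system. -/
def S_LEV : Prop :=
  ∀ (d : Run) (l : Lev) (c : ℕ), d.OK → l.OK d → d.Sys (c * l.cost d) (l.Rule d c)

-- deps: LEV RW
def S_LZ : Prop :=
  ∀ (ι : Type) (d : Run) (c k : ℕ) (s : Finset ι) (lv : ι → Lev) (om : ℕ → ℕ)
    (EvS : Finset (ℕ × ℤ)), d.OK → (d.R - d.L).toNat < 2 ^ ee k → Monotone om →
    (∀ j ∈ s, (lv j).OK d ∧ (lv j).om = om) →
    (∀ j ∈ s, ∀ i p, (lv j).Ev d i p → (i, p) ∈ EvS) →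
    d.Sys (c * ∑ j ∈ s, (lv j).cost d + 24 * k * c * (EvS.card + ((range d.m).image om).card))
      fun i Q => ∀ j ∈ s, ∀ (v : ℕ) (Y : Set ℤ), (lv j).t0 ≤ i → i < (lv j).t1 →
        (lv j).Solid d i Y → d.GoodF c i Q v Y (lv j).slot →
        d.Good c i Q (6 * (v + 2 * 64 ^ (k + 1)) + 12) Y

end Pool.Agent.P.MP_119182_lc.NU
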