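import Pool.Agent.P.MP_119182_lc.NU.EIface

/-! Step ALGA. -/

set_option autoImplicit false

namespace Pool.Agent.P.MP_119182_lc.NU

open Finset
open scoped Classical

namespace ALGAc

/-- `a` is the left parent of `v` for the priorities `π` -/
def IsL (L : ℤ) (π : ℤ → ℕ) (v a : ℤ) : Prop :=
  L ≤ a ∧ a < v ∧ (L < a → π v < π a) ∧ ∀ y, a < y → y < v → π y ≤ π v

/-- `b` is the right parent of `v` for the priorities `π` -/
def IsR (R : ℤ) (π : ℤ → ℕ) (v b : ℤ) : Prop :=
  b ≤ R ∧ v < b ∧ (b < R → π v < π b) ∧ ∀ y, v < y → y < b → π y ≤ π v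

theorem exL (L : ℤ) (π : ℤ → ℕ) (v : ℤ) : ∃ a, L < v → IsL L π v a := by
  by_cases hv : L < v
  swap
  · exact ⟨0, fun h => absurd h hv⟩
  set S := insert L ((Ioo L v).filter fun y => π v < π y) with hS
  have hne : S.Nonempty := insert_nonempty _ _
  have hm := max'_mem S hne
  have hle : ∀ y ∈ S, y ≤ S.max' hne := fun y hy => le_max' S y hy
  have h0 := hle L (mem_insert_self _ _)
  refine ⟨S.max' hne, fun _ => ?_⟩
  generalize S.max' hne = a at hm hle h0
  rw [hS, mem_insert, mem_filter, mem_Ioo] at hm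
  refine ⟨h0, by omega, fun h => by omega, fun y h1 h2 => ?_⟩
  by_contra h
  have := hle y (mem_insert_of_mem (mem_filter.2 ⟨mem_Ioo.2 ⟨by omega, h2⟩, by omega⟩))
  omega

theorem exR (R : ℤ) (π : ℤ → ℕ) (v : ℤ) : ∃ b, v < R → IsR R π v b := by
  by_cases hv : v < R
  swap
  · exact ⟨0, fun h => absurd h hv⟩
  set S := insert R ((Ioo v R).filter fun y => π v < π y) with hS
  have hne : S.Nonempty := insert_nonempty _ _
  have hm := min'_mem S hne
  have hle : ∀ y ∈ S, S.min' hne ≤ y := fun y hy => min'_le S y hy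
  have h0 := hle R (mem_insert_self _ _)
  refine ⟨S.min' hne, fun _ => ?_⟩
  generalize S.min' hne = a at hm hle h0
  rw [hS, mem_insert, mem_filter, mem_Ioo] at hm
  refine ⟨h0, by omega, fun h => by omega, fun y h1 h2 => ?_⟩
  by_contra h
  have := hle y (mem_insert_of_mem (mem_filter.2 ⟨mem_Ioo.2 ⟨h1, by omega⟩, by omega⟩))
  omega

theorem IsL.uniq {L : ℤ} {π : ℤ → ℕ} {v a a' : ℤ} (h : IsL L π v a) (h' : IsL L π v a') :
    a = a' := by
  obtain ⟨a1, a2, a3, a4⟩ := h
  obtain ⟨b1, b2, b3, b4⟩ := h'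
  rcases lt_trichotomy a a' with k | k | k
  · have := a4 a' k b2
    have := b3 (by omega)
    omega
  · exact k
  · have := b4 a k a2
    have := a3 (by omega)
    omega

theorem IsR.uniq {R : ℤ} {π : ℤ → ℕ} {v a a' : ℤ} (h : IsR R π v a) (h' : IsR R π v a') :
    a = a' := by
  obtain ⟨a1, a2, a3, a4⟩ := h
  obtain ⟨b1, b2, b3, b4⟩ := h'
  rcases lt_trichotomy a a' with k | k | k
  · have := b4 a a2 k
    have := a3 (by omega)
    omega
  · exact k
  · have := a4 a' b2 k
    have := b3 (by omega)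
    omega

/-- the parents come from injective priorities -/
structure Pr (L R : ℤ) (π : ℤ → ℕ) (lp rp : ℤ → ℤ) : Prop where
  inj : ∀ u v, L < u → u < R → L < v → v < R → π u = π v → u = v
  l : ∀ v, L < v → v < R → IsL L π v (lp v)
  r : ∀ v, L < v → v < R → IsR R π v (rp v)

variable {L R x : ℤ} {π π' : ℤ → ℕ} {lp rp lq rq : ℤ → ℤ}

theorem Pr.bnd (h : Pr L R π lp rp) {v : ℤ} (h1 : L < v) (h2 : v < R) :
    L ≤ lp v ∧ lp v < v ∧ v < rp v ∧ rp v ≤ R :=
  ⟨(h.l v h1 h2).1, (h.l v h1 h2).2.1, (h.r v h1 h2).2.1, (h.r v h1 h2).1⟩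

/-- inside the interval of `y` priorities are smaller -/
theorem Pr.lt (h : Pr L R π lp rp) {y z : ℤ} (h1 : L < y) (h2 : y < R) (h3 : lp y < z)
    (h4 : z < rp y) (h5 : z ≠ y) : π z < π y := by
  have b := h.bnd h1 h2
  have : π z ≤ π y := by
    rcases lt_or_gt_of_ne h5 with k | k
    · exact (h.l y h1 h2).2.2.2 z h3 k
    · exact (h.r y h1 h2).2.2.2 z k h4
  have k : π z ≠ π y := fun e => h5 (h.inj z y (by omega) (by omega) h1 h2 e)
  omega

theorem Pr.lam (h : Pr L R π lp rp) {y z : ℤ} (h1 : L < y) (h2 : y < R) (h3 : lp y < z)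
    (h4 : z < rp y) (h5 : z ≠ y) :
    lp y ≤ lp z ∧ rp z ≤ rp y ∧ (z < y → rp z ≤ y) ∧ (y < z → y ≤ lp z) := by
  have b := h.bnd h1 h2
  have k := h.lt h1 h2 h3 h4 h5
  obtain ⟨a1, a2, a3, a4⟩ := h.l z (by omega) (by omega)
  obtain ⟨c1, c2, c3, c4⟩ := h.r z (by omega) (by omega)
  have d3 := (h.l y h1 h2).2.2.1
  have e3 := (h.r y h1 h2).2.2.1
  refine ⟨?_, ?_, fun q => ?_, fun q => ?_⟩
  · by_contra q
    have := a4 (lp y) (by omega) h3
    have := d3 (by omega)
    omega
  · by_contra q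
    have := c4 (rp y) h4 (by omega)
    have := e3 (by omega)
    omega
  · by_contra q'
    have := c4 y q (by omega)
    omega
  · by_contra q'
    have := a4 y (by omega) q
    omega

theorem Pr.ancR (h : Pr L R π lp rp) {y : ℤ} (h1 : L < y) (h2 : y < R) (h3 : rp y < R) :
    lp (rp y) ≤ lp y := by
  have b := h.bnd h1 h2
  have k := (h.r y h1 h2).2.2.1 h3
  obtain ⟨a1, a2, a3, a4⟩ := h.l (rp y) (by omega) h3
  by_contra q
  have := a3 (by omega)
  by_cases e : lp (rp y) = y
  · rw [e] at this; omega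
  · have := h.lt h1 h2 (z := lp (rp y)) (by omega) a2 e
    omega

theorem Pr.ancL (h : Pr L R π lp rp) {y : ℤ} (h1 : L < y) (h2 : y < R) (h3 : L < lp y) :
    rp y ≤ rp (lp y) := by
  have b := h.bnd h1 h2
  have k := (h.l y h1 h2).2.2.1 h3
  obtain ⟨a1, a2, a3, a4⟩ := h.r (lp y) h3 (by omega)
  by_contra q
  have := a3 (by omega)
  by_cases e : rp (lp y) = y
  · rw [e] at this; omega
  · have := h.lt h1 h2 (z := rp (lp y)) a2 (by omega) e
    omega

/-- the new priorities on the right of `x`: the keys with `low` move just above their right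
parent -/
structure Nw (L R x : ℤ) (π π' : ℤ → ℕ) (lp rp : ℤ → ℤ) (low : ℤ → Prop) : Prop where
  x1 : L < x
  x2 : x < R
  top : ∀ v, L < v → v < R → v ≠ x → π' v < π' x
  alt : ∀ v, low v → x < v ∧ lp v < x ∧ v < R ∧ rp v < R ∧ ¬ low (rp v)
  yes : ∀ v, low v → π' v = 2 * π (rp v) + 1
  no : ∀ v, x < v → v < R → ¬ low v → π' v = 2 * π v

variable {low : ℤ → Prop}

theorem Nw.ge (h : Pr L R π lp rp) (w : Nw L R x π π' lp rp low) {v : ℤ} (h1 : x < v)
    (h2 : v < R) : 2 * π v ≤ π' v := by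
  by_cases k : low v
  · have := w.alt v k
    have := (h.r v (by have := w.x1; omega) h2).2.2.1 (by omega)
    rw [w.yes v k]; omega
  · rw [w.no v h1 h2 k]

/-- keys inside the right subtree of a key right of `x` are off the path -/
theorem Nw.ins (h : Pr L R π lp rp) (w : Nw L R x π π' lp rp low) {v y : ℤ} (h1 : x < v)
    (h2 : v < R) (h3 : v < y) (h4 : y < rp v) : π' y = 2 * π y ∧ π y < π v := by
  have x1 := w.x1
  have b := h.bnd (v := v) (by omega) h2
  have := (h.lam (y := v) (z := y) (by omega) h2 (by omega) h4 (by omega)).2.2.2 h3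
  exact ⟨w.no y (by omega) (by omega) fun k => by have := w.alt y k; omega,
    h.lt (by omega) h2 (by omega) h4 (by omega)⟩

theorem Nw.off (h : Pr L R π lp rp) (h' : Pr L R π' lq rq) (w : Nw L R x π π' lp rp low) {v : ℤ}
    (h1 : x < v) (h2 : v < R) (h3 : x ≤ lp v) : lq v = lp v ∧ rq v = rp v := by
  have x1 := w.x1
  have b := h.bnd (v := v) (by omega) h2
  have e : π' v = 2 * π v := w.no v h1 h2 fun k => by have := w.alt v k; omega
  refine ⟨(h'.l v (by omega) h2).uniq ⟨b.1, b.2.1, fun _ => ?_, fun y a1 a2 => ?_⟩,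
    (h'.r v (by omega) h2).uniq ⟨b.2.2.2, b.2.2.1, fun q => ?_, fun y a1 a2 => ?_⟩⟩
  · by_cases k : lp v = x
    · rw [k]; exact w.top v (by omega) h2 (by omega)
    · have := w.ge h (v := lp v) (by omega) (by omega)
      have := (h.l v (by omega) h2).2.2.1 (by omega)
      omega
  · have := (h.lam (y := v) (z := y) (by omega) h2 a1 (by omega) (by omega)).1
    have := h.lt (y := v) (z := y) (by omega) h2 a1 (by omega) (by omega)
    rw [w.no y (by omega) (by omega) fun k => by have := w.alt y k; omega]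
    omega
  · have := w.ge h (v := rp v) (by omega) q
    have := (h.r v (by omega) h2).2.2.1 q
    omega
  · have := w.ins h h1 h2 a1 a2
    omega

/-- a key that is not raised keeps its right parent -/
theorem Nw.keep (h : Pr L R π lp rp) (h' : Pr L R π' lq rq) (w : Nw L R x π π' lp rp low) {v : ℤ}
    (h1 : x < v) (h2 : v < R) (h3 : ¬ low v) : rq v = rp v := by
  have x1 := w.x1
  have b := h.bnd (v := v) (by omega) h2
  have e := w.no v h1 h2 h3
  refine (h'.r v (by omega) h2).uniq ⟨b.2.2.2, b.2.2.1, fun q => ?_, fun y a1 a2 => ?_⟩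
  · have := w.ge h (v := rp v) (by omega) q
    have := (h.r v (by omega) h2).2.2.1 q
    omega
  · have := w.ins h h1 h2 a1 a2
    omega

/-- a path key that is not the partner of a raised key hangs below `x` -/
theorem Nw.hang (h : Pr L R π lp rp) (h' : Pr L R π' lq rq) (w : Nw L R x π π' lp rp low) {v : ℤ}
    (h1 : x < v) (h2 : v < R) (h3 : lp v < x) (h4 : ∀ p, low p → rp p ≠ v) : lq v = x := by
  have x1 := w.x1
  have b := h.bnd (v := v) (by omega) h2
  refine (h'.l v (by omega) h2).uniq ⟨by omega, h1, fun _ => w.top v (by omega) h2 (by omega),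
    fun y a1 a2 => ?_⟩
  have g := w.ge h h1 h2
  by_cases k : low y
  · have a := w.alt y k
    have c := (h.lam (y := v) (z := y) (by omega) h2 (by omega) (by omega) (by omega)).2.2.1 a2
    have d := h.bnd (v := y) (by omega) (by omega)
    have := h4 y k
    have := h.lt (y := v) (z := rp y) (by omega) h2 (by omega) (by omega) this
    rw [w.yes y k]; omega
  · have := h.lt (y := v) (z := y) (by omega) h2 (by omega) (by omega) (by omega)
    rw [w.no y a1 (by omega) k]; omega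

theorem Nw.link (h : Pr L R π lp rp) (h' : Pr L R π' lq rq) (w : Nw L R x π π' lp rp low) {p : ℤ}
    (k : low p) : lq (rp p) = p ∧ rq p = rp (rp p) := by
  have x1 := w.x1
  obtain ⟨a1, a2, a3, a4, a5⟩ := w.alt p k
  have b := h.bnd (v := p) (by omega) a3
  have c := h.bnd (v := rp p) (by omega) a4
  have e := w.yes p k
  have e' := w.no (rp p) (by omega) a4 a5
  have lt := (h.r p (by omega) a3).2.2.1 a4
  refine ⟨(h'.l _ (by omega) a4).uniq ⟨by omega, by omega, fun _ => by omega, fun y b1 b2 => ?_⟩,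
    (h'.r p (by omega) a3).uniq ⟨by omega, by omega, fun q => ?_, fun y b1 b2 => ?_⟩⟩
  · have := w.ins h a1 a3 b1 b2
    omega
  · have := w.ge h (v := rp (rp p)) (by omega) q
    have := (h.r (rp p) (by omega) a4).2.2.1 q
    omega
  · rcases lt_trichotomy y (rp p) with q | q | q
    · have := w.ins h a1 a3 b1 q
      omega
    · rw [q]; omega
    · have := w.ins h (v := rp p) (by omega) a4 q b2
      omega

/-- right parents are distinct on the right path -/
theorem Pr.rp_inj (h : Pr L R π lp rp) (x1 : L < x) {u v : ℤ} (u1 : x < u) (u2 : u < R)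
    (u3 : lp u < x) (v1 : x < v) (v2 : v < R) (v3 : lp v < x) (e : rp u = rp v) : u = v := by
  have b := h.bnd (v := u) (by omega) u2
  have c := h.bnd (v := v) (by omega) v2
  rcases lt_trichotomy u v with k | k | k
  · have := (h.lam (y := u) (z := v) (by omega) u2 (by omega) (by omega) (by omega)).2.2.2 k
    omega
  · exact k
  · have := (h.lam (y := v) (z := u) (by omega) v2 (by omega) (by omega) (by omega)).2.2.2 k
    omega

/-- the right path -/
noncomputable def pth (R x : ℤ) (lp : ℤ → ℤ) : Finset ℤ := (Ioo x R).filter fun v => lp v < x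

theorem mem_pth {v : ℤ} : v ∈ pth R x lp ↔ x < v ∧ v < R ∧ lp v < x := by
  simp only [pth, mem_filter, mem_Ioo, and_assoc]

/-- the rank on the right path -/
noncomputable def rk (R x : ℤ) (lp : ℤ → ℤ) (v : ℤ) : ℕ := #((pth R x lp).filter fun y => y < v)

/-- the keys of even rank that have a successor -/
def Low (R x : ℤ) (lp rp : ℤ → ℤ) (v : ℤ) : Prop :=
  v ∈ pth R x lp ∧ rk R x lp v % 2 = 0 ∧ rp v < R

theorem Pr.rk_succ (h : Pr L R π lp rp) (x1 : L < x) {v : ℤ} (hv : v ∈ pth R x lp)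
    (h2 : rp v < R) : rp v ∈ pth R x lp ∧ rk R x lp (rp v) = rk R x lp v + 1 := by
  have a := mem_pth.1 hv
  have b := h.bnd (v := v) (by omega) a.2.1
  have c := h.ancR (y := v) (by omega) a.2.1 h2
  refine ⟨mem_pth.2 ⟨by omega, h2, by omega⟩, ?_⟩
  unfold rk
  rw [← card_insert_of_notMem (a := v) (by simp)]
  congr 1
  ext y
  simp only [mem_insert, mem_filter]
  constructor
  · rintro ⟨k1, k2⟩
    have d := mem_pth.1 k1
    rcases lt_trichotomy y v with k | k | k
    · exact Or.inr ⟨k1, k⟩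
    · exact Or.inl k
    · have := (h.lam (y := v) (z := y) (by omega) a.2.1 (by omega) k2 (by omega)).2.2.2 k
      omega
  · rintro (rfl | ⟨k1, k2⟩)
    · exact ⟨hv, by omega⟩
    · exact ⟨k1, by omega⟩

theorem Pr.pred (h : Pr L R π lp rp) (x1 : L < x) {u : ℤ} (hu : u ∈ pth R x lp)
    (h2 : rk R x lp u ≠ 0) : ∃ p ∈ pth R x lp, rp p = u := by
  have hne : ((pth R x lp).filter fun y => y < u).Nonempty := card_ne_zero.1 h2
  have hm := mem_filter.1 (max'_mem _ hne)
  have hle : ∀ y ∈ (pth R x lp).filter fun y => y < u, y ≤ max' _ hne :=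
    fun y hy => le_max' _ y hy
  generalize max' _ hne = p at hm hle
  have a := mem_pth.1 hu
  have b := mem_pth.1 hm.1
  have c := h.bnd (v := p) (by omega) b.2.1
  refine ⟨p, hm.1, ?_⟩
  rcases lt_trichotomy (rp p) u with k | k | k
  · have := hle _ (mem_filter.2 ⟨(h.rk_succ x1 hm.1 (by omega)).1, k⟩)
    omega
  · exact k
  · have := (h.lam (y := p) (z := u) (by omega) b.2.1 (by omega) k (by omega)).2.2.2 hm.2
    omega

theorem Pr.alt (h : Pr L R π lp rp) (x1 : L < x) (v : ℤ) (k : Low R x lp rp v) :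
    x < v ∧ lp v < x ∧ v < R ∧ rp v < R ∧ ¬ Low R x lp rp (rp v) := by
  have a := mem_pth.1 k.1
  have := (h.rk_succ x1 k.1 k.2.2).2
  have := k.2.1
  exact ⟨a.1, a.2.2, a.2.1, k.2.2, fun l => by have := l.2.1; omega⟩

theorem Nw.cnt (h : Pr L R π lp rp) (h' : Pr L R π' lq rq)
    (w : Nw L R x π π' lp rp (Low R x lp rp)) :
    #(pth R x lp) ≤ 2 * #((pth R x lp).filter fun u => lq u ≠ x) + 1 := by
  have x1 := w.x1
  have h1 : pth R x lp ⊆ ((pth R x lp).filter fun u => lq u ≠ x) ∪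
      ((pth R x lp).filter (Low R x lp rp) ∪ (pth R x lp).filter fun v => rp v = R) := by
    intro v hv
    simp only [mem_union, mem_filter]
    have a := mem_pth.1 hv
    have b := h.bnd (v := v) (by omega) a.2.1
    by_cases k : rk R x lp v % 2 = 0
    · by_cases l : rp v = R
      · exact Or.inr (Or.inr ⟨hv, l⟩)
      · exact Or.inr (Or.inl ⟨hv, hv, k, by omega⟩)
    · obtain ⟨p, p1, rfl⟩ := h.pred x1 hv (by omega)
      have := (h.rk_succ x1 p1 a.2.1).2
      have := (w.link h h' (p := p) ⟨p1, by omega, a.2.1⟩).1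
      have := mem_pth.1 p1
      exact Or.inl ⟨hv, by omega⟩
  have h2 : #((pth R x lp).filter (Low R x lp rp)) ≤ #((pth R x lp).filter fun u => lq u ≠ x) := by
    refine card_le_card_of_injOn rp (fun v hv => ?_) fun u hu v hv e => ?_
    · have k := (mem_filter.1 hv).2
      have := (w.link h h' k).1
      have := mem_pth.1 k.1
      exact mem_filter.2 ⟨(h.rk_succ x1 k.1 k.2.2).1, by omega⟩
    · have a := mem_pth.1 (mem_filter.1 hu).1
      have b := mem_pth.1 (mem_filter.1 hv).1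
      exact h.rp_inj x1 a.1 a.2.1 a.2.2 b.1 b.2.1 b.2.2 e
  have h3 : #((pth R x lp).filter fun v => rp v = R) ≤ 1 := by
    refine card_le_one.2 fun u hu v hv => ?_
    have a := mem_pth.1 (mem_filter.1 hu).1
    have b := mem_pth.1 (mem_filter.1 hv).1
    exact h.rp_inj x1 a.1 a.2.1 a.2.2 b.1 b.2.1 b.2.2
      ((mem_filter.1 hu).2.trans (mem_filter.1 hv).2.symm)
  have := (card_le_card h1).trans (card_union_le _ _)
  have := card_union_le ((pth R x lp).filter (Low R x lp rp))
    ((pth R x lp).filter fun v => rp v = R)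
  omega

theorem Nw.los (h : Pr L R π lp rp) (h' : Pr L R π' lq rq) (w : Nw L R x π π' lp rp low) {u : ℤ}
    (h1 : x < u) (h2 : u < R) (h3 : lp u < x) (h4 : lq u ≠ x) :
    x < lq u ∧ lq u < u ∧ lp (lq u) < x ∧ rp (lq u) = u ∧ rq u = rp u ∧ lq (lq u) = x := by
  have x1 := w.x1
  by_cases k : ∀ p, low p → rp p ≠ u
  · exact absurd (w.hang h h' h1 h2 h3 k) h4
  push Not at k
  obtain ⟨p, p1, rfl⟩ := k
  obtain ⟨a1, a2, a3, a4, a5⟩ := w.alt p p1
  rw [(w.link h h' p1).1]
  refine ⟨a1, (h.bnd (by omega) a3).2.2.1, a2, rfl, w.keep h h' h1 h2 a5,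
    w.hang h h' a1 a3 a2 fun q q1 q2 => ?_⟩
  exact (w.alt q q1).2.2.2.2 (q2 ▸ p1)

theorem Nw.low' (h : Pr L R π lp rp) (h' : Pr L R π' lq rq) (w : Nw L R x π π' lp rp low) {v : ℤ}
    (h1 : x < v) (h2 : v < R) (h4 : rq v ≠ rp v) :
    rp v < R ∧ lq (rp v) = v ∧ rq v = rp (rp v) := by
  by_cases k : low v
  · exact ⟨(w.alt v k).2.2.2.1, w.link h h' k⟩
  · exact absurd (w.keep h h' h1 h2 k) h4

/-- the mirror image of a parent map -/
def cj (f : ℤ → ℤ) (v : ℤ) : ℤ := mr (f (mr v))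

theorem cj_mr (f : ℤ → ℤ) (v : ℤ) : cj f (mr v) = mr (f v) := by simp [cj]

theorem Pr.mir (h : Pr L R π lp rp) : Pr (mr R) (mr L) (fun v => π (mr v)) (cj rp) (cj lp) := by
  refine ⟨fun u v a b c e k => ?_, fun v a b => ?_, fun v a b => ?_⟩
  · exact mr_inj.1 (h.inj (mr u) (mr v) (by unfold mr at *; omega) (by unfold mr at *; omega)
      (by unfold mr at *; omega) (by unfold mr at *; omega) k)
  · obtain ⟨a1, a2, a3, a4⟩ := h.r (mr v) (by unfold mr at *; omega) (by unfold mr at *; omega)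
    refine ⟨mr_le.2 a1, by unfold cj mr at *; omega, fun k => ?_, fun y b1 b2 => ?_⟩
    · simp only [cj, mr_mr]; exact a3 (mr_lt.1 k)
    · exact a4 (mr y) (mr_lt.2 b2) (by unfold cj mr at *; omega)
  · obtain ⟨a1, a2, a3, a4⟩ := h.l (mr v) (by unfold mr at *; omega) (by unfold mr at *; omega)
    refine ⟨mr_le.2 a1, by unfold cj mr at *; omega, fun k => ?_, fun y b1 b2 => ?_⟩
    · simp only [cj, mr_mr]; exact a3 (mr_lt.1 k)
    · exact a4 (mr y) (by unfold cj mr at *; omega) (mr_lt.2 b1)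

theorem Pr.tree (h : Pr L R π lp rp) : Tree L R lp rp := by
  refine ⟨fun v a b => h.bnd a b, fun y z a b c e => ?_, fun y z a b c e => ?_,
    fun y a b c => h.ancR a b c, fun y a b c => h.ancL a b c, fun a b a1 a2 a3 => ?_⟩
  · have := h.bnd a b
    have := h.lam a b c (by omega) (by omega)
    exact ⟨this.1, this.2.2.1 e⟩
  · have := h.bnd a b
    have := h.lam a b (z := z) (by omega) e (by omega)
    exact ⟨this.2.2.2 c, this.2.1⟩
  · obtain ⟨c, c1, c2⟩ := exists_max_image (Icc a b) π ⟨a, mem_Icc.2 ⟨le_rfl, a2⟩⟩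
    rw [mem_Icc] at c1
    obtain ⟨b1, b2, b3, -⟩ := h.l c (by omega) (by omega)
    obtain ⟨d1, d2, d3, -⟩ := h.r c (by omega) (by omega)
    refine ⟨c, c1.1, c1.2, ?_, ?_⟩
    · by_contra k
      have := c2 (lp c) (mem_Icc.2 (by omega))
      have := b3 (by omega)
      omega
    · by_contra k
      have := c2 (rp c) (mem_Icc.2 (by omega))
      have := d3 (by omega)
      omega

theorem step (h : Pr L R π lp rp) (h' : Pr L R π' lq rq) {low' : ℤ → Prop}
    (w : Nw L R x π π' lp rp low)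
    (w' : Nw (mr R) (mr L) (mr x) (fun v => π (mr v)) (fun v => π' (mr v)) (cj rp) (cj lp) low') :
    Step L R x lp rp lq rq := by
  have x1 := w.x1
  have x2 := w.x2
  refine ⟨⟨x1, x2⟩, fun v a b c e => ?_, ⟨?_, ?_⟩, fun u a b c e => w.los h h' a b c e,
    fun v a b _ e => w.low' h h' a b e, fun u a b c e => ?_, fun v a b c e => ?_⟩
  · have := h.bnd a b
    rcases lt_or_gt_of_ne c with k | k
    · have := w'.off h.mir h'.mir (v := mr v) (mr_lt.2 k) (mr_lt.2 a)
        (by rw [cj_mr]; exact mr_le.2 (by omega))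
      simp only [cj_mr, mr_inj] at this
      exact this.symm
    · exact w.off h h' k b (by omega)
  · exact (h'.l x x1 x2).uniq ⟨le_rfl, x1, fun k => absurd k (lt_irrefl _),
      fun y a b => (w.top y a (by omega) (by omega)).le⟩
  · exact (h'.r x x1 x2).uniq ⟨le_rfl, x2, fun k => absurd k (lt_irrefl _),
      fun y a b => (w.top y (by omega) b (by omega)).le⟩
  · have := w'.los h.mir h'.mir (u := mr u) (mr_lt.2 b) (mr_lt.2 a)
      (by rw [cj_mr]; exact mr_lt.2 c) (by rw [cj_mr]; exact fun k => e (mr_inj.1 k))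
    simpa only [cj_mr, mr_inj, mr_lt] using this
  · have := w'.low' h.mir h'.mir (v := mr v) (mr_lt.2 b) (mr_lt.2 a)
      (by rw [cj_mr, cj_mr]; exact fun k => e (mr_inj.1 k))
    simpa only [cj_mr, mr_inj, mr_lt] using this

/-- the left parents of given priorities -/
noncomputable def lf (L : ℤ) (π : ℤ → ℕ) (v : ℤ) : ℤ := (exL L π v).choose

/-- the right parents of given priorities -/
noncomputable def rf (R : ℤ) (π : ℤ → ℕ) (v : ℤ) : ℤ := (exR R π v).choose

theorem pr_of (h : ∀ u v, L < u → u < R → L < v → v < R → π u = π v → u = v) :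
    Pr L R π (lf L π) (rf R π) :=
  ⟨h, fun v a _ => (exL L π v).choose_spec a, fun v _ b => (exR R π v).choose_spec b⟩

/-- the priorities after an access -/
noncomputable def nxt (L R x : ℤ) (π : ℤ → ℕ) (lp rp : ℤ → ℤ) (v : ℤ) : ℕ :=
  if v = x then 2 * (Ioo L R).sup π + 2 else if Low R x lp rp v then 2 * π (rp v) + 1
  else if Low (mr L) (mr x) (cj rp) (cj lp) (mr v) then 2 * π (lp v) + 1 else 2 * π v

theorem altL (h : Pr L R π lp rp) (x2 : x < R) (v : ℤ)
    (k : Low (mr L) (mr x) (cj rp) (cj lp) (mr v)) : v < x ∧ x < rp v ∧ L < v ∧ L < lp v := by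
  have := h.mir.alt (mr_lt.2 x2) _ k
  simp only [cj_mr, mr_lt] at this
  exact ⟨this.1, this.2.1, this.2.2.1, this.2.2.2.1⟩

theorem nxt_top (h : Pr L R π lp rp) (x1 : L < x) (x2 : x < R) (v : ℤ) (a : L < v) (b : v < R)
    (c : v ≠ x) : nxt L R x π lp rp v < nxt L R x π lp rp x := by
  have s : ∀ y, L < y → y < R → π y ≤ (Ioo L R).sup π := fun y a b =>
    le_sup (f := π) (mem_Ioo.2 ⟨a, b⟩)
  have := h.bnd a b
  unfold nxt
  rw [if_neg c, if_pos rfl]
  split_ifs with k l
  · have := s (rp v) (by omega) (h.alt x1 v k).2.2.2.1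
    omega
  · have := s (lp v) (altL h x2 v l).2.2.2 (by omega)
    omega
  · have := s v a b
    omega

theorem nxt_R (h : Pr L R π lp rp) (x1 : L < x) (x2 : x < R) :
    Nw L R x π (nxt L R x π lp rp) lp rp (Low R x lp rp) := by
  refine ⟨x1, x2, nxt_top h x1 x2, h.alt x1, fun v k => ?_, fun v a _ k => ?_⟩
  · have := (h.alt x1 v k).1
    unfold nxt
    rw [if_neg (by omega), if_pos k]
  · unfold nxt
    rw [if_neg (by omega), if_neg k, if_neg fun l => by have := altL h x2 v l; omega]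

theorem nxt_L (h : Pr L R π lp rp) (x1 : L < x) (x2 : x < R) :
    Nw (mr R) (mr L) (mr x) (fun v => π (mr v)) (fun v => nxt L R x π lp rp (mr v)) (cj rp) (cj lp)
      (Low (mr L) (mr x) (cj rp) (cj lp)) := by
  refine ⟨mr_lt.2 x2, mr_lt.2 x1, fun v a b c => ?_, h.mir.alt (mr_lt.2 x2), fun v k => ?_,
    fun v a _ k => ?_⟩
  · rw [mr_mr]
    exact nxt_top h x1 x2 _ (by unfold mr at *; omega) (by unfold mr at *; omega)
      (by unfold mr at *; omega)
  · have k' : Low (mr L) (mr x) (cj rp) (cj lp) (mr (mr v)) := by rwa [mr_mr]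
    have := altL h x2 _ k'
    unfold nxt
    rw [if_neg (by omega), if_neg fun l => by have := h.alt x1 _ l; omega, if_pos k']
    simp only [cj, mr_mr]
  · have : mr v < x := by unfold mr at *; omega
    unfold nxt
    rw [if_neg (by omega), if_neg fun l => by have := h.alt x1 _ l; omega,
      if_neg (by rwa [mr_mr])]

theorem nxt_inj (h : Pr L R π lp rp) (x1 : L < x) (x2 : x < R) (u v : ℤ) (u1 : L < u) (u2 : u < R)
    (v1 : L < v) (v2 : v < R) (e : nxt L R x π lp rp u = nxt L R x π lp rp v) : u = v := by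
  by_cases a : u = x
  · by_contra k
    have := nxt_top h x1 x2 v v1 v2 (by omega)
    rw [a] at e; omega
  by_cases b : v = x
  · have := nxt_top h x1 x2 u u1 u2 a
    rw [b] at e; omega
  have bu := h.bnd u1 u2
  have bv := h.bnd v1 v2
  unfold nxt at e
  rw [if_neg a, if_neg b] at e
  split_ifs at e with k1 k2 k3 k4 k5 k6 k7 k8
  · have p := h.alt x1 u k1
    have q := h.alt x1 v k2
    exact h.rp_inj x1 p.1 u2 p.2.1 q.1 v2 q.2.1
      (h.inj _ _ (by omega) (by omega) (by omega) (by omega) (by omega))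
  · have p := h.alt x1 u k1
    have q := altL h x2 v k3
    have := h.inj (rp u) (lp v) (by omega) (by omega) (by omega) (by omega) (by omega)
    omega
  · omega
  · have p := h.alt x1 v k5
    have q := altL h x2 u k4
    have := h.inj (rp v) (lp u) (by omega) (by omega) (by omega) (by omega) (by omega)
    omega
  · have p := altL h x2 u k4
    have q := altL h x2 v k6
    have := h.inj (lp u) (lp v) (by omega) (by omega) (by omega) (by omega) (by omega)
    exact mr_inj.1 (h.mir.rp_inj (mr_lt.2 x2) (mr_lt.2 p.1) (mr_lt.2 u1)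
      (by rw [cj_mr]; exact mr_lt.2 p.2.1) (mr_lt.2 q.1) (mr_lt.2 v1)
      (by rw [cj_mr]; exact mr_lt.2 q.2.1) (by rw [cj_mr, cj_mr, this]))
  · omega
  · omega
  · omega
  · exact h.inj u v u1 u2 v1 v2 (by omega)

/-- the priorities along a run -/
noncomputable def pri (L R : ℤ) (x : ℕ → ℤ) : ℕ → ℤ → ℕ
  | 0 => fun v => (v - L).toNat
  | i + 1 => nxt L R (x i) (pri L R x i) (lf L (pri L R x i)) (rf R (pri L R x i))

theorem pri_pr {m : ℕ} {x : ℕ → ℤ} (hx : ∀ i < m, L < x i ∧ x i < R) : ∀ i ≤ m,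
    Pr L R (pri L R x i) (lf L (pri L R x i)) (rf R (pri L R x i))
  | 0, _ => pr_of fun u v a _ b _ e => by simp only [pri] at e; omega
  | i + 1, k => pr_of (nxt_inj (pri_pr hx i (by omega)) (hx i k).1 (hx i k).2)

theorem tot (e : Run) (h : ∀ i < e.m, #(e.P i) ≤ 2 * #(e.U i) + 1) : e.NR ≤ 2 * e.LamR + e.m := by
  unfold Run.NR Run.LamR
  rw [mul_sum]
  refine (sum_le_sum fun i hi => h i (mem_range.1 hi)).trans (le_of_eq ?_)
  rw [sum_add_distrib, ← card_eq_sum_ones, card_range]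

end ALGAc

theorem p_ALGA (hEMIR : S_EMIR) :
    S_ALGA := by
  intro d hd
  have hx : ∀ i < d.m, d.L < d.x i ∧ d.x i < d.R := fun i hi => (hd.step i hi).mem
  have pr := ALGAc.pri_pr hx
  refine ⟨⟨d.L, d.R, d.m, d.x, fun i => ALGAc.lf d.L (ALGAc.pri d.L d.R d.x i),
    fun i => ALGAc.rf d.R (ALGAc.pri d.L d.R d.x i)⟩, ⟨rfl, rfl, rfl, rfl⟩,
    ⟨fun i hi => (pr i hi).tree, fun i hi => ?_⟩, ?_, ?_⟩
  · exact ALGAc.step (pr i hi.le) (pr (i + 1) hi) (ALGAc.nxt_R (pr i hi.le) (hx i hi).1 (hx i hi).2)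
      (ALGAc.nxt_L (pr i hi.le) (hx i hi).1 (hx i hi).2)
  · exact ALGAc.tot _ fun i hi =>
      (ALGAc.nxt_R (pr i hi.le) (hx i hi).1 (hx i hi).2).cnt (pr i hi.le) (pr (i + 1) hi)
  · exact ALGAc.tot _ fun i hi =>
      (ALGAc.nxt_L (pr i hi.le) (hx i hi).1 (hx i hi).2).cnt (pr i hi.le).mir (pr (i + 1) hi).mir

end Pool.Agent.P.MP_119182_lc.NU
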