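import Pool.Agent.P.MP_119182_lc.NU.SIface

/-! Step DY. -/

set_option autoImplicit false

namespace Pool.Agent.P.MP_119182_lc.NU

open Finset
open scoped Classical

namespace DYc

theorem div_mono (e : ℕ) {a b : ℤ} (h : a ≤ b) : a / 2 ^ e ≤ b / 2 ^ e :=
  Int.ediv_le_ediv (by positivity) h

theorem div_btw {e : ℕ} {a b z : ℤ} (h : a / 2 ^ e = b / 2 ^ e)
    (hz : (a ≤ z ∧ z ≤ b) ∨ (b ≤ z ∧ z ≤ a)) : a / 2 ^ e = z / 2 ^ e := by
  rcases hz with hz | hz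
  · have := div_mono e hz.1
    have := div_mono e hz.2
    omega
  · have := div_mono e hz.1
    have := div_mono e hz.2
    omega

theorem div_succ (e : ℕ) (a : ℤ) : a / 2 ^ (e + 1) = a / 2 ^ e / 2 := by
  rw [pow_succ, Int.ediv_ediv_of_nonneg (by positivity)]

theorem div_up {e e' : ℕ} {a b : ℤ} (h : a / 2 ^ e = b / 2 ^ e) (he : e ≤ e') :
    a / 2 ^ e' = b / 2 ^ e' := by
  induction e', he using Nat.le_induction with
  | base => exact h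
  | succ k _ ih => rw [div_succ, div_succ, ih]

/-- The block of level `e` around `y` is a maximal block free of `S`. -/
def Mx (S : Finset ℤ) (y : ℤ) (e : ℕ) : Prop :=
  (∀ s ∈ S, y / 2 ^ e ≠ s / 2 ^ e) ∧ ∃ s ∈ S, y / 2 ^ (e + 1) = s / 2 ^ (e + 1)

/-- The level of the maximal free block. -/
noncomputable def lv (S : Finset ℤ) (y : ℤ) : ℕ :=
  sInf {e | ∃ s ∈ S, y / 2 ^ (e + 1) = s / 2 ^ (e + 1)}

theorem lv_eq {S : Finset ℤ} {y : ℤ} {e : ℕ} (h : Mx S y e) : lv S y = e := by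
  have h0 : lv S y ≤ e := Nat.sInf_le h.2
  by_contra hc
  obtain ⟨s, hs, h1⟩ : lv S y ∈ {e | ∃ s ∈ S, y / 2 ^ (e + 1) = s / 2 ^ (e + 1)} :=
    Nat.sInf_mem ⟨e, h.2⟩
  exact h.1 s hs (div_up h1 (by omega))

theorem lv_spec {S : Finset ℤ} {y : ℤ} {D : ℕ} (hy : y ∉ S)
    (h : ∃ s ∈ S, y / 2 ^ D = s / 2 ^ D) : lv S y < D ∧ Mx S y (lv S y) := by
  obtain ⟨s, hs, h1⟩ := h
  cases D with
  | zero =>
    simp only [pow_zero, Int.ediv_one] at h1
    exact absurd (h1 ▸ hs) hy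
  | succ D =>
    have h2 : D ∈ {e | ∃ s ∈ S, y / 2 ^ (e + 1) = s / 2 ^ (e + 1)} := ⟨s, hs, h1⟩
    refine ⟨Nat.lt_succ_of_le (Nat.sInf_le h2), fun t ht h3 => ?_, Nat.sInf_mem ⟨D, h2⟩⟩
    rcases he : lv S y with _ | e
    · rw [he] at h3
      simp only [pow_zero, Int.ediv_one] at h3
      exact hy (h3 ▸ ht)
    · rw [he] at h3
      have : lv S y ≤ e := Nat.sInf_le ⟨t, ht, h3⟩
      omega

theorem Mx.congr {S : Finset ℤ} {y y' : ℤ} {e : ℕ} (h : Mx S y e)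
    (h' : y / 2 ^ e = y' / 2 ^ e) : Mx S y' e := by
  obtain ⟨h1, s, hs, h2⟩ := h
  exact ⟨fun t ht => h' ▸ h1 t ht, s, hs, (div_up h' (Nat.le_succ e)).symm.trans h2⟩

/-- The label of the maximal free block. -/
noncomputable def lab (S : Finset ℤ) (y : ℤ) : ℕ × ℤ := (lv S y, y / 2 ^ lv S y)

theorem lab_eq {S : Finset ℤ} {a b : ℤ} (h : lab S a = lab S b) :
    lv S a = lv S b ∧ a / 2 ^ lv S a = b / 2 ^ lv S a := by
  unfold lab at h
  rw [Prod.mk.injEq] at h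
  exact ⟨h.1, by rw [h.2, h.1]⟩

/-- Both slots lie in one gap of `S` and in one universe that meets `S`. -/
def Rel (S : Finset ℤ) (D : ℕ) (a b : ℤ) : Prop :=
  (∃ s ∈ S, a / 2 ^ D = s / 2 ^ D ∧ b / 2 ^ D = s / 2 ^ D) ∧
    ∀ s ∈ S, (s < a ∧ s < b) ∨ (a < s ∧ b < s)

theorem Rel.spec {S : Finset ℤ} {D : ℕ} {a b : ℤ} (h : Rel S D a b) :
    lv S a < D ∧ Mx S a (lv S a) := by
  obtain ⟨⟨s, hs, h1, -⟩, h2⟩ := h
  refine lv_spec (fun ha => ?_) ⟨s, hs, h1⟩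
  have := h2 a ha
  omega

theorem count {S A : Finset ℤ} {D : ℕ} {I : Finset (ℕ × ℤ)}
    (h : ∀ a ∈ I, ∃ y, lab S y = a ∧ lv S y < D ∧
      ∃ s ∈ A, y / 2 ^ (lv S y + 1) = s / 2 ^ (lv S y + 1)) : I.card ≤ 2 * D * A.card := by
  have hs : I ⊆ ((range 2 ×ˢ range D) ×ˢ A).image
      fun z => (z.1.2, 2 * (z.2 / 2 ^ (z.1.2 + 1)) + z.1.1) := by
    intro a ha
    obtain ⟨y, rfl, h1, s, hs, h2⟩ := h a ha
    rw [div_succ] at h2
    refine mem_image.2 ⟨(((y / 2 ^ lv S y % 2).toNat, lv S y), s), ?_, ?_⟩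
    · simp only [mem_product, mem_range]
      exact ⟨⟨by omega, h1⟩, hs⟩
    · unfold lab
      simp only [Prod.mk.injEq, true_and]
      omega
  refine (card_le_card hs).trans (card_image_le.trans ?_)
  simp

/-- No element of `S` lies between `y` and `q`. -/
def Near (S : Finset ℤ) (q y : ℤ) : Prop := ¬ ∃ s ∈ S, (y ≤ s ∧ s ≤ q) ∨ (q ≤ s ∧ s ≤ y)

theorem anchors (S : Finset ℤ) (q : ℤ) : ∃ A : Finset ℤ, A.card ≤ 3 ∧
    ∀ y e, Near S q y → (∃ s ∈ insert q S, y / 2 ^ e = s / 2 ^ e) →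
      ∃ s ∈ A, y / 2 ^ e = s / 2 ^ e := by
  have h1 : ∃ p, ∀ s ∈ S, s < q → p ∈ S ∧ s ≤ p ∧ p < q := by
    by_cases h : (S.filter fun s => s < q).Nonempty
    · obtain ⟨p, hp, hm⟩ := exists_max_image _ id h
      rw [mem_filter] at hp
      exact ⟨p, fun s hs hq => ⟨hp.1, hm s (mem_filter.2 ⟨hs, hq⟩), hp.2⟩⟩
    · exact ⟨0, fun s hs hq => absurd ⟨s, mem_filter.2 ⟨hs, hq⟩⟩ h⟩
  have h2 : ∃ p, ∀ s ∈ S, q < s → p ∈ S ∧ p ≤ s ∧ q < p := by
    by_cases h : (S.filter fun s => q < s).Nonempty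
    · obtain ⟨p, hp, hm⟩ := exists_min_image _ id h
      rw [mem_filter] at hp
      exact ⟨p, fun s hs hq => ⟨hp.1, hm s (mem_filter.2 ⟨hs, hq⟩), hp.2⟩⟩
    · exact ⟨0, fun s hs hq => absurd ⟨s, mem_filter.2 ⟨hs, hq⟩⟩ h⟩
  obtain ⟨p, hp⟩ := h1
  obtain ⟨r, hr⟩ := h2
  refine ⟨{q, p, r}, card_le_three, fun y e hn ⟨s, hs, h⟩ => ?_⟩
  by_cases hq : (y ≤ q ∧ q ≤ s) ∨ (s ≤ q ∧ q ≤ y)
  · exact ⟨q, by simp, div_btw h hq⟩
  rcases mem_insert.1 hs with rfl | hs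
  · exact ⟨s, by simp, h⟩
  rcases lt_trichotomy s q with h3 | h3 | h3
  · obtain ⟨a1, a2, a3⟩ := hp s hs h3
    have : ¬ ((y ≤ p ∧ p ≤ q) ∨ (q ≤ p ∧ p ≤ y)) := fun h => hn ⟨p, a1, h⟩
    exact ⟨p, by simp, div_btw h (by omega)⟩
  · omega
  · obtain ⟨a1, a2, a3⟩ := hr s hs h3
    have : ¬ ((y ≤ r ∧ r ≤ q) ∨ (q ≤ r ∧ r ≤ y)) := fun h => hn ⟨r, a1, h⟩
    exact ⟨r, by simp, div_btw h (by omega)⟩

theorem rel_old {S : Finset ℤ} {D : ℕ} {q y : ℤ} (hn : ¬ Near S q y)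
    (h : Rel (insert q S) D y y) :
    Rel S D y y ∧ (∀ z, Rel S D y z → Rel (insert q S) D y z) ∧ lab (insert q S) y = lab S y := by
  obtain ⟨p, hp, hb⟩ := not_not.1 hn
  have h1 : Rel S D y y := by
    obtain ⟨⟨s, hs, h1, -⟩, h2⟩ := h
    refine ⟨?_, fun t ht => h2 t (mem_insert_of_mem ht)⟩
    rcases mem_insert.1 hs with rfl | hs
    · exact ⟨p, hp, div_btw h1 hb, div_btw h1 hb⟩
    · exact ⟨s, hs, h1, h1⟩
  refine ⟨h1, fun z ⟨⟨s, hs, h3⟩, h4⟩ => ⟨⟨s, mem_insert_of_mem hs, h3⟩, fun t ht => ?_⟩, ?_⟩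
  · rcases mem_insert.1 ht with rfl | ht
    · have := h4 p hp
      omega
    · exact h4 t ht
  · obtain ⟨h3, s, hs, h4⟩ := h1.spec.2
    have : lv (insert q S) y = lv S y := by
      refine lv_eq ⟨fun t ht => ?_, s, mem_insert_of_mem hs, h4⟩
      rcases mem_insert.1 ht with rfl | ht
      · exact fun h5 => h3 p hp (div_btw h5 hb)
      · exact h3 t ht
    unfold lab
    rw [this]

theorem sep_eq {d : Run} {l : Lev} (h : l.OK d) {i : ℕ} (h0 : l.t0 ≤ i) (h1 : i < l.t1)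
    (ho : l.om (i + 1) = l.om i) : l.Sep (i + 1) = l.Q d i :=
  Subset.antisymm (h.sub i h0 h1) (insert_subset (h.own i h0 h1) (h.keep i h0 h1 ho))

theorem sep_mem {d : Run} {l : Lev} (h : l.OK d) {s i : ℕ} (h0 : l.t0 ≤ s) (hs : s < i)
    (h1 : i < l.t1) (ho : l.om s = l.om i) : l.slot (d.x s) ∈ l.Sep i := by
  induction i, hs using Nat.le_induction with
  | base => exact h.own s h0 (by omega)
  | succ k hk ih =>
    have e1 := h.omm (show s ≤ k by omega)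
    have e2 := h.omm (Nat.le_succ k)
    have e3 : l.om (k + 1) = l.om k := le_antisymm (ho ▸ e1) e2
    exact h.keep k (by omega) (by omega) e3 (ih (by omega) (ho.trans e3))

theorem step {d : Run} {l : Lev} (hl : l.OK d) {D i : ℕ} {I : Finset (ℕ × ℤ)}
    (h : ∀ a ∈ I, ∃ y, (i = l.t0 ∨ l.om i ≠ l.om (i - 1) ∨ Near (l.Sep i) (l.slot (d.x i)) y) ∧
      l.t0 ≤ i ∧ i < l.t1 ∧ Rel (l.Q d i) D y y ∧ lab (l.Q d i) y = a) :
    I.card ≤ 6 * D * ((if i = l.t0 then (l.Q d i).card else 0) +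
      (if i ∈ l.chg then (l.Q d i).card else 0) + if i ∈ l.fst d then 1 else 0) := by
  rcases I.eq_empty_or_nonempty with rfl | ⟨a0, ha0⟩
  · simp
  obtain ⟨y0, hy0, hr0, hr1, -⟩ := h a0 ha0
  by_cases h1 : i = l.t0 ∨ l.om i ≠ l.om (i - 1)
  · refine le_trans (count (S := l.Q d i) (A := l.Q d i) (D := D) fun a ha => ?_) ?_
    · obtain ⟨y, -, -, -, h2, h3⟩ := h a ha
      exact ⟨y, h3, h2.spec.1, h2.spec.2.2⟩
    · refine Nat.mul_le_mul (by omega) ?_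
      by_cases h2 : i = l.t0
      · rw [if_pos h2]; omega
      · have : i ∈ l.chg := mem_filter.2 ⟨mem_Ioo.2 ⟨by omega, hr1⟩, h1.resolve_left h2⟩
        rw [if_pos this]; omega
  rw [← or_assoc] at hy0
  have h2 : l.slot (d.x i) ∉ l.Sep i := fun h2 => hy0.resolve_left h1 ⟨_, h2, by omega⟩
  have h3 : i ∈ l.fst d := mem_filter.2 ⟨mem_Ico.2 ⟨hr0, hr1⟩, fun s a b e h =>
    h2 (h ▸ sep_mem hl a b hr1 e)⟩
  obtain ⟨A, hA, hA'⟩ := anchors (l.Sep i) (l.slot (d.x i))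
  refine le_trans (count (S := l.Q d i) (A := A) (D := D) fun a ha => ?_) ?_
  · obtain ⟨y, h4, -, -, h5, h6⟩ := h a ha
    rw [← or_assoc] at h4
    exact ⟨y, h6, h5.spec.1, hA' _ _ (h4.resolve_left h1) h5.spec.2.2⟩
  · rw [if_pos h3]
    calc 2 * D * A.card ≤ 2 * D * 3 := Nat.mul_le_mul_left _ hA
      _ = 6 * D * 1 := by ring
      _ ≤ _ := Nat.mul_le_mul_left _ (by omega)

end DYc

theorem p_DY (hGAP : S_GAP) :
    S_DY := by
  intro d l D c hd hl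
  have hG := hGAP (ℕ × ℤ) d c
    (fun i a b => l.t0 ≤ i ∧ i < l.t1 ∧ DYc.Rel (l.Q d i) D (l.slot a) (l.slot b))
    (fun i v => DYc.lab (l.Q d i) (l.slot v))
    (fun i => {v | i = l.t0 ∨ l.om i ≠ l.om (i - 1) ∨
      DYc.Near (l.Sep i) (l.slot (d.x i)) (l.slot v)}) hd ?_ ?_ ?_ ?_ ?_ ?_ ?_ ?_ ?_
  · refine hG.mono ?_ ?_
    · rw [show 6 * D * c * l.dyCost d = c * (6 * D * l.dyCost d) by ring]
      refine Nat.mul_le_mul_left _ (le_trans (sum_le_sum (g := fun i => 6 * D *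
        ((if i = l.t0 then (l.Q d i).card else 0) + (if i ∈ l.chg then (l.Q d i).card else 0) +
          if i ∈ l.fst d then 1 else 0)) fun i _ => ?_) ?_)
      · refine DYc.step hl fun a ha => ?_
        simp only [mem_image, mem_filter, Set.mem_ofPred_eq] at ha
        obtain ⟨v, ⟨-, h1, h2, h3, h4⟩, h5⟩ := ha
        exact ⟨_, h1, h2, h3, h4, h5⟩
      · rw [← mul_sum, sum_add_distrib, sum_add_distrib]
        refine Nat.mul_le_mul_left _ (Nat.add_le_add (Nat.add_le_add ?_ ?_) ?_)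
        · rw [sum_ite_eq']
          split_ifs <;> simp
        · rw [sum_ite_mem]
          exact sum_le_sum_of_subset inter_subset_right
        · rw [sum_ite_mem, ← card_eq_sum_ones]
          exact card_le_card inter_subset_right
    · intro i hi Q hQ v Y h0 h1 hY h2 h3 h4
      obtain ⟨s, hs, h3⟩ := h3
      have hR : ∀ a ∈ Y, ∀ b ∈ Y, DYc.Rel (l.Q d i) D (l.slot a) (l.slot b) := by
        intro a ha b hb
        refine ⟨⟨s, hs, h3 a ha, h3 b hb⟩, fun t ht => ?_⟩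
        have := h2 a ha a ha t ht
        have := h2 a ha b hb t ht
        have := h2 b hb a ha t ht
        have := h2 b hb b hb t ht
        omega
      refine hQ v Y hY (fun a ha b hb => ⟨h0, h1, hR a ha b hb⟩) fun Z hZ hc hf => ?_
      rcases Z.eq_empty_or_nonempty with rfl | ⟨z, hz⟩
      · exact Run.good_of_empty fun _ _ _ h => h.elim
      have hs := (hR z (hZ hz) z (hZ hz)).spec
      refine h4 Z hZ hc _ hs.1 (fun a ha b hb => ?_) fun a ha t ht => ?_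
      · exact (DYc.lab_eq (hf z hz a ha)).2.symm.trans (DYc.lab_eq (hf z hz b hb)).2
      · rw [← (DYc.lab_eq (hf z hz a ha)).2]
        exact hs.2.1 t ht
  · rintro i a b ⟨h0, h1, ⟨s, hs, h2, h3⟩, h4⟩
    exact ⟨h0, h1, ⟨s, hs, h3, h2⟩, fun t ht => by have := h4 t ht; omega⟩
  · rintro i a b e ⟨h0, h1, ⟨s, hs, h2, h3⟩, h4⟩ ⟨-, -, ⟨s', -, h5, h6⟩, h7⟩
    refine ⟨h0, h1, ⟨s, hs, h2, by rw [h6, ← h5, h3]⟩, fun t ht => ?_⟩
    have := h4 t ht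
    have := h7 t ht
    omega
  · rintro i a b e ⟨h0, h1, ⟨s, hs, h2, h3⟩, h4⟩ hab hbe
    have e1 := hl.slotm hab
    have e2 := hl.slotm hbe
    refine ⟨h0, h1, ⟨s, hs, h2, ?_⟩, fun t ht => ?_⟩
    · rw [← h2]
      exact (DYc.div_btw (h2.trans h3.symm) (Or.inl ⟨e1, e2⟩)).symm
    · have := h4 t ht
      omega
  · rintro i _ ⟨-, -, -, h⟩
    have := h _ (mem_insert_self _ _)
    omega
  · rintro i a b e ⟨-, -, h⟩ he hab hbe
    have e1 := DYc.div_btw (DYc.lab_eq he).2 (Or.inl ⟨hl.slotm hab, hl.slotm hbe⟩)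
    have e2 := DYc.lv_eq (h.spec.2.congr e1)
    show DYc.lab _ _ = DYc.lab _ _
    unfold DYc.lab
    rw [e2, e1]
  · rintro i a b ⟨h0, h1, ha⟩ ⟨-, -, hb⟩ he
    have e1 := (DYc.lab_eq he).2
    have hs := ha.spec
    obtain ⟨⟨s, hs', h2, -⟩, h3⟩ := ha
    refine ⟨h0, h1, ⟨s, hs', h2, (DYc.div_up e1 hs.1.le).symm.trans h2⟩, fun t ht => ?_⟩
    by_contra hn
    exact hs.2.1 t ht (DYc.div_btw e1 (by omega))
  · exact fun v hv => Or.inl (Nat.le_zero.1 hv.1).symm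
  · rintro i _ v hv ⟨h0, h1, h2⟩
    simp only [Set.mem_ofPred_eq, not_or, Nat.add_sub_cancel, not_not] at hv
    have e := DYc.sep_eq hl (i := i) (by omega) (by omega) hv.2.1
    have hv' := hv.2.2
    rw [Lev.Q] at h2
    rw [e] at h2 hv'
    obtain ⟨a1, a2, -⟩ := DYc.rel_old hv' h2
    refine ⟨⟨by omega, by omega, a1⟩, fun u hu => ⟨h0, h1, ?_⟩⟩
    rw [Lev.Q, e]
    exact a2 _ hu.2.2
  · rintro i _ u v hu hv ⟨h0, h1, h2⟩ ⟨-, -, h3⟩ he
    simp only [Set.mem_ofPred_eq, not_or, Nat.add_sub_cancel, not_not] at hu hv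
    have e := DYc.sep_eq hl (i := i) (by omega) (by omega) hv.2.1
    have hu' := hu.2.2
    have hv' := hv.2.2
    rw [Lev.Q] at h2 h3
    rw [e] at h2 h3 hu' hv'
    show DYc.lab _ _ = DYc.lab _ _
    rw [Lev.Q, e, (DYc.rel_old hu' h2).2.2, (DYc.rel_old hv' h3).2.2]
    exact he

end Pool.Agent.P.MP_119182_lc.NU
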