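import Pool.Agent.P.MP_119182_lc.NU.SIface

/-! Step GAP. -/

set_option autoImplicit false

namespace Pool.Agent.P.MP_119182_lc.NU

open Finset
open scoped Classical

namespace GAPc

/-- The keys in a region with a parent outside the region. -/
noncomputable def H (d : Run) (E : ℕ → ℤ → ℤ → Prop) (i : ℕ) : Finset ℤ :=
  d.keys.filter fun v => E i v v ∧ ¬ (E i v (d.lp i v) ∧ E i v (d.rp i v))

/-- The upper nodes that are paid. -/
noncomputable def LD {α : Type} (d : Run) (c : ℕ) (E : ℕ → ℤ → ℤ → Prop) (pt : ℕ → ℤ → α)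
    (i : ℕ) : Finset ℤ :=
  (d.U i).filter fun u => E i u (d.lp (i + 1) u) ∧ E i u (d.rp i u) ∧
    ((H d E i).filter fun z => pt i z = pt i u).card ≤ c

theorem mem_H {d : Run} {E : ℕ → ℤ → ℤ → Prop} {i : ℕ} {v : ℤ} : v ∈ H d E i ↔
    (d.L < v ∧ v < d.R) ∧ E i v v ∧ ¬ (E i v (d.lp i v) ∧ E i v (d.rp i v)) := by
  unfold H; rw [mem_filter, Run.mem_keys]

theorem path_H {d : Run} {E : ℕ → ℤ → ℤ → Prop} {i : ℕ} {v : ℤ}
    (hs : ∀ a b, E i a b → E i b a) (ht : ∀ a b e, E i a b → E i b e → E i a e)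
    (hc : ∀ a b e, E i a e → a ≤ b → b ≤ e → E i a b) (hx : ¬ E i (d.x i) (d.x i))
    (hk : d.L < v ∧ v < d.R) (hv : E i v v) (h1 : d.lp i v < d.x i) (h2 : d.x i < d.rp i v) :
    v ∈ H d E i := by
  refine mem_H.2 ⟨hk, hv, fun h => hx ?_⟩
  have h3 := hc _ _ _ (ht _ _ _ (hs _ _ h.1) h.2) h1.le h2.le
  exact ht _ _ _ (hs _ _ h3) h3

end GAPc

theorem p_GAP (hF2 : S_F2) (hPOT : S_POT) (hPART : S_PART) :
    S_GAP := by
  intro α d c E pt X hd hs ht hc hx hp hq h0 hE hpt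
  have hPH : ∀ i < d.m, ∀ v ∈ d.P i, E i v v → v ∈ GAPc.H d E i := by
    intro i hi v hv hvv
    obtain ⟨a1, a2, a3⟩ := Run.mem_P.1 hv
    have hL := (hd.step i hi).mem.1.trans a1
    have hb := (hd.tree i hi.le).bnd v hL a2
    exact GAPc.path_H (hs i) (ht i) (hc i) (hx i hi) ⟨hL, a2⟩ hvv a3 (by omega)
  have hLD : ∀ i < d.m, GAPc.LD d c E pt i ⊆ GAPc.H d E i := by
    intro i hi u hu
    obtain ⟨b1, b2, -⟩ := mem_filter.1 hu
    exact hPH i hi u (Run.mem_U.1 b1).1 (ht _ _ _ _ b2 (hs _ _ _ b2))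
  have hLc : ∀ i, ∀ v ∈ GAPc.LD d c E pt i,
      ((GAPc.H d E i).filter fun z => pt i z = pt i v).card ≤ c :=
    fun i v hv => (mem_filter.1 hv).2.2.2
  set Xs : ℕ → Finset ℤ := fun i => d.keys.filter fun v => v ∈ X i ∧ E i v v with hXs
  have hnX : ∀ i, ∀ v ∈ GAPc.H d E i, v ∉ Xs i → v ∉ X i := fun i v hv hn hX =>
    hn (mem_filter.2 ⟨Run.mem_keys.2 (GAPc.mem_H.1 hv).1, hX, (GAPc.mem_H.1 hv).2.1⟩)
  have hk : ∀ i, (((GAPc.H d E i).filter fun v => v ∈ Xs i).image (pt i)).card ≤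
      ((Xs i).image (pt i)).card := fun i =>
    card_le_card (image_subset_image fun v hv => (mem_filter.1 hv).2)
  have key : ∀ t, t < d.m → Psi c (GAPc.H d E t) (pt t) +
      ∑ i ∈ range t, (GAPc.LD d c E pt i).card ≤
      c * ∑ i ∈ range (t + 1), ((Xs i).image (pt i)).card := by
    intro t
    induction t with
    | zero =>
      intro _
      have := hPOT α c _ ∅ (GAPc.H d E 0) (Xs 0) ∅ (pt 0) (pt 0) (hk 0)
        (fun v hv hn => absurd (h0 v (GAPc.mem_H.1 hv).2.1) (hnX 0 v hv hn))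
        (fun _ _ _ _ _ _ h => h) (empty_subset _) (by simp)
      simpa [Psi] using this
    | succ t ih =>
      intro h1
      have ht' : t < d.m := by omega
      have h2 := ih ht'
      have h3 := hPOT α c _ (GAPc.H d E t) (GAPc.H d E (t + 1)) (Xs (t + 1))
        (GAPc.LD d c E pt t) (pt t) (pt (t + 1)) (hk (t + 1)) ?_ ?_ (hLD t ht') (hLc t)
      · rw [sum_range_succ, sum_range_succ _ (t + 1), mul_add]
        omega
      · intro v hv hn
        obtain ⟨a1, a2, a3⟩ := GAPc.mem_H.1 hv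
        obtain ⟨b1, b2⟩ := hE t h1 v (hnX _ v hv hn) a2
        constructor
        · by_cases hpa : d.lp t v < d.x t ∧ d.x t < d.rp t v
          · exact GAPc.path_H (hs t) (ht t) (hc t) (hx t ht') a1 b1 hpa.1 hpa.2
          · have hne : v ≠ d.x t := fun e => hx t ht' (e ▸ b1)
            obtain ⟨e1, e2⟩ := (hd.step t ht').off v a1.1 a1.2 hne hpa
            refine GAPc.mem_H.2 ⟨a1, b1, fun h => a3 ?_⟩
            rw [e1, e2]
            exact ⟨b2 _ h.1, b2 _ h.2⟩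
        · intro hv'
          obtain ⟨c1, c2, c3, -⟩ := mem_filter.1 hv'
          have hl := Run.link hd ht' c1
          exact a3 ⟨b2 _ c2, hl.2.2.2.2.2.1 ▸ b2 _ c3⟩
      · intro u hu v hv hnu hnv
        exact hpt t h1 u v (hnX _ u hu hnu) (hnX _ v hv hnv) (GAPc.mem_H.1 hu).2.1
          (GAPc.mem_H.1 hv).2.1
  refine ⟨GAPc.LD d c E pt, ?_, ?_⟩
  · rcases Nat.eq_zero_or_pos d.m with hm | hm
    · simp [hm]
    · obtain ⟨t, ht0⟩ : ∃ t, d.m = t + 1 := ⟨d.m - 1, by omega⟩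
      have ht' : t < d.m := by omega
      have h2 := key t ht'
      have h3 := hPOT α c 0 (GAPc.H d E t) ∅ ∅ (GAPc.LD d c E pt t) (pt t) (pt t) (by simp)
        (by simp) (by simp) (hLD t ht') (hLc t)
      rw [ht0, sum_range_succ]
      refine le_trans ?_ h2
      omega
  · intro i hi Q hQ v Y hY hEY hG
    have hmem : ∀ u ∈ d.unp i Q Y, u ∈ Y := fun u hu => Run.unp_mem hd hi hY.1 hu
    have hoc : ∀ a, ({z | E i z z ∧ pt i z = a} : Set ℤ).OrdConnected := fun a =>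
      ⟨fun y hy z hz b hb => by
        have e1 : pt i y = pt i z := hy.2.trans hz.2.symm
        have e2 := hq i y z hy.1 hz.1 e1
        have e3 := hc i y b z e2 hb.1 hb.2
        exact ⟨ht _ _ _ _ (hs _ _ _ e3) e3, (hp i y b z e2 e1 hb.1 hb.2).trans hy.2⟩⟩
    have h1 := hPART α d c i v Q (GAPc.H d E i) (d.unp i Q Y) Y (pt i)
      (fun a => {z | E i z z ∧ pt i z = a}) hd hi hY.1 subset_rfl ?_ ?_ ?_ ?_ ?_
    · unfold Run.Good
      nlinarith [Nat.zero_le ((d.P i).filter fun z => z ∈ Y).card]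
    · intro u hu
      exact hPH i hi u (Run.mem_U.1 (Run.mem_unp.1 hu).1).1 (hEY u (hmem u hu) u (hmem u hu))
    · intro u hu
      obtain ⟨b1, b2, b3, b4⟩ := Run.mem_unp.1 hu
      by_contra hn
      exact b2 (hQ (mem_filter.2 ⟨b1, hEY u (hmem u hu) _ b3, hEY u (hmem u hu) _ b4,
        not_lt.1 hn⟩))
    · intro z hz p hp' q hq' hpY hqY hpz hzq
      by_contra hn
      obtain ⟨a1, a2, a3⟩ := GAPc.mem_H.1 hz
      have b1 : p < z := lt_of_le_of_ne hpz fun e => hn (e ▸ hp')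
      have b2 : z < q := lt_of_le_of_ne hzq fun e => hn (e ▸ hq')
      obtain ⟨c1, c2⟩ := hF2 d i p q z hd hi hp' hq' b1 b2 hn
      have hb := (hd.tree i hi.le).bnd z a1.1 a1.2
      have hzY : z ∈ Y := hY.1.out hpY hqY ⟨hpz, hzq⟩
      exact a3 ⟨hEY z hzY _ (hY.1.out hpY hqY ⟨c1, by omega⟩),
        hEY z hzY _ (hY.1.out hpY hqY ⟨by omega, c2⟩)⟩
    · intro u _
      refine ⟨hoc _, fun z hz e => ⟨(GAPc.mem_H.1 hz).2.1, e⟩, ?_⟩
      exact hG _ Set.inter_subset_right ((hoc _).inter hY.1)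
        fun a ha b hb => ha.1.2.trans hb.1.2.symm
    · intro u _ u' _ z _ _ h1 h2
      exact h1.2.symm.trans h2.2

end Pool.Agent.P.MP_119182_lc.NU
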