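import Pool.Agent.P.MP_119182_lc.NU.LIface

/-! Step LPB. -/

set_option autoImplicit false

namespace Pool.Agent.P.MP_119182_lc.NU

open Finset Lev
open scoped Classical

namespace LPBc

variable {d : Run} {l : Lev} {i : ℕ}

/-- The right part of a class on both sides of the accessed slot. -/
def Str (d : Run) (l : Lev) (i : ℕ) (v : ℤ) : Prop :=
  l.Inc d i v ∧ l.far d i v ∧ l.slot (d.x i) < l.slot v ∧
    ∃ u, l.Inc d i u ∧ l.lab d i u = l.lab d i v ∧ l.slot u < l.slot (d.x i)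

theorem none (hJ : S_J) (hd : d.OK) (hl : l.OK d) (h1 : i < l.t1) (hs : l.slot (d.x i) ∈ l.Sep i)
    {v : ℤ} : ¬ Str d l i v := by
  rintro ⟨a, b, c, u, e, f, g⟩
  have hu := far_of_lab f b
  obtain ⟨k1, k2, k3⟩ := (lab_eq_far hu b).1 f
  have k := (cnt_eq_iff _ (g.trans c).le).1 k3
  by_cases s : d.x (l.tau d i v) < v
  · obtain ⟨z, z1, z2⟩ := (hJ d l i v hd hl h1.le a b).2.1 s _ hs c
    exact k z z1 (by omega)
  · obtain ⟨z, z1, z2⟩ := (hJ d l i u hd hl h1.le e hu).2.2 (mt k1.1 s) _ hs g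
    exact k z (k2 ▸ z1) (by omega)

theorem one (hB : S_BTW) (hd : d.OK) (hl : l.OK d) (h0 : l.t0 ≤ i) (h1 : i < l.t1) {v w : ℤ}
    (hv : Str d l i v) (hw : Str d l i w) (iv : l.Inc d (i + 1) v) (iw : l.Inc d (i + 1) w) :
    l.lab d (i + 1) v = l.lab d (i + 1) w := by
  have key : ∀ {v w u u' : ℤ}, l.Inc d i v → l.far d i v → l.slot (d.x i) < l.slot v →
      l.Inc d i u → l.lab d i u = l.lab d i v → l.Inc d i u' → l.lab d i u' = l.lab d i w →
      l.slot u' < l.slot (d.x i) → u ≤ u' → l.lab d i v = l.lab d i w := by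
    intro v w u u' a b c e f e' f' g' h
    rw [← f', ← f]
    exact (hB d l i u v u' hd hl h1.le e a e' (far_of_lab f b) f h
      (hl.slotm.reflect_lt (g'.trans c)).le).symm
  obtain ⟨a, b, c, u, e, f, g⟩ := hv
  obtain ⟨a', b', c', u', e', f', g'⟩ := hw
  have q : l.lab d i v = l.lab d i w := (le_total u u').elim (key a b c e f e' f' g')
    fun h => (key a' b' c' e' f' e f g h).symm
  obtain ⟨k1, k2, k3⟩ := (lab_eq_far b b').1 q
  rw [lab_eq_far ((far_succ iv).2 b) ((far_succ iw).2 b'), tau_succ iv, tau_succ iw,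
    Acc_succ h0 (hl.omm (tau_le _ _))]
  exact ⟨k1, k2, by simp [filter_insert, c, c', card_insert_eq_ite, k3]⟩

end LPBc

theorem p_LPB (hJ : S_J) (hBTW : S_BTW) :
    S_LPB := by
  intro d l i hd hl h0 h1
  have sub : (l.XX d i).image (l.lab d (i + 1)) ⊆
      (l.Sep i \ l.Sep (i + 1)).image (fun s => (0, 0, s)) ∪
      (if l.om (i + 1) = l.om i then ∅ else
        (({1, 2} : Finset ℕ) ×ˢ range ((l.Acc d (l.om i) (i + 1)).card + 1)).image
          fun p => (p.1, l.om i, (p.2 : ℤ))) ∪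
      ((l.XX d i).filter (LPBc.Str d l i)).image (l.lab d (i + 1)) := by
    refine image_subset_iff.2 fun v hv => ?_
    obtain ⟨a, b⟩ := mem_filter.1 hv
    obtain ⟨-, a1, a2⟩ := mem_filter.1 a
    simp only [mem_union]
    rcases b with b | b | b
    · rw [lab_plain fun h => h.2.2 (by rw [tau_succ a1, tau_of_not b.1]; exact b.2)]
      exact .inl (.inl (mem_image_of_mem _ (mem_sdiff.2 ⟨b.2, a1.2.2.1⟩)))
    · rw [if_neg fun e => a2 ⟨b.1, b.2.trans e.symm⟩, lab_far b.1, b.2]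
      refine .inl (.inr (mem_image.2
        ⟨(if d.x (l.tau d (i + 1) v) < v then 1 else 2, _), mem_product.2
        ⟨?_, mem_range.2 (Nat.lt_succ_of_le (card_filter_le _ _))⟩, rfl⟩))
      split_ifs <;> simp
    · exact .inr (mem_image_of_mem _ (mem_filter.2 ⟨hv, b⟩))
  refine (card_le_card sub).trans ((card_union_le _ _).trans (add_le_add
    ((card_union_le _ _).trans (add_le_add card_image_le ?_)) ?_))
  · split_ifs
    · simp
    · exact card_image_le.trans (by simp)
  · split_ifs with hs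
    · rw [filter_false_of_mem fun v _ => LPBc.none hJ hd hl h1 hs]
      simp
    · refine card_le_one.2 fun p hp q hq => ?_
      obtain ⟨v, hv, rfl⟩ := mem_image.1 hp
      obtain ⟨w, hw, rfl⟩ := mem_image.1 hq
      have inc : ∀ v ∈ l.XX d i, l.Inc d (i + 1) v := fun v h =>
        (mem_filter.1 (mem_filter.1 h).1).2.1
      exact LPBc.one hBTW hd hl h0 h1 (mem_filter.1 hv).2 (mem_filter.1 hw).2
        (inc _ (mem_filter.1 hv).1) (inc _ (mem_filter.1 hw).1)

end Pool.Agent.P.MP_119182_lc.NU
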