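import Pool.Agent.P.MP_119182_lc.NU.SIface

/-! Step POT. -/

set_option autoImplicit false

namespace Pool.Agent.P.MP_119182_lc.NU

open Finset
open scoped Classical

namespace POTc

theorem card_le_Psi {α : Type} (c : ℕ) (D S : Finset ℤ) (f : ℤ → α) (hS : S ⊆ D)
    (h : ∀ a, (S.filter fun v => f v = a).card ≤ c) : S.card ≤ Psi c D f := by
  unfold Psi
  rw [card_eq_sum_card_fiberwise (f := f) (s := S) (t := D.image f)
    (fun v hv => mem_coe.2 (mem_image_of_mem f (hS (mem_coe.1 hv))))]
  refine sum_le_sum fun a _ => le_min (h a) ?_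
  exact card_le_card (filter_subset_filter _ hS)

theorem exists_Psi {α : Type} (c : ℕ) (D : Finset ℤ) (f : ℤ → α) :
    ∃ S ⊆ D, (∀ a, (S.filter fun v => f v = a).card ≤ c) ∧ Psi c D f ≤ S.card := by
  have hex : ∀ a : α, ∃ T ⊆ D.filter fun v => f v = a,
      T.card = min c (D.filter fun v => f v = a).card :=
    fun a => exists_subset_card_eq (min_le_right _ _)
  choose T hT hc using hex
  have hfT : ∀ a, ∀ v ∈ T a, v ∈ D ∧ f v = a := fun a v hv => mem_filter.1 (hT a hv)
  refine ⟨D.filter fun v => v ∈ T (f v), filter_subset _ _, ?_, ?_⟩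
  · intro a
    refine le_trans (card_le_card (t := T a) ?_) ((hc a).le.trans (min_le_left _ _))
    intro v hv
    obtain ⟨h1, h2⟩ := mem_filter.1 hv
    rw [← h2]
    exact (mem_filter.1 h1).2
  · unfold Psi
    rw [card_eq_sum_card_fiberwise (f := f) (s := D.filter fun v => v ∈ T (f v))
      (t := D.image f)
      (fun v hv => mem_coe.2 (mem_image_of_mem f (mem_filter.1 (mem_coe.1 hv)).1))]
    refine sum_le_sum fun a _ => ?_
    rw [← hc a]
    refine card_le_card fun v hv => ?_
    obtain ⟨h1, h2⟩ := hfT a v hv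
    exact mem_filter.2 ⟨mem_filter.2 ⟨h1, by rw [h2]; exact hv⟩, h2⟩

end POTc

theorem p_POT :
    S_POT := by
  intro α c k D D' X LD f f' hk hD hf hLD hc
  obtain ⟨S, hS, hS1, hS2⟩ := POTc.exists_Psi c D' f'
  have h1 : (S.filter fun v => v ∈ X).card ≤ c * k := by
    refine le_trans (card_le_mul_card_image (f := f') (S.filter fun v => v ∈ X) c ?_) ?_
    · intro a _
      exact le_trans (card_le_card (filter_subset_filter _ (filter_subset _ _))) (hS1 a)
    · refine Nat.mul_le_mul_left _ (le_trans (card_le_card ?_) hk)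
      exact image_subset_image (filter_subset_filter _ hS)
  have hdis : Disjoint (S.filter fun v => ¬ v ∈ X) LD := by
    rw [disjoint_left]
    intro v hv
    obtain ⟨a, b⟩ := mem_filter.1 hv
    exact (hD v (hS a) b).2
  have h2 : ((S.filter fun v => ¬ v ∈ X) ∪ LD).card ≤ Psi c D f := by
    apply POTc.card_le_Psi
    · intro v hv
      rcases mem_union.1 hv with hv | hv
      · obtain ⟨a, b⟩ := mem_filter.1 hv
        exact (hD v (hS a) b).1
      · exact hLD hv
    · intro a
      by_cases ha : ∃ w ∈ LD, f w = a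
      · obtain ⟨w, hw, rfl⟩ := ha
        refine le_trans (card_le_card ?_) (hc w hw)
        intro v hv
        obtain ⟨hv1, hv2⟩ := mem_filter.1 hv
        refine mem_filter.2 ⟨?_, hv2⟩
        rcases mem_union.1 hv1 with hv | hv
        · obtain ⟨a, b⟩ := mem_filter.1 hv
          exact (hD v (hS a) b).1
        · exact hLD hv
      · rcases (((S.filter fun v => ¬ v ∈ X) ∪ LD).filter fun v => f v = a).eq_empty_or_nonempty
          with he | ⟨w, hw⟩
        · rw [he]; simp
        · have key : ∀ v ∈ ((S.filter fun v => ¬ v ∈ X) ∪ LD).filter fun v => f v = a,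
              v ∈ S ∧ v ∉ X ∧ f v = a := by
            intro v hv
            obtain ⟨hv1, hv2⟩ := mem_filter.1 hv
            rcases mem_union.1 hv1 with hv | hv
            · obtain ⟨a, b⟩ := mem_filter.1 hv
              exact ⟨a, b, hv2⟩
            · exact absurd ⟨v, hv, hv2⟩ ha
          refine le_trans (card_le_card ?_) (hS1 (f' w))
          intro v hv
          obtain ⟨v1, v2, v3⟩ := key v hv
          obtain ⟨w1, w2, w3⟩ := key w hw
          exact mem_filter.2 ⟨v1, hf v (hS v1) w (hS w1) v2 w2 (v3.trans w3.symm)⟩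
  rw [card_union_of_disjoint hdis] at h2
  have h3 := card_filter_add_card_filter_not (s := S) (fun v => v ∈ X)
  omega

end Pool.Agent.P.MP_119182_lc.NU
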