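import Pool.Agent.P.MP_119182_lc.NU.CIface

/-! Step TYPE. -/

set_option autoImplicit false

namespace Pool.Agent.P.MP_119182_lc.NU

open Finset
open scoped Classical

namespace TYPEc

variable {C : Cx} {i : ℕ} {u : ℤ}

theorem ev (hEVR : S_EVR) (hC : C.OK) (hi : i < C.d.m) (hu : u ∈ C.d.U i) {l : Lev}
    (hl : l.OK C.d) (he : l.Ev C.d i (C.d.lp (i + 1) u)) :
    l.slot (C.d.x i) < l.slot (C.d.lp (i + 1) u) ∧ ¬ l.cross i (C.d.x i) (C.d.lp (i + 1) u) ∧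
      l.cross i (C.d.lp (i + 1) u) (C.d.rp i u) ∧ l.slot (C.d.lp (i + 1) u) ∉ l.Sep i := by
  have a := Run.link hC.run hi hu
  have b := hEVR C.d l i _ hC.run hl he (Run.mem_P.1 a.1).1
  rw [a.2.2.2.2.1] at b
  exact ⟨b.2.2.2.1, b.2.2.2.2.1, b.2.2.2.2.2.2.1, he.2.2.2.2⟩

theorem ae {r t : ℕ} {p : ℤ} (h1 : it t (C.d.x i) < it t p)
    (h2 : ¬ ∃ s ∈ Sep C.d.x r (it t) i, it t (C.d.x i) < s ∧ s < it t p)
    (h3 : it t p ∉ Sep C.d.x r (it t) i) : C.AE r t i p := by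
  refine ⟨h1, fun s hs hr k => ?_⟩
  have : s ≠ i := fun e => by rw [e] at k; exact lt_irrefl _ k.1
  have m : it t (C.d.x s) ∈ Sep C.d.x r (it t) i := mem_Sep.2 ⟨s, by omega, hr, rfl⟩
  rcases k.2.eq_or_lt with e | e
  · exact h3 (e ▸ m)
  · exact h2 ⟨_, m, k.1, e⟩

theorem evB (hEVR : S_EVR) (hC : C.OK) (hi : i < C.d.m) (hu : u ∈ C.d.U i) {g t : ℕ}
    (h1 : g ≤ t) (h2 : t ≤ C.T) (he : (C.levB g t).Ev C.d i (C.d.lp (i + 1) u))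
    (hw : C.A g i (C.d.rp i u)) :
    ¬ it t (C.d.x i) < it t (C.d.lp (i + 1) u) ∧ it t (C.d.x i) < it t (C.d.rp i u) := by
  obtain ⟨a1, a2, a3, -⟩ := ev hEVR hC hi hu (levB_OK h1 h2) he
  have a := Run.link hC.run hi hu
  have e : it t (C.d.x i) = it t (C.d.lp (i + 1) u) := by
    by_contra k; exact a2 (Or.inl k)
  refine ⟨by omega, ?_⟩
  rcases a3 with k | ⟨S, k1, k2, k3⟩
  · have : it t (C.d.lp (i + 1) u) ≤ it t (C.d.rp i u) := it_mono t (by omega)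
    have k' : it t (C.d.lp (i + 1) u) ≠ it t (C.d.rp i u) := k
    omega
  · obtain ⟨s, s1, s2, rfl⟩ := mem_Sep.1 k1
    exact absurd ⟨lt_trans a1 k2, le_of_lt k3⟩ (hw.2 s s1.le s2)

theorem evC (hEVR : S_EVR) (hC : C.OK) (hi : i < C.d.m) (hu : u ∈ C.d.U i) {g t : ℕ}
    (h1 : g ≤ t) (h2 : t ≤ C.T) (he : (C.levC g t).Ev C.d i (C.d.lp (i + 1) u)) :
    C.A t i (C.d.lp (i + 1) u) ∧ ¬ C.A t i (C.d.rp i u) := by
  obtain ⟨a1, a2, a3, a4⟩ := ev hEVR hC hi hu (levC_OK h1 h2) he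
  refine ⟨ae a1 (fun k => a2 (Or.inr k)) a4, fun hw => ?_⟩
  rcases a3 with k | ⟨S, k1, k2, k3⟩
  · exact k rfl
  · obtain ⟨s, s1, s2, rfl⟩ := mem_Sep.1 k1
    exact hw.2 s s1.le s2 ⟨lt_trans a1 k2, le_of_lt k3⟩

theorem part {f : ℤ → ℤ} {D r l : ℕ} {p w : ℤ} (h : C.Part f D r i p w)
    (h1 : f (C.d.x i) / 2 ^ l = f p / 2 ^ l)
    (h2 : f p / 2 ^ l ≠ f w / 2 ^ l ∨ ∃ s ∈ Sep C.d.x r f i, f p < s ∧ s < f w) : False := by
  obtain ⟨e, -, e1, e2⟩ := h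
  rcases h2 with k | ⟨S, k1, k2, k3⟩
  · rcases le_total l e with q | q
    · obtain ⟨z, rfl⟩ := Nat.exists_eq_add_of_le q
      refine e2 i le_rfl (rct_refl _ _) ?_
      rw [← div_pow_div, ← div_pow_div, h1]
    · obtain ⟨z, rfl⟩ := Nat.exists_eq_add_of_le q
      exact k (by rw [← div_pow_div, ← div_pow_div, e1])
  · obtain ⟨s, s1, s2, rfl⟩ := mem_Sep.1 k1
    have a : f p / 2 ^ e ≤ f (C.d.x s) / 2 ^ e := div_pow_mono e k2.le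
    have b : f (C.d.x s) / 2 ^ e ≤ f w / 2 ^ e := div_pow_mono e k3.le
    exact e2 s s1.le s2 (by omega)

theorem evG (hEVR : S_EVR) (hC : C.OK) (hi : i < C.d.m) (hu : u ∈ C.d.U i) {k : ℕ}
    (h2 : k ≤ C.T) (he : C.chG k i (C.d.lp (i + 1) u)) :
    C.A k i (C.d.lp (i + 1) u) ∧ it (k + 1) (C.d.x i) = it (k + 1) (C.d.lp (i + 1) u) ∧
      ∀ D, ¬ C.Part (it k) D k i (C.d.lp (i + 1) u) (C.d.rp i u) := by
  obtain ⟨l, hl, he⟩ := he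
  obtain ⟨a1, a2, a3, a4⟩ := ev hEVR hC hi hu (levG_OK h2 l) he
  have e : it k (C.d.x i) / 2 ^ l = it k (C.d.lp (i + 1) u) / 2 ^ l := by
    by_contra k; exact a2 (Or.inl k)
  refine ⟨ae a1 (fun k => a2 (Or.inr k)) a4, ?_, fun D h => part h e a3⟩
  obtain ⟨z, hz⟩ := Nat.exists_eq_add_of_le hl.le
  rw [it_it (Nat.le_succ k), it_it (Nat.le_succ k), hz, ← div_pow_div, ← div_pow_div, e]

theorem evW (hEVR : S_EVR) (hC : C.OK) (hi : i < C.d.m) (hu : u ∈ C.d.U i) {h t : ℕ}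
    (h2 : t ≤ C.T) (he : C.chW h t i (C.d.lp (i + 1) u)) :
    C.E t i (C.d.lp (i + 1) u) ∧ ¬ C.frR h t i (C.d.lp (i + 1) u) ∧
      ∀ D, ¬ C.Part (C.ix t (win C.d.x t i)) D (t - 1) i (C.d.lp (i + 1) u) (C.d.rp i u) := by
  obtain ⟨⟨l, -, he⟩, hf⟩ := he
  obtain ⟨a1, a2, a3, a4⟩ := ev hEVR hC hi hu (levW_OK hC.idx h2 ⟨i, hi, rfl⟩ l) he
  have a := Run.link hC.run hi hu
  have xp := (Run.mem_P.1 a.1).1
  generalize C.d.lp (i + 1) u = p at *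
  have e : C.ix t (win C.d.x t i) (C.d.x i) / 2 ^ l = C.ix t (win C.d.x t i) p / 2 ^ l := by
    by_contra k; exact a2 (Or.inl k)
  have a1' : C.ix t (win C.d.x t i) (C.d.x i) < C.ix t (win C.d.x t i) p := a1
  refine ⟨⟨?_, fun s hs hr k => ?_⟩, fun k => hf (Or.inl k), fun D h => part h e a3⟩
  · refine lt_of_le_of_ne (it_mono t xp.le) fun k => ?_
    have := hC.idx.itm t (win C.d.x t i) _ _ k
    omega
  · have : s ≠ i := fun e => by rw [e] at k; exact lt_irrefl _ k.1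
    have m : C.ix t (win C.d.x t i) (C.d.x s) ∈ Sep C.d.x (t - 1) (C.ix t (win C.d.x t i)) i :=
      mem_Sep.2 ⟨s, by omega, hr, rfl⟩
    have b1 : C.ix t (win C.d.x t i) (C.d.x i) < C.ix t (win C.d.x t i) (C.d.x s) :=
      lt_of_le_of_ne (hC.idx.mono _ _ (lt_of_it_lt k.1).le) fun q =>
        k.1.ne' (hC.idx.own t _ i _ hi.le le_rfl (Nat.le_succ _) q.symm)
    have b2 : C.ix t (win C.d.x t i) (C.d.x s) ≤ C.ix t (win C.d.x t i) p := by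
      rcases k.2.eq_or_lt with q | q
      · exact (hC.idx.itm _ _ _ _ q).le
      · exact hC.idx.mono _ _ (lt_of_it_lt q).le
    rcases b2.eq_or_lt with q | q
    · rw [q] at m; exact a4 m
    · exact a2 (Or.inr ⟨_, m, b1, q⟩)

theorem free {h t r k : ℕ} {p : ℤ} (a : C.AE r k i p) (h0 : t ≤ r) (h1 : t ≤ k) (h2 : k ≤ h) :
    C.frR h t i p :=
  ⟨k, h1, h2, a.1, fun s hs hr q => a.2 s hs (hr.mono h0) ⟨q.1, it_le_of h1 q.2⟩⟩

theorem ivt (F : ℕ → Prop) {g : ℕ} (h0 : F g) : ∀ h, g ≤ h → ¬ F h →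
    ∃ k ∈ Ico g h, F k ∧ ¬ F (k + 1) := by
  intro h hh
  induction h, hh using Nat.le_induction with
  | base => exact fun k => absurd h0 k
  | succ n hn ih =>
    intro k
    by_cases q : F n
    · exact ⟨n, mem_Ico.2 ⟨hn, Nat.lt_succ_self n⟩, q, k⟩
    · obtain ⟨z, z1, z2⟩ := ih q
      rw [mem_Ico] at z1
      exact ⟨z, mem_Ico.2 ⟨z1.1, by omega⟩, z2⟩

end TYPEc

theorem p_TYPE (hEVR : S_EVR) :
    S_TYPE := by
  intro C j i Y hC hi hY hA hZ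
  have gh : C.g j ≤ C.g (j + 1) := grp_le_succ _ _
  have hT : C.g (j + 1) ≤ C.T := grp_le _ _
  by_cases hN : ∀ a ∈ Y, C.A (C.g (j + 1)) i a
  · exact Or.inl hN
  right
  push Not at hN
  obtain ⟨a0, m0, n0⟩ := hN
  have zA : ∀ k ∈ Ico (C.g j) (C.g (j + 1)), ∀ a ∈ Y, ∀ b ∈ Y, C.A k i a → C.A k i b := by
    intro k hk a ha b hb q
    rw [mem_Ico] at hk
    rcases hk.1.eq_or_lt with e | e
    · exact e ▸ hA b hb
    · exact (hZ a ha b hb k (mem_Ioc.2 ⟨e, hk.2.le⟩)).2.1.1 q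
  have sx : ∀ k ∈ Ico (C.g j) (C.g (j + 1)), k + 1 ∈ Ioc (C.g j) (C.g (j + 1)) := fun k hk => by
    rw [mem_Ico] at hk; exact mem_Ioc.2 ⟨by omega, by omega⟩
  have nch : ∀ u ∈ C.d.U i, C.d.lp (i + 1) u ∈ Y → C.d.rp i u ∈ Y →
      (∀ k ∈ Ico (C.g j) (C.g (j + 1)), ¬ C.chG k i (C.d.lp (i + 1) u)) →
      (∀ t ∈ Ioc (C.g j) (C.g (j + 1)), ¬ C.chW (C.g (j + 1)) t i (C.d.lp (i + 1) u)) →
      ¬ C.ch j i (C.d.lp (i + 1) u) := by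
    rintro u hu hp hw h1 h2 (⟨t, ht, he⟩ | ⟨t, ht, he⟩ | ⟨k, hk, he⟩ | ⟨t, ht, he⟩)
    · have := TYPEc.evB hEVR hC hi hu (mem_Ioc.1 ht).1.le ((mem_Ioc.1 ht).2.trans hT) he (hA _ hw)
      exact this.1 ((hZ _ hp _ hw t ht).1.2 this.2)
    · have := TYPEc.evC hEVR hC hi hu (mem_Ioc.1 ht).1.le ((mem_Ioc.1 ht).2.trans hT) he
      exact this.2 ((hZ _ hp _ hw t ht).2.1.1 this.1)
    · exact h1 k hk he
    · exact h2 t ht he
  by_cases hG : ∃ k ∈ Ico (C.g j) (C.g (j + 1)),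
      C.A k i a0 ∧ ¬ it (k + 1) (C.d.x i) < it (k + 1) a0
  · obtain ⟨k, hk, g1, g2⟩ := hG
    have e : ∀ a ∈ Y, it (k + 1) a = it (k + 1) (C.d.x i) := fun a ha =>
      le_antisymm (not_lt.1 fun q => g2 ((hZ a ha a0 m0 _ (sx k hk)).1.1 q))
        (it_mono _ (hY.2 a ha).le)
    refine Or.inl ⟨k, hk, ⟨fun a ha => zA k hk a0 m0 a ha g1, i, le_rfl, rct_refl _ _, e⟩,
      fun u hu hp hw hP => nch u hu hp hw (fun k' hk' he => ?_) fun t ht he => ?_⟩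
    · have a := TYPEc.evG hEVR hC hi hu ((mem_Ico.1 hk').2.le.trans hT) he
      have b := (zA k hk a0 m0 _ hp g1).1
      rcases lt_trichotomy k' k with q | q | q
      · exact b.ne (it_congr q a.2.1)
      · subst q; exact a.2.2 _ hP
      · exact a.1.1.ne' (it_congr q (e _ hp))
    · have a := TYPEc.evW hEVR hC hi hu ((mem_Ioc.1 ht).2.trans hT) he
      have q : t ≤ k := not_lt.1 fun q => a.1.1.ne' (it_congr q (e _ hp))
      exact a.2.1 (TYPEc.free (zA k hk a0 m0 _ hp g1) q q (mem_Ico.1 hk).2.le)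
  have nG : ∀ u ∈ C.d.U i, C.d.lp (i + 1) u ∈ Y →
      ∀ k ∈ Ico (C.g j) (C.g (j + 1)), ¬ C.chG k i (C.d.lp (i + 1) u) := by
    intro u hu hp k hk he
    have a := TYPEc.evG hEVR hC hi hu ((mem_Ico.1 hk).2.le.trans hT) he
    exact hG ⟨k, hk, zA k hk _ hp a0 m0 a.1, fun q =>
      ((hZ a0 m0 _ hp _ (sx k hk)).1.1 q).ne a.2.1⟩
  by_cases hW : ((Ioc (C.g j) (C.g (j + 1))).filter fun t => C.E t i a0 ∧ ¬ C.A t i a0).Nonempty
  · obtain ⟨t, t1, t2⟩ := exists_max_image _ id hW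
    obtain ⟨ht, w1, w2⟩ := mem_filter.1 t1
    have r : C.RegW t i Y := fun a ha =>
      ⟨(hZ a0 m0 a ha t ht).2.2.1 w1, fun q => w2 ((hZ a0 m0 a ha t ht).2.1.2 q)⟩
    refine Or.inr ⟨t, ht, r, fun u hu hp hw hP => nch u hu hp hw (nG u hu hp) fun t' ht' he => ?_⟩
    have a := TYPEc.evW hEVR hC hi hu ((mem_Ioc.1 ht').2.trans hT) he
    by_cases q : C.A t' i (C.d.lp (i + 1) u)
    · exact a.2.1 (TYPEc.free q le_rfl le_rfl (mem_Ioc.1 ht').2)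
    have le : t' ≤ t := t2 t' (mem_filter.2 ⟨ht', (hZ a0 m0 _ hp t' ht').2.2.2 a.1,
      fun z => q ((hZ a0 m0 _ hp t' ht').2.1.1 z)⟩)
    rcases le.eq_or_lt with e | e
    · subst e; exact a.2.2 _ hP
    · exact a.2.1 (TYPEc.free (r _ hp).1 (by omega) le (mem_Ioc.1 ht).2)
  have hW' : ∀ t ∈ Ioc (C.g j) (C.g (j + 1)), ∀ a ∈ Y, C.E t i a → C.A t i a := by
    intro t ht a ha q
    by_contra z
    exact hW ⟨t, mem_filter.2 ⟨ht, (hZ a0 m0 a ha t ht).2.2.2 q,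
      fun y => z ((hZ a0 m0 a ha t ht).2.1.1 y)⟩⟩
  obtain ⟨k, hk, g1, g2⟩ := TYPEc.ivt (fun k => C.A k i a0) (hA a0 m0) _ gh n0
  have lt0 : it (k + 1) (C.d.x i) < it (k + 1) a0 := by
    by_contra q; exact hG ⟨k, hk, g1, q⟩
  have wit : ∀ a ∈ Y, ∃ s ≤ i, rct C.d.x k s i ∧
      it (k + 1) (C.d.x i) < it (k + 1) (C.d.x s) ∧ it (k + 1) (C.d.x s) ≤ it (k + 1) a := by
    intro a ha
    by_contra q
    refine g2 ((hZ a0 m0 a ha _ (sx k hk)).2.1.2 (hW' _ (sx k hk) a ha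
      ⟨(hZ a0 m0 a ha _ (sx k hk)).1.1 lt0, fun s hs hr z => q ⟨s, hs, hr, z⟩⟩))
  have up : ∀ a ∈ Y, ∀ s ≤ i, rct C.d.x k s i → it (k + 1) (C.d.x i) < it (k + 1) (C.d.x s) →
      it (k + 1) a ≤ it (k + 1) (C.d.x s) := fun a ha s hs hr q =>
    it_le_of (Nat.le_succ k) (le_of_not_ge fun z =>
      (zA k hk a0 m0 a ha g1).2 s hs hr ⟨it_lt_of (Nat.le_succ k) q, z⟩)
  obtain ⟨s, s1, s2, s3, s4⟩ := wit a0 m0
  refine Or.inl ⟨k, hk, ⟨fun a ha => zA k hk a0 m0 a ha g1, s, s1, s2, fun a ha => ?_⟩,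
    fun u hu hp hw _ => nch u hu hp hw (nG u hu hp) fun t ht he => ?_⟩
  · obtain ⟨s', r1, r2, r3, r4⟩ := wit a ha
    exact le_antisymm (up a ha s s1 s2 s3) (s4.trans ((up a0 m0 s' r1 r2 r3).trans r4))
  · have a := TYPEc.evW hEVR hC hi hu ((mem_Ioc.1 ht).2.trans hT) he
    exact a.2.1 (TYPEc.free (hW' t ht _ hp a.1) le_rfl le_rfl (mem_Ioc.1 ht).2)

end Pool.Agent.P.MP_119182_lc.NU
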